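import Pool.Agent.BLN.Close

/-!
# The local theorem from the list of local facts
-/

set_option autoImplicit false
set_option linter.unusedSectionVars false

namespace Pool.Agent.BLN

open Finset Pool.Agent.IVT Pool.BLE

variable {V : Type} [Fintype V] [DecidableEq V]

/-- An ordinary vertex of the rest of degree three without own neighbours in the rest. -/
structure IsU (G : SimpleGraph V) [DecidableRel G.Adj] (g : V → Bool) (x : V) (l a b : Fin 3 → V)
    (w : V) : Prop where
  rest : w ∈ rest x l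
  deg : G.degree w = 3
  own : ∀ z ∈ BLN.rest x l, G.Adj w z → g z ≠ g w
  na : ∀ i, w ≠ a i
  nb : ∀ i, w ≠ b i

/-- An ordinary vertex of the rest which is a pendant or has an own neighbour in the rest. -/
structure IsK (G : SimpleGraph V) [DecidableRel G.Adj] (g : V → Bool) (x : V) (l a b : Fin 3 → V)
    (w : V) : Prop where
  rest : w ∈ rest x l
  k : G.degree w = 1 ∨ ∃ z ∈ BLN.rest x l, G.Adj w z ∧ g z = g w
  na : ∀ i, w ≠ a i
  nb : ∀ i, w ≠ b i

/-- The local facts, for all frames. -/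
structure Loc (G : SimpleGraph V) [DecidableRel G.Adj] : Prop where
  /-- a special next to an ordinary `K` vertex or pendant is a dual centre -/
  e3 : ∀ (g : V → Bool) (x : V) (l a b : Fin 3 → V), Fr G g x l a b → ∀ i w, a i ≠ x →
    G.Adj (a i) w → IsK G g x l a b w → Cen G (du g x l) (a i)
  /-- a `U` vertex next to a special is a centre -/
  mp : ∀ (g : V → Bool) (x : V) (l a b : Fin 3 → V), Fr G g x l a b → ∀ i w, a i ≠ x →
    G.Adj (a i) w → IsU G g x l a b w → Cen G g w
  /-- a special `a i` next to a `U` vertex and to `b j`: `b j` is a centre -/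
  ub : ∀ (g : V → Bool) (x : V) (l a b : Fin 3 → V), Fr G g x l a b → ∀ i j w, a i ≠ x → a j ≠ x →
    i ≠ j → G.Adj (a i) w → IsU G g x l a b w → G.Adj (a i) (b j) → Cen G g (b j)
  /-- a special `a i` next to `b j` and `b k`: `b j` is a centre -/
  bb : ∀ (g : V → Bool) (x : V) (l a b : Fin 3 → V), Fr G g x l a b → ∀ i j k, a i ≠ x → a j ≠ x →
    a k ≠ x → i ≠ j → i ≠ k → j ≠ k → G.Adj (a i) (b j) → G.Adj (a i) (b k) → Cen G g (b j)
  r1 : ∀ (g : V → Bool) (x : V) (l a b : Fin 3 → V), Fr G g x l a b → ∀ i j, a i ≠ x → a j ≠ x →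
    i ≠ j → Cen G (du g x l) (a i) → Cen G g (b j) → False
  o : ∀ (g : V → Bool) (x : V) (l a b : Fin 3 → V), Fr G g x l a b → ∀ i, a i ≠ x →
    ¬ G.Adj (a i) (b i)

variable {G : SimpleGraph V} [DecidableRel G.Adj] {g : V → Bool} {x : V} {l a b : Fin 3 → V}

theorem IsU.dual {w : V} (h : IsU G g x l a b w) : IsU G (du g x l) x l b a w := by
  refine ⟨h.rest, h.deg, fun z hz hadj => ?_, h.nb, h.na⟩
  rw [du_rest hz, du_rest h.rest]
  intro h1
  exact h.own z hz hadj (by simpa using h1)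

theorem IsK.dual {w : V} (h : IsK G g x l a b w) : IsK G (du g x l) x l b a w := by
  refine ⟨h.rest, ?_, h.nb, h.na⟩
  rcases h.k with h1 | ⟨z, hz, hadj, h1⟩
  · exact Or.inl h1
  · exact Or.inr ⟨z, hz, hadj, by rw [du_rest hz, du_rest h.rest, h1]⟩

/-- An ordinary vertex of the rest is `U` or `K`. -/
theorem isU_or_isK (hG : Deg13 G) {w : V} (hw : w ∈ rest x l) (hna : ∀ i, w ≠ a i)
    (hnb : ∀ i, w ≠ b i) : IsU G g x l a b w ∨ IsK G g x l a b w := by
  by_cases h1 : G.degree w = 1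
  · exact Or.inr ⟨hw, Or.inl h1, hna, hnb⟩
  · by_cases h2 : ∃ z ∈ rest x l, G.Adj w z ∧ g z = g w
    · exact Or.inr ⟨hw, Or.inr h2, hna, hnb⟩
    · push Not at h2
      refine Or.inl ⟨hw, ?_, h2, hna, hnb⟩
      rcases hG w with h3 | h3
      · exact absurd h3 h1
      · exact h3

/-- The neighbours of `a i` in the rest. -/
theorem Fr.nbr_a (hG : Deg13 G) (h : Fr G g x l a b) {i : Fin 3} (hi : a i ≠ x) {w : V}
    (hw : G.Adj (a i) w) (hne : w ≠ l i) :
    IsU G g x l a b w ∨ IsK G g x l a b w ∨ ∃ j, b j ≠ x ∧ w = b j := by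
  have gw : g w = false := by
    cases h1 : g w
    · rfl
    · exact absurd (h.a_true i hi hw h1) hne
  have hwr : w ∈ rest x l := by
    rcases h.star.cases w with rfl | ⟨j, rfl⟩ | h1
    · exact absurd hw (h.x_ne_nbr_a i hi)
    · rw [h.gl] at gw
      exact absurd gw (by decide)
    · exact h1
  by_cases hb : ∃ j, w = b j
  · obtain ⟨j, hj⟩ := hb
    exact Or.inr (Or.inr ⟨j, hj ▸ (mem_rest.1 hwr).1, hj⟩)
  · push Not at hb
    have ha : ∀ j, w ≠ a j := by
      intro j hj
      have h1 : a j ≠ x := hj ▸ (mem_rest.1 hwr).1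
      rw [hj, h.star.ca j h1] at gw
      exact absurd gw (by decide)
    rcases isU_or_isK (g := g) hG hwr ha hb with h1 | h1
    · exact Or.inl h1
    · exact Or.inr (Or.inl h1)

/-- A special `a i` next to a `U` vertex: `b i` is a centre. -/
theorem Loc.r2 (hG : Deg13 G) (loc : Loc G) (h : Fr G g x l a b) {i : Fin 3} (hi : a i ≠ x) {u : V}
    (hu : G.Adj (a i) u) (hU : IsU G g x l a b u) : Cen G g (b i) := by
  have hbi : b i ≠ x := fun h' => hi ((h.star.a_eq_iff i).2 h')
  have hcu : Cen G g u := loc.mp g x l a b h i u hi hu hU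
  obtain ⟨l', a', b', hf⟩ := hcu
  have hcu : Cen G g u := ⟨_, _, _, hf⟩
  obtain ⟨p, hp⟩ := (hf.star.nx _).1 hu.symm
  have hux : u ≠ x := (mem_rest.1 hU.rest).1
  have hp' : a' p ≠ u := by
    intro h'
    have h1 := hf.star.deg_pl p h'
    rw [← hp, h.star.deg_a i hi] at h1
    omega
  -- the special `l i`
  have hli : l i = a' p := by
    refine hf.l_true p hp' ?_ (h.gl i)
    rw [← hp]
    exact (h.nb_l i hi).ay.symm
  -- `x` is `U` at the frame of `u`
  have hxl : x ≠ u := Ne.symm hux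
  have hlu : ∀ q, x ≠ l' q := by
    intro q h'
    have := hf.gl q
    rw [← h', h.gx] at this
    exact absurd this (by decide)
  have hxU : IsU G g u l' a' b' x := by
    refine ⟨mem_rest.2 ⟨hxl, hlu⟩, h.star.deg_x, fun z _ hz => ?_, fun q h' => ?_, fun q h' => ?_⟩
    · rw [h.nbr hz, h.gx]
      decide
    · have h1 : a' q ≠ u := h' ▸ hxl
      have h2 := hf.star.ca q h1
      rw [← h', h.gx] at h2
      exact absurd h2 (by decide)
    · have h1 : b' q ≠ u := h' ▸ hxl
      have h2 : a' q ≠ u := fun h3 => h1 ((hf.star.a_eq_iff q).1 h3)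
      have h3 := (hf.nb_l q h2).az
      rw [← h'] at h3
      obtain ⟨j, hj⟩ := (h.star.nx _).1 h3.symm
      have h4 : G.Adj u (l j) := by
        rw [← hj]
        exact (hf.star.nx _).2 ⟨q, rfl⟩
      exact hU.nb j (h.l_false j h4.symm hcu.gfalse hux).1
  have e1 : G.Adj (a' p) x := hli ▸ (h.nb_l i hi).ax
  have e2 : G.Adj (a' p) (b i) := hli ▸ (h.nb_l i hi).az
  have hne : b i ≠ l' p := by
    rw [← hp]
    exact (h.star.a_ne_b' i hi i).symm
  rcases hf.nbr_a hG hp' e2 hne with h1 | h1 | ⟨q, h1, h2⟩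
  · exact loc.mp g u l' a' b' hf p (b i) hp' e2 h1
  · exfalso
    rcases h1.k with h2 | ⟨z, -, hz, h2⟩
    · have := h.star.deg_b i hbi
      omega
    · rw [h.b_all i hbi hz, h.star.cb i hbi] at h2
      exact absurd h2 (by decide)
  · have hq : a' q ≠ u := fun h3 => h1 ((hf.star.a_eq_iff q).1 h3)
    have hpq : p ≠ q := by
      rintro rfl
      have h3 := (hf.nb_l p hp').az
      rw [← h2, ← hp] at h3
      exact loc.o g x l a b h i hi h3
    rw [h2] at e2 ⊢
    exact loc.ub g u l' a' b' hf p q x hp' hq hpq e1 hxU e2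

/-- The star condition from the facts about the single indices. -/
theorem Fr.starP_of (hG : Deg13 G) (loc : Loc G) (h : Fr G g x l a b)
    (hB : ∀ i, a i ≠ x → Cen G g (b i))
    (hK : ∀ i w, a i ≠ x → G.Adj (a i) w → ¬ IsK G g x l a b w) : StarP G g x := by
  intro w z hw hz
  obtain ⟨i, rfl⟩ := (h.star.nx w).1 hw
  refine ⟨fun gz => ?_, fun gz z' hz' hne => ?_⟩
  · by_cases hzx : z = x
    · subst hzx
      exact ⟨_, _, _, h⟩
    · obtain ⟨h1, h2⟩ := h.l_false i hz gz hzx
      rw [h1]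
      exact hB i h2
  · have hi : a i ≠ x := by
      intro h2
      have h3 := h.star.deg_pl i h2
      have h4 := (pend_adj G h3 hw.symm z).1 hz
      rw [h4, h.gx] at gz
      exact absurd gz (by decide)
    have h2 : z = a i := h.l_true i hi hz gz
    subst h2
    rcases h.nbr_a hG hi hz' hne with h1 | h1 | ⟨j, h1, h2⟩
    · exact loc.mp g x l a b h i z' hi hz' h1
    · exact absurd h1 (hK i z' hi hz')
    · have hj : a j ≠ x := fun h3 => h1 ((h.star.a_eq_iff j).1 h3)
      rw [h2]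
      exact hB j hj

/-- If no `a i` is a dual centre then the star condition holds. -/
theorem Fr.starP_of_noA (hG : Deg13 G) (loc : Loc G) (h : Fr G g x l a b)
    (hA : ∀ i, a i ≠ x → ¬ Cen G (du g x l) (a i)) : StarP G g x := by
  refine h.starP_of hG loc (fun i hi => ?_) (fun i w hi hw hk => hA i hi (loc.e3 g x l a b h i w hi hw hk))
  have hbi : b i ≠ x := fun h' => hi ((h.star.a_eq_iff i).2 h')
  -- the two neighbours of `b i`
  obtain ⟨y, z, nb⟩ := exists_nb3 G (h.star.deg_b i hbi) (h.nb_l i hi).az.symm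
  have hd := h.dual
  -- a `K` neighbour gives the claim
  have key : ∀ w, G.Adj (b i) w → w ≠ l i → Cen G g (b i) ∨ ∃ j, a j ≠ x ∧ w = a j := by
    intro w hw hne
    rcases hd.nbr_a hG hbi hw hne with h1 | h1 | h1
    · exact absurd (loc.r2 hG hd hbi hw h1) (hA i hi)
    · left
      have h2 := loc.e3 _ x l b a hd i w hbi hw h1
      rwa [h.du_du] at h2
    · exact Or.inr h1
  rcases key y nb.ay nb.xy.symm with h1 | ⟨j, hj, h1⟩
  · exact h1
  rcases key z nb.az nb.xz.symm with h2 | ⟨k, hk, h2⟩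
  · exact h2
  exfalso
  subst h1 h2
  have hij : i ≠ j := by
    rintro rfl
    exact loc.o g x l a b h i hi nb.ay.symm
  have hik : i ≠ k := by
    rintro rfl
    exact loc.o g x l a b h i hi nb.az.symm
  have hjk : j ≠ k := by
    rintro rfl
    exact nb.yz rfl
  have hbj : b j ≠ x := fun h' => hj ((h.star.a_eq_iff j).2 h')
  have hbk : b k ≠ x := fun h' => hk ((h.star.a_eq_iff k).2 h')
  exact hA j hj (loc.bb _ x l b a hd i j k hbi hbj hbk hij hik hjk nb.ay nb.az)

/-- **The local theorem.** -/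
theorem Loc.lt (hcls : Cls13 G) (loc : Loc G) (h : Fr G g x l a b) :
    StarP G g x ∨ StarP G (du g x l) x := by
  have hG := hcls.deg
  by_cases hA : ∀ i, a i ≠ x → ¬ Cen G (du g x l) (a i)
  · exact Or.inl (h.starP_of_noA hG loc hA)
  by_cases hB : ∀ i, a i ≠ x → ¬ Cen G g (b i)
  · right
    refine h.dual.starP_of_noA hG loc (fun i hi => ?_)
    rw [h.du_du]
    exact hB i fun h' => hi ((h.star.a_eq_iff i).1 h')
  exfalso
  push Not at hA hB
  obtain ⟨i, hi, hAi⟩ := hA
  obtain ⟨i', hi', hBi⟩ := hB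
  have hii : i' = i := by
    by_contra hne
    exact loc.r1 g x l a b h i i' hi hi' (Ne.symm hne) hAi hBi
  subst hii
  -- another index which is not a pendant
  obtain ⟨j, hij, hj⟩ : ∃ j, i' ≠ j ∧ a j ≠ x := by
    obtain ⟨j, hij⟩ := exists_other i'
    obtain ⟨k, hik, hjk⟩ := exists_third hij
    by_cases hj : a j = x
    · refine ⟨k, hik, fun hk => ?_⟩
      have h1 := h.star.deg_pl j hj
      have h2 := h.star.deg_pl k hk
      have h3 := hcls.pend ((h.star.nx _).2 ⟨j, rfl⟩) ((h.star.nx _).2 ⟨k, rfl⟩) h1 h2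
      exact hjk (h.star.l_inj h3)
    · exact ⟨j, hij, hj⟩
  have nA : ¬ Cen G (du g x l) (a j) := fun h1 => loc.r1 g x l a b h j i' hj hi (Ne.symm hij) h1 hBi
  have nB : ∀ k, i' ≠ k → a k ≠ x → ¬ Cen G g (b k) := fun k hk hkx h1 =>
    loc.r1 g x l a b h i' k hi hkx hk hAi h1
  obtain ⟨y, z, nb⟩ := exists_nb3 G (h.star.deg_a j hj) (h.nb_l j hj).ay.symm
  have key : ∀ w, G.Adj (a j) w → w ≠ l j → ∃ k, a k ≠ x ∧ w = b k := by
    intro w hw hne
    rcases h.nbr_a hG hj hw hne with h1 | h1 | ⟨k, h1, h2⟩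
    · exact absurd (loc.r2 hG h hj hw h1) (nB j hij hj)
    · exact absurd (loc.e3 g x l a b h j w hj hw h1) nA
    · exact ⟨k, fun h3 => h1 ((h.star.a_eq_iff k).1 h3), h2⟩
  obtain ⟨p, hp, h1⟩ := key y nb.ay nb.xy.symm
  obtain ⟨q, hq, h2⟩ := key z nb.az nb.xz.symm
  subst h1 h2
  have hjp : j ≠ p := by
    rintro rfl
    exact loc.o g x l a b h j hj nb.ay
  have hjq : j ≠ q := by
    rintro rfl
    exact loc.o g x l a b h j hj nb.az
  have hpq : p ≠ q := by
    rintro rfl
    exact nb.yz rfl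
  by_cases hip : i' = p
  · subst hip
    exact nB q hpq hq (loc.bb g x l a b h j q i' hj hq hp hjq hjp (Ne.symm hpq) nb.az nb.ay)
  · exact nB p hip hp (loc.bb g x l a b h j p q hj hp hq hjp hjq hpq nb.ay nb.az)

/-- The end game from the local facts. -/
theorem Loc.isPet (hcls : Cls13 G) (hB : NoBal3 G) (loc : Loc G) : IsPet G :=
  closure hcls hB fun _ _ _ _ _ h => loc.lt hcls h

/-- The end game from the local facts, which may use that `G` is not the Petersen graph. -/
theorem isPet_of_loc (hcls : Cls13 G) (hB : NoBal3 G) (hloc : ¬ IsPet G → Loc G) : IsPet G := by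
  by_contra h
  exact h ((hloc h).isPet hcls hB)

end Pool.Agent.BLN
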