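import Pool.Agent.BLN.LabTools

set_option autoImplicit false
set_option linter.unusedSectionVars false

/-!
# G1: two single legs make a centre

`Leg G g u k` : `k` (colour `true`) is a single leg of `u` : a pendant, or a vertex with one own
neighbour `m` and a third neighbour `t` of degree three without own neighbours.
-/

namespace Pool.Agent.BLN

open Finset Pool.Agent.IVT

variable {V : Type} [Fintype V] [DecidableEq V] {G : SimpleGraph V} [DecidableRel G.Adj]

/-- A single leg of `u` with mate `m` and third neighbour `t`. -/
structure Leg3 (G : SimpleGraph V) [DecidableRel G.Adj] (g : V → Bool) (u k m t : V) : Prop where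
  nb : Nb G k u m t
  gk : g k = true
  gm : g m = true
  gt : g t = false
  dt : G.degree t = 3
  ot : ∀ w, G.Adj t w → g w = true

/-- A single leg of `u`: a pendant or a vertex with a mate and a tolerant third neighbour. -/
def Leg (G : SimpleGraph V) [DecidableRel G.Adj] (g : V → Bool) (u k : V) : Prop :=
  G.Adj u k ∧ g k = true ∧ (G.degree k = 1 ∨ ∃ m t, Leg3 G g u k m t)

/-- **G1.** In a valid colouring `g` of sum two, two edges below the critical energy, a vertex `u` of
colour `false` without own neighbours and with two single non-adjacent legs is a centre. -/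
theorem cen_of_two_legs (hG : Deg13 G) (hB : NoBal3 G) (hC : C4Free G) {g : V → Bool}
    (hv : Valid3 G g) (hs : sgn true g = 2) (he : ∃ c, Crit3 G c ∧ En G g + 4 = En G c)
    {u k1 k2 : V} (gu : g u = false) (ou : ∀ w, G.Adj u w → g w = true)
    (h1 : Leg G g u k1) (h2 : Leg G g u k2) (hne : k1 ≠ k2) (hnad : ¬ G.Adj k1 k2) :
    Cen G g u := by
  obtain ⟨c, hc, hE⟩ := he
  obtain ⟨a1, g1, c1⟩ := h1
  obtain ⟨a2, g2, c2⟩ := h2
  have ku1 : k1 ≠ u := a1.ne.symm
  have ku2 : k2 ≠ u := a2.ne.symm
  -- the two flips
  set f1 := flip g k1 with hf1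
  set h := flip f1 k2 with hh
  set d := flip h u with hd
  have hL0 : Lab3 G true g := Lab3.of_valid G hv (by rw [hs])
  have e1 : En G f1 ≤ En G g + 2 := by
    refine en_up hG ?_
    rcases c1 with h3 | ⟨m, t, L⟩
    · exact Or.inl h3
    · exact Or.inr (own_ge_one L.nb.ay (by rw [L.gm, g1]))
  have f1k2 : f1 k2 = true := by rw [hf1, flip_ne _ hne.symm, g2]
  have e2 : En G h ≤ En G g + 4 := by
    have : En G h ≤ En G f1 + 2 := by
      refine en_up hG ?_
      rcases c2 with h3 | ⟨m, t, L⟩
      · exact Or.inl h3
      · refine Or.inr (own_ge_one L.nb.ay ?_)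
        have hm : m ≠ k1 := by
          rintro rfl
          exact hnad L.nb.ay.symm
        rw [f1k2, hf1, flip_ne _ hm, L.gm]
    omega
  have vk1 : h k1 = false := by rw [hh, flip_ne _ hne, hf1, flip_same, g1]; rfl
  have vk2 : h k2 = false := by rw [hh, flip_same, f1k2]; rfl
  have vu : h u = false := by rw [hh, flip_ne _ ku2.symm, hf1, flip_ne _ ku1.symm, gu]
  have hval : ∀ v, v ≠ k1 → v ≠ k2 → h v = g v := by
    intro v h3 h4
    rw [hh, flip_ne _ h4, hf1, flip_ne _ h3]
  have fu : Fp G h u := fp_of_two hG (Or.inl (own_ge_two a1 a2 hne (by rw [vk1, vu]) (by rw [vk2, vu])))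
  have e3 : En G d ≤ En G g + 2 := by
    have := en_down hG (d := h) (v := u)
      (Or.inl (own_ge_two a1 a2 hne (by rw [vk1, vu]) (by rw [vk2, vu])))
    rw [← hd] at this
    omega
  -- the label of `f1`
  have hL1 : Lab3 G true f1 := by
    rw [hf1]
    rw [hf1] at e1
    exact lab_low hG hB hc (by omega) (by omega) hL0
  -- `k2` flips back in `h`
  have fk2 : Fp G h k2 := by
    refine fp_of_two hG ?_
    rcases c2 with h3 | ⟨m, t, L⟩
    · exact Or.inr ⟨h3, own_ge_one a2.symm (by rw [vu, vk2])⟩
    · refine Or.inl (own_ge_two a2.symm L.nb.az L.nb.xz (by rw [vu, vk2]) ?_)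
      have ht1 : t ≠ k1 := by
        rintro rfl
        rw [L.gt] at g1
        exact absurd g1 (by decide)
      have ht2 : t ≠ k2 := by
        rintro rfl
        rw [L.gt] at g2
        exact absurd g2 (by decide)
      rw [hval t ht1 ht2, L.gt, vk2]
  have fk1 : Fp G h k1 := by
    refine fp_of_two hG ?_
    rcases c1 with h3 | ⟨m, t, L⟩
    · exact Or.inr ⟨h3, own_ge_one a1.symm (by rw [vu, vk1])⟩
    · refine Or.inl (own_ge_two a1.symm L.nb.az L.nb.xz (by rw [vu, vk1]) ?_)
      have ht1 : t ≠ k1 := by
        rintro rfl
        rw [L.gt] at g1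
        exact absurd g1 (by decide)
      have ht2 : t ≠ k2 := by
        rintro rfl
        rw [L.gt] at g2
        exact absurd g2 (by decide)
      rw [hval t ht1 ht2, L.gt, vk1]
  have hLt : Lab3 G true h := by
    have h3 : Reach3 G h (flip h k2) := Reach3.one G fk2
    rw [hh, IVT.flip_flip] at h3
    exact hL1.of_reach G h3
  -- the values of `d`
  have du : d u = true := by rw [hd, flip_same, vu]; rfl
  have dv : ∀ v, v ≠ u → d v = h v := fun v h3 => by rw [hd, flip_ne _ h3]
  have hsd : sgn true d = 0 := by
    rw [hd, sgn_flip, vu, if_neg (by decide), hh, sgn_flip, f1k2, if_pos rfl, hf1, sgn_flip, g1,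
      if_pos rfl, hs]
    norm_num
  -- a leg has at most one own neighbour in `d`
  have legd : ∀ k k', (k = k1 ∧ k' = k2) ∨ (k = k2 ∧ k' = k1) →
      (G.degree k = 1 ∨ ∃ m t, Leg3 G g u k m t) → ¬ Fp G d k := by
    intro k k' hkk hcase hfp
    have hku : k ≠ u := by
      rcases hkk with ⟨rfl, _⟩ | ⟨rfl, _⟩ <;> assumption
    have hvk : d k = false := by
      rw [dv k hku]
      rcases hkk with ⟨rfl, _⟩ | ⟨rfl, _⟩ <;> assumption
    have hadj : G.Adj k u := by
      rcases hkk with ⟨rfl, _⟩ | ⟨rfl, _⟩
      · exact a1.symm
      · exact a2.symm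
    unfold Fp at hfp
    rcases hcase with h3 | ⟨m, t, L⟩
    · have h4 : bad G d k = ∅ := by
        rw [Finset.eq_empty_iff_forall_notMem]
        intro w hw
        rw [mem_bad, pend_adj G h3 hadj w] at hw
        rw [hw.1, du, hvk] at hw
        exact absurd hw.2 (by decide)
      rw [h4] at hfp
      simp at hfp
    · have h4 := L.nb.card G d
      have hm1 : m ≠ k1 := by
        rintro rfl
        rcases hkk with ⟨rfl, _⟩ | ⟨rfl, _⟩
        · exact L.nb.ay.ne rfl
        · exact hnad L.nb.ay.symm
      have hm2 : m ≠ k2 := by
        rintro rfl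
        rcases hkk with ⟨rfl, _⟩ | ⟨rfl, _⟩
        · exact hnad L.nb.ay
        · exact L.nb.ay.ne rfl
      have hmu : m ≠ u := L.nb.xy.symm
      have hmv : d m = true := by rw [dv m hmu, hval m hm1 hm2, L.gm]
      rw [du, hvk, hmv, if_neg (by decide)] at h4
      have h5 := L.nb.degree G
      split_ifs at h4 <;> omega
  -- the label of `d` is `false`
  have hLd : Lab3 G false d := by
    rcases lab_or3 G hG hB true d with h3 | h3
    · exfalso
      obtain ⟨v, hv1, hv2⟩ := lab_fp3 G hG true h3 (by rw [hsd])
      simp only [Bool.not_true] at hv2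
      have hvu : v ≠ u := by
        rintro rfl
        rw [du] at hv2
        exact absurd hv2 (by decide)
      by_cases hk1 : v = k1
      · subst hk1
        exact legd v k2 (Or.inl ⟨rfl, rfl⟩) c1 hv1
      by_cases hk2 : v = k2
      · subst hk2
        exact legd v k1 (Or.inr ⟨rfl, rfl⟩) c2 hv1
      have hgv : g v = false := by
        rw [← hval v hk1 hk2, ← dv v hvu, hv2]
      have hvu' : ¬ G.Adj v u := by
        intro h4
        have := ou v h4.symm
        rw [hgv] at this
        exact absurd this (by decide)
      have e5 : (bad G d v).card = (bad G h v).card := by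
        rw [hd, bad_flip_nonadj G h hvu hvu']
      have hgk : g k1 ≠ g v := by rw [g1, hgv]; decide
      unfold Fp at hv1
      by_cases had1 : G.Adj v k1
      · -- `v` is the third neighbour of `k1`
        rcases c1 with h4 | ⟨m, t, L⟩
        · exact hvu ((pend_adj G h4 a1.symm v).1 had1.symm)
        · rcases (L.nb.adj v).1 had1.symm with h5 | h5 | h5
          · exact hvu h5
          · rw [h5, L.gm] at hgv
            exact absurd hgv (by decide)
          · subst h5
            have had2 : ¬ G.Adj v k2 := by
              intro h6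
              rcases hC u k1 v k2 a1 had1.symm h6 a2.symm with h7 | h7
              · exact hvu h7.symm
              · exact hne h7
            have e6 : (bad G h v).card = (bad G f1 v).card := by
              rw [hh, bad_flip_nonadj G f1 hk2 had2]
            have e7 := card_bad_flip_adj_diff G g had1 (by rw [L.gt, g1]; decide)
            rw [← hf1] at e7
            have e8 : (bad G g v).card = 0 := by
              rw [Finset.card_eq_zero, Finset.eq_empty_iff_forall_notMem]
              intro w hw
              rw [mem_bad] at hw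
              rw [L.ot w hw.1, L.gt] at hw
              exact absurd hw.2 (by decide)
            have e9 := L.dt
            omega
      · have e7 : (bad G f1 v).card = (bad G g v).card := by
          rw [hf1, bad_flip_nonadj G g hk1 had1]
        by_cases had2 : G.Adj v k2
        · rcases c2 with h4 | ⟨m, t, L⟩
          · exact hvu ((pend_adj G h4 a2.symm v).1 had2.symm)
          · rcases (L.nb.adj v).1 had2.symm with h5 | h5 | h5
            · exact hvu h5
            · rw [h5, L.gm] at hgv
              exact absurd hgv (by decide)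
            · subst h5
              have e6 := card_bad_flip_adj_diff G f1 had2
                (by rw [f1k2, hf1, flip_ne _ hk1, L.gt]; decide)
              rw [← hh] at e6
              have e8 : (bad G g v).card = 0 := by
                rw [Finset.card_eq_zero, Finset.eq_empty_iff_forall_notMem]
                intro w hw
                rw [mem_bad] at hw
                rw [L.ot w hw.1, L.gt] at hw
                exact absurd hw.2 (by decide)
              have e9 := L.dt
              omega
        · have e6 : (bad G h v).card = (bad G f1 v).card := by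
            rw [hh, bad_flip_nonadj G f1 hk2 had2]
          have := hv v
          omega
    · exact h3
  have hLh : Lab3 G false h := hLd.of_reach G (Reach3.one G fu)
  have hcr : Crit3 G h := hc.of G (by omega) true hLt hLh
  obtain ⟨l, a, b, st, l0, l1, l2⟩ := crit_at hG hB hC hcr fu fk1 fk2 a1 a2 hne
  refine ⟨l, a, b, Fr.of_star st ?_ gu ?_ ⟨c, hc, hE⟩⟩
  · intro v hv
    rw [mem_rest] at hv
    rw [hval v (by rw [← l0]; exact hv.2 0) (by rw [← l1]; exact hv.2 1)]
  · intro i
    fin_cases i
    · simp only [Fin.zero_eta, l0, g1]
    · simp only [Fin.mk_one, l1, g2]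
    · have h3 : l 2 ≠ k1 := by
        rw [← l0]
        intro h4
        exact absurd (st.l_inj h4) (by decide)
      have h4 : l 2 ≠ k2 := by
        rw [← l1]
        intro h4
        exact absurd (st.l_inj h4) (by decide)
      show g (l 2) = true
      rw [← hval (l 2) h3 h4, l2, vu]
      rfl

end Pool.Agent.BLN
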