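import Pool.Agent.BLN.LT
import Pool.Agent.BLN.LabG1

/-!
# Specials next to specials

A special `b j` next to a special `a i`, `i ≠ j`, whose other neighbour has no own neighbours, is a
centre: the two legs are `l j` and `a i`.
-/

set_option autoImplicit false
set_option linter.unusedSectionVars false

namespace Pool.Agent.BLN

open Finset Pool.Agent.IVT Pool.BLE

variable {V : Type} [Fintype V] [DecidableEq V] {G : SimpleGraph V} [DecidableRel G.Adj]
  {g : V → Bool} {x : V} {l a b : Fin 3 → V}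

theorem Fr.b_ne (h : Fr G g x l a b) {j : Fin 3} (hj : a j ≠ x) : b j ≠ x :=
  fun h' => hj ((h.star.a_eq_iff j).2 h')

/-- The leaf `l i` is a single leg of `b i`. -/
theorem Fr.leg_l (h : Fr G g x l a b) {j : Fin 3} (hj : a j ≠ x) : Leg G g (b j) (l j) := by
  have nb := h.nb_l j hj
  exact ⟨nb.az.symm, h.gl j, Or.inr ⟨a j, x, ⟨((nb.rot G).rot G).swap G, h.gl j, h.star.ca j hj,
    h.gx, h.star.deg_x, fun w hw => h.nbr hw⟩⟩⟩

theorem Fr.cen_b (hG : Deg13 G) (hB : NoBal3 G) (hC : C4Free G) (h : Fr G g x l a b)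
    {i j : Fin 3} (hi : a i ≠ x) (hj : a j ≠ x) (hij : i ≠ j) (hadj : G.Adj (a i) (b j)) {y : V}
    (hy : G.Adj (a i) y) (hyl : y ≠ l i) (hyb : y ≠ b j) (dy : G.degree y = 3)
    (oy : ∀ w, G.Adj y w → g w = true) : Cen G g (b j) := by
  have gy : g y = false := by
    cases h1 : g y
    · rfl
    · exact absurd (h.a_true i hi hy h1) hyl
  have hlb : l i ≠ b j := by
    intro h1
    have := h.gl i
    rw [h1, h.star.cb j (h.b_ne hj)] at this
    exact absurd this (by decide)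
  obtain ⟨y', nb⟩ := exists_nb23 G (h.star.deg_a i hi) (h.nb_l i hi).ay.symm hadj hlb
  have hyy : y' = y := by
    rcases (nb.adj y).1 hy with h1 | h1 | h1
    · exact absurd h1 hyl
    · exact absurd h1 hyb
    · exact h1.symm
  subst hyy
  refine cen_of_two_legs hG hB hC h.valid h.sum h.en (h.star.cb j (h.b_ne hj))
    (fun w hw => h.b_all j (h.b_ne hj) hw) (h.leg_l hj)
    ⟨hadj.symm, h.star.ca i hi, Or.inr ⟨l i, y', ⟨?_, h.star.ca i hi, h.gl i, gy, dy, oy⟩⟩⟩ ?_ ?_
  · exact ⟨fun w => by rw [nb.adj]; tauto, nb.xy.symm, nb.yz, nb.xz⟩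
  · intro h1
    exact (mem_rest.1 (h.star.a_rest i hi)).2 j h1.symm
  · intro h1
    have h2 := h.l_true j hj h1 (h.star.ca i hi)
    exact hij (h.star.a_inj i j h2 hi)

/-- Neighbours of a `U` vertex of colour `false`. -/
theorem IsU.nbr (h : Fr G g x l a b) {w : V} (hU : IsU G g x l a b w) (gw : g w = false) {z : V}
    (hz : G.Adj w z) : g z = true := by
  rcases h.star.cases z with rfl | ⟨j, rfl⟩ | h1
  · exfalso
    obtain ⟨j, hj⟩ := (h.star.nx _).1 hz.symm
    exact (mem_rest.1 hU.rest).2 j hj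
  · exact h.gl j
  · have := hU.own z h1 hz
    rw [gw] at this
    cases h2 : g z
    · exact absurd h2 this
    · rfl

/-- Field `ub` of `Loc`. -/
theorem Fr.ub (hG : Deg13 G) (hB : NoBal3 G) (hC : C4Free G) (h : Fr G g x l a b)
    {i j : Fin 3} {w : V} (hi : a i ≠ x) (hj : a j ≠ x) (hij : i ≠ j) (hw : G.Adj (a i) w)
    (hU : IsU G g x l a b w) (hadj : G.Adj (a i) (b j)) : Cen G g (b j) := by
  have hwl : w ≠ l i := (mem_rest.1 hU.rest).2 i
  have gw : g w = false := by
    cases h1 : g w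
    · rfl
    · exact absurd (h.a_true i hi hw h1) hwl
  exact h.cen_b hG hB hC hi hj hij hadj hw hwl (hU.nb j) hU.deg (fun z hz => hU.nbr h gw hz)

/-- Field `bb` of `Loc`; here `k = i` is allowed. -/
theorem Fr.bb (hG : Deg13 G) (hB : NoBal3 G) (hC : C4Free G) (h : Fr G g x l a b)
    {i j k : Fin 3} (hi : a i ≠ x) (hj : a j ≠ x) (hk : a k ≠ x) (hij : i ≠ j) (hjk : j ≠ k)
    (hadj : G.Adj (a i) (b j)) (hadj' : G.Adj (a i) (b k)) : Cen G g (b j) := by
  refine h.cen_b hG hB hC hi hj hij hadj hadj' ?_ ?_ (h.star.deg_b k (h.b_ne hk))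
    (fun z hz => h.b_all k (h.b_ne hk) hz)
  · intro h1
    have := h.gl i
    rw [← h1, h.star.cb k (h.b_ne hk)] at this
    exact absurd this (by decide)
  · intro h1
    exact hjk (h.star.b_inj k j h1 (h.b_ne hk)).symm

/-- A leaf triangle `a i ~ b i` whose vertex `a i` is adjacent to `b j`. -/
theorem Fr.tri_b (hG : Deg13 G) (hB : NoBal3 G) (hC : C4Free G) (h : Fr G g x l a b)
    {i j : Fin 3} (hi : a i ≠ x) (hj : a j ≠ x) (hij : i ≠ j)
    (hadj : G.Adj (a i) (b j)) (htri : G.Adj (a i) (b i)) : Cen G g (b j) :=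
  h.bb hG hB hC hi hj hi hij (Ne.symm hij) hadj htri

end Pool.Agent.BLN
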