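import Pool.Agent.BLN.LabG1

set_option autoImplicit false
set_option linter.unusedSectionVars false

/-!
# E3: a special with a heavy neighbour is a centre of the dual colouring

If `a i` has a neighbour `y` outside the star which is a pendant or has an own neighbour, then
`a i` is a centre for the dual colouring `du g x l`.
-/

namespace Pool.Agent.BLN

open Finset Pool.Agent.IVT

variable {V : Type} [Fintype V] [DecidableEq V] {G : SimpleGraph V} [DecidableRel G.Adj]

/-- The other star colouring of a frame. -/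
def gm (g : V → Bool) (x : V) (l : Fin 3 → V) : V → Bool := sc g x l true (fun _ => false)

theorem neg_du (g : V → Bool) (x : V) (l : Fin 3 → V) : neg (du g x l) = gm g x l := by
  unfold du gm
  rw [neg_neg]

section

variable {g : V → Bool} {x : V} {l a b : Fin 3 → V}

theorem Fr.lab_gm (h : Fr G g x l a b) : Lab3 G false (gm g x l) := by
  have := h.dual.lab.neg
  rwa [neg_du] at this

theorem Fr.En_gm (h : Fr G g x l a b) : En G (gm g x l) = En G g := by
  have h1 := h.star.en_sc true (fun _ => false)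
  rw [h.eq_sc] at h1
  have h2 : nm true (fun _ => false) = 0 := by decide
  rw [h2] at h1
  unfold gm
  push_cast at h1
  omega

theorem gm_x : gm g x l x = true := by simp [gm, sc_x]

theorem Fr.gm_l (h : Fr G g x l a b) (i : Fin 3) : gm g x l (l i) = false := by
  simp [gm, h.star.sc_l]

theorem gm_rest {v : V} (hv : v ∈ rest x l) : gm g x l v = g v := by
  simp [gm, sc_rest hv]

theorem Fr.du_perm (h : Fr G g x l a b) (σ : Equiv.Perm (Fin 3)) :
    du g x (l ∘ σ) = du g x l := by
  funext v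
  rcases h.star.cases v with rfl | ⟨j, rfl⟩ | hv
  · rw [du_x, du_x]
  · rw [h.du_l]
    have := (h.perm σ).du_l (σ.symm j)
    simpa using this
  · rw [du_rest hv, du_rest (by rw [rest_perm]; exact hv)]

theorem Star3.nb_l (st : Star3 G g x l a b) (i : Fin 3) (hi : a i ≠ x) :
    Nb G (l i) x (a i) (b i) :=
  ⟨st.nl i, hi.symm, fun h => hi ((st.a_eq_iff i).2 h.symm), st.a_ne_b' i hi i⟩

theorem Star3.b_ne (st : Star3 G g x l a b) {i : Fin 3} (hi : a i ≠ x) : b i ≠ x :=
  fun h => hi ((st.a_eq_iff i).2 h)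

/-- A neighbour of a vertex outside the star, which is neither a special nor ... is outside. -/
theorem Star3.adj_rest (st : Star3 G g x l a b) {v w : V} (hv : v ∈ rest x l)
    (h : G.Adj v w) (hw : ∀ i, w ≠ l i) : w ∈ rest x l := by
  rw [mem_rest]
  refine ⟨?_, hw⟩
  rintro rfl
  obtain ⟨i, hi⟩ := (st.nx v).1 h.symm
  exact (mem_rest.1 hv).2 i hi

/-- A vertex outside the star adjacent to a leaf is a special of this leaf. -/
theorem Star3.spec_of_adj (st : Star3 G g x l a b) {v : V} (hv : v ∈ rest x l) {i : Fin 3}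
    (h : G.Adj v (l i)) : v = a i ∨ v = b i := by
  rcases (st.nl i v).1 h.symm with h1 | h1 | h1
  · exact absurd h1 (mem_rest.1 hv).1
  · exact Or.inl h1
  · exact Or.inr h1

/-- `y` is a pendant or has an own neighbour. -/
def Heavy (G : SimpleGraph V) [DecidableRel G.Adj] (g : V → Bool) (y : V) : Prop :=
  G.degree y = 1 ∨ 1 ≤ (bad G g y).card

/-- The mate of a heavy vertex of colour `false` outside the star. -/
theorem Fr.ownMate (h : Fr G g x l a b) {y : V} (hyr : y ∈ rest x l) (gy : g y = false)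
    (hy : 1 ≤ (bad G g y).card) : ∃ m, m ∈ rest x l ∧ G.Adj y m ∧ g m = false := by
  obtain ⟨m, hm⟩ := Finset.card_pos.1 hy
  rw [mem_bad, gy] at hm
  refine ⟨m, h.star.adj_rest hyr hm.1 ?_, hm.1, hm.2⟩
  intro i hi
  rw [hi, h.gl] at hm
  exact absurd hm.2 (by decide)

/-- A special is not heavy. -/
theorem Fr.b_not_heavy (h : Fr G g x l a b) {y : V} (hyr : y ∈ rest x l)
    (hy : Heavy G g y) (i : Fin 3) : y ≠ b i := by
  rintro rfl
  have hbx : b i ≠ x := (mem_rest.1 hyr).1
  rcases hy with h1 | h1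
  · have := h.star.deg_b i hbx
    omega
  · obtain ⟨m, hm, hadj, hgm⟩ := h.ownMate hyr (h.star.cb i hbx) h1
    rw [h.star.own_b i hbx m hm hadj] at hgm
    exact absurd hgm (by decide)

/-- A special is not heavy in the dual colouring. -/
theorem Fr.a_not_heavy (h : Fr G g x l a b) {y : V} (hyr : y ∈ rest x l)
    (hy : G.degree y = 1 ∨ ∃ m ∈ rest x l, G.Adj y m ∧ g m = g y) (i : Fin 3) : y ≠ a i := by
  rintro rfl
  have hax : a i ≠ x := (mem_rest.1 hyr).1
  rcases hy with h1 | ⟨m, hm, hadj, hgm⟩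
  · have := h.star.deg_a i hax
    omega
  · rw [h.star.own_a i hax m hm hadj, h.star.ca i hax] at hgm
    exact absurd hgm (by decide)

/-- **E3** for the leaf `0`. -/
theorem e3_core (hG : Deg13 G) (hB : NoBal3 G) (hC : C4Free G) (h : Fr G g x l a b)
    (h0 : a 0 ≠ x) {y : V} (hy : G.Adj (a 0) y) (hyr : y ∈ rest x l) (hh : Heavy G g y) :
    Cen G (du g x l) (a 0) := by
  have st := h.star
  obtain ⟨c, hc, hE⟩ := h.en
  have hb0 : b 0 ≠ x := st.b_ne h0
  have har : a 0 ∈ rest x l := st.a_rest 0 h0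
  have hbr : b 0 ∈ rest x l := st.b_rest 0 hb0
  have ga : g (a 0) = true := st.ca 0 h0
  have gb : g (b 0) = false := st.cb 0 hb0
  have nl := st.nb_l 0 h0
  have gy : g y = false := st.own_a 0 h0 y hyr hy
  -- the third neighbour of `a 0`
  have hl0y : l 0 ≠ y := fun h1 => (mem_rest.1 hyr).2 0 h1.symm
  obtain ⟨y', na⟩ := exists_nb23 G (st.deg_a 0 h0) nl.ay.symm hy hl0y
  have hy'l : ∀ i, y' ≠ l i := by
    intro i hi
    have h1 := st.spec_of_adj har (i := i) (by rw [← hi]; exact na.az)
    have h2 := st.leaf_unique h0 h1 (Or.inl rfl)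
    subst h2
    exact na.xz hi.symm
  have hy'r : y' ∈ rest x l := st.adj_rest har na.az hy'l
  have gy' : g y' = false := st.own_a 0 h0 y' hy'r na.az
  have hyb : ∀ i, y ≠ b i := h.b_not_heavy hyr hh
  -- distinct vertices
  have nlx : ∀ i, l i ≠ x := st.l_ne_x
  have n10 : l 1 ≠ l 0 := fun h1 => absurd (st.l_inj h1) (by decide)
  have n20 : l 2 ≠ l 0 := fun h1 => absurd (st.l_inj h1) (by decide)
  have n21 : l 2 ≠ l 1 := fun h1 => absurd (st.l_inj h1) (by decide)
  have nal : ∀ i, a 0 ≠ l i := (mem_rest.1 har).2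
  have nyl : ∀ i, y ≠ l i := (mem_rest.1 hyr).2
  have nyx : y ≠ x := (mem_rest.1 hyr).1
  have nya : y ≠ a 0 := fun h1 => by
    rw [h1, ga] at gy
    exact absurd gy (by decide)
  -- the states
  set d1 := flip g (a 0) with hd1
  set d2 := flip d1 y with hd2
  set d3 := flip d2 (l 1) with hd3
  set d4 := flip d3 (l 2) with hd4
  set d5 := flip d4 x with hd5
  have v1 : ∀ v, v ≠ a 0 → d1 v = g v := fun v h1 => by rw [hd1, flip_ne _ h1]
  have v1a : d1 (a 0) = false := by rw [hd1, flip_same, ga]; rfl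
  have v2 : ∀ v, v ≠ a 0 → v ≠ y → d2 v = g v := fun v h1 h2 => by
    rw [hd2, flip_ne _ h2, v1 v h1]
  have v2a : d2 (a 0) = false := by rw [hd2, flip_ne _ nya.symm, v1a]
  have v2y : d2 y = true := by rw [hd2, flip_same, v1 y nya, gy]; rfl
  have v3 : ∀ v, v ≠ a 0 → v ≠ y → v ≠ l 1 → d3 v = g v := fun v h1 h2 h3 => by
    rw [hd3, flip_ne _ h3, v2 v h1 h2]
  have v4 : ∀ v, v ≠ a 0 → v ≠ y → v ≠ l 1 → v ≠ l 2 → d4 v = g v := fun v h1 h2 h3 h4 => by
    rw [hd4, flip_ne _ h4, v3 v h1 h2 h3]
  have v4a : d4 (a 0) = false := by rw [hd4, flip_ne _ (nal 2), hd3, flip_ne _ (nal 1), v2a]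
  have v4y : d4 y = true := by rw [hd4, flip_ne _ (nyl 2), hd3, flip_ne _ (nyl 1), v2y]
  have v4l1 : d4 (l 1) = false := by
    rw [hd4, flip_ne _ n21.symm, hd3, flip_same, v2 _ (nal 1).symm (nyl 1).symm, h.gl]; rfl
  have v4l2 : d4 (l 2) = false := by
    rw [hd4, flip_same, v3 _ (nal 2).symm (nyl 2).symm n21, h.gl]; rfl
  have v4x : d4 x = false := by
    rw [v4 x h0.symm nyx.symm (nlx 1).symm (nlx 2).symm, h.gx]
  -- energies
  have E1 : En G d1 ≤ En G g + 2 :=
    en_up hG (Or.inr (own_ge_one nl.ay.symm (by rw [h.gl, ga])))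
  have E2 : En G d2 + 2 ≤ En G d1 := by
    refine en_down hG ?_
    rcases hh with h1 | h1
    · exact Or.inr ⟨h1, own_ge_one hy.symm (by rw [v1a, v1 y nya, gy])⟩
    · obtain ⟨m, hm, hadj, hgm⟩ := h.ownMate hyr gy h1
      have hma : m ≠ a 0 := fun h2 => by
        rw [h2, ga] at hgm
        exact absurd hgm (by decide)
      exact Or.inl (own_ge_two hy.symm hadj hma.symm (by rw [v1a, v1 y nya, gy])
        (by rw [v1 m hma, v1 y nya, gy, hgm]))
  have leaf_up : ∀ (i : Fin 3) (d : V → Bool), i ≠ 0 → d (l i) = true →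
      (∀ v, v ≠ a 0 → v ≠ y → v ≠ l 1 → v ≠ l 2 → d v = g v) →
      En G (flip d (l i)) ≤ En G d + 2 := by
    intro i d hi hdl hdv
    refine en_up hG ?_
    by_cases hai : a i = x
    · exact Or.inl (st.deg_pl i hai)
    · refine Or.inr (own_ge_one (st.nb_l i hai).ay ?_)
      have h1 : a i ≠ a 0 := fun h2 => hi (st.a_inj i 0 h2 hai)
      have h2 : a i ≠ y := fun h3 => by
        have := st.ca i hai
        rw [h3, gy] at this
        exact absurd this (by decide)
      have h3 := (mem_rest.1 (st.a_rest i hai)).2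
      rw [hdv _ h1 h2 (h3 1) (h3 2), hdl, st.ca i hai]
  have E3 : En G d3 ≤ En G d2 + 2 :=
    leaf_up 1 d2 (by decide) (by rw [v2 _ (nal 1).symm (nyl 1).symm, h.gl])
      (fun v h1 h2 _ _ => v2 v h1 h2)
  have E4 : En G d4 ≤ En G d3 + 2 :=
    leaf_up 2 d3 (by decide) (by rw [v3 _ (nal 2).symm (nyl 2).symm n21, h.gl])
      (fun v h1 h2 h3 _ => v3 v h1 h2 h3)
  have hox : 2 ≤ (bad G d4 x).card :=
    own_ge_two (st.l_adj 1) (st.l_adj 2) n21.symm (by rw [v4l1, v4x]) (by rw [v4l2, v4x])
  have E5 : En G d5 + 2 ≤ En G d4 := en_down hG (Or.inl hox)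
  -- `d4` is not critical
  have fleaf : ∀ i : Fin 3, i ≠ 0 → d4 (l i) = false → Fp G d4 (l i) := by
    intro i hi hdl
    refine fp_of_two hG ?_
    by_cases hai : a i = x
    · exact Or.inr ⟨st.deg_pl i hai, own_ge_one (st.l_adj i).symm (by rw [v4x, hdl])⟩
    · have nli := st.nb_l i hai
      have hbi := st.b_ne hai
      refine Or.inl (own_ge_two nli.ax nli.az nli.xz (by rw [v4x, hdl]) ?_)
      have h1 : b i ≠ a 0 := fun h2 => by
        have := st.cb i hbi
        rw [h2, ga] at this
        exact absurd this (by decide)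
      have h3 := (mem_rest.1 (st.b_rest i hbi)).2
      rw [v4 _ h1 (hyb i).symm (h3 1) (h3 2), hdl, st.cb i hbi]
  have hnc : ¬ Crit3 G d4 := by
    intro hcr
    obtain ⟨l', a', b', st', hl0', hl1', hl2'⟩ := crit_at hG hB hC hcr
      (fp_of_two hG (Or.inl hox)) (fleaf 1 (by decide) v4l1) (fleaf 2 (by decide) v4l2)
      (st.l_adj 1) (st.l_adj 2) n21.symm
    have h3 : l' 2 = l 0 := by
      obtain ⟨i, hi⟩ := (st.nx (l' 2)).1 (st'.l_adj 2)
      fin_cases i
      · exact hi
      · exfalso
        have : l' 2 = l' 0 := by rw [hl0', hi]; rfl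
        exact absurd (st'.l_inj this) (by decide)
      · exfalso
        have : l' 2 = l' 1 := by rw [hl1', hi]; rfl
        exact absurd (st'.l_inj this) (by decide)
    have h4 : a' 2 ≠ x := by
      intro h5
      have h6 := st'.deg_pl 2 h5
      rw [h3] at h6
      have h7 := nl.degree G
      omega
    have h5 : G.Adj (l 0) (a' 2) := by rw [← h3]; exact (st'.nb_l 2 h4).ay
    have h6 := st'.ca 2 h4
    rcases (nl.adj (a' 2)).1 h5 with h7 | h7 | h7
    · exact h4 h7
    · rw [h7, v4a] at h6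
      exact absurd h6 (by decide)
    · have h8 : b 0 ≠ a 0 := nl.yz.symm
      have h9 := (mem_rest.1 hbr).2
      rw [h7, v4 _ h8 (hyb 0).symm (h9 1) (h9 2), gb] at h6
      exact absurd h6 (by decide)
  -- labels
  have L0 := h.lab
  have L1 : Lab3 G true d1 := lab_low hG hB hc (by omega) (by rw [← hd1]; omega) L0
  have L2 : Lab3 G true d2 := lab_low hG hB hc (by omega) (by rw [← hd2]; omega) L1
  have L3 : Lab3 G true d3 := lab_low hG hB hc (by omega) (by rw [← hd3]; omega) L2
  have L4 : Lab3 G true d4 := by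
    have h1 : En G d3 < En G c := by omega
    exact hc.lab_step G hG hB (l 2) h1.le (by rw [← hd4]; omega) (hc.not_of_lt G h1)
      (by rw [← hd4]; exact hnc) L3
  have L5 : Lab3 G true d5 := by
    have h1 : En G d5 < En G c := by omega
    exact hc.lab_step G hG hB x (by omega) (by rw [← hd5]; omega) hnc
      (by rw [← hd5]; exact hc.not_of_lt G h1) L4
  -- the other side
  set e0 := gm g x l with he0
  set e1 := flip e0 (l 0) with he1
  set k := flip e1 (a 0) with hk
  have Ee0 : En G e0 = En G g := h.En_gm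
  have w0r : ∀ v, v ∈ rest x l → e0 v = g v := fun v hv => gm_rest hv
  have w0l : ∀ i, e0 (l i) = false := h.gm_l
  have w1 : ∀ v, v ≠ l 0 → e1 v = e0 v := fun v h1 => by rw [he1, flip_ne _ h1]
  have w1l : e1 (l 0) = true := by rw [he1, flip_same, w0l]; rfl
  have w1a : e1 (a 0) = true := by rw [w1 _ (nal 0), w0r _ har, ga]
  have Ee1 : En G e1 ≤ En G e0 + 2 :=
    en_up hG (Or.inr (own_ge_one nl.az (by rw [w0r _ hbr, w0l, gb])))
  have Ek : En G k ≤ En G e1 + 2 :=
    en_up hG (Or.inr (own_ge_one nl.ay.symm (by rw [w1l, w1a])))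
  have M0 : Lab3 G false e0 := h.lab_gm
  have M1 : Lab3 G false e1 := lab_low hG hB hc (by omega) (by rw [← he1]; omega) M0
  -- `k` as a flip of `d5`
  have hk5 : k = flip d5 y := by
    funext v
    by_cases h1 : v = a 0
    · subst h1
      rw [hk, flip_same, w1a, flip_ne _ nya.symm, hd5, flip_ne _ h0, v4a]; rfl
    by_cases h2 : v = y
    · subst h2
      rw [hk, flip_ne _ h1, w1 _ (nyl 0), w0r _ hyr, gy, flip_same, hd5, flip_ne _ nyx, v4y]; rfl
    rw [hk, flip_ne _ h1, flip_ne _ h2]
    rcases st.cases v with h3 | ⟨i, h3⟩ | h3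
    · rw [h3, w1 _ (nlx 0).symm, he0, gm_x, hd5, flip_same, v4x]; rfl
    · rw [h3, hd5, flip_ne _ (nlx i)]
      fin_cases i
      · simp only [Fin.zero_eta]
        rw [w1l, v4 _ (nal 0).symm (nyl 0).symm n10.symm n20.symm, h.gl]
      · simp only [Fin.mk_one]
        rw [w1 _ n10, w0l, v4l1]
      · show e1 (l 2) = d4 (l 2)
        rw [w1 _ n20, w0l, v4l2]
    · have h4 := (mem_rest.1 h3).2
      rw [w1 _ (h4 0), w0r _ h3, hd5, flip_ne _ (mem_rest.1 h3).1, v4 _ h1 h2 (h4 1) (h4 2)]
  have ka : k (a 0) = false := by rw [hk, flip_same, w1a]; rfl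
  have kl0 : k (l 0) = true := by rw [hk, flip_ne _ (nal 0).symm, w1l]
  have kr : ∀ v, v ∈ rest x l → v ≠ a 0 → k v = g v := fun v h1 h2 => by
    rw [hk, flip_ne _ h2, w1 _ ((mem_rest.1 h1).2 0), w0r _ h1]
  have ky : k y = false := by rw [kr y hyr nya, gy]
  have nya' : y' ≠ a 0 := fun h1 => by
    rw [h1, ga] at gy'
    exact absurd gy' (by decide)
  have ky' : k y' = false := by rw [kr y' hy'r nya', gy']
  have Fa : Fp G k (a 0) := fp_of_two hG (Or.inl
    (own_ge_two na.ay na.az na.yz (by rw [ky, ka]) (by rw [ky', ka])))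
  have Fy : Fp G k y := by
    refine fp_of_two hG ?_
    rcases hh with h1 | h1
    · exact Or.inr ⟨h1, own_ge_one hy.symm (by rw [ka, ky])⟩
    · obtain ⟨m, hm, hadj, hgm⟩ := h.ownMate hyr gy h1
      have hma : m ≠ a 0 := fun h2 => by
        rw [h2, ga] at hgm
        exact absurd hgm (by decide)
      exact Or.inl (own_ge_two hy.symm hadj hma.symm (by rw [ka, ky])
        (by rw [kr m hm hma, ky, hgm]))
  have LF : Lab3 G false k := by
    have h1 : Reach3 G k (flip k (a 0)) := Reach3.one G Fa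
    rw [hk, IVT.flip_flip] at h1
    exact M1.of_reach G h1
  have LT : Lab3 G true k := by
    have h1 : Reach3 G k (flip k y) := Reach3.one G Fy
    rw [hk5, IVT.flip_flip] at h1
    rw [hk5]
    exact L5.of_reach G h1
  have hcr : Crit3 G k := hc.of G (by omega) true LT LF
  obtain ⟨x', l', a', b', s', st', hx', h0', h1', h2', hfl, -, -, -, -, -, -⟩ :=
    crit_star3 G hG hB hC hcr
  -- the centre is not `y`
  have key : ∀ i j : Fin 3, x' = y → l' i = a 0 → l' j ≠ a 0 → k (l' j) = false →
      Fp G k (l' j) → False := by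
    intro i j hxy hi hj hkj hfj
    have hadj : G.Adj y (l' j) := by rw [← hxy]; exact st'.l_adj j
    have hjl : ∀ m, l' j ≠ l m := by
      intro m hm
      have h3 : y = a m ∨ y = b m := st.spec_of_adj hyr (by rw [← hm]; exact hadj)
      rcases h3 with h3 | h3
      · have hax : a m ≠ x := by rw [← h3]; exact nyx
        have := st.ca m hax
        rw [← h3, gy] at this
        exact absurd this (by decide)
      · exact hyb m h3
    have hjr : l' j ∈ rest x l := st.adj_rest hyr hadj hjl
    have hgj : g (l' j) = false := by rw [← kr _ hjr hj, hkj]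
    have hjb : ∀ m, l' j ≠ b m := by
      intro m hm
      have hbx : b m ≠ x := by rw [← hm]; exact (mem_rest.1 hjr).1
      have := st.own_b m hbx y hyr (by rw [← hm]; exact hadj.symm)
      rw [gy] at this
      exact absurd this (by decide)
    have hsub : bad G k (l' j) ⊆ bad G g (l' j) := by
      intro w hw
      rw [mem_bad, hkj] at hw
      rw [mem_bad, hgj]
      refine ⟨hw.1, ?_⟩
      have hwl : ∀ m, w ≠ l m := by
        intro m hm
        rcases st.spec_of_adj hjr (by rw [← hm]; exact hw.1) with h3 | h3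
        · have hax : a m ≠ x := by rw [← h3]; exact (mem_rest.1 hjr).1
          have := st.ca m hax
          rw [← h3, hgj] at this
          exact absurd this (by decide)
        · exact hjb m h3
      have hwr := st.adj_rest hjr hw.1 hwl
      by_cases hwa : w = a 0
      · exfalso
        apply st'.l_nadj i j
        rw [hi, ← hwa]
        exact hw.1.symm
      · rw [← kr w hwr hwa]
        exact hw.2
    have h3 := Finset.card_le_card hsub
    have h4 := h.valid (l' j)
    unfold Fp at hfj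
    omega
  have hxa : x' = a 0 := by
    rcases (hfl (a 0)).1 Fa with h3 | h3 | h3
    · exact h3.symm
    · exfalso
      have hsy : s' = false := by rw [← h0', ← h3, ka]
      rcases (hfl y).1 Fy with h4 | h4 | h4
      · refine key 0 1 h4.symm h3.symm ?_ (by rw [h1', hsy]) ((hfl _).2 (Or.inr (Or.inr rfl)))
        intro h5
        rw [h3] at h5
        exact absurd (st'.l_inj h5) (by decide)
      · exact nya (h4.trans h3.symm)
      · exact st'.l_nadj 0 1 (by rw [← h3, ← h4]; exact hy)
    · exfalso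
      have hsy : s' = false := by rw [← h1', ← h3, ka]
      rcases (hfl y).1 Fy with h4 | h4 | h4
      · refine key 1 0 h4.symm h3.symm ?_ (by rw [h0', hsy]) ((hfl _).2 (Or.inr (Or.inl rfl)))
        intro h5
        rw [h3] at h5
        exact absurd (st'.l_inj h5) (by decide)
      · exact st'.l_nadj 1 0 (by rw [← h3, ← h4]; exact hy)
      · exact nya (h4.trans h3.symm)
  subst hxa
  have hs' : s' = false := by rw [← hx', ka]
  rw [hs'] at h0' h1' h2'
  have hl2 : l' 2 = l 0 := by
    rcases (na.adj (l' 2)).1 (st'.l_adj 2) with h3 | h3 | h3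
    · exact h3
    · rw [h3, ky] at h2'
      exact absurd h2' (by decide)
    · rw [h3, ky'] at h2'
      exact absurd h2' (by decide)
  refine ⟨l', b', a', Fr.of_star st'.neg ?_ ?_ ?_ h.dual.en⟩
  · intro v hv
    rw [mem_rest] at hv
    have h3 : v ≠ l 0 := by rw [← hl2]; exact hv.2 2
    have h4 : du g x l v = !(e0 v) := by rw [he0, ← neg_du]; simp [neg]
    rw [h4, ← w1 v h3]
    show (!(e1 v)) = !(k v)
    rw [hk, flip_ne _ hv.1]
  · rw [du_rest har, ga]; rfl
  · have hside : ∀ j, l' j ≠ l 0 → k (l' j) = false → du g x l (l' j) = true := by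
      intro j hj hkj
      have h3 : du g x l (l' j) = !(e0 (l' j)) := by rw [he0, ← neg_du]; simp [neg]
      have h4 : e0 (l' j) = k (l' j) := by
        rw [hk, flip_ne _ (st'.l_ne_x j), w1 _ hj]
      rw [h3, h4, hkj]; rfl
    intro j
    fin_cases j
    · refine hside 0 ?_ h0'
      rw [← hl2]
      intro h5
      exact absurd (st'.l_inj h5) (by decide)
    · refine hside 1 ?_ h1'
      rw [← hl2]
      intro h5
      exact absurd (st'.l_inj h5) (by decide)
    · show du g x l (l' 2) = true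
      rw [hl2]
      exact h.du_l 0

/-- **E3.** A special `a i` with a heavy neighbour outside the star is a centre of the dual
colouring. -/
theorem Fr.e3 (hG : Deg13 G) (hB : NoBal3 G) (hC : C4Free G) (h : Fr G g x l a b) {i : Fin 3}
    (hi : a i ≠ x) {y : V} (hy : G.Adj (a i) y) (hyr : y ∈ rest x l) (hh : Heavy G g y) :
    Cen G (du g x l) (a i) := by
  have h1 := h.perm (Equiv.swap 0 i)
  have h2 : (a ∘ Equiv.swap 0 i) 0 = a i := by simp
  have h3 := e3_core hG hB hC h1 (y := y) (by rw [h2]; exact hi) (by rw [h2]; exact hy)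
    (by rw [rest_perm]; exact hyr) hh
  rwa [h2, h.du_perm] at h3

/-- **E3, dual.** A special `b i` with a heavy neighbour outside the star is a centre of `g`. -/
theorem Fr.e3' (hG : Deg13 G) (hB : NoBal3 G) (hC : C4Free G) (h : Fr G g x l a b) {i : Fin 3}
    (hi : b i ≠ x) {y : V} (hy : G.Adj (b i) y) (hyr : y ∈ rest x l)
    (hh : Heavy G (du g x l) y) : Cen G g (b i) := by
  have h1 := h.dual.e3 hG hB hC hi hy hyr hh
  rwa [h.du_du] at h1

end

end Pool.Agent.BLN
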