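import Pool.Agent.BLN.Ub
import Pool.Agent.BLN.LabE3

/-!
# The fields `e3`, `ub`, `bb` of `Loc`
-/

set_option autoImplicit false
set_option linter.unusedSectionVars false

namespace Pool.Agent.BLN

open Finset Pool.Agent.IVT Pool.BLE

variable {V : Type} [Fintype V] [DecidableEq V]
variable {G : SimpleGraph V} [DecidableRel G.Adj] {g : V → Bool} {x : V} {l a b : Fin 3 → V}

theorem IsK.heavy {w : V} (h : IsK G g x l a b w) : Heavy G g w := by
  rcases h.k with h1 | ⟨z, -, hz, h1⟩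
  · exact Or.inl h1
  · refine Or.inr (card_pos.2 ⟨z, ?_⟩)
    rw [mem_bad]
    exact ⟨hz, h1⟩

/-- The field `e3` of `Loc`. -/
theorem e3_all (hG : Deg13 G) (hB : NoBal3 G) (hC : C4Free G) : E3 G :=
  fun _ _ _ _ _ h _ _ hi hw hK => h.e3 hG hB hC hi hw hK.rest hK.heavy

/-- The field `ub` of `Loc`. -/
theorem ub_all (hG : Deg13 G) (hB : NoBal3 G) (hC : C4Free G) :
    ∀ (g : V → Bool) (x : V) (l a b : Fin 3 → V), Fr G g x l a b → ∀ i j w, a i ≠ x → a j ≠ x →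
    i ≠ j → G.Adj (a i) w → IsU G g x l a b w → G.Adj (a i) (b j) → Cen G g (b j) :=
  fun _ _ _ _ _ h _ _ _ hi hj hij hw hU hadj =>
    ub_of hG hB (e3_all hG hB hC) h hi hj hij hw hU hadj

/-- The field `bb` of `Loc`. -/
theorem bb_all (hG : Deg13 G) (hB : NoBal3 G) (hC : C4Free G) :
    ∀ (g : V → Bool) (x : V) (l a b : Fin 3 → V), Fr G g x l a b → ∀ i j k, a i ≠ x → a j ≠ x →
    a k ≠ x → i ≠ j → i ≠ k → j ≠ k → G.Adj (a i) (b j) → G.Adj (a i) (b k) → Cen G g (b j) :=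
  fun _ _ _ _ _ h _ _ _ hi hj hk hij hik hjk e1 e2 =>
    bb_of hG hC hB (e3_all hG hB hC) h hi hj hk hij hik hjk e1 e2

end Pool.Agent.BLN
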