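import Pool.Agent.BLN.Loc0
import Pool.Agent.BLN.CenB
import Pool.Agent.BLN.E3Loc

/-!
# Centres among the specials

`Fr.l5` : a dual centre `a i` next to two specials `b p`, `b q` gives the Petersen graph.
`Fr.r1_cen` : field `r1` of `Loc` from its ordinary form.
`Fr.aorb` : for a leaf `l j` which is neither a pendant nor in a triangle, `a j` is a dual centre or
`b j` is a centre.
No hypothesis on triangles.
-/

set_option autoImplicit false
set_option linter.unusedSectionVars false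

namespace Pool.Agent.BLN

open Finset Pool.Agent.IVT Pool.BLE

variable {V : Type} [Fintype V] [DecidableEq V] {G : SimpleGraph V} [DecidableRel G.Adj]
  {g : V → Bool} {x : V} {l a b : Fin 3 → V}

/-- The neighbours of a centre are not adjacent. -/
theorem Cen.nbr_nadj {u y z : V} (h : Cen G g u) (hy : G.Adj u y) (hz : G.Adj u z) :
    ¬ G.Adj y z := by
  intro hyz
  rcases h.leaf hy with h1 | ⟨m, t, nb, -, gt, -, -, -, hum⟩
  · have h2 : ({u, z} : Finset V) ⊆ G.neighborFinset y := by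
      intro w hw
      rw [mem_insert, mem_singleton] at hw
      rw [SimpleGraph.mem_neighborFinset]
      rcases hw with rfl | rfl
      · exact hy.symm
      · exact hyz
    have h3 := card_le_card h2
    rw [card_pair hz.ne, SimpleGraph.card_neighborFinset_eq_degree, h1] at h3
    omega
  · rcases (nb.adj z).1 hyz with h2 | h2 | h2
    · exact hz.ne h2.symm
    · exact hum (h2 ▸ hz)
    · have := h.nbr hz
      rw [h2, gt] at this
      exact absurd this (by decide)

theorem IsK.undual {w : V} (h : Fr G g x l a b) (hK : IsK G (du g x l) x l b a w) :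
    IsK G g x l a b w := by
  have h2 := hK.dual
  refine ⟨h2.rest, ?_, h2.na, h2.nb⟩
  have h3 := h2.k
  rwa [h.du_du] at h3

theorem Fr.l_ne_b (h : Fr G g x l a b) (i : Fin 3) {j : Fin 3} (hj : b j ≠ x) : l i ≠ b j := by
  intro h1
  exact (mem_rest.1 (h.star.b_rest j hj)).2 i h1.symm

theorem Fr.l_ne_a (h : Fr G g x l a b) (i : Fin 3) {j : Fin 3} (hj : a j ≠ x) : l i ≠ a j := by
  intro h1
  exact (mem_rest.1 (h.star.a_rest j hj)).2 i h1.symm

/-- A `K` vertex is not the third neighbour of a leaf. -/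
theorem Fr.not_third (_h : Fr G g x l a b) {u w y : V} (hc : Cen G g u) (hw : G.Adj u w)
    (gy : g y = false) (hwy : G.Adj w y) (hyu : y ≠ u) (hK : IsK G g x l a b y) : False := by
  rcases hc.leaf hw with h1 | ⟨m, t, nb, gm, gt, -, dt, ot, -⟩
  · have h2 : ({u, y} : Finset V) ⊆ G.neighborFinset w := by
      intro z hz
      rw [mem_insert, mem_singleton] at hz
      rw [SimpleGraph.mem_neighborFinset]
      rcases hz with rfl | rfl
      · exact hw.symm
      · exact hwy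
    have h3 := card_le_card h2
    rw [card_pair hyu.symm, SimpleGraph.card_neighborFinset_eq_degree, h1] at h3
    omega
  · rcases (nb.adj y).1 hwy with h2 | h2 | h2
    · exact hyu h2
    · rw [h2, gm] at gy
      exact absurd gy (by decide)
    · subst h2
      rcases hK.k with h3 | ⟨z, -, hz, h3⟩
      · omega
      · rw [ot z hz, gt] at h3
        exact absurd h3 (by decide)

/-- One step of `l5`. -/
theorem Fr.l5_aux (hG : Deg13 G) (h : Fr G g x l a b)
    {i p q : Fin 3} (hi : a i ≠ x) (hip : i ≠ p) (hiq : i ≠ q) (hpq : p ≠ q) (hp : a p ≠ x)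
    (hA : Cen G (du g x l) (a i)) (hBp : Cen G g (b p)) (e1 : G.Adj (a i) (b p)) :
    a q ≠ x ∧ Nb G (b p) (l p) (a i) (a q) := by
  have hbp := h.b_ne hp
  obtain ⟨y, nb⟩ := exists_nb23 G (h.star.deg_b p hbp) (h.nb_l p hp).az.symm e1.symm
    (h.l_ne_a p hi)
  rcases h.dual.nbr_a hG hbp nb.az nb.xz.symm with h1 | h1 | ⟨m, h1, h2⟩
  · exact (h.dual.not_isU_of_cen (by rw [h.du_du]; exact hBp) nb.az h1).elim
  · exfalso
    refine h.dual.not_third hA e1 ?_ nb.az nb.yz.symm h1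
    rw [du_rest h1.rest, h.b_all p hbp nb.az]
    rfl
  · subst h2
    rcases three hip hiq hpq m with rfl | rfl | rfl
    · exact absurd rfl nb.yz
    · exact absurd (h.nb_l m hp).ay (hBp.nbr_nadj nb.ax nb.az)
    · exact ⟨h1, nb⟩

/-- **L5.** A dual centre `a i` next to two specials `b p`, `b q` gives the Petersen graph. -/
theorem Fr.l5 (hG : Deg13 G) (hB : NoBal3 G) (hC : C4Free G) (hconn : G.Connected)
    (h : Fr G g x l a b) {i p q : Fin 3} (hi : a i ≠ x) (hip : i ≠ p) (hiq : i ≠ q) (hpq : p ≠ q)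
    (hp : a p ≠ x) (hq : a q ≠ x) (hA : Cen G (du g x l) (a i)) (e1 : G.Adj (a i) (b p))
    (e2 : G.Adj (a i) (b q)) : IsPet G := by
  have hbp := h.b_ne hp
  have hbq := h.b_ne hq
  have hbi := h.b_ne hi
  have Bp : Cen G g (b p) := h.bb hG hB hC hi hp hq hip hpq e1 e2
  have Bq : Cen G g (b q) := h.bb hG hB hC hi hq hp hiq hpq.symm e2 e1
  obtain ⟨-, nbp⟩ := h.l5_aux hG hi hip hiq hpq hp hA Bp e1
  obtain ⟨-, nbq⟩ := h.l5_aux hG hi hiq hip hpq.symm hq hA Bq e2
  have Ap : Cen G (du g x l) (a p) := h.dual.bb hG hB hC hbq hbp hbi hpq.symm hip.symm nbq.az nbq.ay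
  have Aq : Cen G (du g x l) (a q) := h.dual.bb hG hB hC hbp hbq hbi hpq hiq.symm nbp.az nbp.ay
  -- the third neighbour of `a p`
  have key : ∀ p q, i ≠ p → i ≠ q → p ≠ q → a p ≠ x → b q ≠ x → Cen G (du g x l) (a p) →
      Cen G g (b q) → Nb G (b p) (l p) (a i) (a q) → Nb G (b q) (l q) (a i) (a p) →
      G.Adj (a p) (b i) := by
    intro p q hip hiq hpq hp hbq Ap Bq nbp nbq
    obtain ⟨z, nb⟩ := exists_nb23 G (h.star.deg_a p hp) (h.nb_l p hp).ay.symm nbq.az.symm
      (h.l_ne_b p hbq)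
    rcases h.nbr_a hG hp nb.az nb.xz.symm with h1 | h1 | ⟨m, h1, h2⟩
    · exact (h.not_isU_of_cen Ap nb.az h1).elim
    · exfalso
      refine h.not_third Bq nbq.az ?_ nb.az nb.yz.symm h1
      cases h2 : g z
      · rfl
      · exact absurd (h.a_true p hp nb.az h2) nb.xz.symm
    · subst h2
      rcases three hip hiq hpq m with rfl | rfl | rfl
      · exact nb.az
      · exfalso
        rcases (nbp.adj (a m)).1 nb.az.symm with h2 | h2 | h2
        · exact h.l_ne_a m hp h2.symm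
        · exact hip (h.star.a_inj m i h2 hp).symm
        · exact hpq (h.star.a_inj m q h2 hp)
      · exact absurd rfl nb.yz
  have e3 := key p q hip hiq hpq hp hbq Ap Bq nbp nbq
  have e4 := key q p hiq hip hpq.symm hq hbp Aq Bp nbq nbp
  exact h.hex_pet hconn (hexP_of hip hiq hpq hi hp hq e1 e2 e3 nbq.az.symm e4 nbp.az.symm)

/-- A dual centre `a i` has an ordinary `K` neighbour or the graph is the Petersen graph. -/
theorem Fr.cen_k (hG : Deg13 G) (hB : NoBal3 G) (hC : C4Free G) (hconn : G.Connected)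
    (hpet : ¬ IsPet G) (h : Fr G g x l a b) {i : Fin 3} (hi : a i ≠ x)
    (hA : Cen G (du g x l) (a i)) : ∃ w, G.Adj (a i) w ∧ IsK G g x l a b w := by
  obtain ⟨y, z, nb⟩ := exists_nb3 G (h.star.deg_a i hi) (h.nb_l i hi).ay.symm
  have key : ∀ w, G.Adj (a i) w → w ≠ l i → (∃ w, G.Adj (a i) w ∧ IsK G g x l a b w) ∨
      ∃ j, i ≠ j ∧ a j ≠ x ∧ w = b j := by
    intro w hw hne
    rcases h.nbr_a hG hi hw hne with h1 | h1 | ⟨j, h1, h2⟩
    · exact (h.not_isU_of_cen hA hw h1).elim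
    · exact Or.inl ⟨w, hw, h1⟩
    · refine Or.inr ⟨j, ?_, fun h3 => h1 ((h.star.a_eq_iff j).1 h3), h2⟩
      rintro rfl
      subst h2
      exact hA.nbr_nadj (h.nb_l i hi).ay.symm hw (h.nb_l i hi).az
  rcases key y nb.ay nb.xy.symm with h1 | ⟨p, hip, hp, h1⟩
  · exact h1
  rcases key z nb.az nb.xz.symm with h2 | ⟨q, hiq, hq, h2⟩
  · exact h2
  subst h1 h2
  have hpq : p ≠ q := by
    rintro rfl
    exact nb.yz rfl
  exact absurd (h.l5 hG hB hC hconn hi hip hiq hpq hp hq hA nb.ay nb.az) hpet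

/-- **R1**, from its ordinary form. -/
theorem Fr.r1_cen (hG : Deg13 G) (hB : NoBal3 G) (hC : C4Free G) (hconn : G.Connected)
    (hpet : ¬ IsPet G)
    (R1 : ∀ (g : V → Bool) (x : V) (l a b : Fin 3 → V), Fr G g x l a b → ∀ i j v w, a i ≠ x →
      a j ≠ x → i ≠ j → G.Adj (a i) v → IsK G g x l a b v → G.Adj (b j) w →
      IsK G (du g x l) x l b a w → False)
    (h : Fr G g x l a b) {i j : Fin 3} (hi : a i ≠ x) (hj : a j ≠ x) (hij : i ≠ j)
    (hA : Cen G (du g x l) (a i)) (hBj : Cen G g (b j)) : False := by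
  obtain ⟨v, hv, kv⟩ := h.cen_k hG hB hC hconn hpet hi hA
  obtain ⟨w, hw, kw⟩ := h.dual.cen_k hG hB hC hconn hpet (h.b_ne hj) (by rw [h.du_du]; exact hBj)
  exact R1 g x l a b h i j v w hi hj hij hv kv hw kw

/-- A special `a i`, not next to `b i`, with two `U` neighbours: `b i` is a centre. -/
theorem Fr.r2uu (hG : Deg13 G) (hB : NoBal3 G) (hC : C4Free G)
    (uu : ∀ (g : V → Bool) (x : V) (l a b : Fin 3 → V), Fr G g x l a b → ∀ i w w', a i ≠ x →
      w ≠ w' → G.Adj (a i) w → G.Adj (a i) w' → IsU G g x l a b w → IsU G g x l a b w' →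
      Cen G g w)
    (h : Fr G g x l a b) {i : Fin 3} (hi : a i ≠ x) (ho : ¬ G.Adj (a i) (b i))
    {u u' : V} (hne : u ≠ u') (hu : G.Adj (a i) u) (hu' : G.Adj (a i) u')
    (hU : IsU G g x l a b u) (hU' : IsU G g x l a b u') : Cen G g (b i) := by
  have hbi : b i ≠ x := h.b_ne hi
  have hcu : Cen G g u := uu g x l a b h i u u' hi hne hu hu' hU hU'
  obtain ⟨l', a', b', hf⟩ := hcu
  have hcu : Cen G g u := ⟨_, _, _, hf⟩
  obtain ⟨p, hp, hli, hp'⟩ := h.frame_at hi hf hu
  have hux : u ≠ x := (mem_rest.1 hU.rest).1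
  -- `x` is `U` at the frame of `u`
  have hxl : x ≠ u := Ne.symm hux
  have hlu : ∀ q, x ≠ l' q := by
    intro q h'
    have := hf.gl q
    rw [← h', h.gx] at this
    exact absurd this (by decide)
  have hxU : IsU G g u l' a' b' x := by
    refine ⟨mem_rest.2 ⟨hxl, hlu⟩, h.star.deg_x, fun z _ hz => ?_, fun q h' => ?_, fun q h' => ?_⟩
    · rw [h.nbr hz, h.gx]
      decide
    · have h1 : a' q ≠ u := h' ▸ hxl
      have h2 := hf.star.ca q h1
      rw [← h', h.gx] at h2
      exact absurd h2 (by decide)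
    · have h1 : b' q ≠ u := h' ▸ hxl
      have h2 : a' q ≠ u := fun h3 => h1 ((hf.star.a_eq_iff q).1 h3)
      have h3 := (hf.nb_l q h2).az
      rw [← h'] at h3
      obtain ⟨j, hj⟩ := (h.star.nx _).1 h3.symm
      have h4 : G.Adj u (l j) := by
        rw [← hj]
        exact (hf.star.nx _).2 ⟨q, rfl⟩
      exact hU.nb j (h.l_false j h4.symm hcu.gfalse hux).1
  have e1 : G.Adj (a' p) x := hli ▸ (h.nb_l i hi).ax
  have e2 : G.Adj (a' p) (b i) := hli ▸ (h.nb_l i hi).az
  have hne2 : b i ≠ l' p := by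
    rw [hp]
    exact (h.star.a_ne_b' i hi i).symm
  rcases hf.nbr_a hG hp' e2 hne2 with h1 | h1 | ⟨q, h1, h2⟩
  · exact uu g u l' a' b' hf p (b i) x hp' hbi e2 e1 h1 hxU
  · exfalso
    rcases h1.k with h2 | ⟨z, -, hz, h2⟩
    · have := h.star.deg_b i hbi
      omega
    · rw [h.b_all i hbi hz, h.star.cb i hbi] at h2
      exact absurd h2 (by decide)
  · have hq : a' q ≠ u := fun h3 => h1 ((hf.star.a_eq_iff q).1 h3)
    have hpq : p ≠ q := by
      rintro rfl
      have h3 := (hf.nb_l p hp').az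
      rw [← h2, hp] at h3
      exact ho h3
    rw [h2] at e2 ⊢
    exact hf.ub hG hB hC hp' hq hpq e1 hxU e2

/-- The case `a j = {U, b m}`, `b j = {U, a m}` of `aorb`. -/
theorem Fr.aorb_aux (hG : Deg13 G) (hB : NoBal3 G) (hC : C4Free G) (hconn : G.Connected)
    (hpet : ¬ IsPet G) (h : Fr G g x l a b) {j m : Fin 3} (hj : a j ≠ x) (hm : a m ≠ x)
    (hjm : j ≠ m) (hA : Cen G (du g x l) (a m)) (hBm : Cen G g (b m)) {v : V}
    (e2 : G.Adj (b j) (a m)) (hv : G.Adj (b j) v)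
    (hU : IsU G (du g x l) x l b a v) : False := by
  obtain ⟨n, hn, kn⟩ := h.cen_k hG hB hC hconn hpet hm hA
  have hbj := h.b_ne hj
  have hbm := h.b_ne hm
  have gn : g n = false := by
    cases h1 : g n
    · rfl
    · exact absurd (h.a_true m hm hn h1) (fun h2 => (mem_rest.1 kn.rest).2 m h2)
  obtain ⟨l', a', b', hf⟩ := hBm
  have hBm : Cen G g (b m) := ⟨_, _, _, hf⟩
  obtain ⟨p, hp⟩ := (hf.star.nx _).1 (h.nb_l m hm).az.symm
  have hp' : a' p ≠ b m := by
    intro h'
    have h1 := hf.star.deg_pl p h'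
    rw [← hp, h.star.deg_l m hm] at h1
    omega
  have hap : a' p = a m := by
    refine (hf.l_true p hp' ?_ (h.star.ca m hm)).symm
    rw [← hp]
    exact (h.nb_l m hm).ay
  -- `n` is `K` at the frame of `b m`
  have hfalse : ∀ z, g z = false → z ≠ b m → z ∈ rest (b m) l' := by
    intro z hz hne
    refine mem_rest.2 ⟨hne, fun s h1 => ?_⟩
    rw [h1, hf.gl] at hz
    exact absurd hz (by decide)
  have hnb : n ≠ b m := kn.nb m
  have hk : G.degree n = 1 ∨ ∃ z ∈ rest (b m) l', G.Adj n z ∧ g z = g n := by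
    rcases kn.k with h3 | ⟨z, hz, hz1, hz2⟩
    · exact Or.inl h3
    · right
      refine ⟨z, hfalse z (by rw [hz2, gn]) ?_, hz1, hz2⟩
      rintro rfl
      rw [h.b_all m hbm hz1.symm] at gn
      exact absurd gn (by decide)
  have hnK : IsK G g (b m) l' a' b' n := by
    refine ⟨hfalse n gn hnb, hk, fun s h3 => ?_, fun s h3 => ?_⟩
    · have h4 : a' s ≠ b m := h3 ▸ hnb
      rw [h3, hf.star.ca s h4] at gn
      exact absurd gn (by decide)
    · have h4 : b' s ≠ b m := h3 ▸ hnb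
      rcases hk with h5 | ⟨z, -, hz1, hz2⟩
      · rw [h3, hf.star.deg_b s h4] at h5
        omega
      · rw [h3] at hz1
        rw [gn, hf.b_all s h4 hz1] at hz2
        exact absurd hz2 (by decide)
  have hAm : Cen G (du g (b m) l') (a' p) := e3_all hG hB hC g (b m) l' a' b' hf p n hp'
    (by rw [hap]; exact hn) hnK
  rw [hap] at hAm
  rcases hAm.leaf e2.symm with h1 | ⟨t, s, nb, gt, -⟩
  · have := h.star.deg_b j hbj
    omega
  · -- the mate `t` of `b j` is a leaf of `b m`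
    have htg : g t = true := h.b_all j hbj nb.ay
    have htl : G.Adj (b m) t := (hf.du_true_iff htg).1 gt
    -- the neighbours of `b j`
    have hneq : v ≠ l j := (mem_rest.1 hU.rest).2 j
    have hnv : v ≠ a m := hU.nb m
    have nb2 := nb_of_three3 G (h.star.deg_b j hbj) (h.nb_l j hj).az.symm e2 hv
      (h.l_ne_a j hm) hneq.symm hnv.symm
    rcases (nb2.adj t).1 nb.ay with h2 | h2 | h2
    · -- `t = l j`
      rw [h2] at htl
      rcases (h.star.nl j (b m)).1 htl.symm with h3 | h3 | h3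
      · exact hbm h3
      · exact h.star.a_ne_b' j hj m h3.symm
      · exact hjm (h.star.b_inj m j h3 hbm).symm
    · exact nb.xy h2.symm
    · rw [h2] at htl
      exact h.dual.not_isU_of_cen (by rw [h.du_du]; exact hBm) htl hU

/-- **A or B.** -/
theorem Fr.aorb (hG : Deg13 G) (hB : NoBal3 G) (hC : C4Free G) (hconn : G.Connected)
    (hpet : ¬ IsPet G)
    (uu : ∀ (g : V → Bool) (x : V) (l a b : Fin 3 → V), Fr G g x l a b → ∀ i w w', a i ≠ x →
      w ≠ w' → G.Adj (a i) w → G.Adj (a i) w' → IsU G g x l a b w → IsU G g x l a b w' →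
      Cen G g w)
    (R1 : ∀ (g : V → Bool) (x : V) (l a b : Fin 3 → V), Fr G g x l a b → ∀ i j v w, a i ≠ x →
      a j ≠ x → i ≠ j → G.Adj (a i) v → IsK G g x l a b v → G.Adj (b j) w →
      IsK G (du g x l) x l b a w → False)
    (h : Fr G g x l a b) {j : Fin 3} (hj : a j ≠ x) (ho : ¬ G.Adj (a j) (b j)) :
    Cen G (du g x l) (a j) ∨ Cen G g (b j) := by
  by_contra hcon
  push Not at hcon
  obtain ⟨nA, nB⟩ := hcon
  have hbj := h.b_ne hj
  have r1 : ∀ p q, a p ≠ x → a q ≠ x → p ≠ q → Cen G (du g x l) (a p) → Cen G g (b q) → False :=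
    fun p q hp hq hpq h1 h2 => h.r1_cen hG hB hC hconn hpet R1 hp hq hpq h1 h2
  -- types at `a j`
  have tA : ∀ w, G.Adj (a j) w → w ≠ l j → IsU G g x l a b w ∨ ∃ m, j ≠ m ∧ a m ≠ x ∧ w = b m := by
    intro w hw hne
    rcases h.nbr_a hG hj hw hne with h1 | h1 | ⟨m, h1, h2⟩
    · exact Or.inl h1
    · exact absurd (e3_all hG hB hC g x l a b h j w hj hw h1) nA
    · refine Or.inr ⟨m, ?_, fun h3 => h1 ((h.star.a_eq_iff m).1 h3), h2⟩
      rintro rfl
      exact ho (h2 ▸ hw)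
  have tB : ∀ w, G.Adj (b j) w → w ≠ l j →
      IsU G (du g x l) x l b a w ∨ ∃ m, j ≠ m ∧ a m ≠ x ∧ w = a m := by
    intro w hw hne
    rcases h.dual.nbr_a hG hbj hw hne with h1 | h1 | ⟨m, h1, h2⟩
    · exact Or.inl h1
    · have h2 := e3_all hG hB hC _ x l b a h.dual j w hbj hw h1
      rw [h.du_du] at h2
      exact absurd h2 nB
    · refine Or.inr ⟨m, ?_, h1, h2⟩
      rintro rfl
      exact ho (h2 ▸ hw).symm
  -- either `a j` is next to two `b`, or to one `b` and a `U` vertex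
  have sA : ∃ m, j ≠ m ∧ a m ≠ x ∧ G.Adj (a j) (b m) ∧ Cen G g (b m) := by
    obtain ⟨y, z, nb⟩ := exists_nb3 G (h.star.deg_a j hj) (h.nb_l j hj).ay.symm
    rcases tA y nb.ay nb.xy.symm with h1 | ⟨m, hjm, hm, h1⟩
    · rcases tA z nb.az nb.xz.symm with h2 | ⟨n, hjn, hn, h2⟩
      · exact absurd (h.r2uu hG hB hC uu hj ho nb.yz nb.ay nb.az h1 h2) nB
      · exact ⟨n, hjn, hn, h2 ▸ nb.az, h.ub hG hB hC hj hn hjn nb.ay h1 (h2 ▸ nb.az)⟩
    · rcases tA z nb.az nb.xz.symm with h2 | ⟨n, hjn, hn, h2⟩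
      · exact ⟨m, hjm, hm, h1 ▸ nb.ay, h.ub hG hB hC hj hm hjm nb.az h2 (h1 ▸ nb.ay)⟩
      · have hmn : m ≠ n := by
          rintro rfl
          exact nb.yz (h1.trans h2.symm)
        exact ⟨m, hjm, hm, h1 ▸ nb.ay, h.bb hG hB hC hj hm hn hjm hmn (h1 ▸ nb.ay) (h2 ▸ nb.az)⟩
  obtain ⟨m, hjm, hm, e1, Bm⟩ := sA
  -- the same at `b j`
  obtain ⟨y, z, nb⟩ := exists_nb3 G (h.star.deg_b j hbj) (h.nb_l j hj).az.symm
  have fin : ∀ y z, G.Adj (b j) y → G.Adj (b j) z → IsU G (du g x l) x l b a y →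
      (∃ n, j ≠ n ∧ a n ≠ x ∧ z = a n) → False := by
    rintro y z hy hz hU ⟨n, hjn, hn, rfl⟩
    have An : Cen G (du g x l) (a n) := h.dual.ub hG hB hC hbj (h.b_ne hn) hjn hy hU hz
    by_cases hmn : n = m
    · subst hmn
      exact h.aorb_aux hG hB hC hconn hpet hj hn hjn An Bm hz hy hU
    · exact r1 n m hn hm hmn An Bm
  rcases tB y nb.ay nb.xy.symm with h1 | h1
  · rcases tB z nb.az nb.xz.symm with h2 | h2
    · have hd := h.dual.r2uu hG hB hC uu hbj (fun h' => ho h'.symm) nb.yz nb.ay nb.az h1 h2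
      exact nA hd
    · exact fin y z nb.ay nb.az h1 h2
  · rcases tB z nb.az nb.xz.symm with h2 | h2
    · exact fin z y nb.az nb.ay h2 h1
    · obtain ⟨p, hjp, hp, h1⟩ := h1
      obtain ⟨q, hjq, hq, h2⟩ := h2
      subst h1 h2
      have hpq : p ≠ q := by
        rintro rfl
        exact nb.yz rfl
      have Ap : Cen G (du g x l) (a p) :=
        h.dual.bb hG hB hC hbj (h.b_ne hp) (h.b_ne hq) hjp hpq nb.ay nb.az
      have Aq : Cen G (du g x l) (a q) :=
        h.dual.bb hG hB hC hbj (h.b_ne hq) (h.b_ne hp) hjq hpq.symm nb.az nb.ay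
      by_cases hpm : p = m
      · exact r1 q m hq hm (fun h' => hpq (hpm.trans h'.symm)) Aq Bm
      · exact r1 p m hp hm hpm Ap Bm

end Pool.Agent.BLN
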