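import Pool.Agent.BLN.LT

/-!
# The local facts with the path lemma only for specials with two `U` neighbours

`Loc0` is `Loc` with `mp` replaced by `uu`. `Loc0.mp` : the field `mp` of `Loc` follows.
-/

set_option autoImplicit false
set_option linter.unusedSectionVars false

namespace Pool.Agent.BLN

open Finset Pool.Agent.IVT Pool.BLE

variable {V : Type} [Fintype V] [DecidableEq V]

/-- The local facts, for all frames; `uu` instead of `mp`. -/
structure Loc0 (G : SimpleGraph V) [DecidableRel G.Adj] : Prop where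
  /-- a special next to an ordinary `K` vertex or pendant is a dual centre -/
  e3 : ∀ (g : V → Bool) (x : V) (l a b : Fin 3 → V), Fr G g x l a b → ∀ i w, a i ≠ x →
    G.Adj (a i) w → IsK G g x l a b w → Cen G (du g x l) (a i)
  /-- the `U` neighbours of a special with two `U` neighbours are centres -/
  uu : ∀ (g : V → Bool) (x : V) (l a b : Fin 3 → V), Fr G g x l a b → ∀ i w w', a i ≠ x →
    w ≠ w' → G.Adj (a i) w → G.Adj (a i) w' → IsU G g x l a b w → IsU G g x l a b w' →
    Cen G g w
  /-- a special `a i` next to a `U` vertex and to `b j`: `b j` is a centre -/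
  ub : ∀ (g : V → Bool) (x : V) (l a b : Fin 3 → V), Fr G g x l a b → ∀ i j w, a i ≠ x → a j ≠ x →
    i ≠ j → G.Adj (a i) w → IsU G g x l a b w → G.Adj (a i) (b j) → Cen G g (b j)
  /-- a special `a i` next to `b j` and `b k`: `b j` is a centre -/
  bb : ∀ (g : V → Bool) (x : V) (l a b : Fin 3 → V), Fr G g x l a b → ∀ i j k, a i ≠ x → a j ≠ x →
    a k ≠ x → i ≠ j → i ≠ k → j ≠ k → G.Adj (a i) (b j) → G.Adj (a i) (b k) → Cen G g (b j)
  r1 : ∀ (g : V → Bool) (x : V) (l a b : Fin 3 → V), Fr G g x l a b → ∀ i j, a i ≠ x → a j ≠ x →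
    i ≠ j → Cen G (du g x l) (a i) → Cen G g (b j) → False
  o : ∀ (g : V → Bool) (x : V) (l a b : Fin 3 → V), Fr G g x l a b → ∀ i, a i ≠ x →
    ¬ G.Adj (a i) (b i)

variable {G : SimpleGraph V} [DecidableRel G.Adj] {g : V → Bool} {x : V} {l a b : Fin 3 → V}

/-- A neighbour of a dual centre is not `U`. -/
theorem Fr.not_isU_of_cen (h : Fr G g x l a b) {v w : V} (hv : Cen G (du g x l) v)
    (hw : G.Adj v w) (hU : IsU G g x l a b w) : False := by
  rcases hv.leaf hw with h1 | ⟨m, t, hnb, h1, -⟩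
  · have := hU.deg
    omega
  · have hwm := hnb.ay
    have gw : du g x l w = true := hv.nbr hw
    rw [du_rest hU.rest] at gw
    rcases h.star.cases m with rfl | ⟨j, rfl⟩ | hm
    · obtain ⟨j, hj⟩ := (h.star.nx _).1 hwm.symm
      exact (mem_rest.1 hU.rest).2 j hj
    · rcases (h.star.nl j w).1 hwm.symm with h2 | h2 | h2
      · exact (mem_rest.1 hU.rest).1 h2
      · exact hU.na j h2
      · exact hU.nb j h2
    · rw [du_rest hm] at h1
      refine hU.own m hm hwm ?_
      have h2 : g m = false := by simpa using h1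
      have h3 : g w = false := by simpa using gw
      rw [h2, h3]

/-- The frame at a centre `u` next to `a i`. -/
theorem Fr.frame_at (h : Fr G g x l a b) {i : Fin 3} (hi : a i ≠ x) {u : V}
    {l' a' b' : Fin 3 → V} (hf : Fr G g u l' a' b') (hu : G.Adj (a i) u) :
    ∃ p, l' p = a i ∧ a' p = l i ∧ a' p ≠ u := by
  obtain ⟨p, hp⟩ := (hf.star.nx _).1 hu.symm
  have hp' : a' p ≠ u := by
    intro h'
    have h1 := hf.star.deg_pl p h'
    rw [← hp, h.star.deg_a i hi] at h1
    omega
  refine ⟨p, hp.symm, ?_, hp'⟩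
  refine (hf.l_true p hp' ?_ (h.gl i)).symm
  rw [← hp]
  exact (h.nb_l i hi).ay.symm

/-- A special `a i` with two `U` neighbours: `b i` is a centre. -/
theorem Loc0.r2 (hG : Deg13 G) (loc : Loc0 G) (h : Fr G g x l a b) {i : Fin 3} (hi : a i ≠ x)
    {u u' : V} (hne : u ≠ u') (hu : G.Adj (a i) u) (hu' : G.Adj (a i) u')
    (hU : IsU G g x l a b u) (hU' : IsU G g x l a b u') : Cen G g (b i) := by
  have hbi : b i ≠ x := fun h' => hi ((h.star.a_eq_iff i).2 h')
  have hcu : Cen G g u := loc.uu g x l a b h i u u' hi hne hu hu' hU hU'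
  obtain ⟨l', a', b', hf⟩ := hcu
  have hcu : Cen G g u := ⟨_, _, _, hf⟩
  obtain ⟨p, hp, hli, hp'⟩ := h.frame_at hi hf hu
  have hux : u ≠ x := (mem_rest.1 hU.rest).1
  -- `x` is `U` at the frame of `u`
  have hxl : x ≠ u := Ne.symm hux
  have hlu : ∀ q, x ≠ l' q := by
    intro q h'
    have := hf.gl q
    rw [← h', h.gx] at this
    exact absurd this (by decide)
  have hxU : IsU G g u l' a' b' x := by
    refine ⟨mem_rest.2 ⟨hxl, hlu⟩, h.star.deg_x, fun z _ hz => ?_, fun q h' => ?_, fun q h' => ?_⟩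
    · rw [h.nbr hz, h.gx]
      decide
    · have h1 : a' q ≠ u := h' ▸ hxl
      have h2 := hf.star.ca q h1
      rw [← h', h.gx] at h2
      exact absurd h2 (by decide)
    · have h1 : b' q ≠ u := h' ▸ hxl
      have h2 : a' q ≠ u := fun h3 => h1 ((hf.star.a_eq_iff q).1 h3)
      have h3 := (hf.nb_l q h2).az
      rw [← h'] at h3
      obtain ⟨j, hj⟩ := (h.star.nx _).1 h3.symm
      have h4 : G.Adj u (l j) := by
        rw [← hj]
        exact (hf.star.nx _).2 ⟨q, rfl⟩
      exact hU.nb j (h.l_false j h4.symm hcu.gfalse hux).1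
  have e1 : G.Adj (a' p) x := hli ▸ (h.nb_l i hi).ax
  have e2 : G.Adj (a' p) (b i) := hli ▸ (h.nb_l i hi).az
  have hne2 : b i ≠ l' p := by
    rw [hp]
    exact (h.star.a_ne_b' i hi i).symm
  rcases hf.nbr_a hG hp' e2 hne2 with h1 | h1 | ⟨q, h1, h2⟩
  · exact loc.uu g u l' a' b' hf p (b i) x hp' hbi e2 e1 h1 hxU
  · exfalso
    rcases h1.k with h2 | ⟨z, -, hz, h2⟩
    · have := h.star.deg_b i hbi
      omega
    · rw [h.b_all i hbi hz, h.star.cb i hbi] at h2
      exact absurd h2 (by decide)
  · have hq : a' q ≠ u := fun h3 => h1 ((hf.star.a_eq_iff q).1 h3)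
    have hpq : p ≠ q := by
      rintro rfl
      have h3 := (hf.nb_l p hp').az
      rw [← h2, hp] at h3
      exact loc.o g x l a b h i hi h3
    rw [h2] at e2 ⊢
    exact loc.ub g u l' a' b' hf p q x hp' hq hpq e1 hxU e2

/-- A `U` vertex next to a special is a centre. -/
theorem Loc0.mp (hG : Deg13 G) (loc : Loc0 G) (h : Fr G g x l a b) {i : Fin 3} {w : V}
    (hi : a i ≠ x) (hw : G.Adj (a i) w) (hU : IsU G g x l a b w) : Cen G g w := by
  have hwx : w ≠ x := (mem_rest.1 hU.rest).1
  have gw : g w = false := by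
    cases h1 : g w
    · rfl
    · exfalso
      have h2 := h.a_true i hi hw h1
      exact (mem_rest.1 hU.rest).2 i h2
  have hwl : l i ≠ w := fun h' => (mem_rest.1 hU.rest).2 i h'.symm
  -- the third neighbour of `a i`
  obtain ⟨w', nba⟩ := exists_nb23 G (h.star.deg_a i hi) (h.nb_l i hi).ay.symm hw hwl
  rcases h.nbr_a hG hi nba.az nba.xz.symm with h1 | h1 | ⟨j, hbj, h1⟩
  · exact loc.uu g x l a b h i w w' hi nba.yz hw nba.az hU h1
  · exact (h.not_isU_of_cen (loc.e3 g x l a b h i w' hi nba.az h1) hw hU).elim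
  subst h1
  have hj : a j ≠ x := fun h3 => hbj ((h.star.a_eq_iff j).1 h3)
  have hij : i ≠ j := by
    rintro rfl
    exact loc.o g x l a b h i hi nba.az
  -- the frame at `b j`
  have hcb : Cen G g (b j) := loc.ub g x l a b h i j w hi hj hij hw hU nba.az
  obtain ⟨l', a', b', hf⟩ := hcb
  obtain ⟨p, hlp, hap, hp⟩ := h.frame_at hi hf nba.az
  have hlj : G.Adj (b j) (l j) := (h.nb_l j hj).az.symm
  obtain ⟨q, hlq⟩ := (hf.star.nx _).1 hlj
  have hq : a' q ≠ b j := by
    intro h'
    have h1 := hf.star.deg_pl q h'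
    rw [← hlq, h.star.deg_l j hj] at h1
    omega
  have haq : a' q = a j := by
    refine (hf.l_true q hq ?_ (h.star.ca j hj)).symm
    rw [← hlq]
    exact (h.nb_l j hj).ay
  have hbq' : b' q = x := by
    refine (hf.l_false q ?_ h.gx hbj.symm).1.symm
    rw [← hlq]
    exact (h.nb_l j hj).ax
  have hbp : b' p = w := by
    refine (hf.l_false p ?_ gw nba.yz).1.symm
    rw [hlp]
    exact hw
  have hpq : p ≠ q := by
    rintro rfl
    rw [hlp] at hlq
    exact (mem_rest.1 (h.star.a_rest i hi)).2 j hlq.symm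
  have hbp' : b' p ≠ b j := fun h' => hp ((hf.star.a_eq_iff p).2 h')
  have hBq : Cen G g (b' q) := by rw [hbq']; exact ⟨_, _, _, h⟩
  -- `a' p` and `a' r` are not dual centres
  have nA : ∀ r, r ≠ q → a' r ≠ b j → ¬ Cen G (du g (b j) l') (a' r) := fun r hr hr' hc =>
    loc.r1 g _ l' a' b' hf r q hr' hq hr hc hBq
  have hd := hf.dual
  -- a neighbour of `w`
  have hlw : G.Adj w (l' p) := by rw [hlp]; exact hw.symm
  obtain ⟨y, z, nbw⟩ := exists_nb3 G hU.deg hlw
  rw [← hbp]
  have ey : G.Adj (b' p) y := by rw [hbp]; exact nbw.ay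
  have ez : G.Adj (b' p) z := by rw [hbp]; exact nbw.az
  -- the types of `y` and `z`
  have key : ∀ v, G.Adj (b' p) v → v ≠ l' p → Cen G g (b' p) ∨
      IsU G (du g (b j) l') (b j) l' b' a' v ∨ ∃ m, p ≠ m ∧ a' m ≠ b j ∧ v = a' m := by
    intro v hv hne
    rcases hd.nbr_a hG hbp' hv hne with h1 | h1 | ⟨m, h1, h2⟩
    · exact Or.inr (Or.inl h1)
    · left
      have h2 := loc.e3 _ _ l' b' a' hd p v hbp' hv h1
      rwa [hf.du_du] at h2
    · refine Or.inr (Or.inr ⟨m, ?_, h1, h2⟩)
      rintro rfl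
      rw [h2] at hv
      exact loc.o g _ l' a' b' hf p hp hv.symm
  -- the case of a `U` neighbour and `a' m`
  have mixed : ∀ v m, G.Adj (b' p) v → IsU G (du g (b j) l') (b j) l' b' a' v → p ≠ m →
      a' m ≠ b j → G.Adj (b' p) (a' m) → Cen G g (b' p) := by
    intro v m hv hvU hpm hm hadj
    have hbm : b' m ≠ b j := fun h' => hm ((hf.star.a_eq_iff m).2 h')
    have hcm : Cen G (du g (b j) l') (a' m) :=
      loc.ub _ _ l' b' a' hd p m v hbp' hbm hpm hv hvU hadj
    by_cases hmq : m = q
    · subst hmq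
      -- the third neighbour of `a j`
      have e1 : G.Adj (a' m) (l' m) := (hf.nb_l m hm).ay.symm
      have hne : l' m ≠ b' p := fun h' => (mem_rest.1 (hf.star.b_rest p hbp')).2 m h'.symm
      obtain ⟨t, nbt⟩ := exists_nb23 G (hf.star.deg_a m hm) e1 hadj.symm hne
      rcases hf.nbr_a hG hm nbt.az nbt.xz.symm with h1 | h1 | ⟨r, h1, h2⟩
      · exact (hf.not_isU_of_cen hcm nbt.az h1).elim
      · -- `a j` is a dual centre at `x`
        exfalso
        have htr : t ∈ rest (b j) l' := h1.rest
        have gt : g t = false := by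
          cases h3 : g t
          · rfl
          · exact absurd (hf.a_true m hm nbt.az h3) nbt.xz.symm
        have eat : G.Adj (a j) t := by rw [← haq]; exact nbt.az
        have htl : t ≠ l j := by
          intro h3
          rw [h3, h.gl] at gt
          exact absurd gt (by decide)
        have htK : IsK G g x l a b t := by
          have hadjx : ¬ G.Adj x t := by
            intro h3
            rw [h.nbr h3] at gt
            exact absurd gt (by decide)
          have htx : t ≠ x := by
            rintro rfl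
            exact h.x_ne_nbr_a j hj eat
          have htr' : t ∈ rest x l := by
            rw [mem_rest]
            exact ⟨htx, fun s h3 => hadjx (h3 ▸ (h.star.nx _).2 ⟨s, rfl⟩)⟩
          have hk : G.degree t = 1 ∨ ∃ z ∈ rest x l, G.Adj t z ∧ g z = g t := by
            rcases h1.k with h3 | ⟨z, hz, hz1, hz2⟩
            · exact Or.inl h3
            · right
              refine ⟨z, ?_, hz1, hz2⟩
              rw [gt] at hz2
              rw [mem_rest]
              refine ⟨?_, fun s h3 => ?_⟩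
              · rintro rfl
                exact hadjx hz1.symm
              · rw [h3, h.gl] at hz2
                exact absurd hz2 (by decide)
          refine ⟨htr', hk, fun s h3 => ?_, fun s h3 => ?_⟩
          · have h4 : a s ≠ x := h3 ▸ htx
            rw [h3, h.star.ca s h4] at gt
            exact absurd gt (by decide)
          · have h4 : b s ≠ x := h3 ▸ htx
            rcases hk with h5 | ⟨z, -, hz1, hz2⟩
            · rw [h3, h.star.deg_b s h4] at h5
              omega
            · rw [h3] at hz1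
              rw [gt, h.b_all s h4 hz1] at hz2
              exact absurd hz2 (by decide)
        have h3 := loc.e3 g x l a b h j t hj eat htK
        refine h.not_isU_of_cen h3 ?_ hU
        rw [← haq, ← hbp]
        exact hadj.symm
      · subst h2
        have hr : a' r ≠ b j := fun h3 => h1 ((hf.star.a_eq_iff r).1 h3)
        have hmr : m ≠ r := by
          rintro rfl
          exact loc.o g _ l' a' b' hf m hm nbt.az
        have hpr : p ≠ r := by
          rintro rfl
          exact nbt.yz rfl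
        exact loc.bb g _ l' a' b' hf m p r hm hp hr (Ne.symm hpm) hmr hpr hadj.symm nbt.az
    · exact (nA m hmq hm hcm).elim
  rcases key y ey nbw.xy.symm with h1 | h1 | ⟨m, hpm, hm, h1⟩
  · exact h1
  · rcases key z ez nbw.xz.symm with h2 | h2 | ⟨n, hpn, hn, h2⟩
    · exact h2
    · exact (nA p hpq hp (loc.r2 hG hd hbp' nbw.yz ey ez h1 h2)).elim
    · exact mixed y n ey h1 hpn hn (h2 ▸ ez)
  · rcases key z ez nbw.xz.symm with h2 | h2 | ⟨n, hpn, hn, h2⟩
    · exact h2
    · exact mixed z m ez h2 hpm hm (h1 ▸ ey)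
    · exfalso
      have hmn : m ≠ n := by
        rintro rfl
        exact nbw.yz (h1.trans h2.symm)
      have hbm : b' m ≠ b j := fun h' => hm ((hf.star.a_eq_iff m).2 h')
      have hbn : b' n ≠ b j := fun h' => hn ((hf.star.a_eq_iff n).2 h')
      have h3 := loc.bb _ _ l' b' a' hd p m n hbp' hbm hbn hpm hpn hmn (h1 ▸ ey) (h2 ▸ ez)
      have h4 := loc.bb _ _ l' b' a' hd p n m hbp' hbn hbm hpn hpm (Ne.symm hmn) (h2 ▸ ez) (h1 ▸ ey)
      by_cases hmq : m = q
      · exact nA n (fun h5 => hmn (hmq.trans h5.symm)) hn h4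
      · exact nA m hmq hm h3

/-- `Loc0` gives `Loc`. -/
theorem Loc0.loc (hG : Deg13 G) (loc : Loc0 G) : Loc G where
  e3 := loc.e3
  mp := fun _ _ _ _ _ h _ _ hi hw hU => loc.mp hG h hi hw hU
  ub := loc.ub
  bb := loc.bb
  r1 := loc.r1
  o := loc.o

end Pool.Agent.BLN
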