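import Pool.Agent.BLN.Top
import Pool.Agent.BLN.Loc0
import Pool.Agent.BLN.E3Loc

/-!
# Assembly: the statement of S11147 from the three fields `uu`, `r1`, `o`
-/

set_option autoImplicit false

namespace Pool.Agent.BLN

open Finset Pool.Agent.IVT Pool.BLE

/-- The field `uu` for the graph `G`. -/
def UUG {V : Type} [Fintype V] [DecidableEq V] (G : SimpleGraph V) [DecidableRel G.Adj] : Prop :=
  ∀ (g : V → Bool) (x : V) (l a b : Fin 3 → V), Fr G g x l a b → ∀ i w w', a i ≠ x →
    w ≠ w' → G.Adj (a i) w → G.Adj (a i) w' → IsU G g x l a b w → IsU G g x l a b w' →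
    Cen G g w

/-- The leaf triangle version of the path lemma for the graph `G`. -/
def TriG {V : Type} [Fintype V] [DecidableEq V] (G : SimpleGraph V) [DecidableRel G.Adj] : Prop :=
  ∀ (g : V → Bool) (x : V) (l a b : Fin 3 → V), Fr G g x l a b → ∀ i w, a i ≠ x →
    G.Adj (a i) (b i) → G.Adj (a i) w → IsU G g x l a b w → Cen G g w

/-- The field `r1` for the graph `G`. -/
def R1G {V : Type} [Fintype V] [DecidableEq V] (G : SimpleGraph V) [DecidableRel G.Adj] : Prop :=
  ∀ (g : V → Bool) (x : V) (l a b : Fin 3 → V), Fr G g x l a b → ∀ i j, a i ≠ x → a j ≠ x →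
    i ≠ j → Cen G (du g x l) (a i) → Cen G g (b j) → False

/-- The field `o` for the graph `G`. -/
def OG {V : Type} [Fintype V] [DecidableEq V] (G : SimpleGraph V) [DecidableRel G.Adj] : Prop :=
  ∀ (g : V → Bool) (x : V) (l a b : Fin 3 → V), Fr G g x l a b → ∀ i, a i ≠ x →
    ¬ G.Adj (a i) (b i)

/-- The path lemma for all graphs of the class. -/
def UUAll : Prop :=
  ∀ (V : Type) [Fintype V] [DecidableEq V] (G : SimpleGraph V) [DecidableRel G.Adj],
    Cls13 G → NoBal3 G → ¬ IsPet G → UUG G

def TriAll : Prop :=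
  ∀ (V : Type) [Fintype V] [DecidableEq V] (G : SimpleGraph V) [DecidableRel G.Adj],
    Cls13 G → NoBal3 G → ¬ IsPet G → TriG G

/-- The field `r1` for all graphs of the class, from the path lemma. -/
def R1All : Prop :=
  ∀ (V : Type) [Fintype V] [DecidableEq V] (G : SimpleGraph V) [DecidableRel G.Adj],
    Cls13 G → NoBal3 G → ¬ IsPet G → UUG G → TriG G → R1G G

/-- The field `o` for all graphs of the class, from the path lemma and `r1`. -/
def OAll : Prop :=
  ∀ (V : Type) [Fintype V] [DecidableEq V] (G : SimpleGraph V) [DecidableRel G.Adj],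
    Cls13 G → NoBal3 G → ¬ IsPet G → UUG G → TriG G → R1G G → OG G

/-- The local facts from the three fields. -/
theorem locAll_of (hU : UUAll) (hT : TriAll) (hR : R1All) (hO : OAll) : LocAll := by
  intro V _ _ G _ hcls hB hP
  have h1 : UUG G := hU V G hcls hB hP
  have h2 : TriG G := hT V G hcls hB hP
  have h3 : R1G G := hR V G hcls hB hP h1 h2
  have h4 : OG G := hO V G hcls hB hP h1 h2 h3
  exact Loc0.loc hcls.deg
    { e3 := e3_all hcls.deg hB hcls.c4
      uu := h1
      ub := ub_all hcls.deg hB hcls.c4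
      bb := bb_all hcls.deg hB hcls.c4
      r1 := h3
      o := h4 }

/-- The statement of S11147 from the three fields. -/
theorem s11147_of_fields (hU : UUAll) (hT : TriAll) (hR : R1All) (hO : OAll) :
    ∀ (V : Type) [Fintype V] [DecidableEq V] (G : SimpleGraph V) [DecidableRel G.Adj],
      G.Connected → G.IsRegularOfDegree 3 → (∃ M : G.Subgraph, M.IsPerfectMatching) →
      IsEmpty (G ≃g SimpleGraph.fromRel
        (fun s t : {s : Finset (Fin 5) // s.card = 2} => Disjoint s.1 t.1)) →
      ∃ c : V → Bool,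
        (Finset.univ.filter (fun v => c v = true)).card
          = (Finset.univ.filter (fun v => c v = false)).card ∧
        ∀ v : V, {w : V | (G ⊓ SimpleGraph.fromRel
          (fun a b : V => c a = c b)).Reachable v w}.ncard ≤ 2 :=
  s11147_of_loc (locAll_of hU hT hR hO)

end Pool.Agent.BLN
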