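import Pool.Agent.BLN.LabTools

set_option autoImplicit false
set_option linter.unusedSectionVars false

/-!
# The neutral pair flip

`s`, `t` adjacent of different colours; `s` has a mate and `t` has a mate or is a pendant; the
remaining neighbours of `s` and `t` have degree three and no own neighbours. Flipping `s` and `t`
keeps validity, the sum and the energy.
-/

namespace Pool.Agent.BLN

open Finset Pool.Agent.IVT

variable {V : Type} [Fintype V] [DecidableEq V] {G : SimpleGraph V} [DecidableRel G.Adj]

/-- Validity from local information. -/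
theorem valid_of_local {g g' : V → Bool} (hv : Valid3 G g)
    (h : ∀ v, 2 * (bad G g' v).card < G.degree v ∨
      (∀ w, G.Adj v w → g' w = g' v → g w = g v)) : Valid3 G g' := by
  intro v
  rcases h v with h1 | h1
  · exact h1
  · have h2 : bad G g' v ⊆ bad G g v := by
      intro w hw
      rw [mem_bad] at hw ⊢
      exact ⟨hw.1, h1 w hw.1 hw.2⟩
    have h3 := card_le_card h2
    have h4 := hv v
    omega

/-- The data of a neutral pair flip. -/
structure PairF (G : SimpleGraph V) [DecidableRel G.Adj] (g : V → Bool) (s t m u : V) : Prop where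
  nb : Nb G s m u t
  gm : g m = g s
  gu : g u = !g s
  gt : g t = !g s
  du : G.degree u = 3
  ou : ∀ w, G.Adj u w → g w = g s
  ht : G.degree t = 1 ∨ ∃ m' u', Nb G t s m' u' ∧ g m' = g t ∧ g u' = g s ∧ G.degree u' = 3 ∧
    ∀ w, G.Adj u' w → g w = g t

/-- the colouring after the pair flip -/
def pf (g : V → Bool) (s t : V) : V → Bool := flip (flip g s) t

theorem bnot_ne (a : Bool) : (!a) ≠ a := by cases a <;> decide

theorem PairF.st {g : V → Bool} {s t m u : V} (h : PairF G g s t m u) : s ≠ t := by
  rintro rfl
  exact bnot_ne _ h.gt.symm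

theorem pf_s {g : V → Bool} {s t : V} (h : s ≠ t) : pf g s t s = !g s := by
  rw [pf, flip_ne _ h, flip_same]

theorem pf_t {g : V → Bool} {s t : V} (h : s ≠ t) : pf g s t t = !g t := by
  rw [pf, flip_same, flip_ne _ h.symm]

theorem pf_ne {g : V → Bool} {s t v : V} (h : v ≠ s) (h' : v ≠ t) : pf g s t v = g v := by
  rw [pf, flip_ne _ h', flip_ne _ h]

theorem PairF.valid {g : V → Bool} {s t m u : V} (h : PairF G g s t m u) (hv : Valid3 G g) :
    Valid3 G (pf g s t) := by
  have hst := h.st
  have ps := pf_s (g := g) hst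
  have pt := pf_t (g := g) hst
  have hus : u ≠ s := h.nb.ay.ne.symm
  have hms : m ≠ s := h.nb.ax.ne.symm
  refine valid_of_local hv fun v => ?_
  by_cases hvs : v = s
  · subst hvs
    left
    rw [h.nb.card, h.nb.degree G]
    have e1 : pf g v t m = g v := by rw [pf_ne hms h.nb.xz, h.gm]
    have e2 : pf g v t t = g v := by rw [pt, h.gt, Bool.not_not]
    rw [ps, e1, e2, if_neg (bnot_ne _).symm]
    split_ifs <;> omega
  by_cases hvt : v = t
  · subst hvt
    left
    rcases h.ht with h1 | ⟨m', u', hn, hm', hu', -, -⟩
    · have h2 : bad G (pf g s v) v = ∅ := by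
        rw [eq_empty_iff_forall_notMem]
        intro w hw
        rw [mem_bad] at hw
        have h3 := (pend_adj G h1 h.nb.az.symm w).1 hw.1
        have h4 := hw.2
        rw [h3, ps, pt, h.gt, Bool.not_not] at h4
        exact bnot_ne _ h4
      rw [h2, h1]
      simp
    · have hm's : m' ≠ s := hn.xy.symm
      rw [hn.card, hn.degree G]
      have e1 : pf g s v m' = !g s := by rw [pf_ne hm's hn.ay.ne.symm, hm', h.gt]
      have e2 : pf g s v v = g s := by rw [pt, h.gt, Bool.not_not]
      rw [ps, e1, e2, if_neg (bnot_ne _)]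
      split_ifs <;> omega
  by_cases hvu : v = u
  · subst hvu
    left
    rw [h.du]
    have h2 : bad G (pf g s t) v ⊆ {s} := by
      intro w hw
      rw [mem_bad, pf_ne hvs hvt] at hw
      rw [mem_singleton]
      by_contra hws
      have h3 := h.ou w hw.1
      have hwt : w ≠ t := by
        rintro rfl
        rw [h.gt] at h3
        exact bnot_ne _ h3
      have h4 := hw.2
      rw [pf_ne hws hwt, h3, h.gu] at h4
      exact bnot_ne _ h4.symm
    have h3 := card_le_card h2
    rw [card_singleton] at h3
    omega
  by_cases hvt' : G.Adj t v ∧ g v = g s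
  · obtain ⟨h1, h2⟩ := hvt'
    left
    rcases h.ht with h3 | ⟨m', u', hn, hm', hu', hd, ho⟩
    · exact absurd ((pend_adj G h3 h.nb.az.symm v).1 h1) hvs
    · have hvu' : v = u' := by
        rcases (hn.adj v).1 h1 with h4 | h4 | h4
        · exact absurd h4 hvs
        · rw [h4, hm', h.gt] at h2
          exact absurd h2 (bnot_ne _)
        · exact h4
      subst hvu'
      rw [hd]
      have h4 : bad G (pf g s t) v ⊆ {t} := by
        intro w hw
        rw [mem_bad, pf_ne hvs hvt] at hw
        rw [mem_singleton]
        by_contra hwt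
        have h5 := ho w hw.1
        have hws : w ≠ s := by
          rintro rfl
          rw [h.gt] at h5
          exact bnot_ne _ h5.symm
        have h6 := hw.2
        rw [pf_ne hws hwt, h5, h.gt, hu'] at h6
        exact bnot_ne _ h6
      have h5 := card_le_card h4
      rw [card_singleton] at h5
      omega
  · right
    intro w hw h1
    rw [pf_ne hvs hvt] at h1
    by_cases hws : w = s
    · subst hws
      rcases (h.nb.adj v).1 hw.symm with h2 | h2 | h2
      · rw [h2, h.gm]
      · exact absurd h2 hvu
      · exact absurd h2 hvt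
    by_cases hwt : w = t
    · subst hwt
      have h2 : g v ≠ g s := fun h3 => hvt' ⟨hw.symm, h3⟩
      rw [h.gt]
      cases h3 : g s <;> cases h4 : g v <;> simp_all
    rw [pf_ne hws hwt] at h1
    exact h1

theorem PairF.sgn {g : V → Bool} {s t m u : V} (h : PairF G g s t m u) (e : Bool) :
    sgn e (pf g s t) = sgn e g := by
  rw [pf, sgn_flip, sgn_flip, flip_ne _ h.st.symm, h.gt]
  cases g s <;> cases e <;> simp

theorem PairF.En {g : V → Bool} {s t m u : V} (h : PairF G g s t m u) :
    En G (pf g s t) = En G g := by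
  have hst := h.st
  have hus : u ≠ s := h.nb.ay.ne.symm
  have hms : m ≠ s := h.nb.ax.ne.symm
  have h1 := En_flip3 G g s
  have h2 := En_flip3 G (flip g s) t
  have b1 : (bad G g s).card = 1 := by
    rw [h.nb.card, h.gm, h.gu, h.gt, if_pos rfl, if_neg (bnot_ne _)]
  have d1 : G.degree s = 3 := h.nb.degree G
  have b2 : (G.degree t = 1 ∧ (bad G (flip g s) t).card = 1) ∨
      (G.degree t = 3 ∧ (bad G (flip g s) t).card = 2) := by
    rcases h.ht with h3 | ⟨m', u', hn, hm', hu', hd, ho⟩
    · left
      refine ⟨h3, ?_⟩
      have h4 : bad G (flip g s) t = {s} := by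
        ext w
        rw [mem_bad, mem_singleton]
        constructor
        · rintro ⟨h5, -⟩
          exact (pend_adj G h3 h.nb.az.symm w).1 h5
        · rintro rfl
          exact ⟨h.nb.az.symm, by rw [flip_same, flip_ne _ hst.symm, h.gt]⟩
      rw [h4, card_singleton]
    · right
      refine ⟨hn.degree G, ?_⟩
      have hm's : m' ≠ s := hn.xy.symm
      have hu's : u' ≠ s := hn.xz.symm
      rw [hn.card, flip_same, flip_ne _ hm's, flip_ne _ hu's, flip_ne _ hst.symm, hm', hu', h.gt,
        if_pos rfl, if_neg (bnot_ne _).symm]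
  rw [pf]
  rw [b1, d1] at h1
  rcases b2 with ⟨h3, h4⟩ | ⟨h3, h4⟩
  · rw [h3, h4] at h2
    push_cast at h1 h2
    omega
  · rw [h3, h4] at h2
    push_cast at h1 h2
    omega

end Pool.Agent.BLN
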