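import Pool.Agent.BLN.Loc0
import Pool.Agent.BLN.E3Loc
import Pool.Agent.BLN.CenB
import Pool.Agent.BLN.PairFlip

set_option autoImplicit false
set_option linter.unusedSectionVars false

/-!
# The exceptional configuration of R1

`a i ~ n, b k` and `b j ~ p, a k` with heavy `n`, `p`, and the third neighbours `y` of `a k` and `y'`
of `b k` are `U`. Then `a j` has two `U` neighbours, both are centres, and both are adjacent to `p`.
-/

namespace Pool.Agent.BLN

open Finset Pool.Agent.IVT Pool.BLE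

variable {V : Type} [Fintype V] [DecidableEq V]

/-- the path lemma for specials with two `U` neighbours, for all frames -/
def UU (G : SimpleGraph V) [DecidableRel G.Adj] : Prop :=
  ∀ (g : V → Bool) (x : V) (l a b : Fin 3 → V), Fr G g x l a b → ∀ i w w', a i ≠ x →
    w ≠ w' → G.Adj (a i) w → G.Adj (a i) w' → IsU G g x l a b w → IsU G g x l a b w' → Cen G g w

variable {G : SimpleGraph V} [DecidableRel G.Adj] {g : V → Bool} {x : V} {l a b : Fin 3 → V}

theorem IsU.not_isK {w : V} (h : IsU G g x l a b w) (h' : IsK G g x l a b w) : False := by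
  rcases h'.k with h1 | ⟨z, hz, hadj, h1⟩
  · have := h.deg
    omega
  · exact h.own z hz hadj h1

theorem Nb.swap' {v p q r : V} (h : Nb G v p q r) : Nb G v p r q :=
  ⟨fun w => by rw [h.adj]; tauto, h.xz, h.xy, h.yz.symm⟩

/-- the neighbours of an ordinary vertex of the rest are in the rest -/
theorem Star3.nbr_rest {c : V → Bool} (st : Star3 G c x l a b) {w z : V} (hw : w ∈ rest x l)
    (na : ∀ i, w ≠ a i) (nb : ∀ i, w ≠ b i) (hz : G.Adj w z) : z ∈ rest x l := by
  refine st.adj_rest hw hz fun r hr => ?_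
  rw [hr] at hz
  rcases st.spec_of_adj hw hz with h1 | h1
  · exact na r h1
  · exact nb r h1

/-- The configuration. -/
structure CfgS (G : SimpleGraph V) [DecidableRel G.Adj] (g : V → Bool) (x : V)
    (l a b : Fin 3 → V) (i j k : Fin 3) (n p y y' : V) : Prop where
  hij : i ≠ j
  hik : i ≠ k
  hjk : j ≠ k
  hi : a i ≠ x
  hj : a j ≠ x
  hk : a k ≠ x
  nai : Nb G (a i) (l i) n (b k)
  nbj : Nb G (b j) (l j) p (a k)
  nak : Nb G (a k) (l k) (b j) y
  nbk : Nb G (b k) (l k) (a i) y'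
  hn : IsK G g x l a b n
  hp : IsK G (du g x l) x l b a p
  hy : IsU G g x l a b y
  hy' : IsU G (du g x l) x l b a y'

section

variable {i j k : Fin 3} {n p y y' : V}

theorem CfgS.gn (h : Fr G g x l a b) (c : CfgS G g x l a b i j k n p y y') : g n = false :=
  (h.rest_of_nbr_a c.hi c.nai.ay c.nai.xy.symm).2

theorem CfgS.gp (h : Fr G g x l a b) (c : CfgS G g x l a b i j k n p y y') : g p = true := by
  have hbj : b j ≠ x := fun h' => c.hj ((h.star.a_eq_iff j).2 h')
  exact h.b_all j hbj c.nbj.ay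

theorem CfgS.gy' (h : Fr G g x l a b) (c : CfgS G g x l a b i j k n p y y') : g y' = true := by
  have hbk : b k ≠ x := fun h' => c.hk ((h.star.a_eq_iff k).2 h')
  exact h.b_all k hbk c.nbk.az

/-- `a j` has no heavy neighbour. -/
theorem CfgS.aj_notK (hG : Deg13 G) (hB : NoBal3 G) (hC : C4Free G) (h : Fr G g x l a b)
    (c : CfgS G g x l a b i j k n p y y') {s : V} (hs : G.Adj (a j) s) (hK : IsK G g x l a b s) :
    False := by
  have st := h.star
  have hbj : b j ≠ x := fun h' => c.hj ((st.a_eq_iff j).2 h')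
  have hA : Cen G (du g x l) (a j) := e3_all hG hB hC g x l a b h j s c.hj hs hK
  obtain ⟨l', a', b', hf⟩ := id hA
  obtain ⟨q, hq⟩ := (hf.star.nx _).1 (h.nb_l j c.hj).ay.symm
  have hq' : a' q ≠ a j := by
    intro h'
    have h1 := hf.star.deg_pl q h'
    rw [← hq, st.deg_l j c.hj] at h1
    omega
  have hbq : b j = a' q := by
    refine hf.l_true q hq' ?_ ?_
    · rw [← hq]
      exact (h.nb_l j c.hj).az
    · rw [du_rest (st.b_rest j hbj), st.cb j hbj]
      rfl
  have hpr : p ∈ rest (a j) l' := by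
    rw [mem_rest]
    refine ⟨c.hp.nb j, fun r hr => ?_⟩
    have h1 : G.Adj (a j) p := by
      rw [hr]
      exact (hf.star.nx _).2 ⟨r, rfl⟩
    have h2 := h.a_true j c.hj h1 (c.gp h)
    exact (mem_rest.1 c.hp.rest).2 j h2
  have hB' : Cen G (du (du g x l) (a j) l') (b j) := by
    rw [hbq]
    refine hf.e3 hG hB hC hq' (y := p) ?_ hpr c.hp.heavy
    rw [← hbq]
    exact c.nbj.ay
  obtain ⟨m, hm1, hm2, hm3⟩ := hf.uniq hB' c.nbj.az (st.deg_a k c.hk)
    (fun z hz => h.dual.b_all k c.hk hz)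
  rcases (c.nak.adj m).1 hm1 with h1 | h1 | h1
  · rw [h1] at hm2
    rcases st.spec_of_adj (st.a_rest j c.hj) hm2 with h2 | h2
    · exact c.hjk (st.a_inj j k h2 c.hj)
    · exact st.a_ne_b' j c.hj k h2
  · exact hm3 h1
  · rw [h1] at hm2
    exact h.not_isU_of_cen hA hm2 c.hy

/-- `a j` is not next to `b i`. -/
theorem CfgS.aj_bi (hG : Deg13 G) (hB : NoBal3 G) (hC : C4Free G) (h : Fr G g x l a b)
    (c : CfgS G g x l a b i j k n p y y') {s : V} (hs : G.Adj (a j) s) (hU : IsU G g x l a b s)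
    (hadj : G.Adj (a j) (b i)) : False := by
  have st := h.star
  have hbi : b i ≠ x := fun h' => c.hi ((st.a_eq_iff i).2 h')
  have hbk : b k ≠ x := fun h' => c.hk ((st.a_eq_iff k).2 h')
  have hB1 : Cen G g (b i) := ub_all hG hB hC g x l a b h j i s c.hj c.hi c.hij.symm hs hU hadj
  obtain ⟨l', a', b', hf⟩ := id hB1
  obtain ⟨q, hq⟩ := (hf.star.nx _).1 (h.nb_l i c.hi).az.symm
  have hq' : a' q ≠ b i := by
    intro h'
    have h1 := hf.star.deg_pl q h'
    rw [← hq, st.deg_l i c.hi] at h1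
    omega
  have haq : a i = a' q := by
    refine hf.l_true q hq' ?_ (st.ca i c.hi)
    rw [← hq]
    exact (h.nb_l i c.hi).ay
  have hnr : n ∈ rest (b i) l' := by
    rw [mem_rest]
    refine ⟨c.hn.nb i, fun r hr => ?_⟩
    have h1 := hf.gl r
    rw [← hr, c.gn h] at h1
    exact absurd h1 (by decide)
  have hA' : Cen G (du g (b i) l') (a i) := by
    rw [haq]
    refine hf.e3 hG hB hC hq' (y := n) ?_ hnr c.hn.heavy
    rw [← haq]
    exact c.nai.ay
  obtain ⟨m, hm1, hm2, hm3⟩ := hf.uniq hA' c.nai.az (st.deg_b k hbk)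
    (fun z hz => h.b_all k hbk hz)
  rcases (c.nbk.adj m).1 hm1 with h1 | h1 | h1
  · rw [h1] at hm2
    rcases st.spec_of_adj (st.b_rest i hbi) hm2 with h2 | h2
    · exact st.a_ne_b' k c.hk i h2.symm
    · exact c.hik (st.b_inj i k h2 hbi)
  · exact hm3 h1
  · rw [h1] at hm2
    refine h.dual.not_isU_of_cen ?_ hm2 c.hy'
    rw [h.du_du]
    exact hB1

/-- both neighbours of `a j` in the rest are `U` -/
theorem CfgS.aj_U (hG : Deg13 G) (hB : NoBal3 G) (hC : C4Free G) (h : Fr G g x l a b)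
    (c : CfgS G g x l a b i j k n p y y') {s s' : V} (hs : Nb G (a j) (l j) s s') :
    IsU G g x l a b s := by
  have st := h.star
  have key : ∀ v, G.Adj (a j) v → v ≠ l j → IsU G g x l a b v ∨ v = b i := by
    intro v hv hne
    rcases h.nbr_a hG c.hj hv hne with h1 | h1 | ⟨q, hq, h1⟩
    · exact Or.inl h1
    · exact (c.aj_notK hG hB hC h hv h1).elim
    · right
      rw [h1] at hv ⊢
      rcases three c.hij c.hik c.hjk q with h2 | h2 | h2
      · rw [h2]
      · exfalso
        rw [h2] at hv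
        rcases (c.nbj.adj (a j)).1 hv.symm with h3 | h3 | h3
        · exact (mem_rest.1 (st.a_rest j c.hj)).2 j h3
        · exact c.hp.nb j h3.symm
        · exact c.hjk (st.a_inj j k h3 c.hj)
      · exfalso
        rw [h2] at hv
        rcases (c.nbk.adj (a j)).1 hv.symm with h3 | h3 | h3
        · exact (mem_rest.1 (st.a_rest j c.hj)).2 k h3
        · exact c.hij (st.a_inj j i h3 c.hj).symm
        · exact c.hy'.nb j h3.symm
  rcases key s hs.ay hs.xy.symm with h1 | h1
  · exact h1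
  rcases key s' hs.az hs.xz.symm with h2 | h2
  · exfalso
    refine c.aj_bi hG hB hC h hs.az h2 ?_
    rw [← h1]
    exact hs.ay
  · exact absurd (h1.trans h2.symm) hs.yz

/-- colour `false` `U` vertices are not next to the four flipped vertices -/
theorem CfgS.sep (h : Fr G g x l a b) (c : CfgS G g x l a b i j k n p y y') {u z : V}
    (hU : IsU G g x l a b u) (gu : g u = false) (hz : G.Adj u z) :
    z ≠ a i ∧ z ≠ n ∧ z ≠ l k ∧ z ≠ b k := by
  have st := h.star
  have gz := hU.nbr h gu hz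
  have hbk : b k ≠ x := fun h' => c.hk ((st.a_eq_iff k).2 h')
  refine ⟨?_, ?_, ?_, ?_⟩
  · rintro rfl
    rcases (c.nai.adj u).1 hz.symm with h1 | h1 | h1
    · exact (mem_rest.1 hU.rest).2 i h1
    · rw [h1] at hU
      exact hU.not_isK c.hn
    · exact hU.nb k h1
  · rintro rfl
    rw [c.gn h] at gz
    exact absurd gz (by decide)
  · rintro rfl
    rcases st.spec_of_adj hU.rest hz with h1 | h1
    · exact hU.na k h1
    · exact hU.nb k h1
  · rintro rfl
    rw [st.cb k hbk] at gz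
    exact absurd gz (by decide)

theorem CfgS.sep' (h : Fr G g x l a b) (c : CfgS G g x l a b i j k n p y y') {u : V}
    (hU : IsU G g x l a b u) : u ≠ a i ∧ u ≠ n ∧ u ≠ l k ∧ u ≠ b k := by
  refine ⟨hU.na i, ?_, (mem_rest.1 hU.rest).2 k, hU.nb k⟩
  rintro rfl
  exact hU.not_isK c.hn

/-- The third neighbour of `n`. -/
theorem CfgS.nt (hG : Deg13 G) (hB : NoBal3 G) (hC : C4Free G) (h : Fr G g x l a b)
    (c : CfgS G g x l a b i j k n p y y')
    (hU : ∀ v, G.Adj (a j) v → v ≠ l j → IsU G g x l a b v) :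
    G.degree n = 1 ∨ ∃ m t, Nb G n (a i) m t ∧ g m = false ∧ g t = true ∧ G.degree t = 3 ∧
      ∀ z, G.Adj t z → g z = false := by
  have st := h.star
  have hA : Cen G (du g x l) (a i) := e3_all hG hB hC g x l a b h i n c.hi c.nai.ay c.hn
  rcases hA.leaf c.nai.ay with h1 | ⟨m, t, hnb, gm, gt, -, dt, ot, -⟩
  · exact Or.inl h1
  right
  have hm : m ∈ rest x l := st.nbr_rest c.hn.rest c.hn.na c.hn.nb hnb.ay
  have ht : t ∈ rest x l := st.nbr_rest c.hn.rest c.hn.na c.hn.nb hnb.az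
  rw [du_rest hm] at gm
  rw [du_rest ht] at gt
  have gm' : g m = false := by simpa using gm
  have gt' : g t = true := by simpa using gt
  refine ⟨m, t, hnb, gm', gt', dt, fun z hz => ?_⟩
  have h1 := ot z hz
  rcases st.cases z with rfl | ⟨r, rfl⟩ | hzr
  · exact h.gx
  · exfalso
    rcases st.spec_of_adj ht hz with h2 | h2
    · have hnt : G.Adj (a r) n := by
        rw [← h2]
        exact hnb.az.symm
      rcases three c.hij c.hik c.hjk r with h3 | h3 | h3
      · rw [h3] at h2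
        exact hnb.xz h2.symm
      · rw [h3] at hnt
        have h4 := hU n hnt fun h5 => (mem_rest.1 c.hn.rest).2 j h5
        exact h4.not_isK c.hn
      · rw [h3] at hnt
        rcases (c.nak.adj n).1 hnt with h4 | h4 | h4
        · exact (mem_rest.1 c.hn.rest).2 k h4
        · exact c.hn.nb j h4
        · have h5 := c.hy
          rw [← h4] at h5
          exact h5.not_isK c.hn
    · have hbr : b r ≠ x := by
        rw [← h2]
        exact (mem_rest.1 ht).1
      rw [h2, st.cb r hbr] at gt'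
      exact absurd gt' (by decide)
  · rw [du_rest hzr] at h1
    simpa using h1

/-- the leg `a j` of its `U` neighbour -/
theorem CfgS.leg_aj (h : Fr G g x l a b)
    (c : CfgS G g x l a b i j k n p y y') {w w' : V} (na : Nb G (a j) (l j) w w')
    (hw : IsU G g x l a b w) (hw' : IsU G g x l a b w') {g' : V → Bool}
    (hg : ∀ v, v ≠ a i → v ≠ n → v ≠ l k → v ≠ b k → g' v = g v) :
    Leg G g' w (a j) ∧ g' w = false ∧ (∀ z, G.Adj w z → g' z = true) := by
  have st := h.star
  have hbk : b k ≠ x := fun h' => c.hk ((st.a_eq_iff k).2 h')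
  have gw : g w = false := (h.rest_of_nbr_a c.hj na.ay na.xy.symm).2
  have gw' : g w' = false := (h.rest_of_nbr_a c.hj na.az na.xz.symm).2
  have hU : ∀ {u : V}, IsU G g x l a b u → g' u = g u := by
    intro u hu
    obtain ⟨h1, h2, h3, h4⟩ := c.sep' h hu
    exact hg u h1 h2 h3 h4
  have hN : ∀ {u z : V}, IsU G g x l a b u → g u = false → G.Adj u z → g' z = true := by
    intro u z hu gu hz
    obtain ⟨h1, h2, h3, h4⟩ := c.sep h hu gu hz
    rw [hg z h1 h2 h3 h4]
    exact hu.nbr h gu hz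
  refine ⟨⟨na.ay.symm, hN hw gw na.ay.symm, Or.inr ⟨l j, w', ?_, hN hw gw na.ay.symm, ?_, ?_,
    hw'.deg, fun z hz => hN hw' gw' hz⟩⟩, ?_, fun z hz => hN hw gw hz⟩
  · exact ⟨fun v => by rw [na.adj]; tauto, na.xy.symm, na.yz, na.xz⟩
  · rw [hg (l j), h.gl]
    · exact fun h1 => (mem_rest.1 (st.a_rest i c.hi)).2 j h1.symm
    · exact fun h1 => (mem_rest.1 c.hn.rest).2 j h1.symm
    · exact fun h1 => c.hjk (st.l_inj h1)
    · exact fun h1 => (mem_rest.1 (st.b_rest k hbk)).2 j h1.symm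
  · rw [hU hw', gw']
  · rw [hU hw, gw]

/-- the first pair flip -/
theorem CfgS.pair1 (hG : Deg13 G) (hB : NoBal3 G) (hC : C4Free G) (h : Fr G g x l a b)
    (c : CfgS G g x l a b i j k n p y y')
    (hU : ∀ v, G.Adj (a j) v → v ≠ l j → IsU G g x l a b v) :
    PairF G g (a i) n (l i) (b k) := by
  have st := h.star
  have hbk : b k ≠ x := fun h' => c.hk ((st.a_eq_iff k).2 h')
  have gai := st.ca i c.hi
  refine ⟨c.nai.swap' , ?_, ?_, ?_, st.deg_b k hbk, ?_, ?_⟩
  · rw [h.gl, gai]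
  · rw [st.cb k hbk, gai]; rfl
  · rw [c.gn h, gai]; rfl
  · intro w hw
    rw [gai]
    exact h.b_all k hbk hw
  · rcases c.nt hG hB hC h hU with h1 | ⟨m, t, h1, h2, h3, h4, h5⟩
    · exact Or.inl h1
    · refine Or.inr ⟨m, t, h1, ?_, ?_, h4, fun w hw => ?_⟩
      · rw [h2, c.gn h]
      · rw [h3, gai]
      · rw [h5 w hw, c.gn h]

/-- the second pair flip -/
theorem CfgS.pair2 (hC : C4Free G) (h : Fr G g x l a b)
    (c : CfgS G g x l a b i j k n p y y') (hst : a i ≠ n) :
    PairF G (pf g (a i) n) (l k) (b k) (a k) x := by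
  have st := h.star
  have hbk : b k ≠ x := fun h' => c.hk ((st.a_eq_iff k).2 h')
  have hval : ∀ v, v ≠ a i → v ≠ n → pf g (a i) n v = g v := fun v h1 h2 => pf_ne h1 h2
  have hlk1 : l k ≠ a i := fun h1 => (mem_rest.1 (st.a_rest i c.hi)).2 k h1.symm
  have hlk2 : l k ≠ n := fun h1 => (mem_rest.1 c.hn.rest).2 k h1.symm
  have g1lk : pf g (a i) n (l k) = true := by rw [hval _ hlk1 hlk2, h.gl]
  have hbk1 : b k ≠ a i := (st.a_ne_b' i c.hi k).symm
  have hbk2 : b k ≠ n := (c.hn.nb k).symm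
  have g1bk : pf g (a i) n (b k) = false := by rw [hval _ hbk1 hbk2, st.cb k hbk]
  have hak1 : a k ≠ a i := fun h1 => c.hik (st.a_inj k i h1 c.hk).symm
  have hak2 : a k ≠ n := (c.hn.na k).symm
  have hx1 : x ≠ a i := c.hi.symm
  have hx2 : x ≠ n := ((mem_rest.1 c.hn.rest).1).symm
  have nlk := h.nb_l k c.hk
  refine ⟨?_, ?_, ?_, ?_, st.deg_x, ?_, Or.inr ⟨a i, y', c.nbk, ?_, ?_, c.hy'.deg, ?_⟩⟩
  · exact ⟨fun v => by rw [nlk.adj]; tauto, nlk.xy.symm, nlk.yz, nlk.xz⟩
  · rw [g1lk, hval _ hak1 hak2, st.ca k c.hk]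
  · rw [g1lk, hval _ hx1 hx2, h.gx]; rfl
  · rw [g1lk, g1bk]; rfl
  · intro w hw
    obtain ⟨r, rfl⟩ := (st.nx w).1 hw
    rw [g1lk, hval, h.gl]
    · exact fun h1 => (mem_rest.1 (st.a_rest i c.hi)).2 r h1.symm
    · exact fun h1 => (mem_rest.1 c.hn.rest).2 r h1.symm
  · rw [g1bk, pf_s hst, st.ca i c.hi]; rfl
  · rw [g1lk, hval _ c.nbk.yz.symm, c.gy' h]
    intro h1
    have h2 := c.gy' h
    rw [h1, c.gn h] at h2
    exact absurd h2 (by decide)
  · intro w hw
    rw [g1bk]
    by_cases h1 : w = a i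
    · rw [h1, pf_s hst, st.ca i c.hi]; rfl
    have h2 : w ≠ n := by
      rintro rfl
      refine c.nai.yz (hC.uniq c.nbk.yz c.nai.ay hw.symm c.nai.az c.nbk.az)
    rw [hval _ h1 h2]
    have h3 := c.hy'.dual
    rw [h.du_du] at h3
    have hwr := st.nbr_rest h3.rest h3.na h3.nb hw
    have h4 := h3.own w hwr hw
    rw [c.gy' h] at h4
    simpa using h4

/-- A second leg of a `U` neighbour of `a j`, after both pair flips. -/
theorem CfgS.leg_t (hG : Deg13 G) (hB : NoBal3 G) (hC : C4Free G) (h : Fr G g x l a b)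
    (c : CfgS G g x l a b i j k n p y y')
    (hU : ∀ v, G.Adj (a j) v → v ≠ l j → IsU G g x l a b v)
    {w t : V} (hw : IsU G g x l a b w) (gw : g w = false) (hcw : Cen G g w)
    (ht : G.Adj w t) (htk : t ≠ a k) {g' : V → Bool}
    (hg : ∀ v, v ≠ a i → v ≠ n → v ≠ l k → v ≠ b k → g' v = g v) : Leg G g' w t := by
  have st := h.star
  have hbk : b k ≠ x := fun h' => c.hk ((st.a_eq_iff k).2 h')
  obtain ⟨t1, t2, t3, t4⟩ := c.sep h hw gw ht
  have gt : g t = true := hw.nbr h gw ht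
  have hwl : ∀ r, ¬ G.Adj w (l r) := by
    intro r hr
    rcases st.spec_of_adj hw.rest hr with h1 | h1
    · exact hw.na r h1
    · exact hw.nb r h1
  refine ⟨ht, by rw [hg t t1 t2 t3 t4, gt], ?_⟩
  rcases hcw.leaf ht with h1 | ⟨m, s, nb, gm, gs, dm, ds, os, -⟩
  · exact Or.inl h1
  right
  have m1 : m ≠ a i := by
    rintro rfl
    have h1 := h.a_true i c.hi nb.ay.symm gt
    exact hwl i (by rw [← h1]; exact ht)
  have m2 : m ≠ n := by
    rintro rfl
    rw [c.gn h] at gm
    exact absurd gm (by decide)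
  have m3 : m ≠ l k := by
    rintro rfl
    rcases ((h.nb_l k c.hk).adj t).1 nb.ay.symm with h1 | h1 | h1
    · rw [h1, h.gx] at gt
      exact absurd gt (by decide)
    · exact htk h1
    · rw [h1, st.cb k hbk] at gt
      exact absurd gt (by decide)
  have m4 : m ≠ b k := by
    rintro rfl
    rw [st.cb k hbk] at gm
    exact absurd gm (by decide)
  have s1 : s ≠ a i := by
    rintro rfl
    rw [st.ca i c.hi] at gs
    exact absurd gs (by decide)
  have s3 : s ≠ l k := by
    rintro rfl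
    rw [h.gl] at gs
    exact absurd gs (by decide)
  have s2 : s ≠ n := by
    rintro rfl
    rcases c.nt hG hB hC h hU with h1 | ⟨m', t', h1, h2, h3, h4, h5⟩
    · exact t1 ((pend_adj G h1 c.nai.ay.symm t).1 nb.az.symm)
    · rcases (h1.adj t).1 nb.az.symm with h6 | h6 | h6
      · exact t1 h6
      · rw [h6, h2] at gt
        exact absurd gt (by decide)
      · have h7 := h5 m (by rw [← h6]; exact nb.ay)
        rw [gm] at h7
        exact absurd h7 (by decide)
  have s4 : s ≠ b k := by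
    rintro rfl
    rcases (c.nbk.adj t).1 nb.az.symm with h1 | h1 | h1
    · exact t3 h1
    · exact t1 h1
    · have h3 := c.hy'.dual
      rw [h.du_du] at h3
      have hmr : m ∈ rest x l := st.nbr_rest h3.rest h3.na h3.nb (by rw [← h1]; exact nb.ay)
      refine h3.own m hmr (by rw [← h1]; exact nb.ay) ?_
      rw [gm, c.gy' h]
  refine ⟨m, s, nb, by rw [hg t t1 t2 t3 t4, gt], by rw [hg m m1 m2 m3 m4, gm],
    by rw [hg s s1 s2 s3 s4, gs], ds, fun z hz => ?_⟩
  have gz := os z hz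
  rw [hg z, gz]
  · rintro rfl
    rcases (c.nai.adj s).1 hz.symm with h1 | h1 | h1
    · rw [h1, h.gl] at gs
      exact absurd gs (by decide)
    · exact s2 h1
    · exact s4 h1
  · rintro rfl
    rw [c.gn h] at gz
    exact absurd gz (by decide)
  · rintro rfl
    rcases ((h.nb_l k c.hk).adj s).1 hz.symm with h1 | h1 | h1
    · obtain ⟨r, hr⟩ := (st.nx t).1 (by rw [← h1]; exact nb.az.symm)
      exact hwl r (by rw [← hr]; exact ht)
    · rw [h1, st.ca k c.hk] at gs
      exact absurd gs (by decide)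
    · exact s4 h1
  · rintro rfl
    rw [st.cb k hbk] at gz
    exact absurd gz (by decide)

/-- a `U` neighbour of `a j` is not next to `a k` -/
theorem CfgS.w_ak (hG : Deg13 G) (hB : NoBal3 G) (hC : C4Free G) (h : Fr G g x l a b)
    (c : CfgS G g x l a b i j k n p y y')
    (hU : ∀ v, G.Adj (a j) v → v ≠ l j → IsU G g x l a b v)
    {w w' : V} (na : Nb G (a j) (l j) w w') : ¬ G.Adj w (a k) := by
  intro hwk
  have st := h.star
  have hbj : b j ≠ x := fun h' => c.hj ((st.a_eq_iff j).2 h')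
  have hbk : b k ≠ x := fun h' => c.hk ((st.a_eq_iff k).2 h')
  have hw := hU w na.ay na.xy.symm
  have hw' := hU w' na.az na.xz.symm
  have P1 := c.pair1 hG hB hC h hU
  set g1 := pf g (a i) n with hg1
  have hval : ∀ v, v ≠ a i → v ≠ n → g1 v = g v := fun v h1 h2 => pf_ne h1 h2
  obtain ⟨L1, gw1, ow1⟩ := c.leg_aj h na hw hw' (g' := g1) (fun v h1 h2 _ _ => hval v h1 h2)
  have hwy : w = y := by
    rcases (c.nak.adj w).1 hwk.symm with h1 | h1 | h1
    · exact absurd h1 ((mem_rest.1 hw.rest).2 k)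
    · exact absurd h1 (hw.nb j)
    · exact h1
  have g1l : ∀ r, g1 (l r) = true := by
    intro r
    rw [hval, h.gl]
    · exact fun h1 => (mem_rest.1 (st.a_rest i c.hi)).2 r h1.symm
    · exact fun h1 => (mem_rest.1 c.hn.rest).2 r h1.symm
  have g1a : ∀ r, a r ≠ x → r ≠ i → g1 (a r) = true := by
    intro r hr hri
    rw [hval, st.ca r hr]
    · exact fun h1 => hri (st.a_inj r i h1 hr)
    · exact (c.hn.na r).symm
  have g1b : ∀ r, b r ≠ x → g1 (b r) = false := by
    intro r hr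
    rw [hval, st.cb r hr]
    · exact (st.a_ne_b' i c.hi r).symm
    · exact (c.hn.nb r).symm
  have g1p : g1 p = true := by
    rw [hval, c.gp h]
    · exact c.hp.nb i
    · rintro h1
      have h2 := c.gp h
      rw [h1, c.gn h] at h2
      exact absurd h2 (by decide)
  have L2 : Leg G g1 w (a k) := by
    refine ⟨hwk, g1a k c.hk c.hik.symm, Or.inr ⟨l k, b j, ?_, g1a k c.hk c.hik.symm, g1l k,
      g1b j hbj, st.deg_b j hbj, ?_⟩⟩
    · rw [hwy]
      exact ⟨fun v => by rw [c.nak.adj]; tauto, c.nak.xz.symm, c.nak.yz.symm, c.nak.xy⟩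
    · intro z hz
      rcases (c.nbj.adj z).1 hz with h1 | h1 | h1
      · rw [h1]; exact g1l j
      · rw [h1]; exact g1p
      · rw [h1]; exact g1a k c.hk c.hik.symm
  have hcen : Cen G g1 w := by
    refine cen_of_two_legs hG hB hC (P1.valid h.valid) (by rw [P1.sgn, h.sum]) ?_ gw1 ow1 L1 L2
      (fun h1 => c.hjk (st.a_inj j k h1 c.hj)) ?_
    · obtain ⟨e, he, hE⟩ := h.en
      exact ⟨e, he, by rw [P1.En]; exact hE⟩
    · intro h1
      have h2 := h.a_true j c.hj h1 (st.ca k c.hk)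
      exact (mem_rest.1 (st.a_rest k c.hk)).2 j h2
  obtain ⟨l', a', b', hf⟩ := id hcen
  obtain ⟨q, hq⟩ := (hf.star.nx _).1 hwk
  have hq' : a' q ≠ w := by
    intro h'
    have h1 := hf.star.deg_pl q h'
    rw [← hq, st.deg_a k c.hk] at h1
    omega
  have hlq : l k = a' q := by
    refine hf.l_true q hq' ?_ (g1l k)
    rw [← hq]
    exact (h.nb_l k c.hk).ay.symm
  have hbr : b k ∈ rest w l' := by
    rw [mem_rest]
    refine ⟨(hw.nb k).symm, fun r hr => ?_⟩
    have h1 := hf.gl r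
    rw [← hr, g1b k hbk] at h1
    exact absurd h1 (by decide)
  have g1ai : g1 (a i) = false := by
    rw [hg1, pf_s P1.st, st.ca i c.hi]; rfl
  have hA : Cen G (du g1 w l') (l k) := by
    rw [hlq]
    refine hf.e3 hG hB hC hq' (y := b k) ?_ hbr (Or.inr (own_ge_one c.nbk.ay ?_))
    · rw [← hlq]
      exact (h.nb_l k c.hk).az
    · rw [g1ai, g1b k hbk]
  obtain ⟨m, hm1, hm2, -⟩ := hf.uniq hA (h.nb_l k c.hk).ax st.deg_x
    (fun z hz => by
      obtain ⟨r, rfl⟩ := (st.nx z).1 hz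
      exact g1l r)
  obtain ⟨r, rfl⟩ := (st.nx m).1 hm1
  rcases st.spec_of_adj hw.rest hm2 with h1 | h1
  · exact hw.na r h1
  · exact hw.nb r h1

/-- a `U` neighbour of `a j` is next to `p` -/
theorem CfgS.w_p (hG : Deg13 G) (hB : NoBal3 G) (hC : C4Free G) (uu : UU G) (h : Fr G g x l a b)
    (c : CfgS G g x l a b i j k n p y y')
    (hU : ∀ v, G.Adj (a j) v → v ≠ l j → IsU G g x l a b v)
    {w w' : V} (na : Nb G (a j) (l j) w w') : G.Adj w p := by
  have st := h.star
  have hbj : b j ≠ x := fun h' => c.hj ((st.a_eq_iff j).2 h')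
  have hbk : b k ≠ x := fun h' => c.hk ((st.a_eq_iff k).2 h')
  have hw := hU w na.ay na.xy.symm
  have hw' := hU w' na.az na.xz.symm
  have gw : g w = false := (h.rest_of_nbr_a c.hj na.ay na.xy.symm).2
  have hcw : Cen G g w := uu g x l a b h j w w' c.hj na.yz na.ay na.az hw hw'
  have P1 := c.pair1 hG hB hC h hU
  have P2 := c.pair2 hC h P1.st
  set g1 := pf g (a i) n with hg1
  set g2 := pf g1 (l k) (b k) with hg2
  have hval : ∀ v, v ≠ a i → v ≠ n → v ≠ l k → v ≠ b k → g2 v = g v := fun v h1 h2 h3 h4 => by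
    rw [hg2, pf_ne h3 h4, hg1, pf_ne h1 h2]
  obtain ⟨L1, gw2, ow2⟩ := c.leg_aj h na hw hw' (g' := g2) hval
  -- the second leg
  obtain ⟨t1, t2, nw⟩ := exists_nb3 G hw.deg na.ay.symm
  have hLt : ∃ t, G.Adj w t ∧ t ≠ a j ∧ t ≠ a k := by
    by_cases h1 : t1 = a k
    · refine ⟨t2, nw.az, nw.xz.symm, ?_⟩
      rw [← h1]
      exact nw.yz.symm
    · exact ⟨t1, nw.ay, nw.xy.symm, h1⟩
  obtain ⟨t, ht, htj, htk⟩ := hLt
  have L2 := c.leg_t hG hB hC h hU hw gw hcw ht htk hval
  have hcen : Cen G g2 w := by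
    refine cen_of_two_legs hG hB hC (P2.valid (P1.valid h.valid)) (by rw [P2.sgn, P1.sgn, h.sum])
      ?_ gw2 ow2 L1 L2 htj.symm ?_
    · obtain ⟨e, he, hE⟩ := h.en
      exact ⟨e, he, by rw [P2.En, P1.En]; exact hE⟩
    · intro h1
      have h2 := h.a_true j c.hj h1 (hw.nbr h gw ht)
      rw [h2] at ht
      rcases st.spec_of_adj hw.rest ht with h3 | h3
      · exact hw.na j h3
      · exact hw.nb j h3
  obtain ⟨l', a', b', hf⟩ := id hcen
  obtain ⟨q, hq⟩ := (hf.star.nx _).1 na.ay.symm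
  have hq' : a' q ≠ w := by
    intro h'
    have h1 := hf.star.deg_pl q h'
    rw [← hq, st.deg_a j c.hj] at h1
    omega
  have g2lj : g2 (l j) = true := by
    rw [hval, h.gl]
    · exact fun h1 => (mem_rest.1 (st.a_rest i c.hi)).2 j h1.symm
    · exact fun h1 => (mem_rest.1 c.hn.rest).2 j h1.symm
    · exact fun h1 => c.hjk (st.l_inj h1)
    · exact fun h1 => (mem_rest.1 (st.b_rest k hbk)).2 j h1.symm
  have hlq : l j = a' q := by
    refine hf.l_true q hq' ?_ g2lj
    rw [← hq]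
    exact (h.nb_l j c.hj).ay.symm
  have g2x : g2 x = false := by
    rw [hval, h.gx]
    · exact c.hi.symm
    · exact ((mem_rest.1 c.hn.rest).1).symm
    · exact (st.l_ne_x k).symm
    · exact hbk.symm
  have hxr : x ∈ rest w l' := by
    rw [mem_rest]
    refine ⟨((mem_rest.1 hw.rest).1).symm, fun r hr => ?_⟩
    have h1 := hf.gl r
    rw [← hr, g2x] at h1
    exact absurd h1 (by decide)
  have g2lk : g2 (l k) = false := by
    rw [hg2, pf_s P2.st, hg1, pf_ne, h.gl]
    · rfl
    · exact fun h1 => (mem_rest.1 (st.a_rest i c.hi)).2 k h1.symm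
    · exact fun h1 => (mem_rest.1 c.hn.rest).2 k h1.symm
  have hA : Cen G (du g2 w l') (l j) := by
    rw [hlq]
    refine hf.e3 hG hB hC hq' (y := x) ?_ hxr (Or.inr (own_ge_one (st.l_adj k) ?_))
    · rw [← hlq]
      exact (h.nb_l j c.hj).ax
    · rw [g2lk, g2x]
  have g2p : g2 p = true := by
    rw [hval, c.gp h]
    · exact c.hp.nb i
    · rintro h1
      have h2 := c.gp h
      rw [h1, c.gn h] at h2
      exact absurd h2 (by decide)
    · exact (mem_rest.1 c.hp.rest).2 k
    · exact c.hp.na k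
  have g2ak : g2 (a k) = true := by
    rw [hval, st.ca k c.hk]
    · exact fun h1 => c.hik (st.a_inj k i h1 c.hk).symm
    · exact (c.hn.na k).symm
    · exact (mem_rest.1 (st.a_rest k c.hk)).2 k
    · exact st.a_ne_b' k c.hk k
  obtain ⟨m, hm1, hm2, hm3⟩ := hf.uniq hA (h.nb_l j c.hj).az (st.deg_b j hbj)
    (fun z hz => by
      rcases (c.nbj.adj z).1 hz with h1 | h1 | h1
      · rw [h1]; exact g2lj
      · rw [h1]; exact g2p
      · rw [h1]; exact g2ak)
  rcases (c.nbj.adj m).1 hm1 with h1 | h1 | h1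
  · exact absurd h1 hm3
  · rw [← h1]
    exact hm2
  · rw [h1] at hm2
    exact absurd hm2 (c.w_ak hG hB hC h hU na)

/-- **The exceptional configuration is impossible.** -/
theorem CfgS.elim (hG : Deg13 G) (hB : NoBal3 G) (hC : C4Free G) (uu : UU G) (h : Fr G g x l a b)
    (c : CfgS G g x l a b i j k n p y y') : False := by
  have st := h.star
  have hbj : b j ≠ x := fun h' => c.hj ((st.a_eq_iff j).2 h')
  obtain ⟨w, w', na⟩ := exists_nb3 G (st.deg_a j c.hj) (h.nb_l j c.hj).ay.symm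
  have hw := c.aj_U hG hB hC h na
  have hw' := c.aj_U hG hB hC h (na.swap')
  have hU : ∀ v, G.Adj (a j) v → v ≠ l j → IsU G g x l a b v := by
    intro v hv hne
    rcases (na.adj v).1 hv with h1 | h1 | h1
    · exact absurd h1 hne
    · rw [h1]; exact hw
    · rw [h1]; exact hw'
  have e1 := c.w_p hG hB hC uu h hU na
  have e2 := c.w_p hG hB hC uu h hU na.swap'
  have gw : g w = false := (h.rest_of_nbr_a c.hj na.ay na.xy.symm).2
  have gw' : g w' = false := (h.rest_of_nbr_a c.hj na.az na.xz.symm).2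
  have n1 : b j ≠ w := (hw.nb j).symm
  have n2 : b j ≠ w' := (hw'.nb j).symm
  have dp : G.degree p = 3 := by
    rcases hG p with h1 | h1
    · exfalso
      have h2 := (pend_adj G h1 c.nbj.ay.symm w).1 e1.symm
      exact n1 h2.symm
    · exact h1
  have np := nb_of_three3 G dp c.nbj.ay.symm e1.symm e2.symm n1 n2 na.yz
  rcases c.hp.k with h1 | ⟨m, hm, hadj, h1⟩
  · omega
  · rw [du_rest hm, du_rest c.hp.rest, c.gp h] at h1
    have gm : g m = true := by simpa using h1
    rcases (np.adj m).1 hadj with h2 | h2 | h2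
    · rw [h2, st.cb j hbj] at gm
      exact absurd gm (by decide)
    · rw [h2, gw] at gm
      exact absurd gm (by decide)
    · rw [h2, gw'] at gm
      exact absurd gm (by decide)

/-- The same, with the configuration given by adjacencies. -/
theorem Fr.cfgA (hG : Deg13 G) (hB : NoBal3 G) (hC : C4Free G) (uu : UU G) (h : Fr G g x l a b)
    (hij : i ≠ j) (hik : i ≠ k) (hjk : j ≠ k) (hi : a i ≠ x) (hj : a j ≠ x) (hk : a k ≠ x)
    (hn : G.Adj (a i) n) (hnK : IsK G g x l a b n) (hbk : G.Adj (a i) (b k))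
    (hp : G.Adj (b j) p) (hpK : IsK G (du g x l) x l b a p) (hak : G.Adj (b j) (a k))
    (hy : G.Adj (a k) y) (hyU : IsU G g x l a b y) (hy' : G.Adj (b k) y')
    (hyU' : IsU G (du g x l) x l b a y') : False := by
  have st := h.star
  have hbj' : b j ≠ x := fun h' => hj ((st.a_eq_iff j).2 h')
  have hbk' : b k ≠ x := fun h' => hk ((st.a_eq_iff k).2 h')
  have lr : ∀ {v : V} (r : Fin 3), v ∈ rest x l → l r ≠ v := fun r hv h1 =>
    (mem_rest.1 hv).2 r h1.symm
  refine CfgS.elim hG hB hC uu h (i := i) (j := j) (k := k) (n := n) (p := p) (y := y) (y' := y')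
    ⟨hij, hik, hjk, hi, hj, hk, ?_, ?_, ?_, ?_, hnK, hpK, hyU, hyU'⟩
  · exact nb_of_three3 G (st.deg_a i hi) (h.nb_l i hi).ay.symm hn hbk (lr i hnK.rest)
      (lr i (st.b_rest k hbk')) (hnK.nb k)
  · exact nb_of_three3 G (st.deg_b j hbj') (h.nb_l j hj).az.symm hp hak (lr j hpK.rest)
      (lr j (st.a_rest k hk)) (hpK.nb k)
  · exact nb_of_three3 G (st.deg_a k hk) (h.nb_l k hk).ay.symm hak.symm hy
      (lr k (st.b_rest j hbj')) (lr k hyU.rest) (hyU.nb j).symm
  · exact nb_of_three3 G (st.deg_b k hbk') (h.nb_l k hk).az.symm hbk.symm hy'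
      (lr k (st.a_rest i hi)) (lr k hyU'.rest) (hyU'.nb i).symm

end

end Pool.Agent.BLN
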