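import Pool.Agent.BLN.IV3c

/-!
# Frames: valid colourings with a star centre, and moving the star

`Fr G g x l a b` : `g` is valid, of sum two, two monochromatic edges below the critical energy, and
`x` (colour `false`) is the centre of a star with leaves `l i` of colour `true`.
`Cen G g u` : `u` is a centre for `g`. `Cen.of_nbrs` : a vertex with three suitable neighbours is a
centre (the star moves). `Fr.dual` : exchange of the two colours after the star flip.
-/

set_option autoImplicit false
set_option linter.unusedSectionVars false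

namespace Pool.Agent.BLN

open Finset Pool.Agent.IVT

variable {V : Type} [Fintype V] [DecidableEq V]

/-! ### congruence, permutation, exchange of the colours -/

theorem Star3.congr {G : SimpleGraph V} [DecidableRel G.Adj] {c c' : V → Bool} {x : V}
    {l a b : Fin 3 → V} (st : Star3 G c x l a b) (h : ∀ v ∈ rest x l, c' v = c v) :
    Star3 G c' x l a b where
  nx := st.nx
  nl := st.nl
  l_inj := st.l_inj
  pd := st.pd
  a_inj := st.a_inj
  b_inj := st.b_inj
  a_rest := st.a_rest
  b_rest := st.b_rest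
  ca := fun i hi => by rw [h _ (st.a_rest i hi)]; exact st.ca i hi
  cb := fun i hi => by rw [h _ (st.b_rest i hi)]; exact st.cb i hi
  own := fun v hv => by
    have h1 : (rest x l).filter (fun w => G.Adj v w ∧ c' w = c' v) =
        (rest x l).filter (fun w => G.Adj v w ∧ c w = c v) := by
      refine filter_congr fun w hw => ?_
      rw [h w hw, h v hv]
    rw [h1]
    exact st.own v hv
  own_a := fun i hi w hw hadj => by rw [h w hw]; exact st.own_a i hi w hw hadj
  own_b := fun i hi w hw hadj => by rw [h w hw]; exact st.own_b i hi w hw hadj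
  deg_a := st.deg_a
  deg_b := st.deg_b
  sum := by
    rw [← st.sum]
    exact sum_congr rfl fun v hv => by rw [h v hv]

theorem rest_perm (x : V) (l : Fin 3 → V) (σ : Equiv.Perm (Fin 3)) : rest x (l ∘ σ) = rest x l := by
  ext v
  simp only [mem_rest, Function.comp_apply]
  refine and_congr_right fun _ => ?_
  exact ⟨fun h i => by simpa using h (σ.symm i), fun h i => h (σ i)⟩

theorem Star3.perm {G : SimpleGraph V} [DecidableRel G.Adj] {c : V → Bool} {x : V}
    {l a b : Fin 3 → V} (st : Star3 G c x l a b) (σ : Equiv.Perm (Fin 3)) :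
    Star3 G c x (l ∘ σ) (a ∘ σ) (b ∘ σ) where
  nx := fun v => by
    rw [st.nx]
    exact ⟨fun ⟨i, h⟩ => ⟨σ.symm i, by simpa using h⟩, fun ⟨i, h⟩ => ⟨σ i, h⟩⟩
  nl := fun i v => st.nl (σ i) v
  l_inj := st.l_inj.comp σ.injective
  pd := fun i => st.pd (σ i)
  a_inj := fun i j h h' => σ.injective (st.a_inj _ _ h h')
  b_inj := fun i j h h' => σ.injective (st.b_inj _ _ h h')
  a_rest := fun i hi => by rw [rest_perm]; exact st.a_rest (σ i) hi
  b_rest := fun i hi => by rw [rest_perm]; exact st.b_rest (σ i) hi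
  ca := fun i hi => st.ca (σ i) hi
  cb := fun i hi => st.cb (σ i) hi
  own := fun v hv => by rw [rest_perm] at hv ⊢; exact st.own v hv
  own_a := fun i hi w hw => by rw [rest_perm] at hw; exact st.own_a (σ i) hi w hw
  own_b := fun i hi w hw => by rw [rest_perm] at hw; exact st.own_b (σ i) hi w hw
  deg_a := fun i hi => st.deg_a (σ i) hi
  deg_b := fun i hi => st.deg_b (σ i) hi
  sum := by rw [rest_perm]; exact st.sum

/-- exchange of the colours -/
def neg (c : V → Bool) : V → Bool := fun v => !c v

theorem neg_neg (c : V → Bool) : neg (neg c) = c := by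
  funext v; simp [neg]

theorem sg_not (b : Bool) : sg (!b) = - sg b := by cases b <;> simp [sg]

theorem bad_neg (G : SimpleGraph V) [DecidableRel G.Adj] (c : V → Bool) (v : V) :
    bad G (neg c) v = bad G c v := by
  ext w
  simp [mem_bad, neg]

theorem En_neg (G : SimpleGraph V) [DecidableRel G.Adj] (c : V → Bool) : En G (neg c) = En G c := by
  unfold En
  exact sum_congr rfl fun v _ => by rw [bad_neg]

theorem valid3_neg {G : SimpleGraph V} [DecidableRel G.Adj] {c : V → Bool} :
    Valid3 G (neg c) ↔ Valid3 G c := by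
  unfold Valid3
  simp [bad_neg]

theorem sgn_neg (s : Bool) (c : V → Bool) : sgn s (neg c) = sgn (!s) c := by
  unfold sgn
  refine sum_congr rfl fun v _ => ?_
  cases h : c v <;> cases s <;> simp [neg, h]

theorem flip_neg (c : V → Bool) (v : V) : flip (neg c) v = neg (flip c v) := by
  funext w
  by_cases h : w = v <;> simp [IVT.flip, neg, h]

theorem Fp_neg {G : SimpleGraph V} [DecidableRel G.Adj] {c : V → Bool} {v : V} :
    Fp G (neg c) v ↔ Fp G c v := by
  unfold Fp
  rw [bad_neg]

theorem Reach3.neg {G : SimpleGraph V} [DecidableRel G.Adj] {c d : V → Bool} (h : Reach3 G c d) :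
    Reach3 G (BLN.neg c) (BLN.neg d) := by
  induction h with
  | refl c => exact Reach3.refl _
  | step c v g hv _ ih =>
    refine Reach3.step _ v _ (Fp_neg.2 hv) ?_
    rw [flip_neg]
    exact ih

theorem Lab3.neg {G : SimpleGraph V} [DecidableRel G.Adj] {s : Bool} {c : V → Bool}
    (h : Lab3 G s c) : Lab3 G (!s) (BLN.neg c) := by
  obtain ⟨g, h1, h2, h3⟩ := h
  refine ⟨BLN.neg g, h1.neg, valid3_neg.2 h2, ?_⟩
  rw [sgn_neg, Bool.not_not]
  exact h3

theorem Crit3.neg {G : SimpleGraph V} [DecidableRel G.Adj] {c : V → Bool} (h : Crit3 G c) :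
    Crit3 G (BLN.neg c) := by
  refine ⟨fun s => ?_, fun d hd s h1 h2 => ?_⟩
  · have := (h.lab (!s)).neg
    rwa [Bool.not_not] at this
  · refine h.min (BLN.neg d) ?_ (!s) h1.neg h2.neg
    rw [En_neg]
    rwa [En_neg] at hd

theorem Star3.neg {G : SimpleGraph V} [DecidableRel G.Adj] {c : V → Bool} {x : V}
    {l a b : Fin 3 → V} (st : Star3 G c x l a b) : Star3 G (BLN.neg c) x l b a where
  nx := st.nx
  nl := fun i v => by rw [st.nl]; tauto
  l_inj := st.l_inj
  pd := fun i => by have := st.pd i; tauto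
  a_inj := st.b_inj
  b_inj := st.a_inj
  a_rest := st.b_rest
  b_rest := st.a_rest
  ca := fun i hi => by simp [BLN.neg, st.cb i hi]
  cb := fun i hi => by simp [BLN.neg, st.ca i hi]
  own := fun v hv => by
    have h1 : (rest x l).filter (fun w => G.Adj v w ∧ BLN.neg c w = BLN.neg c v) =
        (rest x l).filter (fun w => G.Adj v w ∧ c w = c v) := by
      refine filter_congr fun w _ => ?_
      simp [BLN.neg]
    rw [h1]
    exact st.own v hv
  own_a := fun i hi w hw hadj => by simp [BLN.neg, st.own_b i hi w hw hadj]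
  own_b := fun i hi w hw hadj => by simp [BLN.neg, st.own_a i hi w hw hadj]
  deg_a := st.deg_b
  deg_b := st.deg_a
  sum := by
    have h1 : ∑ v ∈ rest x l, sg (BLN.neg c v) = - ∑ v ∈ rest x l, sg (c v) := by
      rw [← sum_neg_distrib]
      exact sum_congr rfl fun v _ => by rw [BLN.neg, sg_not]
    rw [h1, st.sum, neg_zero]

/-! ### star states -/

/-- the colouring with centre colour `ξ` and leaf colours `m i` -/
def sc (c : V → Bool) (x : V) (l : Fin 3 → V) (ξ : Bool) (m : Fin 3 → Bool) : V → Bool :=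
  fun v => if v = x then ξ else if v = l 0 then m 0 else if v = l 1 then m 1
    else if v = l 2 then m 2 else c v

section

variable {G : SimpleGraph V} [DecidableRel G.Adj] {c : V → Bool} {x : V} {l a b : Fin 3 → V}

theorem sc_x (ξ : Bool) (m : Fin 3 → Bool) : sc c x l ξ m x = ξ := by simp [sc]

theorem sc_rest {ξ : Bool} {m : Fin 3 → Bool} {v : V} (hv : v ∈ rest x l) : sc c x l ξ m v = c v := by
  rw [mem_rest] at hv
  simp [sc, hv.1, hv.2 0, hv.2 1, hv.2 2]

theorem Star3.sc_l (st : Star3 G c x l a b) (ξ : Bool) (m : Fin 3 → Bool) (i : Fin 3) :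
    sc c x l ξ m (l i) = m i := by
  have h01 : l 1 ≠ l 0 := fun h => by simpa using st.l_inj h
  have h02 : l 2 ≠ l 0 := fun h => by simpa using st.l_inj h
  have h12 : l 2 ≠ l 1 := fun h => by simpa using st.l_inj h
  fin_cases i
  · simp [sc, st.l_ne_x 0]
  · simp [sc, st.l_ne_x 1, h01]
  · simp [sc, st.l_ne_x 2, h02, h12]

/-- the three kinds of vertices -/
theorem Star3.cases (_st : Star3 G c x l a b) (v : V) : v = x ∨ (∃ i, v = l i) ∨ v ∈ rest x l := by
  by_cases h : v = x
  · exact Or.inl h
  by_cases h' : ∃ i, v = l i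
  · exact Or.inr (Or.inl h')
  push Not at h'
  exact Or.inr (Or.inr (mem_rest.2 ⟨h, h'⟩))

theorem Star3.eq_sc (st : Star3 G c x l a b) {d : V → Bool} (h : ∀ v ∈ rest x l, d v = c v) :
    d = sc c x l (d x) (fun i => d (l i)) := by
  funext v
  rcases st.cases v with rfl | ⟨i, rfl⟩ | hv
  · rw [sc_x]
  · rw [st.sc_l]
  · rw [sc_rest hv, h v hv]

theorem Star3.flip_l (st : Star3 G c x l a b) (ξ : Bool) (m : Fin 3 → Bool) (i : Fin 3) :
    flip (sc c x l ξ m) (l i) = sc c x l ξ (Function.update m i (!m i)) := by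
  funext v
  rcases st.cases v with rfl | ⟨j, rfl⟩ | hv
  · rw [flip_ne _ (st.l_ne_x i).symm, sc_x, sc_x]
  · by_cases hj : j = i
    · subst hj
      rw [flip_same, st.sc_l, st.sc_l, Function.update_self]
    · rw [flip_ne _ (fun h => hj (st.l_inj h)), st.sc_l, st.sc_l, Function.update_of_ne hj]
  · rw [flip_ne _ ((mem_rest.1 hv).2 i), sc_rest hv, sc_rest hv]

theorem Star3.flip_x (st : Star3 G c x l a b) (ξ : Bool) (m : Fin 3 → Bool) :
    flip (sc c x l ξ m) x = sc c x l (!ξ) m := by
  funext v
  rcases st.cases v with rfl | ⟨j, rfl⟩ | hv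
  · rw [flip_same, sc_x, sc_x]
  · rw [flip_ne _ (st.l_ne_x j), st.sc_l, st.sc_l]
  · rw [flip_ne _ (mem_rest.1 hv).1, sc_rest hv, sc_rest hv]

theorem Star3.starCol_eq (st : Star3 G c x l a b) (s : Bool) :
    starCol c x l s = sc c x l s (fun _ => !s) := by
  funext v
  rcases st.cases v with rfl | ⟨j, rfl⟩ | hv
  · simp [starCol, sc]
  · rw [st.sc_l]
    have := st.l_ne_x j
    simp [starCol, this]
  · rw [sc_rest hv]
    have h1 := (mem_rest.1 hv).1
    have h2 : ¬ ∃ i, v = l i := fun ⟨i, h⟩ => (mem_rest.1 hv).2 i h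
    simp [starCol, h1, h2]

/-- number of leaves of the colour of the centre -/
def nm (ξ : Bool) (m : Fin 3 → Bool) : ℕ := (univ.filter fun i => m i = ξ).card

theorem Star3.bad_x (st : Star3 G c x l a b) (ξ : Bool) (m : Fin 3 → Bool) :
    (bad G (sc c x l ξ m) x).card = nm ξ m := by
  have h1 : bad G (sc c x l ξ m) x = (univ.filter fun i : Fin 3 => m i = ξ).image l := by
    ext w
    rw [mem_bad, st.nx, sc_x]
    simp only [mem_image, mem_filter, mem_univ, true_and]
    constructor
    · rintro ⟨⟨i, rfl⟩, h⟩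
      rw [st.sc_l] at h
      exact ⟨i, h, rfl⟩
    · rintro ⟨i, h, rfl⟩
      exact ⟨⟨i, rfl⟩, by rw [st.sc_l, h]⟩
  rw [h1, card_image_of_injective _ st.l_inj]
  rfl

/-- own neighbours of a leaf which is not a pendant -/
theorem Star3.bad_l (st : Star3 G c x l a b) (ξ : Bool) (m : Fin 3 → Bool) (i : Fin 3) (hi : a i ≠ x) :
    (bad G (sc c x l ξ m) (l i)).card = (if m i = ξ then 1 else 0) + 1 := by
  have hb : b i ≠ x := fun h => hi ((st.a_eq_iff i).2 h)
  have hnb : Nb G (l i) x (a i) (b i) := ⟨st.nl i, hi.symm, hb.symm, st.a_ne_b' i hi i⟩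
  rw [hnb.card G, st.sc_l, sc_x, sc_rest (st.a_rest i hi), sc_rest (st.b_rest i hb), st.ca i hi,
    st.cb i hb]
  cases h1 : m i <;> cases h2 : ξ <;> simp

/-- own neighbours of a pendant leaf -/
theorem Star3.bad_pl (st : Star3 G c x l a b) (ξ : Bool) (m : Fin 3 → Bool) (i : Fin 3) (hi : a i = x) :
    (bad G (sc c x l ξ m) (l i)).card = (if m i = ξ then 1 else 0) := by
  have hb : b i = x := (st.a_eq_iff i).1 hi
  have h1 : bad G (sc c x l ξ m) (l i) = if m i = ξ then {x} else ∅ := by
    ext w
    rw [mem_bad, st.nl, hi, hb, st.sc_l]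
    simp only [or_self]
    constructor
    · rintro ⟨rfl, h⟩
      rw [sc_x] at h
      simp [h]
    · intro h
      split_ifs at h with h2
      · rw [mem_singleton] at h
        subst h
        exact ⟨rfl, by rw [sc_x, h2]⟩
      · simp at h
  rw [h1]
  split_ifs <;> simp

theorem Star3.dif_l (st : Star3 G c x l a b) (ξ : Bool) (m : Fin 3 → Bool) (i : Fin 3) :
    (En G (sc c x l ξ (Function.update m i (!m i))) : ℤ) =
      En G (sc c x l ξ m) + (if m i = ξ then -2 else 2) := by
  rw [← st.flip_l, En_flip3]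
  by_cases hi : a i = x
  · rw [st.bad_pl ξ m i hi, st.deg_pl i hi]
    split_ifs
    · simp
      ring
    · simp
  · rw [st.bad_l ξ m i hi, st.deg_l i hi]
    split_ifs <;> simp <;> ring

theorem Star3.dif_x (st : Star3 G c x l a b) (ξ : Bool) (m : Fin 3 → Bool) :
    (En G (sc c x l (!ξ) m) : ℤ) = En G (sc c x l ξ m) + 6 - 4 * (nm ξ m : ℤ) := by
  rw [← st.flip_x, En_flip3, st.bad_x, st.deg_x]
  ring

theorem nm_add (ξ : Bool) (m : Fin 3 → Bool) : nm (!ξ) m + nm ξ m = 3 := by
  unfold nm
  have h := card_filter_add_card_filter_not (s := (univ : Finset (Fin 3))) (fun i => m i = ξ)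
  have h2 : (univ.filter fun i : Fin 3 => m i = !ξ) = univ.filter fun i : Fin 3 => ¬ m i = ξ := by
    ext i
    simp only [mem_filter, mem_univ, true_and]
    cases m i <;> cases ξ <;> simp
  rw [h2]
  simp only [card_univ, Fintype.card_fin] at h
  omega

theorem nm_update (ξ : Bool) (m : Fin 3 → Bool) (i : Fin 3) :
    (nm ξ (Function.update m i (!m i)) : ℤ) = nm ξ m + (if m i = ξ then -1 else 1) := by
  revert ξ m i
  unfold nm
  decide

/-- The energies of the star states: two darts for every leaf of the colour of the centre. -/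
theorem Star3.en_sc (st : Star3 G c x l a b) (ξ : Bool) (m : Fin 3 → Bool) :
    (En G (sc c x l ξ m) : ℤ) = En G (sc c x l false (fun _ => true)) + 2 * nm ξ m := by
  -- the difference `En - 2 nm` does not change under the flips
  have step : ∀ (ξ : Bool) (m : Fin 3 → Bool) (i : Fin 3),
      (En G (sc c x l ξ (Function.update m i (!m i))) : ℤ) - 2 * nm ξ (Function.update m i (!m i)) =
        En G (sc c x l ξ m) - 2 * nm ξ m := by
    intro ξ m i
    rw [st.dif_l, nm_update]
    split_ifs <;> ring
  have upd : ∀ (ξ : Bool) (m : Fin 3 → Bool) (i : Fin 3) (t : Bool),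
      (En G (sc c x l ξ (Function.update m i t)) : ℤ) - 2 * nm ξ (Function.update m i t) =
        En G (sc c x l ξ m) - 2 * nm ξ m := by
    intro ξ m i t
    by_cases h : t = m i
    · rw [h, Function.update_eq_self]
    · have h2 : t = !m i := by
        cases t <;> cases hm : m i <;> simp_all
      rw [h2]
      exact step ξ m i
  have all : ∀ (ξ : Bool) (m m' : Fin 3 → Bool),
      (En G (sc c x l ξ m) : ℤ) - 2 * nm ξ m = En G (sc c x l ξ m') - 2 * nm ξ m' := by
    intro ξ m m'
    have h : m' = Function.update (Function.update (Function.update m 0 (m' 0)) 1 (m' 1)) 2 (m' 2) := by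
      funext i
      fin_cases i <;> simp [Function.update]
    rw [h, upd, upd, upd]
  have hx := st.dif_x false (fun _ => true)
  have h0 : nm false (fun _ : Fin 3 => true) = 0 := by decide
  have h1 : nm true (fun _ : Fin 3 => true) = 3 := by decide
  cases ξ
  · have h2 := all false m (fun _ => true)
    rw [h0] at h2
    push_cast at h2
    linarith
  · have h2 := all true m (fun _ => true)
    rw [h1] at h2
    rw [h0] at hx
    simp only [Bool.not_false] at hx
    push_cast at h2 hx
    linarith

theorem Star3.sgn_sc (st : Star3 G c x l a b) (ξ : Bool) (m : Fin 3 → Bool) :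
    sgn true (sc c x l ξ m) = sg ξ + (sg (m 0) + sg (m 1) + sg (m 2)) := by
  rw [sgn_eq, st.sum_univ, sc_x, st.sc_l, st.sc_l, st.sc_l,
    sum_congr rfl fun v hv => by rw [sc_rest hv], st.sum, add_zero]

theorem Star3.col_empty (st : Star3 G c x l a b) (ξ : Bool) :
    col c x l a b ∅ ξ = sc c x l ξ (fun _ => !ξ) := by
  funext v
  rcases st.cases v with rfl | ⟨j, rfl⟩ | hv
  · rw [sc_x, st.col_x]
  · rw [st.sc_l, st.col_l]
    simp [lam]
  · rw [sc_rest hv, st.col_R _ _ hv]
    simp [flips]

/-- The two star colourings are valid. -/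
theorem Star3.valid_sc (st : Star3 G c x l a b) (ξ : Bool) :
    Valid3 G (sc c x l ξ (fun _ => !ξ)) := by
  have hc0 : ∀ v, out G c (rest x l) ∅ v + stay G c (rest x l) ∅ v =
      ((rest x l).filter fun w => G.Adj v w ∧ c w = c v).card := by
    intro v
    rw [← ownIn_flip]
    unfold ownIn
    congr 1
  intro v
  rcases st.cases v with rfl | ⟨j, rfl⟩ | hv
  · rw [st.bad_x, st.deg_x]
    have : nm ξ (fun _ => !ξ) = 0 := by cases ξ <;> decide
    omega
  · by_cases hj : a j = x
    · rw [st.bad_pl _ _ _ hj, st.deg_pl _ hj]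
      cases ξ <;> simp
    · rw [st.bad_l _ _ _ hj, st.deg_l _ hj]
      cases ξ <;> simp
  · rw [← st.col_empty]
    refine st.own_R (fun v hv => ?_) (fun i hi _ => ?_) hv
    · rw [hc0]
      exact st.own v hv
    · rw [hc0, card_eq_zero, filter_eq_empty_iff]
      have hb : b i ≠ x := fun h => hi ((st.a_eq_iff i).2 h)
      rintro w hw ⟨h1, h2⟩
      unfold expo at h1 h2
      split_ifs at h1 h2
      · rw [st.own_a i hi w hw h1, st.ca i hi] at h2
        exact absurd h2 (by decide)
      · rw [st.own_b i hb w hw h1, st.cb i hb] at h2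
        exact absurd h2 (by decide)

end

/-! ### frames -/

/-- A frame: a valid colouring `g` of sum two, two monochromatic edges below the critical energy,
with a star centre `x` of colour `false` and leaves of colour `true`. -/
structure Fr (G : SimpleGraph V) [DecidableRel G.Adj] (g : V → Bool) (x : V) (l a b : Fin 3 → V) :
    Prop where
  star : Star3 G g x l a b
  gx : g x = false
  gl : ∀ i, g (l i) = true
  en : ∃ c, Crit3 G c ∧ En G g + 4 = En G c

/-- `u` is a star centre for `g`. -/
def Cen (G : SimpleGraph V) [DecidableRel G.Adj] (g : V → Bool) (u : V) : Prop :=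
  ∃ l a b : Fin 3 → V, Fr G g u l a b

/-- the colouring seen from the star state with the other colours: exchange of all colours outside
the star -/
def du (g : V → Bool) (x : V) (l : Fin 3 → V) : V → Bool := neg (sc g x l true (fun _ => false))

section

variable {G : SimpleGraph V} [DecidableRel G.Adj] {g : V → Bool} {x : V} {l a b : Fin 3 → V}

theorem Fr.eq_sc (h : Fr G g x l a b) : sc g x l false (fun _ => true) = g := by
  rw [h.star.eq_sc (d := g) (fun _ _ => rfl), h.gx]
  congr 1
  · funext v
    rcases h.star.cases v with rfl | ⟨j, rfl⟩ | hv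
    · rw [sc_x, h.gx]
    · rw [h.star.sc_l]
    · rw [sc_rest hv]
  · funext i
    rw [h.gl]

theorem Fr.valid (h : Fr G g x l a b) : Valid3 G g := by
  have h1 := h.star.valid_sc false
  simp only [Bool.not_false] at h1
  rwa [h.eq_sc] at h1

theorem Fr.sum (h : Fr G g x l a b) : sgn true g = 2 := by
  have h1 := h.star.sgn_sc false (fun _ => true)
  rw [h.eq_sc] at h1
  rw [h1]
  simp [sg]

theorem Fr.lab (h : Fr G g x l a b) : Lab3 G true g :=
  Lab3.of_valid G h.valid (by rw [h.sum])

theorem Fr.perm (h : Fr G g x l a b) (σ : Equiv.Perm (Fin 3)) : Fr G g x (l ∘ σ) (a ∘ σ) (b ∘ σ) :=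
  ⟨h.star.perm σ, h.gx, fun i => h.gl (σ i), h.en⟩

theorem du_x (g : V → Bool) (x : V) (l : Fin 3 → V) : du g x l x = false := by
  simp [du, neg, sc_x]

theorem Fr.du_l (h : Fr G g x l a b) (i : Fin 3) : du g x l (l i) = true := by
  simp [du, neg, h.star.sc_l]

theorem du_rest {v : V} (hv : v ∈ rest x l) : du g x l v = !g v := by
  simp [du, neg, sc_rest hv]

/-- The dual frame: the two colours exchanged, `g` replaced by the other star colouring. -/
theorem Fr.dual (h : Fr G g x l a b) : Fr G (du g x l) x l b a where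
  star := (h.star.congr (c' := sc g x l true (fun _ => false)) (fun v hv => sc_rest hv)).neg
  gx := du_x g x l
  gl := h.du_l
  en := by
    obtain ⟨c, hc, he⟩ := h.en
    refine ⟨c, hc, ?_⟩
    rw [← he, du, En_neg]
    have h1 := h.star.en_sc true (fun _ => false)
    rw [h.eq_sc] at h1
    have h2 : nm true (fun _ => false) = 0 := by decide
    rw [h2] at h1
    push_cast at h1
    omega

theorem Fr.du_du (h : Fr G g x l a b) : du (du g x l) x l = g := by
  funext v
  rcases h.star.cases v with rfl | ⟨j, rfl⟩ | hv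
  · rw [du_x, h.gx]
  · rw [h.dual.du_l, h.gl]
  · rw [du_rest hv, du_rest hv, Bool.not_not]

/-- There is a frame if no valid colouring is balanced. -/
theorem exists_fr (hG : Deg13 G) (hB : NoBal3 G) (hC : C4Free G) :
    ∃ (g : V → Bool) (x : V) (l a b : Fin 3 → V), Fr G g x l a b := by
  obtain ⟨c, hc⟩ := exists_crit3 G hG hB
  obtain ⟨x, l, a, b, s, st, -, -, -, -, -, -, -, -, hE, -, -⟩ := crit_star3 G hG hB hC hc
  refine ⟨sc c x l false (fun _ => true), x, l, a, b,
    st.congr (fun v hv => sc_rest hv), sc_x _ _, fun i => st.sc_l _ _ i, c, hc, ?_⟩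
  have h1 := hE false
  rw [st.starCol_eq] at h1
  simpa using h1

/-- **Moving the star.** A vertex `u` of colour `false` whose neighbours are pendants or have one
own neighbour, and a third neighbour without own neighbours, is a star centre for `g`. -/
theorem Fr.of_nbrs (hC : C4Free G) (hv : Valid3 G g) (hs : sgn true g = 2)
    (he : ∃ c, Crit3 G c ∧ En G g + 4 = En G c) {u : V} {l a b : Fin 3 → V} (gu : g u = false)
    (hu : ∀ v, G.Adj u v ↔ ∃ i, v = l i) (hinj : Function.Injective l)
    (gl : ∀ i, g (l i) = true)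
    (hl : ∀ i, (a i = u ∧ b i = u ∧ ∀ v, G.Adj (l i) v ↔ v = u) ∨
      (a i ≠ u ∧ b i ≠ u ∧ (∀ v, G.Adj (l i) v ↔ v = u ∨ v = a i ∨ v = b i) ∧
        g (a i) = true ∧ g (b i) = false ∧ G.degree (a i) = 3 ∧ G.degree (b i) = 3 ∧
        ∀ w, G.Adj (b i) w → g w = true))
    (hal : ∀ i j, a i ≠ l j) : Fr G g u l a b := by
  have hul : ∀ i, u ≠ l i := fun i h => by
    have := gl i
    rw [← h, gu] at this
    exact absurd this (by decide)
  -- the part of `hl` for leaves which are not pendants
  have hn : ∀ i, a i ≠ u → b i ≠ u ∧ (∀ v, G.Adj (l i) v ↔ v = u ∨ v = a i ∨ v = b i) ∧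
        g (a i) = true ∧ g (b i) = false ∧ G.degree (a i) = 3 ∧ G.degree (b i) = 3 ∧
        ∀ w, G.Adj (b i) w → g w = true := by
    intro i hi
    rcases hl i with h | h
    · exact absurd h.1 hi
    · exact h.2
  have hn' : ∀ i, b i ≠ u → a i ≠ u := by
    intro i hi
    rcases hl i with h | h
    · exact absurd h.2.1 hi
    · exact h.1
  -- a vertex of degree three has at most one own neighbour
  have own1 : ∀ v w w', G.degree v = 3 → G.Adj v w → G.Adj v w' → g w = g v → g w' = g v → w = w' := by
    intro v w w' hd h1 h2 h3 h4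
    by_contra hne
    have h5 := hv v
    have h6 : ({w, w'} : Finset V) ⊆ bad G g v := by
      intro z hz
      rw [mem_insert, mem_singleton] at hz
      rcases hz with rfl | rfl <;> rw [mem_bad] <;> exact ⟨by assumption, by assumption⟩
    have h7 := card_le_card h6
    rw [card_pair hne] at h7
    omega
  refine ⟨⟨hu, ?_, hinj, ?_, ?_, ?_, ?_, ?_, ?_, ?_, ?_, ?_, ?_, ?_, ?_, ?_⟩, gu, gl, he⟩
  · intro i v
    rcases hl i with h | h
    · rw [h.1, h.2.1, h.2.2]
      tauto
    · exact h.2.2.1 v
  · intro i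
    rcases hl i with h | h
    · exact Or.inl ⟨h.1, h.2.1⟩
    · exact Or.inr ⟨h.1, h.2.1⟩
  · intro i j hij hi
    have hj : a j ≠ u := hij ▸ hi
    obtain ⟨-, h1, h2, -, h3, -⟩ := hn i hi
    obtain ⟨-, h1', h2', -, h3', -⟩ := hn j hj
    apply hinj
    refine own1 (a i) (l i) (l j) h3 ((h1 _).2 (Or.inr (Or.inl rfl))).symm ?_ ?_ ?_
    · rw [hij]; exact ((h1' _).2 (Or.inr (Or.inl rfl))).symm
    · rw [gl, h2]
    · rw [gl, h2]
  · intro i j hij hi
    have hj : b j ≠ u := hij ▸ hi
    obtain ⟨-, h1, -⟩ := hn i (hn' i hi)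
    obtain ⟨-, h1', -⟩ := hn j (hn' j hj)
    apply hinj
    rcases hC u (l i) (b i) (l j) ((hu _).2 ⟨i, rfl⟩) ((h1 _).2 (Or.inr (Or.inr rfl)))
      (by rw [hij]; exact ((h1' _).2 (Or.inr (Or.inr rfl))).symm) ((hu _).2 ⟨j, rfl⟩).symm with h | h
    · exact absurd h.symm hi
    · exact h
  · intro i hi
    rw [mem_rest]
    exact ⟨hi, fun j => hal i j⟩
  · intro i hi
    rw [mem_rest]
    refine ⟨hi, fun j h => ?_⟩
    have h1 := (hn i (hn' i hi)).2.2.2.1
    rw [h, gl] at h1
    exact absurd h1 (by decide)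
  · intro i hi
    exact (hn i hi).2.2.1
  · intro i hi
    exact (hn i (hn' i hi)).2.2.2.1
  · intro v _
    have h1 : (rest u l).filter (fun w => G.Adj v w ∧ g w = g v) ⊆ bad G g v := by
      intro w hw
      rw [mem_filter] at hw
      rw [mem_bad]
      exact hw.2
    have h2 := card_le_card h1
    have h3 := hv v
    omega
  · intro i hi w hw hadj
    obtain ⟨-, h1, h2, -, h3, -⟩ := hn i hi
    by_contra h4
    have h5 : g w = true := by
      cases h6 : g w
      · exact absurd h6 h4
      · rfl
    have h6 := own1 (a i) w (l i) h3 hadj ((h1 _).2 (Or.inr (Or.inl rfl))).symm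
      (by rw [h5, h2]) (by rw [gl, h2])
    exact (mem_rest.1 hw).2 i h6
  · intro i hi w _ hadj
    exact (hn i (hn' i hi)).2.2.2.2.2.2 w hadj
  · intro i hi
    exact (hn i hi).2.2.2.2.1
  · intro i hi
    exact (hn i (hn' i hi)).2.2.2.2.2.1
  · have h1 := sum_rest hul hinj (fun v => sg (g v))
    rw [← sgn_eq, hs, gu, gl, gl, gl] at h1
    simp only [sg] at h1 ⊢
    simp only [if_true, Bool.false_eq_true, if_false] at h1
    linarith

end

end Pool.Agent.BLN
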