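import Pool.Agent.BLN.Move
import Pool.Agent.BLE.Top13
import Pool.Agent.BLE.End
import Pool.Agent.BLE.Hex

/-!
# The closure: from the local theorem to the Petersen graph
-/

set_option autoImplicit false
set_option linter.unusedSectionVars false

namespace Pool.Agent.BLN

open Finset Pool.Agent.IVT Pool.BLE

variable {V : Type} [Fintype V] [DecidableEq V] {G : SimpleGraph V} [DecidableRel G.Adj]

theorem Valid3.own1 {g : V → Bool} (hv : Valid3 G g) {v w w' : V} (hd : G.degree v = 3)
    (h1 : G.Adj v w) (h2 : G.Adj v w') (h3 : g w = g v) (h4 : g w' = g v) : w = w' := by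
  by_contra hne
  have h5 := hv v
  have h6 : ({w, w'} : Finset V) ⊆ bad G g v := by
    intro z hz
    rw [mem_insert, mem_singleton] at hz
    rcases hz with rfl | rfl <;> rw [mem_bad] <;> exact ⟨by assumption, by assumption⟩
  have h7 := card_le_card h6
  rw [card_pair hne] at h7
  omega

section

variable {g : V → Bool} {x : V} {l a b : Fin 3 → V}

theorem Fr.nbr {u w : V} {l' a' b' : Fin 3 → V} (h : Fr G g u l' a' b') (hw : G.Adj u w) :
    g w = true := by
  obtain ⟨i, rfl⟩ := (h.star.nx w).1 hw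
  exact h.gl i

theorem Cen.gfalse {u : V} (h : Cen G g u) : g u = false := by
  obtain ⟨l', a', b', h⟩ := h
  exact h.gx

theorem Cen.nbr {u w : V} (h : Cen G g u) (hw : G.Adj u w) : g w = true := by
  obtain ⟨l', a', b', h⟩ := h
  exact h.nbr hw

theorem Cen.deg {u : V} (h : Cen G g u) : G.degree u = 3 := by
  obtain ⟨l', a', b', h⟩ := h
  exact h.star.deg_x

theorem Cen.valid {u : V} (h : Cen G g u) : Valid3 G g := by
  obtain ⟨l', a', b', h⟩ := h
  exact h.valid

/-- A neighbour of a centre is a pendant or has the centre, an own neighbour `m` (not adjacent to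
the centre) and a third neighbour `t` without own neighbours. -/
theorem Cen.leaf {u w : V} (h : Cen G g u) (hw : G.Adj u w) :
    G.degree w = 1 ∨ ∃ m t, Nb G w u m t ∧ g m = true ∧ g t = false ∧ G.degree m = 3 ∧
      G.degree t = 3 ∧ (∀ z, G.Adj t z → g z = true) ∧ ¬ G.Adj u m := by
  obtain ⟨l', a', b', h⟩ := h
  obtain ⟨i, rfl⟩ := (h.star.nx w).1 hw
  by_cases hi : a' i = u
  · exact Or.inl (h.star.deg_pl i hi)
  · right
    have hb : b' i ≠ u := fun h' => hi ((h.star.a_eq_iff i).2 h')
    refine ⟨a' i, b' i, ⟨h.star.nl i, Ne.symm hi, Ne.symm hb, h.star.a_ne_b' i hi i⟩,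
      h.star.ca i hi, h.star.cb i hb, h.star.deg_a i hi, h.star.deg_b i hb, ?_, ?_⟩
    · intro z hz
      rcases h.star.cases z with rfl | ⟨j, rfl⟩ | hz'
      · exfalso
        obtain ⟨j, hj⟩ := (h.star.nx _).1 hz.symm
        exact (mem_rest.1 (h.star.b_rest i hb)).2 j hj
      · exact h.gl j
      · exact h.star.own_b i hb z hz' hz
    · intro hadj
      obtain ⟨j, hj⟩ := (h.star.nx _).1 hadj
      exact (mem_rest.1 (h.star.a_rest i hi)).2 j hj

/-- The centre condition for all vertices at distance two and behind the mates. -/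
def StarP (G : SimpleGraph V) [DecidableRel G.Adj] (g : V → Bool) (x : V) : Prop :=
  ∀ w z, G.Adj x w → G.Adj w z → (g z = false → Cen G g z) ∧
    (g z = true → ∀ z', G.Adj z z' → z' ≠ w → Cen G g z')

theorem Fr.du_true_iff (h : Fr G g x l a b) {z : V} (hz : g z = true) :
    du g x l z = true ↔ G.Adj x z := by
  rcases h.star.cases z with rfl | ⟨j, rfl⟩ | hz'
  · rw [h.gx] at hz
    exact absurd hz (by decide)
  · rw [h.du_l]
    simp only [true_iff]
    exact (h.star.nx _).2 ⟨j, rfl⟩
  · rw [du_rest hz', hz]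
    simp only [Bool.not_true, Bool.false_eq_true, false_iff]
    intro hadj
    obtain ⟨j, hj⟩ := (h.star.nx _).1 hadj
    exact (mem_rest.1 hz').2 j hj

theorem Fr.du_of_false (h : Fr G g x l a b) {z : V} (hz : g z = false) (hzx : z ≠ x) :
    du g x l z = true := by
  rcases h.star.cases z with rfl | ⟨j, rfl⟩ | hz'
  · exact absurd rfl hzx
  · exact h.du_l j
  · rw [du_rest hz', hz]
    rfl

/-- the mate of a leaf -/
theorem Fr.mateCen {w z : V} (h : Fr G g x l a b) (hP : StarP G (du g x l) x) (hw : G.Adj x w)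
    (hz : G.Adj w z) (gz : g z = true) (hxz : ¬ G.Adj x z) : Cen G (du g x l) z := by
  refine (hP w z hw hz).1 ?_
  by_contra h1
  have h2 : du g x l z = true := by
    cases h3 : du g x l z
    · exact absurd h3 h1
    · rfl
  exact hxz ((h.du_true_iff gz).1 h2)

/-- the third neighbour of a leaf -/
theorem Fr.thirdCen {w z z' : V} (h : Fr G g x l a b) (hP : StarP G (du g x l) x) (hw : G.Adj x w)
    (hz : G.Adj w z) (gz : g z = false) (hzx : z ≠ x) (hz' : G.Adj z z') (hne : z' ≠ w) :
    Cen G (du g x l) z' :=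
  (hP w z hw hz).2 (h.du_of_false gz hzx) z' hz' hne

/-- A vertex of degree three, all of whose neighbours have colour `true` in `g`, next to a centre
`y` of the dual colouring: one of its neighbours other than `y` is adjacent to the centre `x`. -/
theorem Fr.uniq {y v : V} (h : Fr G g x l a b) (hy : Cen G (du g x l) y) (hv : G.Adj y v)
    (hd : G.degree v = 3) (hall : ∀ z, G.Adj v z → g z = true) :
    ∃ m, G.Adj v m ∧ G.Adj x m ∧ m ≠ y := by
  rcases hy.leaf hv with h1 | ⟨m, t, hnb, h1, -⟩
  · omega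
  · exact ⟨m, hnb.ay, (h.du_true_iff (hall m hnb.ay)).1 h1, hnb.xy.symm⟩

theorem Fr.b_all (h : Fr G g x l a b) (i : Fin 3) (hi : b i ≠ x) {z : V} (hz : G.Adj (b i) z) :
    g z = true := by
  rcases h.star.cases z with rfl | ⟨j, rfl⟩ | hz'
  · exfalso
    obtain ⟨j, hj⟩ := (h.star.nx _).1 hz.symm
    exact (mem_rest.1 (h.star.b_rest i hi)).2 j hj
  · exact h.gl j
  · exact h.star.own_b i hi z hz' hz

theorem Fr.x_ne_nbr_a (h : Fr G g x l a b) (i : Fin 3) (hi : a i ≠ x) : ¬ G.Adj (a i) x := by
  intro hadj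
  obtain ⟨j, hj⟩ := (h.star.nx _).1 hadj.symm
  exact (mem_rest.1 (h.star.a_rest i hi)).2 j hj

theorem Fr.nb_l (h : Fr G g x l a b) (i : Fin 3) (hi : a i ≠ x) : Nb G (l i) x (a i) (b i) :=
  ⟨h.star.nl i, Ne.symm hi, fun h' => hi ((h.star.a_eq_iff i).2 h'.symm), h.star.a_ne_b' i hi i⟩

/-- The only neighbour of `a i` of its colour is `l i`. -/
theorem Fr.a_true (h : Fr G g x l a b) (i : Fin 3) (hi : a i ≠ x) {z : V} (hz : G.Adj (a i) z)
    (gz : g z = true) : z = l i :=
  h.valid.own1 (h.star.deg_a i hi) hz (h.nb_l i hi).ay.symm (by rw [gz, h.star.ca i hi])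
    (by rw [h.gl, h.star.ca i hi])

/-- The only neighbour of `l i` of its colour is `a i`. -/
theorem Fr.l_true (h : Fr G g x l a b) (i : Fin 3) (hi : a i ≠ x) {z : V} (hz : G.Adj (l i) z)
    (gz : g z = true) : z = a i := by
  have hb : b i ≠ x := fun h' => hi ((h.star.a_eq_iff i).2 h')
  rcases (h.star.nl i z).1 hz with rfl | rfl | rfl
  · rw [h.gx] at gz; exact absurd gz (by decide)
  · rfl
  · rw [h.star.cb i hb] at gz; exact absurd gz (by decide)

/-- A vertex of colour `false` adjacent to `l i` is `x` or `b i`. -/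
theorem Fr.l_false (h : Fr G g x l a b) (i : Fin 3) {z : V} (hz : G.Adj (l i) z)
    (gz : g z = false) (hzx : z ≠ x) : z = b i ∧ a i ≠ x := by
  rcases (h.star.nl i z).1 hz with h1 | h1 | h1
  · exact absurd h1 hzx
  · exfalso
    have h2 : a i ≠ x := h1 ▸ hzx
    rw [h1, h.star.ca i h2] at gz
    exact absurd gz (by decide)
  · exact ⟨h1, fun h2 => hzx (h1.trans ((h.star.a_eq_iff i).1 h2))⟩

/-- with the star condition there is no triangle at a leaf -/
theorem Fr.no_tri (h : Fr G g x l a b) (hP : StarP G g x) (i : Fin 3) (hi : a i ≠ x) :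
    ¬ G.Adj (a i) (b i) := by
  intro hadj
  have hb : b i ≠ x := fun h' => hi ((h.star.a_eq_iff i).2 h')
  have h1 : Cen G g (b i) :=
    (hP (l i) (b i) ((h.star.nx _).2 ⟨i, rfl⟩) (h.nb_l i hi).az).1 (h.star.cb i hb)
  rcases h1.leaf (h.nb_l i hi).az.symm with h2 | ⟨m, t, hnb, h2, -, -, -, -, h3⟩
  · have := h.star.deg_l i hi
    omega
  · have h4 := h.l_true i hi hnb.ay h2
    rw [h4] at h3
    exact h3 hadj.symm

theorem Fr.b_cen (h : Fr G g x l a b) (hP : StarP G g x) (i : Fin 3) (hi : a i ≠ x) :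
    Cen G g (b i) := by
  have hb : b i ≠ x := fun h' => hi ((h.star.a_eq_iff i).2 h')
  exact (hP (l i) (b i) ((h.star.nx _).2 ⟨i, rfl⟩) (h.nb_l i hi).az).1 (h.star.cb i hb)

theorem Fr.a_cen (h : Fr G g x l a b) (hP : StarP G g x) (i : Fin 3) (hi : a i ≠ x) {z : V}
    (hz : G.Adj (a i) z) (hne : z ≠ l i) : Cen G g z :=
  (hP (l i) (a i) ((h.star.nx _).2 ⟨i, rfl⟩) (h.nb_l i hi).ay).2 (h.star.ca i hi) z hz hne

/-- The hexagon: all six edges `a i - b j`, no pendant leaf. -/
def HexP (G : SimpleGraph V) (x : V) (a b : Fin 3 → V) : Prop :=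
  (∀ i, a i ≠ x) ∧ ∀ i j, i ≠ j → G.Adj (a i) (b j)

/-- Three different indices. -/
theorem three {i j k : Fin 3} (hij : i ≠ j) (hik : i ≠ k) (hjk : j ≠ k) (p : Fin 3) :
    p = i ∨ p = j ∨ p = k := by
  revert i j k p; decide

theorem exists_other (i : Fin 3) : ∃ j, i ≠ j := by
  revert i; decide

theorem exists_third {i j : Fin 3} (hij : i ≠ j) : ∃ k, i ≠ k ∧ j ≠ k := by
  revert i j; decide

theorem hexP_of {i j k : Fin 3} (hij : i ≠ j) (hik : i ≠ k) (hjk : j ≠ k)
    (hi : a i ≠ x) (hj : a j ≠ x) (hk : a k ≠ x)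
    (h1 : G.Adj (a i) (b j)) (h2 : G.Adj (a i) (b k)) (h3 : G.Adj (a j) (b i))
    (h4 : G.Adj (a j) (b k)) (h5 : G.Adj (a k) (b i)) (h6 : G.Adj (a k) (b j)) : HexP G x a b := by
  refine ⟨fun p => ?_, fun p q hpq => ?_⟩
  · rcases three hij hik hjk p with rfl | rfl | rfl <;> assumption
  · rcases three hij hik hjk p with rfl | rfl | rfl <;>
      rcases three hij hik hjk q with rfl | rfl | rfl <;>
      first | exact absurd rfl hpq | assumption

/-- The frame at a centre `u` next to `a i`, with the dual star condition: hexagon. -/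
theorem Fr.propA (h : Fr G g x l a b) (hP : StarP G g x) {i : Fin 3} (hi : a i ≠ x) {u : V}
    {l' a' b' : Fin 3 → V} (hu : Fr G g u l' a' b') (hadj : G.Adj (a i) u)
    (hP' : StarP G (du g u l') u) : HexP G x a b := by
  have hcu : Cen G g u := ⟨_, _, _, hu⟩
  have hbi : b i ≠ x := fun h' => hi ((h.star.a_eq_iff i).2 h')
  have gli := h.gl i
  -- `l i` is a dual centre
  have hui : ¬ G.Adj u (l i) := by
    intro h1
    rcases hcu.leaf hadj.symm with h2 | ⟨m, t, hnb, h2, -, -, -, -, h3⟩
    · have := h.star.deg_a i hi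
      omega
    · have h4 := h.a_true i hi hnb.ay h2
      rw [h4] at h3
      exact h3 h1
  have hcli : Cen G (du g u l') (l i) :=
    hu.mateCen hP' hadj.symm (h.nb_l i hi).ay.symm gli hui
  have hux : u ≠ x := by
    rintro rfl
    exact h.x_ne_nbr_a i hi hadj
  -- `u = b j`
  obtain ⟨m, hm1, hm2, hm3⟩ := hu.uniq hcli (h.nb_l i hi).ax h.star.deg_x (fun z hz => h.nbr hz)
  obtain ⟨j, rfl⟩ := (h.star.nx m).1 hm1
  have hji : i ≠ j := fun h' => hm3 (by rw [h'])
  obtain ⟨hub, hj⟩ := h.l_false j hm2.symm hcu.gfalse hux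
  have hbj : b j ≠ x := fun h' => hj ((h.star.a_eq_iff j).2 h')
  subst hub
  -- the third neighbour `c` of `b j`
  obtain ⟨c, hc1, hc2, hc3⟩ := hu.uniq hcli (h.nb_l i hi).az (h.star.deg_b i hbi)
    (fun z hz => h.b_all i hbi hz)
  obtain ⟨k, hik, hjk⟩ := exists_third hji
  have hxk : G.Adj x (l k) := (h.star.nx _).2 ⟨k, rfl⟩
  have hxj : G.Adj x (l j) := (h.star.nx _).2 ⟨j, rfl⟩
  have hclk : Cen G (du g (b j) l') (l k) :=
    hu.thirdCen hP' hm2 hm1.symm h.gx (Ne.symm hux) hxk (fun h' => hjk (h.star.l_inj h').symm)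
  have hk : a k ≠ x := by
    intro h'
    have h1 := hclk.deg
    have h2 := h.star.deg_pl k h'
    omega
  have hbk : b k ≠ x := fun h' => hk ((h.star.a_eq_iff k).2 h')
  -- `b j ~ a k`
  have e_kj : G.Adj (b j) (a k) :=
    (hu.du_true_iff (h.star.ca k hk)).1 (hclk.nbr (h.nb_l k hk).ay)
  have hak_ai : a k ≠ a i := fun h' => hik (h.star.a_inj k i h' hk).symm
  have hak_lj : a k ≠ l j := fun h' => (mem_rest.1 (h.star.a_rest k hk)).2 j h'
  have hai_lj : a i ≠ l j := fun h' => (mem_rest.1 (h.star.a_rest i hi)).2 j h'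
  have nbj : Nb G (b j) (l j) (a i) (a k) :=
    nb_of_three3 G hcu.deg hm2 hadj.symm e_kj (Ne.symm hai_lj) (Ne.symm hak_lj) (Ne.symm hak_ai)
  -- `b i ~ a k`
  have e_ki : G.Adj (b i) (a k) := by
    rcases (nbj.adj c).1 hc2 with h1 | h1 | h1
    · exfalso
      rw [h1] at hc1
      have h2 := h.l_false j hc1.symm (h.star.cb i hbi) hbi
      exact hji (h.star.b_inj i j h2.1 hbi)
    · exfalso
      rw [h1] at hc1
      exact h.no_tri hP i hi hc1.symm
    · rwa [h1] at hc1
  have hbij : b i ≠ b j := fun h' => hji (h.star.b_inj i j h' hbi)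
  -- `b i ~ a j`
  have hbik : l i ≠ a k := fun h' => (mem_rest.1 (h.star.a_rest k hk)).2 i h'.symm
  obtain ⟨z, nbi⟩ := exists_nb23 G (h.star.deg_b i hbi) (h.nb_l i hi).az.symm e_ki hbik
  have hcbi : Cen G g (b i) := h.b_cen hP i hi
  have hcz : Cen G (du g (b j) l') z :=
    hu.thirdCen hP' e_kj e_ki.symm (h.star.cb i hbi) hbij nbi.az nbi.yz.symm
  -- the mate of a leaf of `b j` is one of three vertices
  have mates : ∀ y z, Cen G g y → G.Adj y z → Cen G (du g (b j) l') z →
      z = a j ∨ z = l i ∨ z = l k := by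
    intro y z hy hyz hz
    rcases hy.leaf hyz with h1 | ⟨m, t, hnb, h1, -⟩
    · have := hz.deg
      omega
    · have h2 : G.Adj (b j) m := (hu.du_true_iff h1).1 (hz.nbr hnb.ay)
      have gz : g z = true := hy.nbr hyz
      rcases (nbj.adj m).1 h2 with rfl | rfl | rfl
      · exact Or.inl (h.l_true j hj hnb.ay.symm gz)
      · exact Or.inr (Or.inl (h.a_true i hi hnb.ay.symm gz))
      · exact Or.inr (Or.inr (h.a_true k hk hnb.ay.symm gz))
  have e_ij : G.Adj (b i) (a j) := by
    rcases mates (b i) z hcbi nbi.az hcz with h1 | h1 | h1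
    · rw [← h1]; exact nbi.az
    · exact absurd h1.symm nbi.xz
    · exfalso
      have h2 := nbi.az
      rw [h1] at h2
      have h3 := h.l_false k h2.symm (h.star.cb i hbi) hbi
      exact hik (h.star.b_inj i k h3.1 hbi)
  -- the third neighbour `y` of `a j`
  have haj_bi : l j ≠ b i := fun h' => (mem_rest.1 (h.star.b_rest i hbi)).2 j h'.symm
  obtain ⟨y, naj⟩ := exists_nb23 G (h.star.deg_a j hj) (h.nb_l j hj).ay.symm e_ij.symm haj_bi
  have hcy : Cen G g y := h.a_cen hP j hj naj.az naj.xz.symm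
  have huaj : ¬ G.Adj (b j) (a j) := fun h' => h.no_tri hP j hj h'.symm
  have hcaj : Cen G (du g (b j) l') (a j) := hu.mateCen hP' hm2 (h.nb_l j hj).ay (h.star.ca j hj) huaj
  obtain ⟨m, hy1, hy2, -⟩ := hu.uniq hcaj naj.az hcy.deg (fun z hz => hcy.nbr hz)
  have e_yi : G.Adj y (a i) := by
    rcases (nbj.adj m).1 hy2 with h1 | h1 | h1
    · exfalso
      rw [h1] at hy1
      have hyx : y ≠ x := by
        rintro rfl
        exact h.x_ne_nbr_a j hj naj.az
      have h2 := h.l_false j hy1.symm hcy.gfalse hyx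
      have h3 := naj.az
      rw [h2.1] at h3
      exact h.no_tri hP j hj h3
    · rwa [h1] at hy1
    · exfalso
      rw [h1] at hy1
      have hne1 : l k ≠ b j := fun h' => (mem_rest.1 (h.star.b_rest j hbj)).2 k h'.symm
      have hne2 : l k ≠ b i := fun h' => (mem_rest.1 (h.star.b_rest i hbi)).2 k h'.symm
      have nak : Nb G (a k) (l k) (b j) (b i) :=
        nb_of_three3 G (h.star.deg_a k hk) (h.nb_l k hk).ay.symm e_kj.symm e_ki.symm hne1 hne2
          (Ne.symm hbij)
      rcases (nak.adj y).1 hy1.symm with h2 | h2 | h2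
      · have := hcy.gfalse
        rw [h2, h.gl] at this
        exact absurd this (by decide)
      · have h3 := naj.az
        rw [h2] at h3
        exact h.no_tri hP j hj h3
      · exact naj.yz h2.symm
  -- `y = b k`
  have hyj : y ≠ b j := by
    rintro rfl
    exact h.no_tri hP j hj naj.az
  have haij : a i ≠ a j := fun h' => hji (h.star.a_inj i j h' hi)
  obtain ⟨w, ny⟩ := exists_nb23 G hcy.deg e_yi naj.az.symm haij
  have hcw : Cen G (du g (b j) l') w :=
    hu.thirdCen hP' hadj.symm e_yi.symm hcy.gfalse hyj ny.az ny.xz.symm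
  have hyx : y ≠ x := by
    rintro rfl
    exact h.x_ne_nbr_a j hj naj.az
  have hyk : y = b k := by
    rcases mates y w hcy ny.az hcw with h1 | h1 | h1
    · exact absurd h1.symm ny.yz
    · exfalso
      have h2 := ny.az
      rw [h1] at h2
      exact naj.yz (h.l_false i h2.symm hcy.gfalse hyx).1.symm
    · have h2 := ny.az
      rw [h1] at h2
      exact (h.l_false k h2.symm hcy.gfalse hyx).1
  subst hyk
  exact hexP_of hji hik hjk hi hj hk hadj e_yi.symm e_ij.symm naj.az e_ki.symm e_kj.symm

/-- part of `propB` -/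
theorem Fr.propB_aux (h : Fr G g x l a b) (hP : StarP G g x) {i j k : Fin 3} (hij : i ≠ j)
    (_hik : i ≠ k) (hjk : j ≠ k) (hi : a i ≠ x) (hj : a j ≠ x) (hk : a k ≠ x)
    {l' a' b' : Fin 3 → V} (hu : Fr G g (b i) l' a' b') (hP' : StarP G (du g (b i) l') (b i))
    (e_ij : G.Adj (b i) (a j)) (e_ik : G.Adj (b i) (a k)) {y : V} (hy : G.Adj (a i) y)
    (hyl : y ≠ l i) (hyj : G.Adj y (a j)) : y = b k := by
  have hbi : b i ≠ x := fun h' => hi ((h.star.a_eq_iff i).2 h')
  have hcy : Cen G g y := h.a_cen hP i hi hy hyl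
  have hyb : y ≠ b i := by
    rintro rfl
    exact h.no_tri hP i hi hy
  have hyx : y ≠ x := by
    rintro rfl
    exact h.x_ne_nbr_a i hi hy
  have haij : a i ≠ a j := fun h' => hij (h.star.a_inj i j h' hi)
  have hli_aj : l i ≠ a j := fun h' => (mem_rest.1 (h.star.a_rest j hj)).2 i h'.symm
  have hli_ak : l i ≠ a k := fun h' => (mem_rest.1 (h.star.a_rest k hk)).2 i h'.symm
  have hajk : a j ≠ a k := fun h' => hjk (h.star.a_inj j k h' hj)
  have nbi : Nb G (b i) (l i) (a j) (a k) :=
    nb_of_three3 G (h.star.deg_b i hbi) (h.nb_l i hi).az.symm e_ij e_ik hli_aj hli_ak hajk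
  obtain ⟨w, ny⟩ := exists_nb23 G hcy.deg hy.symm hyj haij
  have hcw : Cen G (du g (b i) l') w :=
    hu.thirdCen hP' e_ij hyj.symm hcy.gfalse hyb ny.az ny.yz.symm
  rcases hcy.leaf ny.az with h1 | ⟨m, t, hnb, h1, -⟩
  · have := hcw.deg
    omega
  · have h2 : G.Adj (b i) m := (hu.du_true_iff h1).1 (hcw.nbr hnb.ay)
    have gw : g w = true := hcy.nbr ny.az
    have hy' := ny.az
    rcases (nbi.adj m).1 h2 with rfl | rfl | rfl
    · exact absurd (h.l_true i hi hnb.ay.symm gw).symm ny.xz
    · exfalso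
      rw [h.a_true j hj hnb.ay.symm gw] at hy'
      have h3 := h.l_false j hy'.symm hcy.gfalse hyx
      rw [h3.1] at hyj
      exact h.no_tri hP j hj hyj.symm
    · rw [h.a_true k hk hnb.ay.symm gw] at hy'
      exact (h.l_false k hy'.symm hcy.gfalse hyx).1

/-- The frame at `b i`, with the dual star condition: hexagon. -/
theorem Fr.propB (h : Fr G g x l a b) (hP : StarP G g x) {i : Fin 3} (hi : a i ≠ x)
    {l' a' b' : Fin 3 → V} (hu : Fr G g (b i) l' a' b') (hP' : StarP G (du g (b i) l') (b i)) :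
    HexP G x a b := by
  have hbi : b i ≠ x := fun h' => hi ((h.star.a_eq_iff i).2 h')
  have hcu : Cen G g (b i) := ⟨_, _, _, hu⟩
  have hub : G.Adj (b i) (l i) := (h.nb_l i hi).az.symm
  -- the other leaves
  have oth : ∀ j, i ≠ j → a j ≠ x ∧ G.Adj (b i) (a j) := by
    intro j hij
    have h1 : Cen G (du g (b i) l') (l j) :=
      hu.thirdCen hP' hub (h.nb_l i hi).ax h.gx (Ne.symm hbi) ((h.star.nx _).2 ⟨j, rfl⟩)
        (fun h' => hij (h.star.l_inj h').symm)
    have hj : a j ≠ x := by
      intro h'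
      have h2 := h1.deg
      have h3 := h.star.deg_pl j h'
      omega
    exact ⟨hj, (hu.du_true_iff (h.star.ca j hj)).1 (h1.nbr (h.nb_l j hj).ay)⟩
  obtain ⟨j, hij⟩ := exists_other i
  obtain ⟨k, hik, hjk⟩ := exists_third hij
  obtain ⟨hj, e_ij⟩ := oth j hij
  obtain ⟨hk, e_ik⟩ := oth k hik
  have hli_aj : l i ≠ a j := fun h' => (mem_rest.1 (h.star.a_rest j hj)).2 i h'.symm
  have hli_ak : l i ≠ a k := fun h' => (mem_rest.1 (h.star.a_rest k hk)).2 i h'.symm
  have hajk : a j ≠ a k := fun h' => hjk (h.star.a_inj j k h' hj)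
  have nbi : Nb G (b i) (l i) (a j) (a k) :=
    nb_of_three3 G (h.star.deg_b i hbi) hub e_ij e_ik hli_aj hli_ak hajk
  have huai : ¬ G.Adj (b i) (a i) := fun h' => h.no_tri hP i hi h'.symm
  have hcai : Cen G (du g (b i) l') (a i) :=
    hu.mateCen hP' hub (h.nb_l i hi).ay (h.star.ca i hi) huai
  obtain ⟨y, z, nai⟩ := exists_nb3 G (h.star.deg_a i hi) (h.nb_l i hi).ay.symm
  -- each of the two other neighbours of `a i` is adjacent to `a j` or `a k`
  have key : ∀ y, G.Adj (a i) y → y ≠ l i → G.Adj y (a j) ∨ G.Adj y (a k) := by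
    intro y hy hyl
    have hcy := h.a_cen hP i hi hy hyl
    obtain ⟨m, h1, h2, -⟩ := hu.uniq hcai hy hcy.deg (fun z hz => hcy.nbr hz)
    rcases (nbi.adj m).1 h2 with h3 | h3 | h3
    · exfalso
      rw [h3] at h1
      have hyx : y ≠ x := by
        rintro rfl
        exact h.x_ne_nbr_a i hi hy
      have h4 := (h.l_false i h1.symm hcy.gfalse hyx).1
      rw [h4] at hy
      exact h.no_tri hP i hi hy
    · rw [h3] at h1
      exact Or.inl h1
    · rw [h3] at h1
      exact Or.inr h1
  have toK : ∀ y, G.Adj (a i) y → y ≠ l i → G.Adj y (a j) → y = b k := fun y hy hyl hyj =>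
    h.propB_aux hP hij hik hjk hi hj hk hu hP' e_ij e_ik hy hyl hyj
  have toJ : ∀ y, G.Adj (a i) y → y ≠ l i → G.Adj y (a k) → y = b j := fun y hy hyl hyk =>
    h.propB_aux hP hik hij (Ne.symm hjk) hi hk hj hu hP' e_ik e_ij hy hyl hyk
  have fin : ∀ y z, G.Adj (a i) y → y ≠ l i → G.Adj (a i) z → z ≠ l i → y ≠ z → G.Adj y (a j) →
      HexP G x a b := by
    intro y z hy hyl hz hzl hyz hyj
    have h1 := toK y hy hyl hyj
    have h2 : G.Adj z (a k) := by
      rcases key z hz hzl with h3 | h3
      · exact absurd ((toK z hz hzl h3).trans h1.symm).symm hyz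
      · exact h3
    have h3 := toJ z hz hzl h2
    subst h1 h3
    exact hexP_of hij hik hjk hi hj hk hz hy e_ij.symm hyj.symm e_ik.symm h2.symm
  rcases key y nai.ay nai.xy.symm with h1 | h1
  · exact fin y z nai.ay nai.xy.symm nai.az nai.xz.symm nai.yz h1
  · have h2 := toJ y nai.ay nai.xy.symm h1
    have h3 : G.Adj z (a j) := by
      rcases key z nai.az nai.xz.symm with h4 | h4
      · exact h4
      · exact absurd (h2.trans (toJ z nai.az nai.xz.symm h4).symm) nai.yz
    exact fin z y nai.az nai.xz.symm nai.ay nai.xy.symm (Ne.symm nai.yz) h3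

theorem closed_univ (hconn : G.Connected) {T : V → Prop} (hx : T x)
    (hT : ∀ v w, T v → G.Adj v w → T w) (v : V) : T v := by
  obtain ⟨p⟩ := hconn.preconnected x v
  have : ∀ u v : V, G.Walk u v → T u → T v := by
    intro u v p
    induction p with
    | nil => exact id
    | cons hadj _ ih => exact fun hu => ih (hT _ _ hu hadj)
  exact this x v p hx

/-- The hexagon gives the Petersen graph. -/
theorem Fr.hex_pet (h : Fr G g x l a b) (hconn : G.Connected) (hH : HexP G x a b) : IsPet G := by
  obtain ⟨hna, hab⟩ := hH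
  have hnb : ∀ i, b i ≠ x := fun i h' => hna i ((h.star.a_eq_iff i).2 h')
  have ainj : Function.Injective a := fun i j h' => h.star.a_inj i j h' (hna i)
  have binj : Function.Injective b := fun i j h' => h.star.b_inj i j h' (hnb i)
  have hla : ∀ i j, l i ≠ a j := fun i j h' => (mem_rest.1 (h.star.a_rest j (hna j))).2 i h'.symm
  have hlb : ∀ i j, l i ≠ b j := fun i j h' => (mem_rest.1 (h.star.b_rest j (hnb j))).2 i h'.symm
  have hne : ∀ i j, a i ≠ b j := fun i j => h.star.a_ne_b' i (hna i) j
  have na : ∀ i v, G.Adj (a i) v → v = l i ∨ ∃ j, v = b j := by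
    intro i v hv
    obtain ⟨j, hij⟩ := exists_other i
    obtain ⟨k, hik, hjk⟩ := exists_third hij
    have nb := nb_of_three3 G (h.star.deg_a i (hna i)) (h.nb_l i (hna i)).ay.symm (hab i j hij)
      (hab i k hik) (hlb i j) (hlb i k) (fun h' => hjk (binj h'))
    rcases (nb.adj v).1 hv with h1 | h1 | h1
    · exact Or.inl h1
    · exact Or.inr ⟨j, h1⟩
    · exact Or.inr ⟨k, h1⟩
  have nb : ∀ i v, G.Adj (b i) v → v = l i ∨ ∃ j, v = a j := by
    intro i v hv
    obtain ⟨j, hij⟩ := exists_other i
    obtain ⟨k, hik, hjk⟩ := exists_third hij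
    have nb := nb_of_three3 G (h.star.deg_b i (hnb i)) (h.nb_l i (hna i)).az.symm
      (hab j i (Ne.symm hij)).symm (hab k i (Ne.symm hik)).symm (hla i j) (hla i k)
      (fun h' => hjk (ainj h'))
    rcases (nb.adj v).1 hv with h1 | h1 | h1
    · exact Or.inl h1
    · exact Or.inr ⟨j, h1⟩
    · exact Or.inr ⟨k, h1⟩
  have hT := closed_univ hconn (x := x)
    (T := fun v => v = x ∨ ∃ i, v = l i ∨ v = a i ∨ v = b i) (Or.inl rfl) (by
      rintro v w (rfl | ⟨i, rfl | rfl | rfl⟩) hvw
      · obtain ⟨i, hi⟩ := (h.star.nx w).1 hvw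
        exact Or.inr ⟨i, Or.inl hi⟩
      · rcases (h.star.nl i w).1 hvw with h1 | h1 | h1
        · exact Or.inl h1
        · exact Or.inr ⟨i, Or.inr (Or.inl h1)⟩
        · exact Or.inr ⟨i, Or.inr (Or.inr h1)⟩
      · rcases na i w hvw with h1 | ⟨j, h1⟩
        · exact Or.inr ⟨i, Or.inl h1⟩
        · exact Or.inr ⟨j, Or.inr (Or.inr h1)⟩
      · rcases nb i w hvw with h1 | ⟨j, h1⟩
        · exact Or.inr ⟨i, Or.inl h1⟩
        · exact Or.inr ⟨j, Or.inr (Or.inl h1)⟩)
  have hreg : G.IsRegularOfDegree 3 := by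
    intro v
    rcases hT v with rfl | ⟨i, rfl | rfl | rfl⟩
    · exact h.star.deg_x
    · exact h.star.deg_l i (hna i)
    · exact h.star.deg_a i (hna i)
    · exact h.star.deg_b i (hnb i)
  exact petersen_of_hexagon G hconn hreg x l a b h.star.l_inj ainj binj
    (fun i => Ne.symm (hna i)) (fun i => Ne.symm (hnb i)) hla hlb hne
    (fun i => (h.star.nx _).2 ⟨i, rfl⟩) (fun i => (h.nb_l i (hna i)).ay)
    (fun i => (h.nb_l i (hna i)).az) hab

/-- A colouring in which all vertices of colour `false` are centres and all others are next to a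
centre: the Petersen graph. -/
theorem pet_of_all (hcls : Cls13 G) (hs : sgn true g = 2)
    (hN : ∀ v, g v = false → Cen G g v) (hP : ∀ v, g v = true → ∃ u, Cen G g u ∧ G.Adj u v) :
    IsPet G := by
  classical
  -- vertices of colour `true`
  have hP' : ∀ v, g v = true → G.degree v = 1 ∨ ∃ u m t, Nb G v u m t ∧ g u = false ∧ g m = true ∧
      g t = false ∧ ¬ G.Adj u m := by
    intro v hv
    obtain ⟨u, hu, huv⟩ := hP v hv
    rcases hu.leaf huv with h1 | ⟨m, t, hnb, h1, h2, -, -, -, h3⟩
    · exact Or.inl h1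
    · exact Or.inr ⟨u, m, t, hnb, hu.gfalse, h1, h2, h3⟩
  set N : Finset V := univ.filter fun v => g v = false with hNdef
  set P : Finset V := univ.filter fun v => g v = true with hPdef
  set D : Finset V := univ.filter fun v => G.degree v = 1 with hDdef
  have hDP : D ⊆ P := by
    intro v hv
    rw [hDdef, mem_filter] at hv
    rw [hPdef, mem_filter]
    refine ⟨mem_univ _, ?_⟩
    by_contra h1
    have h2 : g v = false := by
      cases h3 : g v
      · rfl
      · exact absurd h3 h1
    have := (hN v h2).deg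
    omega
  -- the sum
  have hcard : P.card = N.card + 2 := by
    have h1 : sgn true g = (P.card : ℤ) - N.card := by
      unfold sgn
      have h2 : ∀ v, (if g v = true then (1 : ℤ) else -1) =
          (if g v = true then 1 else 0) - (if g v = false then 1 else 0) := by
        intro v
        cases g v <;> simp
      rw [sum_congr rfl fun v _ => h2 v, sum_sub_distrib, sum_boole, sum_boole]
    rw [hs] at h1
    omega
  -- neighbours of colour `false`
  have hf : ∀ w ∈ P, (N.filter fun v => G.Adj w v).card = if w ∈ D then 1 else 2 := by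
    intro w hw
    rw [hPdef, mem_filter] at hw
    have hw := hw.2
    by_cases hD : w ∈ D
    · rw [if_pos hD]
      rw [hDdef, mem_filter] at hD
      obtain ⟨u, hu, huw⟩ := hP w hw
      have h1 : (N.filter fun v => G.Adj w v) = {u} := by
        ext v
        simp only [hNdef, mem_filter, mem_univ, true_and, mem_singleton]
        constructor
        · rintro ⟨-, h2⟩
          exact (pend_adj G hD.2 huw.symm v).1 h2
        · rintro rfl
          exact ⟨hu.gfalse, huw.symm⟩
      rw [h1, card_singleton]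
    · rw [if_neg hD]
      rcases hP' w hw with h1 | ⟨u, m, t, hnb, h1, h2, h3, -⟩
      · exact absurd (by rw [hDdef, mem_filter]; exact ⟨mem_univ _, h1⟩) hD
      · have h4 : (N.filter fun v => G.Adj w v) = {u, t} := by
          ext v
          simp only [hNdef, mem_filter, mem_univ, true_and, mem_insert, mem_singleton, hnb.adj]
          constructor
          · rintro ⟨h5, rfl | rfl | rfl⟩
            · exact Or.inl rfl
            · rw [h2] at h5; exact absurd h5 (by decide)
            · exact Or.inr rfl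
          · rintro (rfl | rfl)
            · exact ⟨h1, Or.inl rfl⟩
            · exact ⟨h3, Or.inr (Or.inr rfl)⟩
        rw [h4, card_pair hnb.xz]
  have hg : ∀ v ∈ N, (P.filter fun w => G.Adj v w).card = 3 := by
    intro v hv
    rw [hNdef, mem_filter] at hv
    have h1 := hN v hv.2
    rw [← h1.deg, ← Star3.card_nb]
    congr 1
    ext w
    simp only [hPdef, mem_filter, mem_univ, true_and, and_iff_right_iff_imp]
    exact fun h2 => h1.nbr h2
  -- double counting
  have hdc : ∑ v ∈ N, (P.filter fun w => G.Adj v w).card = ∑ w ∈ P, (N.filter fun v => G.Adj w v).card := by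
    simp only [card_filter]
    rw [sum_comm]
    refine sum_congr rfl fun w _ => sum_congr rfl fun v _ => ?_
    simp [G.adj_comm]
  rw [sum_congr rfl hg, sum_congr rfl hf, sum_const, smul_eq_mul] at hdc
  have h2 : ∑ w ∈ P, (if w ∈ D then 1 else 2) + D.card = 2 * P.card := by
    have h3 : D.card = ∑ w ∈ P, (if w ∈ D then 1 else 0) := by
      rw [← card_filter, filter_mem_eq_inter, inter_eq_right.2 hDP]
    rw [h3, ← sum_add_distrib]
    have h4 : ∀ w ∈ P, ((if w ∈ D then 1 else 2) + (if w ∈ D then 1 else 0) : ℕ) = 2 := by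
      intro w _
      split_ifs <;> rfl
    rw [sum_congr rfl h4, sum_const, smul_eq_mul]
    ring
  have hND : N.card + D.card = 4 := by omega
  -- pendants go to different vertices
  have hDN : D.card ≤ N.card := by
    have h3 : ∀ w ∈ D, ∃ u, u ∈ N ∧ G.Adj u w := by
      intro w hw
      have h4 := hDP hw
      rw [hPdef, mem_filter] at h4
      obtain ⟨u, hu, huw⟩ := hP w h4.2
      exact ⟨u, by rw [hNdef, mem_filter]; exact ⟨mem_univ _, hu.gfalse⟩, huw⟩
    choose! f hf1 using h3
    refine card_le_card_of_injOn f (fun w hw => (hf1 w hw).1) ?_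
    intro w hw w' hw' heq
    have h4 := hf1 w hw
    have h5 := hf1 w' hw'
    have h6 : G.degree w = 1 := by
      have := hw
      rw [hDdef, coe_filter] at this
      exact this.2
    have h7 : G.degree w' = 1 := by
      have := hw'
      rw [hDdef, coe_filter] at this
      exact this.2
    refine hcls.pend h4.2 ?_ h6 h7
    rw [heq]
    exact h5.2
  -- pairs
  have hpair : (P \ D).card ≤ N.card.choose 2 := by
    rw [← card_powersetCard]
    refine card_le_card_of_injOn (fun w => N.filter fun v => G.Adj w v) ?_ ?_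
    · intro w hw
      rw [mem_coe, mem_sdiff] at hw
      rw [mem_coe, mem_powersetCard]
      refine ⟨filter_subset _ _, ?_⟩
      rw [hf w hw.1, if_neg hw.2]
    · intro w hw w' hw' heq
      rw [mem_coe, mem_sdiff] at hw hw'
      simp only at heq
      have h3 := hf w hw.1
      rw [if_neg hw.2, card_eq_two] at h3
      obtain ⟨p, q, hpq, h4⟩ := h3
      have hp : p ∈ N.filter fun v => G.Adj w v := by rw [h4]; simp
      have hq : q ∈ N.filter fun v => G.Adj w v := by rw [h4]; simp
      have hp' := hp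
      have hq' := hq
      rw [heq] at hp' hq'
      rw [mem_filter] at hp hq hp' hq'
      exact hcls.c4.uniq hpq hp.2.symm hq.2 hp'.2.symm hq'.2
  have hPD : (P \ D).card = P.card - D.card := card_sdiff_of_subset hDP
  have hD0 : D.card = 0 := by
    have h3 : D.card ≤ 2 := by omega
    rw [hPD] at hpair
    rcases Nat.lt_or_ge 0 D.card with h4 | h4
    · exfalso
      have h5 : D.card = 1 ∨ D.card = 2 := by omega
      rcases h5 with h5 | h5
      · have h6 : N.card = 3 := by omega
        rw [h6] at hpair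
        have h7 : Nat.choose 3 2 = 3 := by decide
        omega
      · have h6 : N.card = 2 := by omega
        rw [h6] at hpair
        have h7 : Nat.choose 2 2 = 1 := by decide
        omega
    · omega
  have hreg : G.IsRegularOfDegree 3 := by
    intro v
    rcases hcls.deg v with h3 | h3
    · exfalso
      rw [card_eq_zero] at hD0
      have h4 : v ∈ D := by rw [hDdef, mem_filter]; exact ⟨mem_univ _, h3⟩
      rw [hD0] at h4
      simp at h4
    · exact h3
  have hP'' : ∀ v, g v = true → ∃ u m t, Nb G v u m t ∧ g u = false ∧ g m = true ∧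
      g t = false ∧ ¬ G.Adj u m := by
    intro v hv
    rcases hP' v hv with h3 | h3
    · have := hreg v
      omega
    · exact h3
  have hP1 : ∀ v, g v = true → ((G.neighborFinset v).filter (fun w => g w = true)).card = 1 := by
    intro v hv
    obtain ⟨u, m, t, hnb, h3, h4, h5, -⟩ := hP'' v hv
    have h6 : (G.neighborFinset v).filter (fun w => g w = true) = {m} := by
      ext w
      rw [mem_filter, SimpleGraph.mem_neighborFinset, hnb.adj, mem_singleton]
      constructor
      · rintro ⟨rfl | rfl | rfl, h7⟩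
        · rw [h3] at h7; exact absurd h7 (by decide)
        · rfl
        · rw [h5] at h7; exact absurd h7 (by decide)
      · rintro rfl
        exact ⟨Or.inr (Or.inl rfl), h4⟩
    rw [h6, card_singleton]
  have uniqT : ∀ v w w', g v = true → G.Adj v w → G.Adj v w' → g w = true → g w' = true → w = w' := by
    intro v w w' hv hw hw' h3 h4
    have h5 := hP1 v hv
    rw [card_eq_one] at h5
    obtain ⟨m, hm⟩ := h5
    have h6 : w ∈ (G.neighborFinset v).filter (fun w => g w = true) := by
      rw [mem_filter, SimpleGraph.mem_neighborFinset]; exact ⟨hw, h3⟩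
    have h7 : w' ∈ (G.neighborFinset v).filter (fun w => g w = true) := by
      rw [mem_filter, SimpleGraph.mem_neighborFinset]; exact ⟨hw', h4⟩
    rw [hm, mem_singleton] at h6 h7
    rw [h6, h7]
  -- two adjacent vertices of colour `true` have no common neighbour
  have tri0 : ∀ u v w, g u = false → G.Adj u v → G.Adj u w → G.Adj v w → False := by
    intro u v w hu huv huw hvw
    have hcu := hN u hu
    rcases hcu.leaf huv with h3 | ⟨m, t, hnb, h3, h4, -, -, -, h5⟩
    · have := hreg v
      omega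
    · have h6 := uniqT v m w (hcu.nbr huv) hnb.ay hvw h3 (hcu.nbr huw)
      rw [h6] at h5
      exact h5 huw
  refine petersen_of_struct G hreg g (fun v w hv hw => (hN v hv).nbr hw) hP1 hcard ?_ ?_
  · intro u v huv y z hy hy' hz hz'
    exact hcls.c4.uniq huv hy hy'.symm hz hz'.symm
  · intro u v w huv hvw huw
    cases hu : g u
    · exact tri0 u v w hu huv huw hvw
    · cases hv : g v
      · exact tri0 v u w hv huv.symm hvw huw
      · cases hw : g w
        · exact tri0 w u v hw huw.symm hvw.symm huv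
        · have h3 := uniqT u v w hu huv huw hv hw
          rw [h3] at hvw
          exact G.irrefl hvw

/-- **Closure.** The local theorem for all frames gives the Petersen graph. -/
theorem closure (hcls : Cls13 G) (hB : NoBal3 G)
    (hLT : ∀ (g : V → Bool) (x : V) (l a b : Fin 3 → V), Fr G g x l a b →
      StarP G g x ∨ StarP G (du g x l) x) : IsPet G := by
  obtain ⟨g, x, l, a, b, h, hP⟩ : ∃ (g : V → Bool) (x : V) (l a b : Fin 3 → V),
      Fr G g x l a b ∧ StarP G g x := by
    obtain ⟨g, x, l, a, b, h⟩ := exists_fr hcls.deg hB hcls.c4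
    rcases hLT g x l a b h with h1 | h1
    · exact ⟨g, x, l, a, b, h, h1⟩
    · exact ⟨du g x l, x, l, b, a, h.dual, h1⟩
  by_contra hpet
  -- one step
  have step : ∀ u, Cen G g u → StarP G g u → ∀ w z, G.Adj u w → G.Adj w z →
      (g z = false → Cen G g z ∧ StarP G g z) ∧
      (g z = true → ∀ z', G.Adj z z' → z' ≠ w → Cen G g z' ∧ StarP G g z') := by
    rintro u hu hPu w z huw hwz
    have hcu := hu
    obtain ⟨l1, a1, b1, h1⟩ := hu
    obtain ⟨i, rfl⟩ := (h1.star.nx w).1 huw
    refine ⟨fun gz => ?_, fun gz z' hz' hne => ?_⟩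
    · by_cases hzu : z = u
      · rw [hzu]; exact ⟨hcu, hPu⟩
      · obtain ⟨h2, h3⟩ := h1.l_false i hwz gz hzu
        subst h2
        have h4 : Cen G g (b1 i) := h1.b_cen hPu i h3
        refine ⟨h4, ?_⟩
        obtain ⟨l2, a2, b2, h5⟩ := h4
        rcases hLT g _ l2 a2 b2 h5 with h6 | h6
        · exact h6
        · exact absurd (h1.hex_pet hcls.conn (h1.propB hPu h3 h5 h6)) hpet
    · have hi : a1 i ≠ u := by
        intro h2
        have h3 := h1.star.deg_pl i h2
        have h4 := (pend_adj G h3 huw.symm z).1 hwz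
        rw [h4, h1.gx] at gz
        exact absurd gz (by decide)
      have h2 : z = a1 i := h1.l_true i hi hwz gz
      subst h2
      have h4 : Cen G g z' := h1.a_cen hPu i hi hz' hne
      refine ⟨h4, ?_⟩
      obtain ⟨l2, a2, b2, h5⟩ := h4
      rcases hLT g _ l2 a2 b2 h5 with h6 | h6
      · exact h6
      · exact absurd (h1.hex_pet hcls.conn (h1.propA hPu hi h5 hz' h6)) hpet
  have hT := closed_univ hcls.conn (x := x)
    (T := fun v => (Cen G g v ∧ StarP G g v) ∨ ∃ u, (Cen G g u ∧ StarP G g u) ∧ G.Adj u v)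
    (Or.inl ⟨⟨_, _, _, h⟩, hP⟩) (by
      rintro v w (h1 | ⟨u, h1, h2⟩) hvw
      · exact Or.inr ⟨v, h1, hvw⟩
      · have h3 := step u h1.1 h1.2 v w h2 hvw
        cases gw : g w
        · exact Or.inl (h3.1 gw)
        · right
          rcases h1.1.leaf h2 with h4 | ⟨m, t, hnb, h4, h5, h6, -⟩
          · exfalso
            have h7 := (pend_adj G h4 h2.symm w).1 hvw
            rw [h7, h1.1.gfalse] at gw
            exact absurd gw (by decide)
          · have hwm : w = m := by
              rcases (hnb.adj w).1 hvw with h7 | h7 | h7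
              · rw [h7, h1.1.gfalse] at gw
                exact absurd gw (by decide)
              · exact h7
              · rw [h7, h5] at gw
                exact absurd gw (by decide)
            subst hwm
            obtain ⟨y, z, hnb'⟩ := exists_nb3 G h6 hvw.symm
            exact ⟨y, h3.2 gw y hnb'.ay hnb'.xy.symm, hnb'.ay.symm⟩)
  refine hpet (pet_of_all hcls h.sum (fun v hv => ?_) (fun v hv => ?_))
  · rcases hT v with h1 | ⟨u, h1, h2⟩
    · exact h1.1
    · have := h1.1.nbr h2
      rw [hv] at this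
      exact absurd this (by decide)
  · rcases hT v with h1 | ⟨u, h1, h2⟩
    · have := h1.1.gfalse
      rw [hv] at this
      exact absurd this (by decide)
    · exact ⟨u, h1.1, h2⟩

end

end Pool.Agent.BLN
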