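import Pool.Agent.IVT.Comp

set_option autoImplicit false

/-!
Definitions for the proof that connected cubic graphs with a perfect matching, other than the
Petersen graph, have 2-bisections. The basic ones are in `Pool.Agent.IVT` (files `Basic`, `Pot`,
`Crit`): `bad G c v` (own-colour neighbours), `flip c v`, `Valid G c`, `sgn s c`, `Reach G c g`,
`En G c` (number of monochromatic darts), `Pos G k c`, `Neg G k c`, `Crit G k c`.
-/

namespace Pool.Agent.BLN

open Finset Pool.Agent.IVT

variable {V : Type} [Fintype V] [DecidableEq V] (G : SimpleGraph V) [DecidableRel G.Adj]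

omit [Fintype V] [DecidableEq V] [DecidableRel G.Adj] in
/-- No cycle of length four. -/
def C4Free : Prop :=
  ∀ a b c d : V, G.Adj a b → G.Adj b c → G.Adj c d → G.Adj d a → a = c ∨ b = d

omit [Fintype V] in
/-- Flip all vertices of `S`. -/
def flips (S : Finset V) (c : V → Bool) : V → Bool := fun v => if v ∈ S then !c v else c v

/-- The complement of the star with centre `x` and leaves `l i`. -/
def rest (x : V) (l : Fin 3 → V) : Finset V :=
  Finset.univ.filter (fun v => v ≠ x ∧ ∀ i, v ≠ l i)

omit [Fintype V] in
/-- Give the centre the colour `s`, the leaves the colour `!s`, and keep `c` elsewhere. -/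
def starCol (c : V → Bool) (x : V) (l : Fin 3 → V) (s : Bool) : V → Bool :=
  fun v => if v = x then s else if (∃ i, v = l i) then !s else c v

/-- A star: a centre `x` with neighbours `l i`, the outer neighbours of `l i` are `a i`
(colour `true`) and `b i` (colour `false`); outside the star the colouring `c` is balanced, every
vertex has at most one neighbour of its colour, the vertices `a i`, `b i` have none. The values of
`c` on the star itself are not used. -/
structure Star (c : V → Bool) (x : V) (l a b : Fin 3 → V) : Prop where
  nx : ∀ v, G.Adj x v ↔ ∃ i, v = l i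
  nl : ∀ i v, G.Adj (l i) v ↔ v = x ∨ v = a i ∨ v = b i
  l_inj : Function.Injective l
  a_inj : Function.Injective a
  b_inj : Function.Injective b
  a_rest : ∀ i, a i ∈ rest x l
  b_rest : ∀ i, b i ∈ rest x l
  ca : ∀ i, c (a i) = true
  cb : ∀ i, c (b i) = false
  own : ∀ v ∈ rest x l, ((rest x l).filter (fun w => G.Adj v w ∧ c w = c v)).card ≤ 1
  own_a : ∀ i, ∀ w ∈ rest x l, G.Adj (a i) w → c w = false
  own_b : ∀ i, ∀ w ∈ rest x l, G.Adj (b i) w → c w = true
  sum : ∑ v ∈ rest x l, (if c v = true then (1 : ℤ) else -1) = 0

end Pool.Agent.BLN
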