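import Pool.Agent.BLN.Table3

set_option autoImplicit false

/-!
The intermediate value theorem for graphs with degrees `1` and `3`: flipping, energy, potential,
labels.
-/

namespace Pool.Agent.BLN

open Finset Pool.Agent.IVT

variable {V : Type} [Fintype V] [DecidableEq V] (G : SimpleGraph V) [DecidableRel G.Adj]

/-- All degrees are `1` or `3`. -/
def Deg13 : Prop := ∀ v, G.degree v = 1 ∨ G.degree v = 3

/-- The vertex `v` is flippable: more than half of its neighbours have its colour. -/
def Fp (c : V → Bool) (v : V) : Prop := G.degree v < 2 * (bad G c v).card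

/-- The flippable vertices of colour `s`. -/
def Fl3 (s : Bool) (c : V → Bool) : Finset V :=
  Finset.univ.filter (fun v => G.degree v < 2 * (bad G c v).card ∧ c v = s)

/-- `g` is reached from `c` by flipping flippable vertices. -/
inductive Reach3 : (V → Bool) → (V → Bool) → Prop
  | refl (c : V → Bool) : Reach3 c c
  | step (c : V → Bool) (v : V) (g : V → Bool) :
      Fp G c v → Reach3 (flip c v) g → Reach3 c g

theorem mem_Fl3 {s : Bool} {c : V → Bool} {v : V} : v ∈ Fl3 G s c ↔ Fp G c v ∧ c v = s := by
  simp [Fl3, Fp]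

theorem bad_le_degree (c : V → Bool) (v : V) : (bad G c v).card ≤ G.degree v := by
  have h1 : bad G c v ⊆ G.neighborFinset v := Finset.filter_subset _ _
  exact Finset.card_le_card h1

theorem card_bad_flip_self3 (c : V → Bool) (v : V) :
    (bad G (flip c v) v).card + (bad G c v).card = G.degree v := by
  rw [bad_flip_self]
  have h1 : bad G c v ⊆ G.neighborFinset v := Finset.filter_subset _ _
  rw [Finset.card_sdiff_add_card_eq_card h1]
  rfl

theorem En_flip3 (c : V → Bool) (v : V) :
    (En G (flip c v) : ℤ) = En G c + 2 * G.degree v - 4 * (bad G c v).card := by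
  have h0 : ∀ u : V, ((bad G (flip c v) u).card : ℤ) = (bad G c u).card
      + (if u = v then (G.degree v : ℤ) - 2 * ((bad G c v).card : ℤ) else
          if G.Adj v u then (if c u = c v then -1 else 1) else 0) := by
    intro u
    by_cases huv : u = v
    · subst huv
      have := card_bad_flip_self3 G c u
      simp only [if_true]
      omega
    · simp only [if_neg huv]
      by_cases h1 : G.Adj v u
      · by_cases h2 : c u = c v
        · have := card_bad_flip_adj_same G c h1.symm h2
          simp only [if_pos h1, if_pos h2]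
          omega
        · have := card_bad_flip_adj_diff G c h1.symm h2
          simp only [if_pos h1, if_neg h2]
          omega
      · have h2 : ¬ G.Adj u v := fun h => h1 h.symm
        rw [bad_flip_nonadj G c huv h2, if_neg h1, add_zero]
  have h1 : (∑ u : V, (if u = v then (G.degree v : ℤ) - 2 * ((bad G c v).card : ℤ) else
          if G.Adj v u then (if c u = c v then -1 else 1) else 0))
      = 2 * G.degree v - 4 * (bad G c v).card := by
    have h2 : ∀ u : V, (if u = v then (G.degree v : ℤ) - 2 * ((bad G c v).card : ℤ) else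
          if G.Adj v u then (if c u = c v then -1 else 1) else 0)
        = (if u = v then (G.degree v : ℤ) - 2 * ((bad G c v).card : ℤ) else 0)
          + (if G.Adj v u then (if c u = c v then (-1 : ℤ) else 1) else 0) := by
      intro u
      by_cases huv : u = v
      · subst huv
        simp
      · simp [huv]
    rw [Finset.sum_congr rfl (fun u _ => h2 u), Finset.sum_add_distrib]
    rw [Finset.sum_ite_eq' Finset.univ v]
    rw [← Finset.sum_filter]
    have h3 : (Finset.univ.filter (fun u => G.Adj v u)) = G.neighborFinset v := by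
      ext u; simp
    rw [h3]
    have h4 : ∀ u ∈ G.neighborFinset v, (if c u = c v then (-1 : ℤ) else 1)
        = 1 - 2 * (if c u = c v then 1 else 0) := by
      intro u _
      split_ifs <;> norm_num
    rw [Finset.sum_congr rfl h4, Finset.sum_sub_distrib, ← Finset.mul_sum]
    have h5 : (∑ u ∈ G.neighborFinset v, (if c u = c v then (1 : ℤ) else 0))
        = (bad G c v).card := by
      rw [Finset.sum_boole]
      rfl
    rw [h5]
    have h6 : (G.neighborFinset v).card = G.degree v := rfl
    simp only [Finset.mem_univ, if_true, Finset.sum_const, h6, nsmul_eq_mul]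
    push_cast
    ring
  have h7 : (En G (flip c v) : ℤ) = ∑ u : V, ((bad G (flip c v) u).card : ℤ) := by
    simp [En]
  have h8 : (En G c : ℤ) = ∑ u : V, ((bad G c u).card : ℤ) := by
    simp [En]
  rw [h7, Finset.sum_congr rfl (fun u _ => h0 u), Finset.sum_add_distrib, h1, h8]
  ring

theorem En_flip_lt3 (c : V → Bool) (v : V) (h : Fp G c v) : En G (flip c v) < En G c := by
  have := En_flip3 G c v
  unfold Fp at h
  omega

theorem Reach3.trans {c g h : V → Bool} (h1 : Reach3 G c g) (h2 : Reach3 G g h) :
    Reach3 G c h := by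
  induction h1 with
  | refl c => exact h2
  | step c v g hv _ ih => exact Reach3.step c v _ hv (ih h2)

theorem Reach3.one {c : V → Bool} {v : V} (h : Fp G c v) : Reach3 G c (flip c v) :=
  Reach3.step c v _ h (Reach3.refl _)

/-- A vertex is either flippable or valid, as all degrees are odd. -/
theorem not_fp (hG : Deg13 G) {c : V → Bool} {v : V} (h : ¬ Fp G c v) :
    2 * (bad G c v).card < G.degree v := by
  unfold Fp at h
  rcases hG v with h1 | h1 <;> omega

theorem exists_valid3 (hG : Deg13 G) (c : V → Bool) : ∃ g, Reach3 G c g ∧ Valid3 G g := by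
  induction hn : En G c using Nat.strong_induction_on generalizing c with
  | _ n ih =>
    by_cases hc : ∀ v, ¬ Fp G c v
    · exact ⟨c, Reach3.refl c, fun v => not_fp G hG (hc v)⟩
    · push Not at hc
      obtain ⟨v, hv⟩ := hc
      have h1 := En_flip_lt3 G c v hv
      obtain ⟨g, hg1, hg2⟩ := ih (En G (flip c v)) (hn ▸ h1) (flip c v) rfl
      exact ⟨g, Reach3.step c v g hv hg1, hg2⟩

theorem Reach3.eq_of_valid {c g : V → Bool} (h : Reach3 G c g) (hc : Valid3 G c) : g = c := by
  cases h with
  | refl => rfl
  | step _ v _ hv _ =>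
    have h1 := hc v
    unfold Fp at hv
    omega

theorem cmp3 (hG : Deg13 G) (c : V → Bool) (v : V) :
    Reach3 G c (flip c v) ∨ Reach3 G (flip c v) c := by
  by_cases h : Fp G c v
  · exact Or.inl (Reach3.one G h)
  · right
    have h1 := card_bad_flip_self3 G c v
    have h0 := not_fp G hG h
    have h2 : Fp G (flip c v) v := by
      unfold Fp
      omega
    have h3 := Reach3.one G h2
    rwa [IVT.flip_flip] at h3

/-- One step of the potential. -/
theorem pot_step3 (hG : Deg13 G) (s : Bool) (c : V → Bool) (v : V) (hv : Fp G c v) :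
    sgn s (flip c v) + 2 * ((Fl3 G (!s) (flip c v)).card : ℤ)
      ≤ sgn s c + 2 * ((Fl3 G (!s) c).card : ℤ) := by
  have hself := card_bad_flip_self3 G c v
  have hv' : G.degree v < 2 * (bad G c v).card := hv
  rw [sgn_flip]
  by_cases hs : c v = s
  · rw [if_pos hs]
    have hsub : Fl3 G (!s) (flip c v) ⊆ Fl3 G (!s) c ∪ (G.neighborFinset v \ bad G c v) := by
      intro u hu
      rw [mem_Fl3] at hu
      obtain ⟨hu1, hu2⟩ := hu
      have huv : u ≠ v := by
        rintro rfl
        unfold Fp at hu1
        omega
      rw [flip_ne c huv] at hu2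
      by_cases hadj : G.Adj u v
      · refine Finset.mem_union_right _ ?_
        rw [Finset.mem_sdiff, SimpleGraph.mem_neighborFinset, mem_bad]
        refine ⟨hadj.symm, ?_⟩
        rintro ⟨_, h3⟩
        rw [hu2, hs] at h3
        cases s <;> simp at h3
      · refine Finset.mem_union_left _ ?_
        unfold Fp at hu1
        rw [bad_flip_nonadj G c huv hadj] at hu1
        rw [mem_Fl3]
        exact ⟨hu1, hu2⟩
    have h1 : (Fl3 G (!s) (flip c v)).card ≤ (Fl3 G (!s) c).card + 1 := by
      refine (Finset.card_le_card hsub).trans ((Finset.card_union_le _ _).trans ?_)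
      have h2 : bad G c v ⊆ G.neighborFinset v := Finset.filter_subset _ _
      have h3 := Finset.card_sdiff_add_card_eq_card h2
      have h4 : (G.neighborFinset v).card = G.degree v := rfl
      rcases hG v with h5 | h5 <;> omega
    omega
  · rw [if_neg hs]
    have hvs : c v = !s := by
      cases hcv : c v <;> cases s <;> simp_all
    have hsub : Fl3 G (!s) (flip c v) ⊆ (Fl3 G (!s) c).erase v := by
      intro u hu
      rw [mem_Fl3] at hu
      obtain ⟨hu1, hu2⟩ := hu
      have huv : u ≠ v := by
        rintro rfl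
        unfold Fp at hu1
        omega
      rw [flip_ne c huv] at hu2
      rw [Finset.mem_erase]
      refine ⟨huv, ?_⟩
      rw [mem_Fl3]
      refine ⟨?_, hu2⟩
      unfold Fp at hu1 ⊢
      have h6 := card_bad_flip_le G c huv (u := u) (v := v) (by
        rintro ⟨_, h4⟩
        exact h4 (hu2.trans hvs.symm))
      omega
    have hmem : v ∈ Fl3 G (!s) c := by
      rw [mem_Fl3]
      exact ⟨hv, hvs⟩
    have h1 := Finset.card_le_card hsub
    have h2 := Finset.card_erase_add_one hmem
    omega

theorem pot_reach3 (hG : Deg13 G) (s : Bool) {c g : V → Bool} (h : Reach3 G c g) :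
    sgn s g ≤ sgn s c + 2 * ((Fl3 G (!s) c).card : ℤ) := by
  have key : sgn s g + 2 * ((Fl3 G (!s) g).card : ℤ)
      ≤ sgn s c + 2 * ((Fl3 G (!s) c).card : ℤ) := by
    induction h with
    | refl c => exact le_refl _
    | step c v g hv _ ih => exact ih.trans (pot_step3 G hG s c v hv)
  have : (0 : ℤ) ≤ ((Fl3 G (!s) g).card : ℤ) := Int.natCast_nonneg _
  omega

/-- A valid colouring in which colour `s` has at least two more vertices is reached from `c`. -/
def Lab3 (s : Bool) (c : V → Bool) : Prop := ∃ g, Reach3 G c g ∧ Valid3 G g ∧ 2 ≤ sgn s g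

/-- No valid colouring is balanced. -/
def NoBal3 : Prop := ∀ g : V → Bool, Valid3 G g → sgn true g ≠ 0

theorem Lab3.of_reach {s : Bool} {c d : V → Bool} (hd : Lab3 G s d) (h : Reach3 G c d) :
    Lab3 G s c := by
  obtain ⟨g, h1, h2, h3⟩ := hd
  exact ⟨g, h.trans G h1, h2, h3⟩

theorem Lab3.of_valid {s : Bool} {g : V → Bool} (h : Valid3 G g) (hs : 2 ≤ sgn s g) :
    Lab3 G s g := ⟨g, Reach3.refl g, h, hs⟩

theorem even_sgn3 (hG : Deg13 G) (s : Bool) (g : V → Bool) : Even (sgn s g) := by
  have h1 : Even (Fintype.card V) := by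
    have h2 : ∑ v : V, G.degree v = 2 * G.edgeFinset.card := G.sum_degrees_eq_twice_card_edges
    have h3 : ∑ v : V, G.degree v + 2 * (∑ v : V, (if G.degree v = 1 then 1 else 0))
        = Fintype.card V * 3 := by
      rw [Finset.mul_sum, ← Finset.sum_add_distrib]
      have : ∀ v : V, G.degree v + 2 * (if G.degree v = 1 then 1 else 0) = 3 := by
        intro v
        rcases hG v with h | h
        · rw [h]; simp
        · rw [h]; simp
      rw [Finset.sum_congr rfl (fun v _ => this v)]
      simp [Finset.card_univ]
    rw [h2] at h3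
    rcases Nat.even_or_odd (Fintype.card V) with h | ⟨k, hk⟩
    · exact h
    · omega
  have h2 : sgn s g = 2 * (∑ v : V, (if g v = s then (1 : ℤ) else 0)) - Fintype.card V := by
    unfold sgn
    rw [Finset.mul_sum]
    have : (Fintype.card V : ℤ) = ∑ v : V, (1 : ℤ) := by simp
    rw [this, ← Finset.sum_sub_distrib]
    apply Finset.sum_congr rfl
    intro v _
    by_cases h : g v = s
    · rw [if_pos h, if_pos h]; norm_num
    · rw [if_neg h, if_neg h]; norm_num
  rw [h2]
  exact (even_two_mul _).sub (by exact_mod_cast h1)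

theorem NoBal3.pm (hG : Deg13 G) (hB : NoBal3 G) (s : Bool) {g : V → Bool} (hg : Valid3 G g) :
    2 ≤ sgn s g ∨ 2 ≤ sgn (!s) g := by
  have h1 : sgn s g ≠ 0 := by
    cases s
    · have h2 : sgn false g = - sgn true g := sgn_not true g
      rw [h2]
      exact neg_ne_zero.2 (hB g hg)
    · exact hB g hg
  obtain ⟨k, hk⟩ := even_sgn3 G hG s g
  have h3 := sgn_not s g
  omega

theorem lab_or3 (hG : Deg13 G) (hB : NoBal3 G) (s : Bool) (c : V → Bool) :
    Lab3 G s c ∨ Lab3 G (!s) c := by
  obtain ⟨g, h1, h2⟩ := exists_valid3 G hG c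
  rcases hB.pm G hG s h2 with h | h
  · exact Or.inl ⟨g, h1, h2, h⟩
  · exact Or.inr ⟨g, h1, h2, h⟩

theorem lab_not_both_valid {g : V → Bool} (hg : Valid3 G g) {s : Bool} (h1 : Lab3 G s g)
    (h2 : Lab3 G (!s) g) : False := by
  obtain ⟨g1, ha, _, hb⟩ := h1
  obtain ⟨g2, hc, _, hd⟩ := h2
  rw [ha.eq_of_valid G hg] at hb
  rw [hc.eq_of_valid G hg, sgn_not] at hd
  omega

/-- There is an ambiguous colouring. -/
theorem exists_ambiguous3 (hG : Deg13 G) (hB : NoBal3 G) :
    ∃ c, Lab3 G true c ∧ Lab3 G false c := by
  by_contra hcon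
  push Not at hcon
  have hstep : ∀ (c : V → Bool) (v : V), Lab3 G true c → Lab3 G true (flip c v) := by
    intro c v hc
    rcases cmp3 G hG c v with h1 | h1
    · rcases lab_or3 G hG hB true (flip c v) with h2 | h2
      · exact h2
      · exact absurd (h2.of_reach G h1) (hcon c hc)
    · exact hc.of_reach G h1
  have hconst : ∀ (S : Finset V) (c : V → Bool), Lab3 G true c →
      Lab3 G true (fun u => if u ∈ S then !c u else c u) := by
    intro S
    induction S using Finset.induction_on with
    | empty =>
      intro c hc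
      simpa using hc
    | insert v S hv ih =>
      intro c hc
      have h1 := hstep _ v (ih c hc)
      have h2 : flip (fun u => if u ∈ S then !c u else c u) v
          = (fun u => if u ∈ insert v S then !c u else c u) := by
        funext u
        by_cases huv : u = v
        · subst huv
          rw [flip_same]
          simp [hv]
        · rw [flip_ne _ huv]
          simp [huv]
      rwa [h2] at h1
  have hall : ∀ c : V → Bool, Lab3 G true c → Lab3 G true (fun u => !c u) := by
    intro c hc
    have := hconst Finset.univ c hc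
    simpa using this
  obtain ⟨g, _, hg⟩ := exists_valid3 G hG (fun _ : V => true)
  have hneg : ∀ g : V → Bool, Valid3 G g → Valid3 G (fun u => !g u) := by
    intro g hg v
    have h1 : bad G (fun u => !g u) v = bad G g v := by
      ext w
      simp [mem_bad]
    rw [h1]
    exact hg v
  have hsneg : ∀ g : V → Bool, sgn true (fun u => !g u) = - sgn true g := by
    intro g
    unfold sgn
    rw [← Finset.sum_neg_distrib]
    apply Finset.sum_congr rfl
    intro v _
    cases hv : g v <;> simp [hv]
  have key : ∀ g : V → Bool, Valid3 G g → Lab3 G true g → False := by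
    intro g hg hL
    obtain ⟨g1, h1, _, h2⟩ := hL
    rw [h1.eq_of_valid G hg] at h2
    obtain ⟨g3, h3, _, h4⟩ := hall g (Lab3.of_valid G hg h2)
    rw [h3.eq_of_valid G (hneg g hg), hsneg] at h4
    omega
  rcases hB.pm G hG true hg with h | h
  · exact key g hg (Lab3.of_valid G hg h)
  · refine key _ (hneg g hg) (Lab3.of_valid G (hneg g hg) ?_)
    rw [hsneg]
    rw [sgn_not] at h
    exact h

/-- A colouring of least energy from which valid colourings of both labels are reached. -/
structure Crit3 (c : V → Bool) : Prop where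
  lab : ∀ s, Lab3 G s c
  min : ∀ d, En G d < En G c → ∀ s, Lab3 G s d → ¬ Lab3 G (!s) d

theorem exists_crit3 (hG : Deg13 G) (hB : NoBal3 G) : ∃ c, Crit3 G c := by
  classical
  obtain ⟨c0, h1, h2⟩ := exists_ambiguous3 G hG hB
  have hex : ∃ n, ∃ c, En G c = n ∧ Lab3 G true c ∧ Lab3 G false c := ⟨_, c0, rfl, h1, h2⟩
  obtain ⟨c, hc1, hc2, hc3⟩ := Nat.find_spec hex
  refine ⟨c, fun s => by cases s <;> assumption, ?_⟩
  intro d hd s hs hs'
  rw [hc1] at hd
  refine Nat.find_min hex hd ⟨d, rfl, ?_⟩
  cases s
  · exact ⟨hs', hs⟩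
  · exact ⟨hs, hs'⟩

/-- An ambiguous colouring of at most the energy of a critical one is critical. -/
theorem Crit3.of {c d : V → Bool} (hc : Crit3 G c) (hE : En G d ≤ En G c) (s : Bool)
    (h1 : Lab3 G s d) (h2 : Lab3 G (!s) d) : Crit3 G d := by
  refine ⟨fun s' => ?_, fun d' hd' => hc.min d' (lt_of_lt_of_le hd' hE)⟩
  cases s <;> cases s' <;> assumption

theorem Crit3.En_eq {c d : V → Bool} (hc : Crit3 G c) (hd : Crit3 G d) : En G c = En G d := by
  rcases lt_trichotomy (En G c) (En G d) with h | h | h
  · exact absurd (hc.lab (!true)) (hd.min c h true (hc.lab true))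
  · exact h
  · exact absurd (hd.lab (!true)) (hc.min d h true (hd.lab true))

/-- Below the critical energy all colourings reached from `d` have the label of `d`. -/
theorem lab_down3 (hG : Deg13 G) (hB : NoBal3 G) {c d d' : V → Bool}
    (hc : Crit3 G c) (hE : En G d < En G c) {s : Bool} (h1 : Lab3 G s d) (h : Reach3 G d d') :
    Lab3 G s d' := by
  rcases lab_or3 G hG hB s d' with h2 | h2
  · exact h2
  · exact absurd (h2.of_reach G h) (hc.min d hE s h1)

/-- Two colourings which differ in one vertex, of energy at most the critical one, with different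
labels: one of them is critical. -/
theorem Crit3.edge (hG : Deg13 G) {c d : V → Bool} (hc : Crit3 G c)
    (v : V) (h1 : En G d ≤ En G c) (h2 : En G (flip d v) ≤ En G c) (s : Bool)
    (hd : Lab3 G s d) (hd' : Lab3 G (!s) (flip d v)) : Crit3 G d ∨ Crit3 G (flip d v) := by
  rcases cmp3 G hG d v with h | h
  · exact Or.inl (hc.of G h1 s hd (hd'.of_reach G h))
  · exact Or.inr (hc.of G h2 s (hd.of_reach G h) hd')

theorem Crit3.not_valid {c : V → Bool} (hc : Crit3 G c) : ¬ Valid3 G c := fun hv =>
  lab_not_both_valid G hv (hc.lab true) (hc.lab (!true))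

theorem Crit3.exists_flip {c : V → Bool} (hc : Crit3 G c) (s : Bool) :
    ∃ p, Fp G c p ∧ Lab3 G s (flip c p) := by
  obtain ⟨g, h1, h2, h3⟩ := hc.lab s
  cases h1 with
  | refl => exact absurd h2 (hc.not_valid G)
  | step _ v _ hv h4 => exact ⟨v, hv, g, h4, h2, h3⟩

/-- Flips with different labels are adjacent, of the same colour, and tight. -/
theorem Crit3.adj (hG : Deg13 G) (hB : NoBal3 G) {c : V → Bool} (hc : Crit3 G c) (s : Bool)
    {p q : V} (hp : Fp G c p) (hq : Fp G c q)
    (hP : Lab3 G s (flip c p)) (hN : Lab3 G (!s) (flip c q)) :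
    G.Adj p q ∧ c p = c q ∧ 2 * (bad G c p).card = G.degree p + 1 ∧
      2 * (bad G c q).card = G.degree q + 1 := by
  have hEp := En_flip_lt3 G c p hp
  have hEq := En_flip_lt3 G c q hq
  have hpq : p ≠ q := by
    rintro rfl
    exact hc.min _ hEp s hP hN
  have hcomm : flip (flip c p) q = flip (flip c q) p := IVT.flip_comm c p q
  -- the common flip has one label only if reached from one side
  have key : ¬ (Fp G (flip c p) q) ∧ ¬ (Fp G (flip c q) p) := by
    constructor
    · intro h
      have h1 : Lab3 G s (flip (flip c p) q) := lab_down3 G hG hB hc hEp hP (Reach3.one G h)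
      rw [hcomm] at h1
      rcases cmp3 G hG (flip c q) p with h2 | h2
      · exact hc.min _ hEq s (h1.of_reach G h2) hN
      · rw [← hcomm] at h2
        exact hc.min _ hEp s hP ((hN.of_reach G h2).of_reach G (Reach3.one G h))
    · intro h
      have h1 : Lab3 G (!s) (flip (flip c q) p) := lab_down3 G hG hB hc hEq hN (Reach3.one G h)
      rw [← hcomm] at h1
      rcases cmp3 G hG (flip c p) q with h2 | h2
      · exact hc.min _ hEp s hP (h1.of_reach G h2)
      · rw [hcomm] at h2
        exact hc.min _ hEq s ((hP.of_reach G h2).of_reach G (Reach3.one G h)) hN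
  obtain ⟨h1, h2⟩ := key
  have hadj : G.Adj p q := by
    by_contra hcon
    unfold Fp at h1
    rw [bad_flip_nonadj G c hpq.symm (fun h => hcon h.symm)] at h1
    exact h1 hq
  have hcol : c p = c q := by
    by_contra hcon
    have h3 := card_bad_flip_adj_diff G c hadj.symm (fun h => hcon h.symm)
    unfold Fp at h1 hq
    omega
  have h3 := card_bad_flip_adj_same G c hadj.symm hcol.symm
  have h4 := card_bad_flip_adj_same G c hadj hcol
  unfold Fp at h1 h2 hp hq
  refine ⟨hadj, hcol, ?_, ?_⟩
  · rcases hG p with h5 | h5 <;> omega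
  · rcases hG q with h5 | h5 <;> omega

/-- All flippable vertices of a critical colouring have the same colour and are tight. -/
theorem Crit3.same (hG : Deg13 G) (hB : NoBal3 G) {c : V → Bool} (hc : Crit3 G c)
    {u v : V} (hu : Fp G c u) (hv : Fp G c v) :
    c u = c v ∧ 2 * (bad G c u).card = G.degree u + 1 := by
  obtain ⟨p, hp1, hp2⟩ := hc.exists_flip G true
  obtain ⟨q, hq1, hq2⟩ := hc.exists_flip G false
  have hpq := hc.adj G hG hB true hp1 hq1 hp2 hq2
  have key : ∀ w, Fp G c w → c w = c p ∧ 2 * (bad G c w).card = G.degree w + 1 := by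
    intro w hw
    rcases lab_or3 G hG hB true (flip c w) with h | h
    · have h1 := hc.adj G hG hB true hw hq1 h hq2
      exact ⟨h1.2.1.trans hpq.2.1.symm, h1.2.2.1⟩
    · have h1 := hc.adj G hG hB true hp1 hw hp2 h
      exact ⟨h1.2.1.symm, h1.2.2.2⟩
  exact ⟨(key u hu).1.trans (key v hv).1.symm, (key u hu).2⟩

theorem lab_fp3 (hG : Deg13 G) (s : Bool) {c : V → Bool} (h : Lab3 G s c)
    (hs : sgn s c ≤ 0) : ∃ v, Fp G c v ∧ c v = !s := by
  obtain ⟨g, h1, _, h3⟩ := h
  have h4 := pot_reach3 G hG s h1
  have h5 : 0 < (Fl3 G (!s) c).card := by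
    rcases Nat.eq_zero_or_pos (Fl3 G (!s) c).card with h | h
    · rw [h] at h4
      push_cast at h4
      omega
    · exact h
  obtain ⟨v, hv⟩ := Finset.card_pos.1 h5
  rw [mem_Fl3] at hv
  exact ⟨v, hv.1, hv.2⟩

end Pool.Agent.BLN
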