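import Pool.Agent.BLN.Lab

set_option autoImplicit false

/-!
Neighbourhoods of size three and the number of own-colour neighbours.
-/

namespace Pool.Agent.BLN

open Finset Pool.Agent.IVT

variable {V : Type} [Fintype V] [DecidableEq V] (G : SimpleGraph V) [DecidableRel G.Adj]

omit [Fintype V] [DecidableEq V] [DecidableRel G.Adj] in
/-- The neighbours of `v` are exactly the three distinct vertices `x`, `y`, `z`. -/
structure Nb (v x y z : V) : Prop where
  adj : ∀ w, G.Adj v w ↔ w = x ∨ w = y ∨ w = z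
  xy : x ≠ y
  xz : x ≠ z
  yz : y ≠ z

omit [Fintype V] [DecidableEq V] [DecidableRel G.Adj] in
theorem Nb.ax {v x y z : V} (h : Nb G v x y z) : G.Adj v x := (h.adj x).2 (Or.inl rfl)

omit [Fintype V] [DecidableEq V] [DecidableRel G.Adj] in
theorem Nb.ay {v x y z : V} (h : Nb G v x y z) : G.Adj v y := (h.adj y).2 (Or.inr (Or.inl rfl))

omit [Fintype V] [DecidableEq V] [DecidableRel G.Adj] in
theorem Nb.az {v x y z : V} (h : Nb G v x y z) : G.Adj v z := (h.adj z).2 (Or.inr (Or.inr rfl))

omit [Fintype V] [DecidableEq V] [DecidableRel G.Adj] in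
theorem Nb.swap {v x y z : V} (h : Nb G v x y z) : Nb G v x z y :=
  ⟨fun w => by rw [h.adj w]; tauto, h.xz, h.xy, h.yz.symm⟩

omit [Fintype V] [DecidableEq V] [DecidableRel G.Adj] in
theorem Nb.rot {v x y z : V} (h : Nb G v x y z) : Nb G v y z x :=
  ⟨fun w => by rw [h.adj w]; tauto, h.yz, h.xy.symm, h.xz.symm⟩

/-- Given one neighbour, name the other two. -/
theorem exists_nb (hG : G.IsRegularOfDegree 3) {v x : V} (h : G.Adj v x) :
    ∃ y z, Nb G v x y z := by
  have h1 : (G.neighborFinset v).card = 3 := hG v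
  have h2 : x ∈ G.neighborFinset v := by simpa using h
  have h3 : ((G.neighborFinset v).erase x).card = 2 := by
    rw [Finset.card_erase_of_mem h2, h1]
  obtain ⟨y, z, hyz, h4⟩ := Finset.card_eq_two.1 h3
  have hy : y ∈ (G.neighborFinset v).erase x := by rw [h4]; simp
  have hz : z ∈ (G.neighborFinset v).erase x := by rw [h4]; simp
  refine ⟨y, z, ⟨?_, (Finset.ne_of_mem_erase hy).symm, (Finset.ne_of_mem_erase hz).symm, hyz⟩⟩
  intro w
  have h5 : w ∈ G.neighborFinset v ↔ w = x ∨ w ∈ (G.neighborFinset v).erase x := by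
    rw [Finset.mem_erase]
    constructor
    · intro hw
      by_cases hwx : w = x
      · exact Or.inl hwx
      · exact Or.inr ⟨hwx, hw⟩
    · rintro (rfl | hw)
      · exact h2
      · exact hw.2
  rw [h4, SimpleGraph.mem_neighborFinset] at h5
  rw [h5]
  simp

/-- Given two neighbours, name the third. -/
theorem exists_nb2 (hG : G.IsRegularOfDegree 3) {v x y : V} (h : G.Adj v x) (h' : G.Adj v y)
    (hxy : x ≠ y) : ∃ z, Nb G v x y z := by
  obtain ⟨y', z', h1⟩ := exists_nb G hG h
  rcases (h1.adj y).1 h' with h2 | h2 | h2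
  · exact absurd h2.symm hxy
  · subst h2
    exact ⟨z', h1⟩
  · subst h2
    exact ⟨y', h1.swap G⟩

theorem nb_of_three (hG : G.IsRegularOfDegree 3) {v x y z : V} (h : G.Adj v x) (h' : G.Adj v y)
    (h'' : G.Adj v z) (hxy : x ≠ y) (hxz : x ≠ z) (hyz : y ≠ z) : Nb G v x y z := by
  obtain ⟨z', h1⟩ := exists_nb2 G hG h h' hxy
  rcases (h1.adj z).1 h'' with h2 | h2 | h2
  · exact absurd h2.symm hxz
  · exact absurd h2.symm hyz
  · subst h2
    exact h1

/-- The number of own-colour neighbours. -/
theorem Nb.card {v x y z : V} (h : Nb G v x y z) (c : V → Bool) :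
    (bad G c v).card = (if c x = c v then 1 else 0) + (if c y = c v then 1 else 0)
      + (if c z = c v then 1 else 0) := by
  have h1 : bad G c v = ({x, y, z} : Finset V).filter (fun w => c w = c v) := by
    ext w
    rw [mem_bad, h.adj w]
    simp
  rw [h1, Finset.card_filter]
  have hx : x ∉ ({y, z} : Finset V) := by
    simp [h.xy, h.xz]
  have hy : y ∉ ({z} : Finset V) := by
    simp [h.yz]
  rw [Finset.sum_insert hx, Finset.sum_insert hy, Finset.sum_singleton]
  ring

omit [Fintype V] [DecidableEq V] in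
/-- In a graph without 4-cycles two vertices have at most one common neighbour. -/
theorem C4Free.uniq {G : SimpleGraph V} (h : C4Free G) {u v w w' : V} (huv : u ≠ v)
    (h1 : G.Adj u w) (h2 : G.Adj w v) (h3 : G.Adj u w') (h4 : G.Adj w' v) : w = w' := by
  rcases h u w v w' h1 h2 h4.symm h3.symm with h5 | h5
  · exact absurd h5 huv
  · exact h5

end Pool.Agent.BLN
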