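import Pool.Agent.BLN.Nbr

set_option autoImplicit false

/-!
The structure of the critical colourings of a cubic graph without 4-cycles.
-/

namespace Pool.Agent.BLN

open Finset Pool.Agent.IVT

variable {V : Type} [Fintype V] [DecidableEq V] (G : SimpleGraph V) [DecidableRel G.Adj]

theorem bool_ne_not (e : Bool) : e ≠ !e := by cases e <;> simp

theorem bool_eq_not {a b : Bool} (h : a ≠ b) : a = !b := by
  cases a <;> cases b <;> simp_all

/-- The first part of the shape of a critical colouring. -/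
structure Sad1 (c : V → Bool) (e : Bool) (p q q' r : V) : Prop where
  np : Nb G p q q' r
  cp : c p = e
  cq : c q = e
  cq' : c q' = e
  cr : c r = !e
  fl : ∀ v, 2 ≤ (bad G c v).card ↔ v = p ∨ v = q ∨ v = q'
  bp : (bad G c p).card = 2
  bq : (bad G c q).card = 2
  bq' : (bad G c q').card = 2
  br : (bad G c r).card = 1
  nqq : ¬ G.Adj q q'
  lp : Lab G e (flip c p)
  lq : Lab G (!e) (flip c q)
  lq' : Lab G (!e) (flip c q')
  sum : sgn e c = 2

/-- First part: `p`, `q`, `q'`, `r`. -/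
theorem saddle_one (hG : G.IsRegularOfDegree 3) (hB : NoBal G) (hC : C4Free G) {c : V → Bool}
    (hc : Crit G 2 c) : ∃ (e : Bool) (p q q' r : V), Sad1 G c e p q q' r := by
  -- the two flips
  obtain ⟨p0, hp01, hp02⟩ := crit_exists G hG hB hc true
  obtain ⟨q0, hq01, hq02⟩ := crit_exists G hG hB hc false
  have hpq0 := crit_adj G hG hB hc true hp01 hq01 hp02 hq02
  obtain ⟨e, p, q, hp1, hp2, hq1, hq2, hpe⟩ : ∃ (e : Bool) (p q : V),
      2 ≤ (bad G c p).card ∧ Lab G e (flip c p) ∧ 2 ≤ (bad G c q).card ∧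
      Lab G (!e) (flip c q) ∧ c p = e := by
    cases hcp : c p0
    · exact ⟨false, q0, p0, hq01, hq02, hp01, hp02, by rw [← hpq0.2.1, hcp]⟩
    · exact ⟨true, p0, q0, hp01, hp02, hq01, hq02, hcp⟩
  have hpq := crit_adj G hG hB hc e hp1 hq1 hp2 hq2
  have hqe : c q = e := by rw [← hpq.2.1, hpe]
  have hsame : ∀ v, 2 ≤ (bad G c v).card → c v = e ∧ (bad G c v).card = 2 := by
    intro v hv
    have h := crit_same G hG hB hc hv hp1
    exact ⟨h.1.trans hpe, h.2⟩
  -- the sum
  have hT1 : ∀ v, 2 ≤ (bad G c v).card → Lab G e (flip c v) ∨ Lab G (!e) (flip c v) :=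
    fun v _ => lab_or G hG hB e (flip c v)
  have hsum : sgn e c = 2 := by
    obtain ⟨g, hg1, hg2, hg3⟩ := hp2
    obtain ⟨g', hg1', hg2', hg3'⟩ := hq2
    have hr1 := range G hG c (fun v => 2 ≤ (bad G c v).card ∧ Lab G e (flip c v))
      (fun v => 2 ≤ (bad G c v).card ∧ Lab G (!e) (flip c v)) (p := p) (q := q)
      ⟨hp1, ⟨g, hg1, hg2, hg3⟩⟩ ⟨hq1, ⟨g', hg1', hg2', hg3'⟩⟩
      (fun v hv => (hT1 v hv).imp (fun h => ⟨hv, h⟩) (fun h => ⟨hv, h⟩))
      (fun u v hu hv => crit_adj G hG hB hc e hu.1 hv.1 hu.2 hv.2) hg1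
    have hr2 := range G hG c (fun v => 2 ≤ (bad G c v).card ∧ Lab G (!e) (flip c v))
      (fun v => 2 ≤ (bad G c v).card ∧ Lab G e (flip c v)) (p := q) (q := p)
      ⟨hq1, ⟨g', hg1', hg2', hg3'⟩⟩ ⟨hp1, ⟨g, hg1, hg2, hg3⟩⟩
      (fun v hv => (hT1 v hv).symm.imp (fun h => ⟨hv, h⟩) (fun h => ⟨hv, h⟩))
      (fun u v hu hv => by
        have h := crit_adj G hG hB hc e hv.1 hu.1 hv.2 hu.2
        exact ⟨h.1.symm, h.2.1.symm, h.2.2.2, h.2.2.1⟩) hg1'
    rw [hpe] at hr1
    rw [hqe] at hr2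
    have h3 : sgn (!e) g' = - sgn e g' := sgn_not e g'
    omega
  have hEp := En_flip_lt G hG c p hp1
  have hEq := En_flip_lt G hG c q hq1
  -- `r`
  have hsp : sgn e (flip c p) = 0 := by
    rw [sgn_flip, if_pos hpe, hsum]
    norm_num
  obtain ⟨r, hr1, hr2⟩ := lab_lt G hG e hp2 hsp
  have hself := card_bad_flip_self G hG c p
  have hrp : r ≠ p := by
    rintro rfl
    omega
  rw [flip_ne c hrp] at hr2
  have hrn : ¬ 2 ≤ (bad G c r).card := by
    intro h
    have := (hsame r h).1
    rw [hr2] at this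
    exact bool_ne_not e this.symm
  have hrad : G.Adj r p := by
    by_contra h
    rw [bad_flip_nonadj G c hrp h] at hr1
    exact hrn hr1
  have hrc : c r ≠ c p := by
    rw [hr2, hpe]
    exact (bool_ne_not e).symm
  have hrb := card_bad_flip_adj_diff G c hrad hrc
  -- `q'`
  have hsq : sgn (!e) (flip c q) = 0 := by
    rw [sgn_not, sgn_flip, if_pos hqe, hsum]
    norm_num
  obtain ⟨q', hq'1, hq'2⟩ := lab_lt G hG (!e) hq2 hsq
  rw [Bool.not_not] at hq'2
  have hq'q : q' ≠ q := by
    rintro rfl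
    rw [flip_same, hqe] at hq'2
    exact bool_ne_not e hq'2.symm
  rw [flip_ne c hq'q] at hq'2
  have hq'nad : ¬ G.Adj q' q := by
    intro h
    have h1 := card_bad_flip_adj_same G c h (hq'2.trans hqe.symm)
    have h2 := (hsame q' (by omega)).2
    omega
  rw [bad_flip_nonadj G c hq'q hq'nad] at hq'1
  have hq'3 : Lab G (!e) (flip c q') := by
    rcases hT1 q' hq'1 with h | h
    · exact absurd (crit_adj G hG hB hc e hq'1 hq1 h hq2).1 hq'nad
    · exact h
  have hpq' := crit_adj G hG hB hc e hp1 hq'1 hp2 hq'3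
  have hqr : q ≠ r := by
    rintro rfl
    rw [hqe] at hr2
    exact bool_ne_not e hr2
  have hq'r : q' ≠ r := by
    rintro rfl
    rw [hq'2] at hr2
    exact bool_ne_not e hr2
  have hnp : Nb G p q q' r := nb_of_three G hG hpq.1 hpq'.1 hrad.symm hq'q.symm hqr hq'r
  refine ⟨e, p, q, q', r, hnp, hpe, hqe, hq'2, hr2, ?_, hpq.2.2.1, hpq.2.2.2, hpq'.2.2.2,
    by omega, fun h => hq'nad h.symm, hp2, hq2, hq'3, hsum⟩
  intro v
  constructor
  · intro hv
    rcases hT1 v hv with h | h
    · left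
      have h1 := (crit_adj G hG hB hc e hv hq1 h hq2).1
      have h2 := (crit_adj G hG hB hc e hv hq'1 h hq'3).1
      exact hC.uniq hq'q.symm h1.symm h2 hpq.1.symm hpq'.1
    · right
      have h1 := (crit_adj G hG hB hc e hp1 hv hp2 h).1
      rcases (hnp.adj v).1 h1 with h2 | h2 | h2
      · exact Or.inl h2
      · exact Or.inr h2
      · subst h2
        exact absurd hv hrn
  · rintro (rfl | rfl | rfl)
    · exact hp1
    · exact hq1
    · exact hq'1

/-- The other neighbours of `q`. -/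
theorem saddle_nq (hG : G.IsRegularOfDegree 3) {c : V → Bool} {q p : V} (h : G.Adj q p)
    (hb : (bad G c q).card = 2) (hcp : c p = c q) :
    ∃ t s, Nb G q p t s ∧ c t = c q ∧ c s = !(c q) := by
  obtain ⟨y, z, hN⟩ := exists_nb G hG h
  have h1 := hN.card G c
  rw [if_pos hcp, hb] at h1
  by_cases hy : c y = c q
  · refine ⟨y, z, hN, hy, ?_⟩
    by_cases hz : c z = c q
    · rw [if_pos hy, if_pos hz] at h1
      omega
    · exact bool_eq_not hz
  · refine ⟨z, y, hN.swap G, ?_, ?_⟩
    · by_cases hz : c z = c q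
      · exact hz
      · rw [if_neg hy, if_neg hz] at h1
        omega
    · exact bool_eq_not hy

theorem Sad1.swap {c : V → Bool} {e : Bool} {p q q' r : V} (h : Sad1 G c e p q q' r) :
    Sad1 G c e p q' q r :=
  ⟨⟨fun w => by rw [h.np.adj w]; tauto, h.np.xy.symm, h.np.yz, h.np.xz⟩, h.cp, h.cq', h.cq,
    h.cr, fun v => by rw [h.fl v]; tauto, h.bp, h.bq', h.bq, h.br,
    fun h1 => h.nqq h1.symm, h.lp, h.lq', h.lq, h.sum⟩

theorem Sad1.le {c : V → Bool} {e : Bool} {p q q' r : V} (h : Sad1 G c e p q q' r) {v : V}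
    (h1 : v ≠ p) (h2 : v ≠ q) (h3 : v ≠ q') : (bad G c v).card ≤ 1 := by
  by_contra h4
  rcases (h.fl v).1 (by omega) with h5 | h5 | h5
  · exact h1 h5
  · exact h2 h5
  · exact h3 h5

/-- Vertices of the colour `!e` have at most one own neighbour. -/
theorem Sad1.le_not {c : V → Bool} {e : Bool} {p q q' r : V} (h : Sad1 G c e p q q' r) {v : V}
    (h1 : c v = !e) : (bad G c v).card ≤ 1 := by
  refine h.le G ?_ ?_ ?_
  · rintro rfl
    exact bool_ne_not e (h.cp.symm.trans h1)
  · rintro rfl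
    exact bool_ne_not e (h.cq.symm.trans h1)
  · rintro rfl
    exact bool_ne_not e (h.cq'.symm.trans h1)

/-- `q` and `r` are not adjacent. -/
theorem Sad1.nadj (hG : G.IsRegularOfDegree 3) (hB : NoBal G) {c : V → Bool}
    (hc : Crit G 2 c) {e : Bool} {p q q' r : V} (h : Sad1 G c e p q q' r) : ¬ G.Adj q r := by
  intro hqr
  have hpr : p ≠ r := h.np.az.ne
  obtain ⟨t, hNq⟩ := exists_nb2 G hG h.np.ax.symm hqr hpr
  have hne := bool_ne_not e
  have hct : c t = e := by
    have h1 := hNq.card G c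
    rw [h.bq, h.cp, h.cq, h.cr, if_pos rfl, if_neg (bool_ne_not e).symm] at h1
    by_contra h2
    rw [if_neg h2] at h1
    omega
  have hEp := En_flip_lt G hG c p (by rw [h.bp])
  -- the chain of flips `p`, `r`, `q`
  have h1 : 2 ≤ (bad G (flip c p) r).card := by
    have := card_bad_flip_adj_diff G c h.np.az.symm (by rw [h.cr, h.cp]; exact hne.symm)
    rw [this, h.br]
  have htp : t ≠ p := hNq.xz.symm
  have htr : t ≠ r := hNq.yz.symm
  have htq : t ≠ q := hNq.az.ne.symm
  have hqp : q ≠ p := h.np.ax.ne.symm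
  have hqr' : q ≠ r := h.np.xz
  have hq'p : q' ≠ p := h.np.ay.ne.symm
  have hq'r : q' ≠ r := h.np.yz
  have hq'q : q' ≠ q := h.np.xy.symm
  set d1 := flip c p with hd1
  set d2 := flip d1 r with hd2
  set d3 := flip d2 q with hd3
  have e1p : d1 p = !e := by rw [hd1, flip_same, h.cp]
  have e2p : d2 p = !e := by rw [hd2, flip_ne _ hpr, e1p]
  have e2r : d2 r = e := by rw [hd2, flip_same, hd1, flip_ne _ hpr.symm, h.cr, Bool.not_not]
  have e2 : ∀ v, v ≠ p → v ≠ r → d2 v = c v := by
    intro v h1 h2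
    rw [hd2, flip_ne _ h2, hd1, flip_ne _ h1]
  have h2 : 2 ≤ (bad G d2 q).card := by
    rw [hNq.card G d2, e2p, e2r, e2 q hqp hqr', e2 t htp htr, h.cq, hct]
    simp
  have hr : Reach G d1 d3 := Reach.step d1 r _ h1 (Reach.one G h2)
  have hL : Lab G e d3 := lab_down G hG hB hc hEp h.lp hr
  have e3q : d3 q = !e := by rw [hd3, flip_same, e2 q hqp hqr', h.cq]
  have e3 : ∀ v, v ≠ q → d3 v = d2 v := fun v hv => by rw [hd3, flip_ne _ hv]
  have hs : sgn e d3 = 0 := by
    rw [hd3, sgn_flip, e2 q hqp hqr', h.cq, if_pos rfl, hd2, sgn_flip, hd1,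
      flip_ne _ hpr.symm, h.cr, if_neg hne.symm, sgn_flip, h.cp, if_pos rfl, h.sum]
    norm_num
  obtain ⟨v, hv1, hv2⟩ := lab_lt G hG e hL hs
  have hvq : v ≠ q := by
    rintro rfl
    rw [hNq.card G d3, e3q, e3 p hqp.symm, e2p, e3 r hqr'.symm, e2r, e3 t htq, e2 t htp htr,
      hct] at hv1
    simp at hv1
  have hvp : v ≠ p := by
    rintro rfl
    rw [h.np.card G d3, e3q, e3 v hvq, e2p, e3 r hqr'.symm, e2r, e3 q' hq'q, e2 q' hq'p hq'r,
      h.cq'] at hv1
    simp at hv1
  have hvr : v ≠ r := by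
    rintro rfl
    rw [e3 v hqr'.symm, e2r] at hv2
    exact hne hv2
  have hcv : c v = !e := by rw [← e2 v hvp hvr, ← e3 v hvq, hv2]
  have hle := h.le_not G hcv
  have hvp' : ¬ G.Adj v p := by
    intro h3
    rcases (h.np.adj v).1 h3.symm with h4 | h4 | h4
    · exact hvq h4
    · rw [h4, h.cq'] at hcv
      exact hne hcv
    · exact hvr h4
  have hvq' : ¬ G.Adj v q := by
    intro h3
    rcases (hNq.adj v).1 h3.symm with h4 | h4 | h4
    · exact hvp h4
    · exact hvr h4
    · rw [h4, hct] at hcv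
      exact hne hcv
  have h3 : (bad G d1 v).card = (bad G c v).card := by rw [hd1, bad_flip_nonadj G c hvp hvp']
  have h4 : (bad G d2 v).card ≤ (bad G d1 v).card := by
    rw [hd2]
    refine card_bad_flip_le G d1 hvr ?_
    rintro ⟨_, h5⟩
    apply h5
    rw [hd1, flip_ne _ hvp, flip_ne _ hpr.symm, hcv, h.cr]
  have h5 : (bad G d3 v).card = (bad G d2 v).card := by rw [hd3, bad_flip_nonadj G d2 hvq hvq']
  omega

/-- The neighbour `s` of `q` of colour `!e` has no own neighbour. -/
theorem Sad1.bs (hG : G.IsRegularOfDegree 3) (hB : NoBal G) (hC : C4Free G) {c : V → Bool}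
    (hc : Crit G 2 c) {e : Bool} {p q q' r t s : V} (h : Sad1 G c e p q q' r)
    (hN : Nb G q p t s) (hct : c t = e) (hcs : c s = !e) : (bad G c s).card = 0 := by
  have hne := bool_ne_not e
  have hle := h.le_not G hcs
  by_contra hcon
  have hs1 : (bad G c s).card = 1 := by omega
  have hqr := h.nadj G hG hB hc
  have hsr : s ≠ r := by
    rintro rfl
    exact hqr hN.az
  have hsp : s ≠ p := hN.xz.symm
  have hsq : s ≠ q := hN.az.ne.symm
  have hsq' : s ≠ q' := by
    rintro rfl
    rw [h.cq'] at hcs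
    exact hne hcs
  have hqp : q ≠ p := h.np.ax.ne.symm
  have hpr : p ≠ r := h.np.az.ne
  have hsp' : ¬ G.Adj s p := by
    intro h1
    rcases (h.np.adj s).1 h1.symm with h2 | h2 | h2
    · exact hsq h2
    · exact hsq' h2
    · exact hsr h2
  have hsr' : ¬ G.Adj r s := by
    intro h1
    rcases hC p q s r h.np.ax hN.az h1.symm h.np.az.symm with h2 | h2
    · exact hsp h2.symm
    · exact h.np.xz h2
  set d1 := flip c p with hd1
  set d2 := flip d1 s with hd2
  have hEp : (En G d1 : ℤ) = En G c - 2 := by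
    have := En_flip G hG c p
    rw [h.bp] at this
    push_cast at this
    rw [hd1]
    omega
  have hb1 : (bad G d1 s).card = 1 := by rw [hd1, bad_flip_nonadj G c hsp hsp', hs1]
  have hE2 : (En G d2 : ℤ) = En G c := by
    have := En_flip G hG d1 s
    rw [hb1] at this
    push_cast at this
    rw [hd2]
    omega
  have hEp' := En_flip_lt G hG c p (by rw [h.bp])
  have hEq' := En_flip_lt G hG c q (by rw [h.bq])
  -- `d2` reaches `d1`
  have hb2 : (bad G d2 s).card = 2 := by
    have := card_bad_flip_self G hG d1 s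
    rw [← hd2] at this
    omega
  have hL1 : Lab G e d2 := by
    have h1 : Reach G d2 (flip d2 s) := Reach.one G (by rw [hb2])
    rw [hd2, IVT.flip_flip] at h1
    exact h.lp.of_reach G h1
  -- values
  have e2p : d2 p = !e := by rw [hd2, flip_ne _ hsp.symm, hd1, flip_same, h.cp]
  have e2s : d2 s = e := by rw [hd2, flip_same, hd1, flip_ne _ hsp, hcs, Bool.not_not]
  have e2 : ∀ v, v ≠ p → v ≠ s → d2 v = c v := by
    intro v h1 h2
    rw [hd2, flip_ne _ h2, hd1, flip_ne _ h1]
  have htp : t ≠ p := hN.xy.symm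
  have hts : t ≠ s := hN.yz
  have hb3 : 2 ≤ (bad G d2 q).card := by
    rw [hN.card G d2, e2p, e2s, e2 q hqp hsq.symm, e2 t htp hts, h.cq, hct]
    simp
  have hb4 : 2 ≤ (bad G (flip d2 q) p).card := by
    have hq'q : q' ≠ q := h.np.xy.symm
    have hrq : r ≠ q := h.np.xz.symm
    rw [h.np.card G (flip d2 q), flip_same, flip_ne _ hqp.symm, flip_ne _ hq'q, flip_ne _ hrq,
      e2 q hqp hsq.symm, e2p, e2 r hpr.symm hsr.symm, h.cq, h.cr]
    simp
  have hL2 : Lab G (!e) d2 := by
    have h1 : Reach G d2 (flip (flip d2 q) p) := Reach.step d2 q _ hb3 (Reach.one G hb4)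
    have h2 : flip (flip d2 q) p = flip (flip c q) s := by
      rw [hd2, hd1, flip_comm (flip c p) s q, flip_comm c p q, flip_comm _ s p, IVT.flip_flip]
    rw [h2] at h1
    have h3 : Reach G (flip c q) (flip (flip c q) s) := by
      apply Reach.one G
      have := card_bad_flip_adj_diff G c hN.az.symm (by rw [hcs, h.cq]; exact hne.symm)
      rw [this, hs1]
    exact (lab_down G hG hB hc hEq' h.lq h3).of_reach G h1
  have hcr : Crit G 2 d2 := crit_of G hc (by omega) e hL1 hL2
  have hbr : 2 ≤ (bad G d2 r).card := by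
    rw [hd2, bad_flip_nonadj G d1 hsr.symm hsr', hd1,
      card_bad_flip_adj_diff G c h.np.az.symm (by rw [h.cr, h.cp]; exact hne.symm), h.br]
  have h5 := (crit_same G hG hB hcr (by rw [hb2] : 2 ≤ (bad G d2 s).card) hbr).1
  rw [e2s, e2 r hpr.symm hsr.symm, h.cr] at h5
  exact hne h5

/-- The neighbour `w` of `r` of colour `e` has no own neighbour. -/
theorem Sad1.bw (hG : G.IsRegularOfDegree 3) (hB : NoBal G) (hC : C4Free G) {c : V → Bool}
    (hc : Crit G 2 c) {e : Bool} {p q q' r t s t' s' w u : V} (h : Sad1 G c e p q q' r)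
    (hN : Nb G q p t s) (hct : c t = e) (hcs : c s = !e)
    (hN' : Nb G q' p t' s') (hct' : c t' = e) (hcs' : c s' = !e)
    (hR : Nb G r p w u) (hcw : c w = e) (hcu : c u = !e) : (bad G c w).card = 0 := by
  have hne := bool_ne_not e
  have hqr := h.nadj G hG hB hc
  have hqr' := (h.swap G).nadj G hG hB hc
  have hwp : w ≠ p := hR.xy.symm
  have hwq : w ≠ q := by
    rintro rfl
    exact hqr hR.ay.symm
  have hwq' : w ≠ q' := by
    rintro rfl
    exact hqr' hR.ay.symm
  have hle := h.le G hwp hwq hwq'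
  by_contra hcon
  have hw1 : (bad G c w).card = 1 := by omega
  have hpr : p ≠ r := h.np.az.ne
  have hqp : q ≠ p := h.np.ax.ne.symm
  have hq'p : q' ≠ p := h.np.ay.ne.symm
  have hq'q : q' ≠ q := h.np.xy.symm
  have hqrn : q ≠ r := h.np.xz
  have hq'r : q' ≠ r := h.np.yz
  have hwr : w ≠ r := hR.ay.ne.symm
  have hwt : w ≠ t := by
    rintro rfl
    rcases hC p q w r h.np.ax hN.ay hR.ay.symm h.np.az.symm with h2 | h2
    · exact hwp h2.symm
    · exact hqrn h2
  have hwt' : w ≠ t' := by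
    rintro rfl
    rcases hC p q' w r h.np.ay hN'.ay hR.ay.symm h.np.az.symm with h2 | h2
    · exact hwp h2.symm
    · exact hq'r h2
  have hws : w ≠ s := by
    rintro rfl
    rw [hcw] at hcs
    exact hne hcs
  have hws' : w ≠ s' := by
    rintro rfl
    rw [hcw] at hcs'
    exact hne hcs'
  have hwp' : ¬ G.Adj w p := by
    intro h1
    rcases (h.np.adj w).1 h1.symm with h2 | h2 | h2
    · exact hwq h2
    · exact hwq' h2
    · exact hwr h2
  have hwqa : ¬ G.Adj w q := by
    intro h1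
    rcases (hN.adj w).1 h1.symm with h2 | h2 | h2
    · exact hwp h2
    · exact hwt h2
    · exact hws h2
  have hwqa' : ¬ G.Adj q' w := by
    intro h1
    rcases (hN'.adj w).1 h1 with h2 | h2 | h2
    · exact hwp h2
    · exact hwt' h2
    · exact hws' h2
  have hEp' := En_flip_lt G hG c p (by rw [h.bp])
  have hEq' := En_flip_lt G hG c q (by rw [h.bq])
  set d1 := flip c q with hd1
  set d2 := flip d1 w with hd2
  have hEq : (En G d1 : ℤ) = En G c - 2 := by
    have := En_flip G hG c q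
    rw [h.bq] at this
    push_cast at this
    rw [hd1]
    omega
  have hb1 : (bad G d1 w).card = 1 := by rw [hd1, bad_flip_nonadj G c hwq hwqa, hw1]
  have hE2 : (En G d2 : ℤ) = En G c := by
    have := En_flip G hG d1 w
    rw [hb1] at this
    push_cast at this
    rw [hd2]
    omega
  have hb2 : (bad G d2 w).card = 2 := by
    have := card_bad_flip_self G hG d1 w
    rw [← hd2] at this
    omega
  have hL1 : Lab G (!e) d2 := by
    have h1 : Reach G d2 (flip d2 w) := Reach.one G (by rw [hb2])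
    rw [hd2, IVT.flip_flip] at h1
    exact h.lq.of_reach G h1
  -- values
  have e2q : d2 q = !e := by rw [hd2, flip_ne _ hwq.symm, hd1, flip_same, h.cq]
  have e2w : d2 w = !e := by rw [hd2, flip_same, hd1, flip_ne _ hwq, hcw]
  have e2 : ∀ v, v ≠ q → v ≠ w → d2 v = c v := by
    intro v h1 h2
    rw [hd2, flip_ne _ h2, hd1, flip_ne _ h1]
  have huq : u ≠ q := by
    rintro rfl
    rw [h.cq] at hcu
    exact hne hcu
  have huw : u ≠ w := hR.yz.symm
  have hup : u ≠ p := hR.xz.symm
  have hur : u ≠ r := hR.az.ne.symm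
  have htp : t ≠ p := hN.xy.symm
  have htq : t ≠ q := hN.ay.ne.symm
  have htr : t ≠ r := by
    rintro rfl
    exact hqr hN.ay
  have hsp : s ≠ p := hN.xz.symm
  have hsq : s ≠ q := hN.az.ne.symm
  have hsr : s ≠ r := by
    rintro rfl
    exact hqr hN.az
  -- the path `r`, `p`, `q`
  have hb3 : 2 ≤ (bad G d2 r).card := by
    rw [hR.card G d2, e2 p hqp.symm hwp.symm, e2w, e2 u huq huw, e2 r hqrn.symm hwr.symm,
      h.cp, h.cr, hcu]
    simp
  set d3 := flip d2 r with hd3
  have e3r : d3 r = e := by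
    rw [hd3, flip_same, e2 r hqrn.symm hwr.symm, h.cr, Bool.not_not]
  have e3 : ∀ v, v ≠ r → d3 v = d2 v := fun v hv => by rw [hd3, flip_ne _ hv]
  have hb4 : 2 ≤ (bad G d3 p).card := by
    rw [h.np.card G d3, e3 q hqrn, e2q, e3 q' hq'r, e2 q' hq'q hwq'.symm, e3r, e3 p hpr,
      e2 p hqp.symm hwp.symm, h.cp, h.cq']
    simp
  set d4 := flip d3 p with hd4
  have e4p : d4 p = !e := by
    rw [hd4, flip_same, e3 p hpr, e2 p hqp.symm hwp.symm, h.cp]
  have e4 : ∀ v, v ≠ p → d4 v = d3 v := fun v hv => by rw [hd4, flip_ne _ hv]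
  have hb5 : 2 ≤ (bad G d4 q).card := by
    rw [hN.card G d4, e4p, e4 t htp, e3 t htr, e2 t htq hwt.symm, e4 s hsp, e3 s hsr,
      e2 s hsq hws.symm, e4 q hqp, e3 q hqrn, e2q, hct, hcs]
    simp
  have hL2 : Lab G e d2 := by
    have h1 : Reach G d2 (flip d4 q) :=
      Reach.step d2 r _ hb3 (Reach.step d3 p _ hb4 (Reach.one G hb5))
    have h2 : flip d4 q = flip (flip (flip c p) r) w := by
      funext v
      by_cases h1 : v = q
      · subst h1
        rw [flip_same, e4 v hqp, e3 v hqrn, e2q, flip_ne _ hwq.symm, flip_ne _ hqrn,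
          flip_ne _ hqp, h.cq, Bool.not_not]
      · rw [flip_ne _ h1]
        by_cases h2 : v = p
        · subst h2
          rw [e4p, flip_ne _ hwp.symm, flip_ne _ hpr, flip_same, h.cp]
        · rw [e4 v h2]
          by_cases h3 : v = r
          · subst h3
            rw [e3r, flip_ne _ hwr.symm, flip_same, flip_ne _ hpr.symm, h.cr, Bool.not_not]
          · rw [e3 v h3]
            by_cases h4 : v = w
            · subst h4
              rw [e2w, flip_same, flip_ne _ hwr, flip_ne _ hwp, hcw]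
            · rw [e2 v h1 h4, flip_ne _ h4, flip_ne _ h3, flip_ne _ h2]
    rw [h2] at h1
    have hba : 2 ≤ (bad G (flip c p) r).card := by
      rw [card_bad_flip_adj_diff G c h.np.az.symm (by rw [h.cr, h.cp]; exact hne.symm), h.br]
    have hbb : 2 ≤ (bad G (flip (flip c p) r) w).card := by
      rw [card_bad_flip_adj_diff G (flip c p) hR.ay.symm
        (by rw [flip_ne _ hwp, flip_ne _ hpr.symm, hcw, h.cr]; exact hne),
        bad_flip_nonadj G c hwp hwp', hw1]
    have h3 : Reach G (flip c p) (flip (flip (flip c p) r) w) :=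
      Reach.step _ r _ hba (Reach.one G hbb)
    exact (lab_down G hG hB hc hEp' h.lp h3).of_reach G h1
  have hcr : Crit G 2 d2 := crit_of G hc (by omega) e hL2 hL1
  have hbq' : 2 ≤ (bad G d2 q').card := by
    have h6 : ¬ G.Adj q' q := fun h7 => h.nqq h7.symm
    rw [hd2, bad_flip_nonadj G d1 hwq'.symm hwqa', hd1, bad_flip_nonadj G c hq'q h6, h.bq']
  have h5 := (crit_same G hG hB hcr (by rw [hb2] : 2 ≤ (bad G d2 w).card) hbq').1
  rw [e2w, e2 q' hq'q hwq'.symm, h.cq'] at h5
  exact hne h5.symm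

end Pool.Agent.BLN
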