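import Pool.Agent.BLN.IV3a
import Pool.Agent.BLN.Nbr
import Pool.Agent.BLN.Saddle

set_option autoImplicit false

/-!
The structure of the critical colourings of a graph with degrees `1` and `3` without 4-cycles.
-/

namespace Pool.Agent.BLN

open Finset Pool.Agent.IVT

variable {V : Type} [Fintype V] [DecidableEq V] (G : SimpleGraph V) [DecidableRel G.Adj]

/-- Given one neighbour of a vertex of degree three, name the other two. -/
theorem exists_nb3 {v x : V} (hd : G.degree v = 3) (h : G.Adj v x) :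
    ∃ y z, Nb G v x y z := by
  have h1 : (G.neighborFinset v).card = 3 := hd
  have h2 : x ∈ G.neighborFinset v := by simpa using h
  have h3 : ((G.neighborFinset v).erase x).card = 2 := by
    rw [Finset.card_erase_of_mem h2, h1]
  obtain ⟨y, z, hyz, h4⟩ := Finset.card_eq_two.1 h3
  have hy : y ∈ (G.neighborFinset v).erase x := by rw [h4]; simp
  have hz : z ∈ (G.neighborFinset v).erase x := by rw [h4]; simp
  refine ⟨y, z, ⟨?_, (Finset.ne_of_mem_erase hy).symm, (Finset.ne_of_mem_erase hz).symm, hyz⟩⟩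
  intro w
  have h5 : w ∈ G.neighborFinset v ↔ w = x ∨ w ∈ (G.neighborFinset v).erase x := by
    rw [Finset.mem_erase]
    constructor
    · intro hw
      by_cases hwx : w = x
      · exact Or.inl hwx
      · exact Or.inr ⟨hwx, hw⟩
    · rintro (rfl | hw)
      · exact h2
      · exact hw.2
  rw [h4, SimpleGraph.mem_neighborFinset] at h5
  rw [h5]
  simp

theorem exists_nb23 {v x y : V} (hd : G.degree v = 3) (h : G.Adj v x) (h' : G.Adj v y)
    (hxy : x ≠ y) : ∃ z, Nb G v x y z := by
  obtain ⟨y', z', h1⟩ := exists_nb3 G hd h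
  rcases (h1.adj y).1 h' with h2 | h2 | h2
  · exact absurd h2.symm hxy
  · subst h2
    exact ⟨z', h1⟩
  · subst h2
    exact ⟨y', h1.swap G⟩

theorem nb_of_three3 {v x y z : V} (hd : G.degree v = 3) (h : G.Adj v x) (h' : G.Adj v y)
    (h'' : G.Adj v z) (hxy : x ≠ y) (hxz : x ≠ z) (hyz : y ≠ z) : Nb G v x y z := by
  obtain ⟨z', h1⟩ := exists_nb23 G hd h h' hxy
  rcases (h1.adj z).1 h'' with h2 | h2 | h2
  · exact absurd h2.symm hxz
  · exact absurd h2.symm hyz
  · subst h2
    exact h1

theorem Nb.degree {v x y z : V} (h : Nb G v x y z) : G.degree v = 3 := by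
  have h1 : G.neighborFinset v = {x, y, z} := by
    ext w
    rw [SimpleGraph.mem_neighborFinset, h.adj w]
    simp
  rw [← SimpleGraph.card_neighborFinset_eq_degree, h1, Finset.card_insert_of_notMem,
    Finset.card_insert_of_notMem, Finset.card_singleton]
  · simp [h.yz]
  · simp [h.xy, h.xz]

/-- A vertex with two different neighbours has degree three. -/
theorem deg3_of_two (hG : Deg13 G) {v x y : V} (h : G.Adj v x) (h' : G.Adj v y) (hxy : x ≠ y) :
    G.degree v = 3 := by
  rcases hG v with h1 | h1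
  · exfalso
    rw [← SimpleGraph.card_neighborFinset_eq_degree] at h1
    exact hxy (Finset.card_le_one.1 h1.le x (by simpa using h) y (by simpa using h'))
  · exact h1

/-- The neighbourhood of a vertex of degree one. -/
theorem pend_adj {v x : V} (hd : G.degree v = 1) (h : G.Adj v x) (w : V) :
    G.Adj v w ↔ w = x := by
  rw [← SimpleGraph.card_neighborFinset_eq_degree] at hd
  constructor
  · intro h1
    exact Finset.card_le_one.1 hd.le w (by simpa using h1) x (by simpa using h)
  · rintro rfl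
    exact h

/-- The first part of the shape of a critical colouring. -/
structure Sad3 (c : V → Bool) (e : Bool) (p q q' r : V) : Prop where
  np : Nb G p q q' r
  cp : c p = e
  cq : c q = e
  cq' : c q' = e
  cr : c r = !e
  fl : ∀ v, Fp G c v ↔ v = p ∨ v = q ∨ v = q'
  bp : (bad G c p).card = 2
  bq : 2 * (bad G c q).card = G.degree q + 1
  bq' : 2 * (bad G c q').card = G.degree q' + 1
  br : 2 * (bad G c r).card + 1 = G.degree r
  nqq : ¬ G.Adj q q'
  lp : Lab3 G e (flip c p)
  lq : Lab3 G (!e) (flip c q)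
  lq' : Lab3 G (!e) (flip c q')
  sum : sgn e c = 2

/-- First part: `p`, `q`, `q'`, `r`. -/
theorem saddle_one3 (hG : Deg13 G) (hB : NoBal3 G) (hC : C4Free G) {c : V → Bool}
    (hc : Crit3 G c) : ∃ (e : Bool) (p q q' r : V), Sad3 G c e p q q' r := by
  obtain ⟨p0, hp01, hp02⟩ := hc.exists_flip G true
  obtain ⟨q0, hq01, hq02⟩ := hc.exists_flip G false
  have hpq0 := hc.adj G hG hB true hp01 hq01 hp02 hq02
  obtain ⟨e, p, q, hp1, hp2, hq1, hq2, hpe⟩ : ∃ (e : Bool) (p q : V),
      Fp G c p ∧ Lab3 G e (flip c p) ∧ Fp G c q ∧ Lab3 G (!e) (flip c q) ∧ c p = e := by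
    cases hcp : c p0
    · exact ⟨false, q0, p0, hq01, hq02, hp01, hp02, by rw [← hpq0.2.1, hcp]⟩
    · exact ⟨true, p0, q0, hp01, hp02, hq01, hq02, hcp⟩
  have hpq := hc.adj G hG hB e hp1 hq1 hp2 hq2
  have hqe : c q = e := by rw [← hpq.2.1, hpe]
  have hsame : ∀ v, Fp G c v → c v = e ∧ 2 * (bad G c v).card = G.degree v + 1 := by
    intro v hv
    have h := hc.same G hG hB hv hp1
    exact ⟨h.1.trans hpe, h.2⟩
  have hT1 : ∀ v, Lab3 G e (flip c v) ∨ Lab3 G (!e) (flip c v) :=
    fun v => lab_or3 G hG hB e (flip c v)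
  -- the sum is at least two
  have hsum1 : 2 ≤ sgn e c := by
    obtain ⟨g, h1, h2, h3⟩ := hp2
    have h4 := pot_reach3 G hG e (Reach3.step c p g hp1 h1)
    have h5 : Fl3 G (!e) c = ∅ := by
      rw [Finset.eq_empty_iff_forall_notMem]
      intro v hv
      rw [mem_Fl3] at hv
      have := (hsame v hv.1).1
      rw [hv.2] at this
      exact bool_ne_not e this.symm
    rw [h5] at h4
    simp only [Finset.card_empty, Nat.cast_zero, mul_zero, add_zero] at h4
    omega
  -- the vertices of colour `e` flippable after the flip of `q`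
  have hFl : ∀ v, v ∈ Fl3 G e (flip c q) → v ∈ (bad G c p).erase q ∧ Fp G c v ∧
      ¬ G.Adj v q ∧ Lab3 G (!e) (flip c v) := by
    intro v hv
    rw [mem_Fl3] at hv
    obtain ⟨hv1, hv2⟩ := hv
    have hvq : v ≠ q := by
      rintro rfl
      rw [flip_same, hqe] at hv2
      exact bool_ne_not e hv2.symm
    rw [flip_ne c hvq] at hv2
    have hnad : ¬ G.Adj v q := by
      intro h
      have h1 := card_bad_flip_adj_same G c h (hv2.trans hqe.symm)
      unfold Fp at hv1
      have h2 := (hsame v (by unfold Fp; omega)).2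
      omega
    have hfv : Fp G c v := by
      unfold Fp at hv1 ⊢
      rwa [bad_flip_nonadj G c hvq hnad] at hv1
    have hlv : Lab3 G (!e) (flip c v) := by
      rcases hT1 v with h | h
      · exact absurd (hc.adj G hG hB e hfv hq1 h hq2).1 hnad
      · exact h
    refine ⟨?_, hfv, hnad, hlv⟩
    rw [Finset.mem_erase, mem_bad]
    exact ⟨hvq, (hc.adj G hG hB e hp1 hfv hp2 hlv).1, by rw [hv2, hpe]⟩
  have hqmem : q ∈ bad G c p := by
    rw [mem_bad]
    exact ⟨hpq.1, by rw [hqe, hpe]⟩
  have hcard : (Fl3 G e (flip c q)).card + 1 ≤ (bad G c p).card := by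
    have h1 : Fl3 G e (flip c q) ⊆ (bad G c p).erase q := fun v hv => (hFl v hv).1
    have h2 := Finset.card_le_card h1
    have h3 := Finset.card_erase_add_one hqmem
    omega
  have hsum2 : sgn e c ≤ 2 * ((Fl3 G e (flip c q)).card : ℤ) := by
    obtain ⟨g, h1, h2, h3⟩ := hq2
    have h4 := pot_reach3 G hG (!e) h1
    rw [Bool.not_not, sgn_not e (flip c q), sgn_flip, if_pos hqe] at h4
    omega
  have hbp := hpq.2.2.1
  have hdp : G.degree p = 3 ∧ (bad G c p).card = 2 ∧ (Fl3 G e (flip c q)).card = 1 := by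
    rcases hG p with h | h <;> omega
  obtain ⟨hdp3, hbp2, hFl1⟩ := hdp
  have hsum : sgn e c = 2 := by
    rw [hFl1] at hsum2
    norm_num at hsum2
    omega
  obtain ⟨q', hq'⟩ := Finset.card_pos.1 (by omega : 0 < (Fl3 G e (flip c q)).card)
  obtain ⟨hq'b, hq'1, hq'nad, hq'3⟩ := hFl q' hq'
  have hq'q : q' ≠ q := (Finset.mem_erase.1 hq'b).1
  have hpq' := hc.adj G hG hB e hp1 hq'1 hp2 hq'3
  have hq'2 : c q' = e := by rw [← hpq'.2.1, hpe]
  -- `r`
  have hsp : sgn e (flip c p) ≤ 0 := by
    rw [sgn_flip, if_pos hpe, hsum]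
    norm_num
  obtain ⟨r, hr1, hr2⟩ := lab_fp3 G hG e hp2 hsp
  have hself := card_bad_flip_self3 G c p
  have hrp : r ≠ p := by
    rintro rfl
    unfold Fp at hr1
    omega
  rw [flip_ne c hrp] at hr2
  have hrn : ¬ Fp G c r := by
    intro h
    have := (hsame r h).1
    rw [hr2] at this
    exact bool_ne_not e this.symm
  have hrad : G.Adj r p := by
    by_contra h
    unfold Fp at hr1
    rw [bad_flip_nonadj G c hrp h] at hr1
    exact hrn hr1
  have hrc : c r ≠ c p := by
    rw [hr2, hpe]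
    exact (bool_ne_not e).symm
  have hrb := card_bad_flip_adj_diff G c hrad hrc
  have hrt : 2 * (bad G c r).card + 1 = G.degree r := by
    have h1 := not_fp G hG hrn
    unfold Fp at hr1
    rcases hG r with h | h <;> omega
  have hqr : q ≠ r := by
    rintro rfl
    rw [hqe] at hr2
    exact bool_ne_not e hr2
  have hq'r : q' ≠ r := by
    rintro rfl
    rw [hq'2] at hr2
    exact bool_ne_not e hr2
  have hnp : Nb G p q q' r :=
    nb_of_three3 G hdp3 hpq.1 hpq'.1 hrad.symm hq'q.symm hqr hq'r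
  refine ⟨e, p, q, q', r, hnp, hpe, hqe, hq'2, hr2, ?_, hbp2, hpq.2.2.2, hpq'.2.2.2,
    hrt, fun h => hq'nad h.symm, hp2, hq2, hq'3, hsum⟩
  intro v
  constructor
  · intro hv
    rcases hT1 v with h | h
    · left
      have h1 := (hc.adj G hG hB e hv hq1 h hq2).1
      have h2 := (hc.adj G hG hB e hv hq'1 h hq'3).1
      exact hC.uniq hq'q.symm h1.symm h2 hpq.1.symm hpq'.1
    · right
      have h1 := (hc.adj G hG hB e hp1 hv hp2 h).1
      rcases (hnp.adj v).1 h1 with h2 | h2 | h2
      · exact Or.inl h2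
      · exact Or.inr h2
      · subst h2
        exact absurd hv hrn
  · rintro (rfl | rfl | rfl)
    · exact hp1
    · exact hq1
    · exact hq'1

theorem Sad3.swap {c : V → Bool} {e : Bool} {p q q' r : V} (h : Sad3 G c e p q q' r) :
    Sad3 G c e p q' q r :=
  ⟨⟨fun w => by rw [h.np.adj w]; tauto, h.np.xy.symm, h.np.yz, h.np.xz⟩, h.cp, h.cq', h.cq,
    h.cr, fun v => by rw [h.fl v]; tauto, h.bp, h.bq', h.bq, h.br,
    fun h1 => h.nqq h1.symm, h.lp, h.lq', h.lq, h.sum⟩

theorem Sad3.le (hG : Deg13 G) {c : V → Bool} {e : Bool} {p q q' r : V}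
    (h : Sad3 G c e p q q' r) {v : V}
    (h1 : v ≠ p) (h2 : v ≠ q) (h3 : v ≠ q') : 2 * (bad G c v).card < G.degree v := by
  apply not_fp G hG
  intro h4
  rcases (h.fl v).1 h4 with h5 | h5 | h5
  · exact h1 h5
  · exact h2 h5
  · exact h3 h5

/-- Vertices of the colour `!e` are not flippable. -/
theorem Sad3.le_not (hG : Deg13 G) {c : V → Bool} {e : Bool} {p q q' r : V}
    (h : Sad3 G c e p q q' r) {v : V}
    (h1 : c v = !e) : 2 * (bad G c v).card < G.degree v := by
  refine h.le G hG ?_ ?_ ?_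
  · rintro rfl
    exact bool_ne_not e (h.cp.symm.trans h1)
  · rintro rfl
    exact bool_ne_not e (h.cq.symm.trans h1)
  · rintro rfl
    exact bool_ne_not e (h.cq'.symm.trans h1)

/-- `q` and `r` are not adjacent. -/
theorem Sad3.nadj (hG : Deg13 G) (hB : NoBal3 G) {c : V → Bool}
    (hc : Crit3 G c) {e : Bool} {p q q' r : V} (h : Sad3 G c e p q q' r) : ¬ G.Adj q r := by
  intro hqr
  have hpr : p ≠ r := h.np.az.ne
  have hdq : G.degree q = 3 := deg3_of_two G hG h.np.ax.symm hqr hpr
  have hdr : G.degree r = 3 := deg3_of_two G hG h.np.az.symm hqr.symm h.np.ax.ne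
  have hbq : (bad G c q).card = 2 := by have := h.bq; omega
  have hbr : (bad G c r).card = 1 := by have := h.br; omega
  obtain ⟨t, hNq⟩ := exists_nb23 G hdq h.np.ax.symm hqr hpr
  have hne := bool_ne_not e
  have hct : c t = e := by
    have h1 := hNq.card G c
    rw [hbq, h.cp, h.cq, h.cr, if_pos rfl, if_neg (bool_ne_not e).symm] at h1
    by_contra h2
    rw [if_neg h2] at h1
    omega
  have hEp := En_flip_lt3 G c p ((h.fl p).2 (Or.inl rfl))
  have h1 : Fp G (flip c p) r := by
    unfold Fp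
    have := card_bad_flip_adj_diff G c h.np.az.symm (by rw [h.cr, h.cp]; exact hne.symm)
    omega
  have htp : t ≠ p := hNq.xz.symm
  have htr : t ≠ r := hNq.yz.symm
  have htq : t ≠ q := hNq.az.ne.symm
  have hqp : q ≠ p := h.np.ax.ne.symm
  have hqr' : q ≠ r := h.np.xz
  have hq'p : q' ≠ p := h.np.ay.ne.symm
  have hq'r : q' ≠ r := h.np.yz
  have hq'q : q' ≠ q := h.np.xy.symm
  set d1 := flip c p with hd1
  set d2 := flip d1 r with hd2
  set d3 := flip d2 q with hd3
  have e1p : d1 p = !e := by rw [hd1, flip_same, h.cp]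
  have e2p : d2 p = !e := by rw [hd2, flip_ne _ hpr, e1p]
  have e2r : d2 r = e := by rw [hd2, flip_same, hd1, flip_ne _ hpr.symm, h.cr, Bool.not_not]
  have e2 : ∀ v, v ≠ p → v ≠ r → d2 v = c v := by
    intro v h1 h2
    rw [hd2, flip_ne _ h2, hd1, flip_ne _ h1]
  have h2 : Fp G d2 q := by
    have h3 := hNq.card G d2
    rw [e2p, e2r, e2 q hqp hqr', e2 t htp htr, h.cq, hct, if_pos rfl,
      if_neg hne.symm] at h3
    unfold Fp
    omega
  have hr : Reach3 G d1 d3 := Reach3.step d1 r _ h1 (Reach3.one G h2)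
  have hL : Lab3 G e d3 := lab_down3 G hG hB hc hEp h.lp hr
  have e3q : d3 q = !e := by rw [hd3, flip_same, e2 q hqp hqr', h.cq]
  have e3 : ∀ v, v ≠ q → d3 v = d2 v := fun v hv => by rw [hd3, flip_ne _ hv]
  have hs : sgn e d3 ≤ 0 := by
    rw [hd3, sgn_flip, e2 q hqp hqr', h.cq, if_pos rfl, hd2, sgn_flip, hd1,
      flip_ne _ hpr.symm, h.cr, if_neg hne.symm, sgn_flip, h.cp, if_pos rfl, h.sum]
    norm_num
  obtain ⟨v, hv1, hv2⟩ := lab_fp3 G hG e hL hs
  have hvq : v ≠ q := by
    rintro rfl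
    have h4 := hNq.card G d3
    rw [e3q, e3 p hqp.symm, e2p, e3 r hqr'.symm, e2r, e3 t htq, e2 t htp htr,
      hct, if_pos rfl, if_neg hne] at h4
    unfold Fp at hv1
    omega
  have hvp : v ≠ p := by
    rintro rfl
    have h4 := h.np.card G d3
    rw [e3q, e3 v hvq, e2p, e3 r hqr'.symm, e2r, e3 q' hq'q, e2 q' hq'p hq'r,
      h.cq', if_pos rfl, if_neg hne] at h4
    have h5 := h.np.degree G
    unfold Fp at hv1
    omega
  have hvr : v ≠ r := by
    rintro rfl
    rw [e3 v hqr'.symm, e2r] at hv2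
    exact hne hv2
  have hcv : c v = !e := by rw [← e2 v hvp hvr, ← e3 v hvq, hv2]
  have hle := h.le_not G hG hcv
  have hvp' : ¬ G.Adj v p := by
    intro h3
    rcases (h.np.adj v).1 h3.symm with h4 | h4 | h4
    · exact hvq h4
    · rw [h4, h.cq'] at hcv
      exact hne hcv
    · exact hvr h4
  have hvq' : ¬ G.Adj v q := by
    intro h3
    rcases (hNq.adj v).1 h3.symm with h4 | h4 | h4
    · exact hvp h4
    · exact hvr h4
    · rw [h4, hct] at hcv
      exact hne hcv
  have h3 : (bad G d1 v).card = (bad G c v).card := by rw [hd1, bad_flip_nonadj G c hvp hvp']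
  have h4 : (bad G d2 v).card ≤ (bad G d1 v).card := by
    rw [hd2]
    refine card_bad_flip_le G d1 hvr ?_
    rintro ⟨_, h5⟩
    apply h5
    rw [hd1, flip_ne _ hvp, flip_ne _ hpr.symm, hcv, h.cr]
  have h5 : (bad G d3 v).card = (bad G d2 v).card := by rw [hd3, bad_flip_nonadj G d2 hvq hvq']
  unfold Fp at hv1
  omega

/-- The neighbour `s` of `q` of colour `!e` has no own neighbour and degree three. -/
theorem Sad3.bs (hG : Deg13 G) (hB : NoBal3 G) (hC : C4Free G) {c : V → Bool}
    (hc : Crit3 G c) {e : Bool} {p q q' r t s : V} (h : Sad3 G c e p q q' r)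
    (hN : Nb G q p t s) (hct : c t = e) (hcs : c s = !e) :
    (bad G c s).card = 0 ∧ G.degree s = 3 := by
  have hne := bool_ne_not e
  have hle := h.le_not G hG hcs
  by_contra hcon
  have hs1 : 2 * (bad G c s).card + 1 = G.degree s := by
    rcases hG s with h1 | h1
    · omega
    · have : (bad G c s).card ≠ 0 := fun h2 => hcon ⟨h2, h1⟩
      omega
  have hdp := h.np.degree G
  have hdq := hN.degree G
  have hqr := h.nadj G hG hB hc
  have hsr : s ≠ r := by
    rintro rfl
    exact hqr hN.az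
  have hsp : s ≠ p := hN.xz.symm
  have hsq : s ≠ q := hN.az.ne.symm
  have hsq' : s ≠ q' := by
    rintro rfl
    rw [h.cq'] at hcs
    exact hne hcs
  have hqp : q ≠ p := h.np.ax.ne.symm
  have hpr : p ≠ r := h.np.az.ne
  have hsp' : ¬ G.Adj s p := by
    intro h1
    rcases (h.np.adj s).1 h1.symm with h2 | h2 | h2
    · exact hsq h2
    · exact hsq' h2
    · exact hsr h2
  have hsr' : ¬ G.Adj r s := by
    intro h1
    rcases hC p q s r h.np.ax hN.az h1.symm h.np.az.symm with h2 | h2
    · exact hsp h2.symm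
    · exact h.np.xz h2
  have hEp' := En_flip_lt3 G c p ((h.fl p).2 (Or.inl rfl))
  have hEq' := En_flip_lt3 G c q ((h.fl q).2 (Or.inr (Or.inl rfl)))
  set d1 := flip c p with hd1
  set d2 := flip d1 s with hd2
  have hEp : (En G d1 : ℤ) = En G c - 2 := by
    have := En_flip3 G c p
    rw [h.bp, hdp] at this
    push_cast at this
    rw [hd1]
    omega
  have hb1 : (bad G d1 s).card = (bad G c s).card := by
    rw [hd1, bad_flip_nonadj G c hsp hsp']
  have hE2 : (En G d2 : ℤ) = En G c := by
    have := En_flip3 G d1 s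
    rw [hb1] at this
    rw [hd2]
    omega
  have hb2 : Fp G d2 s := by
    have := card_bad_flip_self3 G d1 s
    rw [← hd2] at this
    unfold Fp
    omega
  have hL1 : Lab3 G e d2 := by
    have h1 : Reach3 G d2 (flip d2 s) := Reach3.one G hb2
    rw [hd2, IVT.flip_flip] at h1
    exact h.lp.of_reach G h1
  have e2p : d2 p = !e := by rw [hd2, flip_ne _ hsp.symm, hd1, flip_same, h.cp]
  have e2s : d2 s = e := by rw [hd2, flip_same, hd1, flip_ne _ hsp, hcs, Bool.not_not]
  have e2 : ∀ v, v ≠ p → v ≠ s → d2 v = c v := by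
    intro v h1 h2
    rw [hd2, flip_ne _ h2, hd1, flip_ne _ h1]
  have htp : t ≠ p := hN.xy.symm
  have hts : t ≠ s := hN.yz
  have hb3 : Fp G d2 q := by
    have h1 := hN.card G d2
    rw [e2p, e2s, e2 q hqp hsq.symm, e2 t htp hts, h.cq, hct, if_pos rfl, if_neg hne.symm] at h1
    unfold Fp
    omega
  have hb4 : Fp G (flip d2 q) p := by
    have hq'q : q' ≠ q := h.np.xy.symm
    have hrq : r ≠ q := h.np.xz.symm
    have h1 := h.np.card G (flip d2 q)
    rw [flip_same, flip_ne _ hqp.symm, flip_ne _ hq'q, flip_ne _ hrq,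
      e2 q hqp hsq.symm, e2p, e2 r hpr.symm hsr.symm, h.cq, h.cr, if_pos rfl] at h1
    unfold Fp
    omega
  have hL2 : Lab3 G (!e) d2 := by
    have h1 : Reach3 G d2 (flip (flip d2 q) p) := Reach3.step d2 q _ hb3 (Reach3.one G hb4)
    have h2 : flip (flip d2 q) p = flip (flip c q) s := by
      rw [hd2, hd1, flip_comm (flip c p) s q, flip_comm c p q, flip_comm _ s p, IVT.flip_flip]
    rw [h2] at h1
    have h3 : Reach3 G (flip c q) (flip (flip c q) s) := by
      apply Reach3.one G
      have := card_bad_flip_adj_diff G c hN.az.symm (by rw [hcs, h.cq]; exact hne.symm)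
      unfold Fp
      omega
    exact (lab_down3 G hG hB hc hEq' h.lq h3).of_reach G h1
  have hcr : Crit3 G d2 := hc.of G (by omega) e hL1 hL2
  have hbr : Fp G d2 r := by
    have h1 : (bad G d2 r).card = (bad G c r).card + 1 := by
      rw [hd2, bad_flip_nonadj G d1 hsr.symm hsr', hd1,
        card_bad_flip_adj_diff G c h.np.az.symm (by rw [h.cr, h.cp]; exact hne.symm)]
    have h2 := h.br
    unfold Fp
    omega
  have h5 := (hcr.same G hG hB hb2 hbr).1
  rw [e2s, e2 r hpr.symm hsr.symm, h.cr] at h5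
  exact hne h5

/-- The neighbour `w` of `r` of colour `e` has no own neighbour and degree three. -/
theorem Sad3.bw (hG : Deg13 G) (hB : NoBal3 G) (hC : C4Free G) {c : V → Bool}
    (hc : Crit3 G c) {e : Bool} {p q q' r w u : V} (h : Sad3 G c e p q q' r)
    (hR : Nb G r p w u) (hcw : c w = e) (hcu : c u = !e) :
    (bad G c w).card = 0 ∧ G.degree w = 3 := by
  have hne := bool_ne_not e
  have hqr := h.nadj G hG hB hc
  have hqr' := (h.swap G).nadj G hG hB hc
  have hwp : w ≠ p := hR.xy.symm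
  have hwq : w ≠ q := by
    rintro rfl
    exact hqr hR.ay.symm
  have hwq' : w ≠ q' := by
    rintro rfl
    exact hqr' hR.ay.symm
  have hle := h.le G hG hwp hwq hwq'
  by_contra hcon
  have hw1 : 2 * (bad G c w).card + 1 = G.degree w := by
    rcases hG w with h1 | h1
    · omega
    · have : (bad G c w).card ≠ 0 := fun h2 => hcon ⟨h2, h1⟩
      omega
  have hdp := h.np.degree G
  have hdr := hR.degree G
  have hpr : p ≠ r := h.np.az.ne
  have hqp : q ≠ p := h.np.ax.ne.symm
  have hq'p : q' ≠ p := h.np.ay.ne.symm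
  have hq'q : q' ≠ q := h.np.xy.symm
  have hqrn : q ≠ r := h.np.xz
  have hq'r : q' ≠ r := h.np.yz
  have hwr : w ≠ r := hR.ay.ne.symm
  have hwp' : ¬ G.Adj w p := by
    intro h1
    rcases (h.np.adj w).1 h1.symm with h2 | h2 | h2
    · exact hwq h2
    · exact hwq' h2
    · exact hwr h2
  have hwqa : ¬ G.Adj w q := by
    intro h1
    rcases hC p q w r h.np.ax h1.symm hR.ay.symm h.np.az.symm with h2 | h2
    · exact hwp h2.symm
    · exact hqrn h2
  have hwqa' : ¬ G.Adj q' w := by
    intro h1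
    rcases hC p q' w r h.np.ay h1 hR.ay.symm h.np.az.symm with h2 | h2
    · exact hwp h2.symm
    · exact hq'r h2
  have hEp' := En_flip_lt3 G c p ((h.fl p).2 (Or.inl rfl))
  have hEq' := En_flip_lt3 G c q ((h.fl q).2 (Or.inr (Or.inl rfl)))
  set d1 := flip c q with hd1
  set d2 := flip d1 w with hd2
  have hEq : (En G d1 : ℤ) = En G c - 2 := by
    have := En_flip3 G c q
    have h1 := h.bq
    rw [hd1]
    omega
  have hb1 : (bad G d1 w).card = (bad G c w).card := by
    rw [hd1, bad_flip_nonadj G c hwq hwqa]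
  have hE2 : (En G d2 : ℤ) = En G c := by
    have := En_flip3 G d1 w
    rw [hb1] at this
    rw [hd2]
    omega
  have hb2 : Fp G d2 w := by
    have := card_bad_flip_self3 G d1 w
    rw [← hd2] at this
    unfold Fp
    omega
  have hL1 : Lab3 G (!e) d2 := by
    have h1 : Reach3 G d2 (flip d2 w) := Reach3.one G hb2
    rw [hd2, IVT.flip_flip] at h1
    exact h.lq.of_reach G h1
  have e2q : d2 q = !e := by rw [hd2, flip_ne _ hwq.symm, hd1, flip_same, h.cq]
  have e2w : d2 w = !e := by rw [hd2, flip_same, hd1, flip_ne _ hwq, hcw]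
  have e2 : ∀ v, v ≠ q → v ≠ w → d2 v = c v := by
    intro v h1 h2
    rw [hd2, flip_ne _ h2, hd1, flip_ne _ h1]
  have huq : u ≠ q := by
    rintro rfl
    rw [h.cq] at hcu
    exact hne hcu
  have huw : u ≠ w := hR.yz.symm
  have hb3 : Fp G d2 r := by
    have h1 := hR.card G d2
    rw [e2 p hqp.symm hwp.symm, e2w, e2 u huq huw, e2 r hqrn.symm hwr.symm,
      h.cp, h.cr, hcu, if_pos rfl, if_neg hne] at h1
    unfold Fp
    omega
  set d3 := flip d2 r with hd3
  have e3r : d3 r = e := by
    rw [hd3, flip_same, e2 r hqrn.symm hwr.symm, h.cr, Bool.not_not]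
  have e3 : ∀ v, v ≠ r → d3 v = d2 v := fun v hv => by rw [hd3, flip_ne _ hv]
  have hb4 : Fp G d3 p := by
    have h1 := h.np.card G d3
    rw [e3 q hqrn, e2q, e3 q' hq'r, e2 q' hq'q hwq'.symm, e3r, e3 p hpr,
      e2 p hqp.symm hwp.symm, h.cp, h.cq', if_pos rfl, if_neg hne.symm] at h1
    unfold Fp
    omega
  set d4 := flip d3 p with hd4
  have e4p : d4 p = !e := by
    rw [hd4, flip_same, e3 p hpr, e2 p hqp.symm hwp.symm, h.cp]
  have e4 : ∀ v, v ≠ p → d4 v = d3 v := fun v hv => by rw [hd4, flip_ne _ hv]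
  have hb5 : Fp G d4 q := by
    have h1 : (bad G d1 q).card + (bad G c q).card = G.degree q := card_bad_flip_self3 G c q
    have h2 : (bad G d2 q).card = (bad G d1 q).card := by
      rw [hd2, bad_flip_nonadj G d1 hwq.symm (fun h3 => hwqa h3.symm)]
    have h3 : (bad G d3 q).card = (bad G d2 q).card := by
      rw [hd3, bad_flip_nonadj G d2 hqrn hqr]
    have h4 : (bad G d4 q).card = (bad G d3 q).card + 1 := by
      rw [hd4]
      refine card_bad_flip_adj_diff G d3 h.np.ax.symm ?_
      rw [e3 q hqrn, e2q, e3 p hpr, e2 p hqp.symm hwp.symm, h.cp]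
      exact hne.symm
    have h5 := h.bq
    unfold Fp
    omega
  have hL2 : Lab3 G e d2 := by
    have h1 : Reach3 G d2 (flip d4 q) :=
      Reach3.step d2 r _ hb3 (Reach3.step d3 p _ hb4 (Reach3.one G hb5))
    have h2 : flip d4 q = flip (flip (flip c p) r) w := by
      funext v
      by_cases h1 : v = q
      · subst h1
        rw [flip_same, e4 v hqp, e3 v hqrn, e2q, flip_ne _ hwq.symm, flip_ne _ hqrn,
          flip_ne _ hqp, h.cq, Bool.not_not]
      · rw [flip_ne _ h1]
        by_cases h2 : v = p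
        · subst h2
          rw [e4p, flip_ne _ hwp.symm, flip_ne _ hpr, flip_same, h.cp]
        · rw [e4 v h2]
          by_cases h3 : v = r
          · subst h3
            rw [e3r, flip_ne _ hwr.symm, flip_same, flip_ne _ hpr.symm, h.cr, Bool.not_not]
          · rw [e3 v h3]
            by_cases h4 : v = w
            · subst h4
              rw [e2w, flip_same, flip_ne _ hwr, flip_ne _ hwp, hcw]
            · rw [e2 v h1 h4, flip_ne _ h4, flip_ne _ h3, flip_ne _ h2]
    rw [h2] at h1
    have hba : Fp G (flip c p) r := by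
      have h3 := card_bad_flip_adj_diff G c h.np.az.symm (by rw [h.cr, h.cp]; exact hne.symm)
      have h4 := h.br
      unfold Fp
      omega
    have hbb : Fp G (flip (flip c p) r) w := by
      have h3 := card_bad_flip_adj_diff G (flip c p) hR.ay.symm
        (by rw [flip_ne _ hwp, flip_ne _ hpr.symm, hcw, h.cr]; exact hne)
      rw [bad_flip_nonadj G c hwp hwp'] at h3
      unfold Fp
      omega
    have h3 : Reach3 G (flip c p) (flip (flip (flip c p) r) w) :=
      Reach3.step _ r _ hba (Reach3.one G hbb)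
    exact (lab_down3 G hG hB hc hEp' h.lp h3).of_reach G h1
  have hcr : Crit3 G d2 := hc.of G (by omega) e hL2 hL1
  have hbq' : Fp G d2 q' := by
    have h6 : ¬ G.Adj q' q := fun h7 => h.nqq h7.symm
    have h1 := h.bq'
    unfold Fp
    rw [hd2, bad_flip_nonadj G d1 hwq'.symm hwqa', hd1, bad_flip_nonadj G c hq'q h6]
    omega
  have h5 := (hcr.same G hG hB hb2 hbq').1
  rw [e2w, e2 q' hq'q hwq'.symm, h.cq'] at h5
  exact hne h5.symm

end Pool.Agent.BLN
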