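import Pool.Agent.BLN.Saddle

set_option autoImplicit false

/-!
Every critical colouring of a cubic graph without 4-cycles comes from a star.
-/

namespace Pool.Agent.BLN

open Finset Pool.Agent.IVT

variable {V : Type} [Fintype V] [DecidableEq V] (G : SimpleGraph V) [DecidableRel G.Adj]

theorem mem_rest {x : V} {l : Fin 3 → V} {v : V} :
    v ∈ rest x l ↔ v ≠ x ∧ ∀ i, v ≠ l i := by
  simp [rest]

/-- The sum over all vertices in terms of the sum over the complement of the star. -/
theorem sum_rest {x : V} {l : Fin 3 → V} (hx : ∀ i, x ≠ l i) (hl : Function.Injective l)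
    (f : V → ℤ) : ∑ v, f v = ∑ v ∈ rest x l, f v + (f x + f (l 0) + f (l 1) + f (l 2)) := by
  have h1 : (Finset.univ : Finset V) = rest x l ∪ {x, l 0, l 1, l 2} := by
    ext v
    simp only [Finset.mem_univ, Finset.mem_union, mem_rest, Finset.mem_insert,
      Finset.mem_singleton, true_iff]
    by_cases h : v = x ∨ v = l 0 ∨ v = l 1 ∨ v = l 2
    · exact Or.inr h
    · left
      push Not at h
      refine ⟨h.1, ?_⟩
      intro i
      fin_cases i
      · exact h.2.1
      · exact h.2.2.1
      · exact h.2.2.2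
  have h2 : Disjoint (rest x l) ({x, l 0, l 1, l 2} : Finset V) := by
    rw [Finset.disjoint_left]
    intro v hv hv'
    rw [mem_rest] at hv
    simp only [Finset.mem_insert, Finset.mem_singleton] at hv'
    rcases hv' with h | h | h | h
    · exact hv.1 h
    · exact hv.2 0 h
    · exact hv.2 1 h
    · exact hv.2 2 h
  have h01 : l 0 ≠ l 1 := fun h => by simpa using hl h
  have h02 : l 0 ≠ l 2 := fun h => by simpa using hl h
  have h12 : l 1 ≠ l 2 := fun h => by simpa using hl h
  rw [h1, Finset.sum_union h2, Finset.sum_insert (by simp [hx 0, hx 1, hx 2]),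
    Finset.sum_insert (by simp [h01, h02]), Finset.sum_insert (by simp [h12]),
    Finset.sum_singleton]
  ring

/-- A star from its neighbourhoods. -/
theorem star_of (hC : C4Free G) {c : V → Bool} {e : Bool} {x : V} {l α β : Fin 3 → V}
    (hnx : Nb G x (l 0) (l 1) (l 2)) (hnl : ∀ i, Nb G (l i) x (α i) (β i))
    (hna : ∀ i j, ¬ G.Adj (l i) (l j))
    (hα : ∀ i, c (α i) = e) (hβ : ∀ i, c (β i) = !e)
    (hα0 : ∀ i w, G.Adj (α i) w → c w = e → w = l i)
    (hβ0 : ∀ i w, G.Adj (β i) w → c w = !e → w = l i)
    (hown : ∀ v ∈ rest x l, (bad G c v).card ≤ 1)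
    (hx : c x = e) (h0 : c (l 0) = e) (h1 : c (l 1) = e) (h2 : c (l 2) = !e)
    (hsum : sgn e c = 2) :
    Star G c x l (if e = true then α else β) (if e = true then β else α) := by
  have hinj : Function.Injective l := by
    intro i j hij
    fin_cases i <;> fin_cases j <;>
      first
        | rfl
        | exact absurd hij hnx.xy
        | exact absurd hij hnx.xz
        | exact absurd hij hnx.yz
        | exact absurd hij hnx.xy.symm
        | exact absurd hij hnx.xz.symm
        | exact absurd hij hnx.yz.symm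
  have hxl : ∀ i, x ≠ l i := fun i => (hnl i).ax.ne.symm
  have hαinj : Function.Injective α := by
    intro i j hij
    by_contra hne
    have h3 : l i ≠ l j := fun h => hne (hinj h)
    have h4 := hC.uniq h3 (hnl i).ax (hnl j).ax.symm (hnl i).ay (by rw [hij]; exact (hnl j).ay.symm)
    exact (hnl i).xy h4
  have hβinj : Function.Injective β := by
    intro i j hij
    by_contra hne
    have h3 : l i ≠ l j := fun h => hne (hinj h)
    have h4 := hC.uniq h3 (hnl i).ax (hnl j).ax.symm (hnl i).az (by rw [hij]; exact (hnl j).az.symm)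
    exact (hnl i).xz h4
  have hαr : ∀ i, α i ∈ rest x l := by
    intro i
    rw [mem_rest]
    refine ⟨(hnl i).xy.symm, ?_⟩
    intro j hj
    exact hna i j (by rw [← hj]; exact (hnl i).ay)
  have hβr : ∀ i, β i ∈ rest x l := by
    intro i
    rw [mem_rest]
    refine ⟨(hnl i).xz.symm, ?_⟩
    intro j hj
    exact hna i j (by rw [← hj]; exact (hnl i).az)
  have hown' : ∀ v ∈ rest x l,
      ((rest x l).filter (fun w => G.Adj v w ∧ c w = c v)).card ≤ 1 := by
    intro v hv
    refine (Finset.card_le_card ?_).trans (hown v hv)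
    intro w hw
    rw [Finset.mem_filter] at hw
    rw [mem_bad]
    exact hw.2
  have hoa : ∀ i, ∀ w ∈ rest x l, G.Adj (α i) w → c w = !e := by
    intro i w hw hadj
    rw [mem_rest] at hw
    apply bool_eq_not
    intro h
    exact hw.2 i (hα0 i w hadj h)
  have hob : ∀ i, ∀ w ∈ rest x l, G.Adj (β i) w → c w = e := by
    intro i w hw hadj
    rw [mem_rest] at hw
    by_contra h
    exact hw.2 i (hβ0 i w hadj (bool_eq_not h))
  have hs : ∑ v ∈ rest x l, (if c v = e then (1 : ℤ) else -1) = 0 := by
    have h3 := sum_rest hxl hinj (fun v => if c v = e then (1 : ℤ) else -1)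
    have h4 : ∑ v, (if c v = e then (1 : ℤ) else -1) = 2 := hsum
    rw [h4] at h3
    simp only [hx, h0, h1, h2, if_true, if_neg (bool_ne_not e).symm] at h3
    omega
  have hnxi : ∀ v, G.Adj x v ↔ ∃ i, v = l i := by
    intro v
    rw [hnx.adj v]
    constructor
    · rintro (h | h | h)
      · exact ⟨0, h⟩
      · exact ⟨1, h⟩
      · exact ⟨2, h⟩
    · rintro ⟨i, h⟩
      fin_cases i
      · exact Or.inl h
      · exact Or.inr (Or.inl h)
      · exact Or.inr (Or.inr h)
  cases e
  · simp only [Bool.false_eq_true, if_false]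
    refine ⟨hnxi, ?_, hinj, hβinj, hαinj, hβr, hαr, hβ, hα, hown', hob, hoa, ?_⟩
    · intro i v
      rw [(hnl i).adj v]
      tauto
    · have h5 : ∑ v ∈ rest x l, (if c v = true then (1 : ℤ) else -1)
          = - ∑ v ∈ rest x l, (if c v = false then (1 : ℤ) else -1) := by
        rw [← Finset.sum_neg_distrib]
        apply Finset.sum_congr rfl
        intro v _
        cases c v <;> simp
      rw [h5, hs, neg_zero]
  · simp only [if_true]
    exact ⟨hnxi, fun i v => (hnl i).adj v, hinj, hαinj, hβinj, hαr, hβr, hα, hβ, hown',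
      hoa, hob, hs⟩

/-- Every critical colouring of a cubic graph without 4-cycles comes from a star `x`, `l i` with
outer neighbours `a i` (colour `true`) and `b i` (colour `false`); the flippable vertices are `x`,
`l 0` and `l 1`. -/
theorem crit_star (hG : G.IsRegularOfDegree 3) (hB : NoBal G) (hC : C4Free G) {c : V → Bool}
    (hc : Crit G 2 c) :
    ∃ (x : V) (l a b : Fin 3 → V) (s : Bool), Star G c x l a b ∧
      c x = s ∧ c (l 0) = s ∧ c (l 1) = s ∧ c (l 2) = !s ∧
      (∀ v, 2 ≤ (bad G c v).card ↔ v = x ∨ v = l 0 ∨ v = l 1) ∧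
      Lab G s (flip c x) ∧ Lab G (!s) (flip c (l 0)) ∧ Lab G (!s) (flip c (l 1)) := by
  obtain ⟨e, p, q, q', r, h⟩ := saddle_one G hG hB hC hc
  have hne := bool_ne_not e
  obtain ⟨t, s, hN, hct, hcs⟩ := saddle_nq G hG h.np.ax.symm h.bq (h.cp.trans h.cq.symm)
  obtain ⟨t', s', hN', hct', hcs'⟩ := saddle_nq G hG h.np.ay.symm h.bq' (h.cp.trans h.cq'.symm)
  rw [h.cq] at hct hcs
  rw [h.cq'] at hct' hcs'
  obtain ⟨w, u, hR, hcw, hcu⟩ : ∃ w u, Nb G r p w u ∧ c w = e ∧ c u = !e := by
    obtain ⟨y, z, hNr⟩ := exists_nb G hG h.np.az.symm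
    have h1 := hNr.card G c
    rw [h.br, h.cp, h.cr, if_neg hne] at h1
    by_cases hy : c y = !e
    · refine ⟨z, y, hNr.swap G, ?_, hy⟩
      by_contra hz
      rw [if_pos hy, if_pos (bool_eq_not hz)] at h1
      omega
    · refine ⟨y, z, hNr, ?_, ?_⟩
      · by_contra hz
        exact hy (bool_eq_not hz)
      · by_contra hz
        rw [if_neg hy, if_neg hz] at h1
        omega
  have hqr := h.nadj G hG hB hc
  have hqr' := (h.swap G).nadj G hG hB hc
  have hbs := h.bs G hG hB hC hc hN hct hcs
  have hbs' := (h.swap G).bs G hG hB hC hc hN' hct' hcs'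
  have hbw := h.bw G hG hB hC hc hN hct hcs hN' hct' hcs' hR hcw hcu
  have hbu := h.le_not G hcu
  have hbt : (bad G c t).card ≤ 1 := by
    refine h.le G hN.xy.symm hN.ay.ne.symm ?_
    rintro rfl
    exact h.nqq hN.ay
  have hbt' : (bad G c t').card ≤ 1 := by
    refine h.le G hN'.xy.symm ?_ hN'.ay.ne.symm
    rintro rfl
    exact h.nqq hN'.ay.symm
  have hst := star_of G hC (e := e) (x := p) (l := ![q, q', r]) (α := ![t, t', w])
    (β := ![s, s', u]) (c := c) h.np
    (by
      intro i
      fin_cases i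
      · exact hN
      · exact hN'
      · exact hR)
    (by
      intro i j
      fin_cases i <;> fin_cases j <;> simp
      · exact h.nqq
      · exact hqr
      · exact fun h1 => h.nqq h1.symm
      · exact hqr'
      · exact fun h1 => hqr h1.symm
      · exact fun h1 => hqr' h1.symm)
    (by
      intro i
      fin_cases i
      · exact hct
      · exact hct'
      · exact hcw)
    (by
      intro i
      fin_cases i
      · exact hcs
      · exact hcs'
      · exact hcu)
    (by
      intro i v hadj hv
      fin_cases i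
      · refine Finset.card_le_one.1 hbt v ?_ q ?_
        · rw [mem_bad]; exact ⟨hadj, hv.trans hct.symm⟩
        · rw [mem_bad]; exact ⟨hN.ay.symm, h.cq.trans hct.symm⟩
      · refine Finset.card_le_one.1 hbt' v ?_ q' ?_
        · rw [mem_bad]; exact ⟨hadj, hv.trans hct'.symm⟩
        · rw [mem_bad]; exact ⟨hN'.ay.symm, h.cq'.trans hct'.symm⟩
      · exfalso
        rw [Finset.card_eq_zero] at hbw
        have h1 : v ∈ bad G c w := by rw [mem_bad]; exact ⟨hadj, hv.trans hcw.symm⟩
        rw [hbw] at h1
        simp at h1)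
    (by
      intro i v hadj hv
      fin_cases i
      · exfalso
        rw [Finset.card_eq_zero] at hbs
        have h1 : v ∈ bad G c s := by rw [mem_bad]; exact ⟨hadj, hv.trans hcs.symm⟩
        rw [hbs] at h1
        simp at h1
      · exfalso
        rw [Finset.card_eq_zero] at hbs'
        have h1 : v ∈ bad G c s' := by rw [mem_bad]; exact ⟨hadj, hv.trans hcs'.symm⟩
        rw [hbs'] at h1
        simp at h1
      · refine Finset.card_le_one.1 hbu v ?_ r ?_
        · rw [mem_bad]; exact ⟨hadj, hv.trans hcu.symm⟩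
        · rw [mem_bad]; exact ⟨hR.az.symm, h.cr.trans hcu.symm⟩)
    (by
      intro v hv
      rw [mem_rest] at hv
      exact h.le G hv.1 (hv.2 0) (hv.2 1))
    h.cp h.cq h.cq' h.cr h.sum
  exact ⟨p, ![q, q', r], _, _, e, hst, h.cp, h.cq, h.cq', h.cr, h.fl, h.lp, h.lq, h.lq'⟩

end Pool.Agent.BLN
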