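import Pool.Agent.BLN.IV3b
import Pool.Agent.BLN.StarOf

set_option autoImplicit false

/-!
Every critical colouring of a graph with degrees `1` and `3` without 4-cycles comes from a star.
-/

namespace Pool.Agent.BLN

open Finset Pool.Agent.IVT

variable {V : Type} [Fintype V] [DecidableEq V] (G : SimpleGraph V) [DecidableRel G.Adj]

/-- A leaf `v` of a star with centre `x` and its outer neighbours: `α` of colour `e`, `β` of colour
`!e`, both of degree three and without own neighbour except `v`; a pendant leaf has `α = β = x`. -/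
def LeafOK (c : V → Bool) (e : Bool) (x v α β : V) : Prop :=
  (Nb G v x α β ∧ c α = e ∧ c β = (!e) ∧ G.degree α = 3 ∧ G.degree β = 3 ∧
    (∀ w, G.Adj α w → c w = e → w = v) ∧ (∀ w, G.Adj β w → c w = (!e) → w = v)) ∨
  (α = x ∧ β = x ∧ ∀ w, G.Adj v w ↔ w = x)

theorem sg_eq_ite (b : Bool) : sg b = if b = true then (1 : ℤ) else -1 := rfl

/-- A star from its neighbourhoods. -/
theorem star_of3 (hC : C4Free G) {c : V → Bool} {e : Bool} {x : V} {l α β : Fin 3 → V}
    (hnx : Nb G x (l 0) (l 1) (l 2)) (hL : ∀ i, LeafOK G c e x (l i) (α i) (β i))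
    (hna : ∀ i j, ¬ G.Adj (l i) (l j))
    (hown : ∀ v ∈ rest x l, 2 * (bad G c v).card < G.degree v)
    (hx : c x = e) (h0 : c (l 0) = e) (h1 : c (l 1) = e) (h2 : c (l 2) = !e)
    (hsum : sgn e c = 2) :
    Star3 G c x l (if e = true then α else β) (if e = true then β else α) := by
  have hinj : Function.Injective l := by
    intro i j hij
    fin_cases i <;> fin_cases j <;>
      first
        | rfl
        | exact absurd hij hnx.xy
        | exact absurd hij hnx.xz
        | exact absurd hij hnx.yz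
        | exact absurd hij hnx.xy.symm
        | exact absurd hij hnx.xz.symm
        | exact absurd hij hnx.yz.symm
  have hnxi : ∀ v, G.Adj x v ↔ ∃ i, v = l i := by
    intro v
    rw [hnx.adj v]
    constructor
    · rintro (h | h | h)
      · exact ⟨0, h⟩
      · exact ⟨1, h⟩
      · exact ⟨2, h⟩
    · rintro ⟨i, h⟩
      fin_cases i
      · exact Or.inl h
      · exact Or.inr (Or.inl h)
      · exact Or.inr (Or.inr h)
  have hxa : ∀ i, G.Adj x (l i) := fun i => (hnxi (l i)).2 ⟨i, rfl⟩
  have hxl : ∀ i, x ≠ l i := fun i => (hxa i).ne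
  have hnl : ∀ i v, G.Adj (l i) v ↔ v = x ∨ v = α i ∨ v = β i := by
    intro i v
    rcases hL i with h | h
    · exact h.1.adj v
    · rw [h.2.2 v, h.1, h.2.1]
      tauto
  have hpd : ∀ i, (α i = x ∧ β i = x) ∨ (α i ≠ x ∧ β i ≠ x) := by
    intro i
    rcases hL i with h | h
    · exact Or.inr ⟨h.1.xy.symm, h.1.xz.symm⟩
    · exact Or.inl ⟨h.1, h.2.1⟩
  have hN : ∀ i, α i ≠ x → Nb G (l i) x (α i) (β i) ∧ c (α i) = e ∧ c (β i) = (!e) ∧
      G.degree (α i) = 3 ∧ G.degree (β i) = 3 ∧
      (∀ w, G.Adj (α i) w → c w = e → w = l i) ∧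
      (∀ w, G.Adj (β i) w → c w = (!e) → w = l i) := by
    intro i hi
    rcases hL i with h | h
    · exact h
    · exact absurd h.1 hi
  have hab : ∀ i, β i ≠ x → α i ≠ x := by
    intro i hi
    rcases hpd i with h | h
    · exact absurd h.2 hi
    · exact h.1
  have hαinj : ∀ i j, α i = α j → α i ≠ x → i = j := by
    intro i j hij hi
    by_contra hne
    have h3 : l i ≠ l j := fun h => hne (hinj h)
    have hj : α j ≠ x := by rw [← hij]; exact hi
    have h4 := hC.uniq h3 (hxa i).symm (hxa j) (hN i hi).1.ay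
      (by rw [hij]; exact (hN j hj).1.ay.symm)
    exact hi h4.symm
  have hβinj : ∀ i j, β i = β j → β i ≠ x → i = j := by
    intro i j hij hi
    by_contra hne
    have h3 : l i ≠ l j := fun h => hne (hinj h)
    have hj : β j ≠ x := by rw [← hij]; exact hi
    have h4 := hC.uniq h3 (hxa i).symm (hxa j) (hN i (hab i hi)).1.az
      (by rw [hij]; exact (hN j (hab j hj)).1.az.symm)
    exact hi h4.symm
  have hαr : ∀ i, α i ≠ x → α i ∈ rest x l := by
    intro i hi
    rw [BLN.mem_rest]
    refine ⟨hi, ?_⟩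
    intro j hj
    exact hna i j (by rw [← hj]; exact (hN i hi).1.ay)
  have hβr : ∀ i, β i ≠ x → β i ∈ rest x l := by
    intro i hi
    rw [BLN.mem_rest]
    refine ⟨hi, ?_⟩
    intro j hj
    exact hna i j (by rw [← hj]; exact (hN i (hab i hi)).1.az)
  have hown' : ∀ v ∈ rest x l,
      2 * ((rest x l).filter (fun w => G.Adj v w ∧ c w = c v)).card < G.degree v := by
    intro v hv
    have h3 : ((rest x l).filter (fun w => G.Adj v w ∧ c w = c v)).card ≤ (bad G c v).card := by
      refine Finset.card_le_card ?_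
      intro w hw
      rw [Finset.mem_filter] at hw
      rw [mem_bad]
      exact hw.2
    have h4 := hown v hv
    omega
  have hoa : ∀ i, α i ≠ x → ∀ w ∈ rest x l, G.Adj (α i) w → c w = !e := by
    intro i hi w hw hadj
    rw [BLN.mem_rest] at hw
    apply bool_eq_not
    intro h
    exact hw.2 i ((hN i hi).2.2.2.2.2.1 w hadj h)
  have hob : ∀ i, β i ≠ x → ∀ w ∈ rest x l, G.Adj (β i) w → c w = e := by
    intro i hi w hw hadj
    rw [BLN.mem_rest] at hw
    by_contra h
    exact hw.2 i ((hN i (hab i hi)).2.2.2.2.2.2 w hadj (bool_eq_not h))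
  have hs : ∑ v ∈ rest x l, (if c v = e then (1 : ℤ) else -1) = 0 := by
    have h3 := sum_rest hxl hinj (fun v => if c v = e then (1 : ℤ) else -1)
    have h4 : ∑ v, (if c v = e then (1 : ℤ) else -1) = 2 := hsum
    rw [h4] at h3
    simp only [hx, h0, h1, h2, if_true, if_neg (bool_ne_not e).symm] at h3
    omega
  cases e
  · simp only [Bool.false_eq_true, if_false]
    refine ⟨hnxi, ?_, hinj, ?_, hβinj, hαinj, hβr, hαr, fun i hi => (hN i (hab i hi)).2.2.1,
      fun i hi => (hN i hi).2.1, hown', hob, hoa, fun i hi => (hN i (hab i hi)).2.2.2.2.1,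
      fun i hi => (hN i hi).2.2.2.1, ?_⟩
    · intro i v
      rw [hnl i v]
      tauto
    · intro i
      have := hpd i
      tauto
    · have h5 : ∑ v ∈ rest x l, sg (c v)
          = - ∑ v ∈ rest x l, (if c v = false then (1 : ℤ) else -1) := by
        rw [← Finset.sum_neg_distrib]
        apply Finset.sum_congr rfl
        intro v _
        rw [sg_eq_ite]
        cases c v <;> simp
      rw [h5, hs, neg_zero]
  · simp only [if_true]
    exact ⟨hnxi, hnl, hinj, hpd, hαinj, hβinj, hαr, hβr, fun i hi => (hN i hi).2.1,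
      fun i hi => (hN i (hab i hi)).2.2.1, hown', hoa, hob, fun i hi => (hN i hi).2.2.2.1,
      fun i hi => (hN i (hab i hi)).2.2.2.2.1, hs⟩

/-- The outer neighbours of the leaf `q`. -/
theorem Sad3.leaf (hG : Deg13 G) (hB : NoBal3 G) (hC : C4Free G) {c : V → Bool}
    (hc : Crit3 G c) {e : Bool} {p q q' r : V} (h : Sad3 G c e p q q' r) :
    ∃ t s, LeafOK G c e p q t s := by
  rcases hG q with hd | hd
  · exact ⟨p, p, Or.inr ⟨rfl, rfl, pend_adj G hd h.np.ax.symm⟩⟩
  · have hbq : (bad G c q).card = 2 := by have := h.bq; omega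
    obtain ⟨y, z, hN⟩ := exists_nb3 G hd h.np.ax.symm
    have h1 := hN.card G c
    rw [hbq, h.cp, h.cq, if_pos rfl] at h1
    obtain ⟨t, s, hNq, hct, hcs⟩ : ∃ t s, Nb G q p t s ∧ c t = e ∧ c s = !e := by
      by_cases hy : c y = e
      · refine ⟨y, z, hN, hy, bool_eq_not ?_⟩
        intro hz
        rw [if_pos hy, if_pos hz] at h1
        omega
      · refine ⟨z, y, hN.swap G, ?_, bool_eq_not hy⟩
        by_contra hz
        rw [if_neg hy, if_neg hz] at h1
        omega
    have hs := h.bs G hG hB hC hc hNq hct hcs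
    have ht : 2 * (bad G c t).card < G.degree t := by
      refine h.le G hG hNq.xy.symm hNq.ay.ne.symm ?_
      rintro rfl
      exact h.nqq hNq.ay
    have hqt : q ∈ bad G c t := by
      rw [mem_bad]
      exact ⟨hNq.ay.symm, h.cq.trans hct.symm⟩
    have hpos := Finset.card_pos.2 ⟨q, hqt⟩
    have hdt : G.degree t = 3 := by
      rcases hG t with h2 | h2
      · omega
      · exact h2
    refine ⟨t, s, Or.inl ⟨hNq, hct, hcs, hdt, hs.2, ?_, ?_⟩⟩
    · intro w hw hcw
      refine Finset.card_le_one.1 (by omega : (bad G c t).card ≤ 1) w ?_ q hqt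
      rw [mem_bad]
      exact ⟨hw, hcw.trans hct.symm⟩
    · intro w hw hcw
      exfalso
      have h2 : w ∈ bad G c s := by
        rw [mem_bad]
        exact ⟨hw, hcw.trans hcs.symm⟩
      rw [Finset.card_eq_zero.1 hs.1] at h2
      simp at h2

/-- The outer neighbours of the leaf `r`. -/
theorem Sad3.leaf' (hG : Deg13 G) (hB : NoBal3 G) (hC : C4Free G) {c : V → Bool}
    (hc : Crit3 G c) {e : Bool} {p q q' r : V} (h : Sad3 G c e p q q' r) :
    ∃ w u, LeafOK G c e p r w u := by
  have hne := bool_ne_not e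
  rcases hG r with hd | hd
  · exact ⟨p, p, Or.inr ⟨rfl, rfl, pend_adj G hd h.np.az.symm⟩⟩
  · have hbr : (bad G c r).card = 1 := by have := h.br; omega
    obtain ⟨y, z, hN⟩ := exists_nb3 G hd h.np.az.symm
    have h1 := hN.card G c
    rw [hbr, h.cp, h.cr, if_neg hne] at h1
    obtain ⟨w, u, hR, hcw, hcu⟩ : ∃ w u, Nb G r p w u ∧ c w = e ∧ c u = !e := by
      by_cases hy : c y = !e
      · refine ⟨z, y, hN.swap G, ?_, hy⟩
        by_contra hz
        rw [if_pos hy, if_pos (bool_eq_not hz)] at h1
        omega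
      · refine ⟨y, z, hN, ?_, ?_⟩
        · by_contra hz
          exact hy (bool_eq_not hz)
        · by_contra hz
          rw [if_neg hy, if_neg hz] at h1
          omega
    have hw := h.bw G hG hB hC hc hR hcw hcu
    have hu := h.le_not G hG hcu
    have hru : r ∈ bad G c u := by
      rw [mem_bad]
      exact ⟨hR.az.symm, h.cr.trans hcu.symm⟩
    have hpos := Finset.card_pos.2 ⟨r, hru⟩
    have hdu : G.degree u = 3 := by
      rcases hG u with h2 | h2
      · omega
      · exact h2
    refine ⟨w, u, Or.inl ⟨hR, hcw, hcu, hw.2, hdu, ?_, ?_⟩⟩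
    · intro v hv hcv
      exfalso
      have h2 : v ∈ bad G c w := by
        rw [mem_bad]
        exact ⟨hv, hcv.trans hcw.symm⟩
      rw [Finset.card_eq_zero.1 hw.1] at h2
      simp at h2
    · intro v hv hcv
      refine Finset.card_le_one.1 (by omega : (bad G c u).card ≤ 1) v ?_ r hru
      rw [mem_bad]
      exact ⟨hv, hcv.trans hcu.symm⟩

/-- Every critical colouring `c` of a graph with degrees `1` and `3` without 4-cycles comes from a
star `x`, `l i` with outer neighbours `a i` (colour `true`) and `b i` (colour `false`); the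
flippable vertices are `x`, `l 0` and `l 1`. The two star colourings `starCol c x l t` have two
monochromatic edges less (`En` counts every edge twice), and opposite labels. -/
theorem crit_star3 (hG : Deg13 G) (hB : NoBal3 G) (hC : C4Free G) {c : V → Bool}
    (hc : Crit3 G c) :
    ∃ (x : V) (l a b : Fin 3 → V) (s : Bool), Star3 G c x l a b ∧
      c x = s ∧ c (l 0) = s ∧ c (l 1) = s ∧ c (l 2) = (!s) ∧
      (∀ v, Fp G c v ↔ v = x ∨ v = l 0 ∨ v = l 1) ∧
      Lab3 G s (flip c x) ∧ Lab3 G (!s) (flip c (l 0)) ∧ Lab3 G (!s) (flip c (l 1)) ∧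
      (∀ t, En G (starCol c x l t) + 4 = En G c) ∧ (∀ t, Lab3 G (!t) (starCol c x l t)) ∧
      sgn s c = 2 := by
  obtain ⟨e, p, q, q', r, h⟩ := saddle_one3 G hG hB hC hc
  obtain ⟨t, s, hLq⟩ := h.leaf G hG hB hC hc
  obtain ⟨t', s', hLq'⟩ := (h.swap G).leaf G hG hB hC hc
  obtain ⟨w, u, hLr⟩ := h.leaf' G hG hB hC hc
  have hqr := h.nadj G hG hB hc
  have hqr' := (h.swap G).nadj G hG hB hc
  have hst := star_of3 G hC (e := e) (x := p) (l := ![q, q', r]) (α := ![t, t', w])
    (β := ![s, s', u]) (c := c) h.np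
    (by
      intro i
      fin_cases i
      · exact hLq
      · exact hLq'
      · exact hLr)
    (by
      intro i j
      fin_cases i <;> fin_cases j <;> simp
      · exact h.nqq
      · exact hqr
      · exact fun h1 => h.nqq h1.symm
      · exact hqr'
      · exact fun h1 => hqr h1.symm
      · exact fun h1 => hqr' h1.symm)
    (by
      intro v hv
      rw [BLN.mem_rest] at hv
      exact h.le G hG hv.1 (hv.2 0) (hv.2 1))
    h.cp h.cq h.cq' h.cr h.sum
  have hpq : p ≠ q := h.np.ax.ne
  have hpq' : p ≠ q' := h.np.ay.ne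
  have hpr : p ≠ r := h.np.az.ne
  have hqq' : q ≠ q' := h.np.xy
  have hqrn : q ≠ r := h.np.xz
  have hq'r : q' ≠ r := h.np.yz
  have hex : ∀ v, (∃ i : Fin 3, v = ![q, q', r] i) ↔ v = q ∨ v = q' ∨ v = r := by
    intro v
    constructor
    · rintro ⟨i, hi⟩
      fin_cases i
      · exact Or.inl hi
      · exact Or.inr (Or.inl hi)
      · exact Or.inr (Or.inr hi)
    · rintro (hv | hv | hv)
      · exact ⟨0, hv⟩
      · exact ⟨1, hv⟩
      · exact ⟨2, hv⟩
  -- the two star colourings
  have hS1 : starCol c p ![q, q', r] (!e) = flip (flip c p) r := by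
    funext v
    unfold starCol
    by_cases h1 : v = p
    · subst h1
      rw [if_pos rfl, flip_ne _ hpr, flip_same, h.cp]
    · rw [if_neg h1]
      by_cases h2 : v = q ∨ v = q' ∨ v = r
      · rw [if_pos ((hex v).2 h2), Bool.not_not]
        rcases h2 with rfl | rfl | rfl
        · rw [flip_ne _ hqrn, flip_ne _ hpq.symm, h.cq]
        · rw [flip_ne _ hq'r, flip_ne _ hpq'.symm, h.cq']
        · rw [flip_same, flip_ne _ hpr.symm, h.cr, Bool.not_not]
      · rw [if_neg (fun h3 => h2 ((hex v).1 h3))]
        push Not at h2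
        rw [flip_ne _ h2.2.2, flip_ne _ h1]
  have hS2 : starCol c p ![q, q', r] e = flip (flip c q) q' := by
    funext v
    unfold starCol
    by_cases h1 : v = p
    · subst h1
      rw [if_pos rfl, flip_ne _ hpq', flip_ne _ hpq, h.cp]
    · rw [if_neg h1]
      by_cases h2 : v = q ∨ v = q' ∨ v = r
      · rw [if_pos ((hex v).2 h2)]
        rcases h2 with rfl | rfl | rfl
        · rw [flip_ne _ hqq', flip_same, h.cq]
        · rw [flip_same, flip_ne _ hqq'.symm, h.cq']
        · rw [flip_ne _ hq'r.symm, flip_ne _ hqrn.symm, h.cr]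
      · rw [if_neg (fun h3 => h2 ((hex v).1 h3))]
        push Not at h2
        rw [flip_ne _ h2.2.1, flip_ne _ h2.1]
  have hfp : Fp G (flip c p) r := by
    have h3 := card_bad_flip_adj_diff G c h.np.az.symm
      (by rw [h.cr, h.cp]; exact (bool_ne_not e).symm)
    have h4 := h.br
    unfold Fp
    omega
  have hfq : (bad G (flip c q) q').card = (bad G c q').card := by
    rw [bad_flip_nonadj G c hqq'.symm (fun h1 => h.nqq h1.symm)]
  have hfq' : Fp G (flip c q) q' := by
    have h4 := h.bq'
    unfold Fp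
    omega
  have hE1 : En G (flip (flip c p) r) + 4 = En G c := by
    have h1 := En_flip3 G c p
    have h2 := En_flip3 G (flip c p) r
    have h3 := card_bad_flip_adj_diff G c h.np.az.symm
      (by rw [h.cr, h.cp]; exact (bool_ne_not e).symm)
    have h4 := h.br
    have h5 := h.bp
    have h6 := h.np.degree G
    omega
  have hE2 : En G (flip (flip c q) q') + 4 = En G c := by
    have h1 := En_flip3 G c q
    have h2 := En_flip3 G (flip c q) q'
    have h4 := h.bq
    have h5 := h.bq'
    omega
  have hL1 : Lab3 G e (flip (flip c p) r) :=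
    lab_down3 G hG hB hc (En_flip_lt3 G c p ((h.fl p).2 (Or.inl rfl))) h.lp (Reach3.one G hfp)
  have hL2 : Lab3 G (!e) (flip (flip c q) q') :=
    lab_down3 G hG hB hc (En_flip_lt3 G c q ((h.fl q).2 (Or.inr (Or.inl rfl)))) h.lq
      (Reach3.one G hfq')
  refine ⟨p, ![q, q', r], _, _, e, hst, h.cp, h.cq, h.cq', h.cr, h.fl, h.lp, h.lq, h.lq',
    ?_, ?_, h.sum⟩
  · intro τ
    by_cases hτ : τ = e
    · rw [hτ, hS2]
      exact hE2
    · rw [bool_eq_not hτ, hS1]
      exact hE1
  · intro τ
    by_cases hτ : τ = e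
    · rw [hτ, hS2]
      exact hL2
    · rw [bool_eq_not hτ, hS1, Bool.not_not]
      exact hL1

/-! ### Tools -/

theorem Crit3.not_of_lt {c d : V → Bool} (hc : Crit3 G c) (h : En G d < En G c) :
    ¬ Crit3 G d := fun hd => by
  have := hc.En_eq G hd
  omega

/-- Two flippable vertices of different colours: not critical. -/
theorem not_crit_of_ne (hG : Deg13 G) (hB : NoBal3 G) {d : V → Bool} {u v : V}
    (hu : Fp G d u) (hv : Fp G d v) (h : d u ≠ d v) : ¬ Crit3 G d :=
  fun hd => h (hd.same G hG hB hu hv).1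

/-- A flippable vertex of degree three with three own neighbours: not critical. -/
theorem not_crit_of_three (hG : Deg13 G) (hB : NoBal3 G) {d : V → Bool} {u : V}
    (h : (bad G d u).card = 3) : ¬ Crit3 G d := by
  intro hd
  have h1 := bad_le_degree G d u
  have hu : Fp G d u := by
    unfold Fp
    rcases hG u with h2 | h2 <;> omega
  have h2 := (hd.same G hG hB hu hu).2
  rcases hG u with h3 | h3 <;> omega

/-- A critical colouring has sum two for the colour of its flippable vertices. -/
theorem Crit3.sum_eq (hG : Deg13 G) (hB : NoBal3 G) (hC : C4Free G) {d : V → Bool}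
    (hd : Crit3 G d) {v : V} (hv : Fp G d v) : sgn (d v) d = 2 := by
  obtain ⟨e, p, q, q', r, h⟩ := saddle_one3 G hG hB hC hd
  have h1 : d v = e := by
    rcases (h.fl v).1 hv with h2 | h2 | h2
    · rw [h2, h.cp]
    · rw [h2, h.cq]
    · rw [h2, h.cq']
  rw [h1]
  exact h.sum

/-- One flip between colourings of at most the critical energy which are both not critical keeps
the label. -/
theorem Crit3.lab_step (hG : Deg13 G) (hB : NoBal3 G) {c d : V → Bool} (hc : Crit3 G c)
    (v : V) (h1 : En G d ≤ En G c) (h2 : En G (flip d v) ≤ En G c) (h3 : ¬ Crit3 G d)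
    (h4 : ¬ Crit3 G (flip d v)) {s : Bool} (hd : Lab3 G s d) : Lab3 G s (flip d v) := by
  rcases lab_or3 G hG hB s (flip d v) with h | h
  · exact h
  · rcases hc.edge G hG v h1 h2 s hd h with h5 | h5
    · exact absurd h5 h3
    · exact absurd h5 h4

end Pool.Agent.BLN
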