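import Pool.Agent.BLN.Pth.LS
import Pool.Agent.BLN.LabE3
import Pool.Agent.BLN.Close

/-!
# Low relabellings of a star, and L2

`Low G h c' x l k` : both star colourings of `c'` have the right labels and energy at most `k`
above the two star colourings below the critical colouring `h`. `Low.up`, `Low.down` : one flip in
the rest. `Low.star` : a low relabelling of a star with `k = 0` is a star again (and `k < 0` is
impossible). `Fr.l2` : if `a i` has two heavy neighbours then `x` and `b i` are the only centres.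
-/

set_option autoImplicit false
set_option linter.unusedSectionVars false

namespace Pool.Agent.BLN

open Finset Pool.Agent.IVT Pool.BLE

variable {V : Type} [Fintype V] [DecidableEq V] {G : SimpleGraph V} [DecidableRel G.Adj]

/-- Both star colourings of `c'` are low (energy `k` above the level) and have the right labels. -/
def Low (G : SimpleGraph V) [DecidableRel G.Adj] (h c' : V → Bool) (x : V) (l : Fin 3 → V)
    (k : ℤ) : Prop :=
  ∀ t, (En G (starCol c' x l t) : ℤ) + 4 ≤ En G h + k ∧ Lab3 G (!t) (starCol c' x l t)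

theorem starCol_rest {c : V → Bool} {x : V} {l : Fin 3 → V} {v : V} (hv : v ∈ rest x l)
    (t : Bool) : starCol c x l t v = c v := by
  have h1 := (mem_rest.1 hv).1
  have h2 : ¬ ∃ i, v = l i := fun ⟨i, h⟩ => (mem_rest.1 hv).2 i h
  simp [starCol, h1, h2]

theorem starCol_flip {c : V → Bool} {x : V} {l : Fin 3 → V} {v : V} (hv : v ∈ rest x l)
    (t : Bool) : starCol (flip c v) x l t = flip (starCol c x l t) v := by
  have hv1 := (mem_rest.1 hv).1
  have hv2 := (mem_rest.1 hv).2
  funext w
  by_cases h1 : w = v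
  · subst h1
    rw [starCol_rest hv, flip_same, flip_same, starCol_rest hv]
  · rw [flip_ne _ h1]
    simp only [starCol]
    rw [flip_ne _ h1]

section

variable {h c c' : V → Bool} {x : V} {l a b : Fin 3 → V} {k : ℤ}

theorem LS.low0 (hs : LS G c x l a b) : ∃ h, Crit3 G h ∧ Low G h c x l 0 := by
  obtain ⟨d, hd, he⟩ := hs.en
  refine ⟨d, hd, fun t => ⟨?_, ?_⟩⟩
  · have := he t
    push_cast [← this]
    omega
  · have hf := hs.fr
    cases t
    · exact hf.lab
    · have h1 := hf.lab_gm
      have h2 : gm (starCol c x l false) x l = starCol c x l true := by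
        unfold gm
        rw [hs.star.starCol_eq true]
        funext v
        rcases hs.star.cases v with rfl | ⟨j, rfl⟩ | hv
        · rw [sc_x, sc_x]
        · rw [hf.star.sc_l, hs.star.sc_l]
          rfl
        · rw [sc_rest hv, sc_rest hv, starCol_rest hv]
      rw [h2] at h1
      exact h1

/-- A flip of a pendant or of a vertex with an own neighbour in the rest. -/
theorem Low.up (hG : Deg13 G) (hB : NoBal3 G) (hh : Crit3 G h) (hL : Low G h c' x l k)
    (hk : k < 2) {v : V} (hv : v ∈ rest x l)
    (h1 : G.degree v = 1 ∨ ∃ m ∈ rest x l, G.Adj v m ∧ c' m = c' v) :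
    Low G h (flip c' v) x l (k + 2) := by
  intro t
  obtain ⟨e1, L1⟩ := hL t
  rw [starCol_flip hv]
  have e2 : En G (flip (starCol c' x l t) v) ≤ En G (starCol c' x l t) + 2 := by
    refine en_up hG ?_
    rcases h1 with h2 | ⟨m, hm, h2, h3⟩
    · exact Or.inl h2
    · exact Or.inr (own_ge_one h2 (by rw [starCol_rest hm, starCol_rest hv, h3]))
  refine ⟨by omega, ?_⟩
  exact lab_low hG hB hh (by omega) (by omega) L1

/-- A flip of a vertex with two own neighbours in the rest, or of a pendant with one. -/
theorem Low.down (hG : Deg13 G) (hB : NoBal3 G) (hh : Crit3 G h) (hL : Low G h c' x l k)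
    (hk : k < 4) {v : V} (hv : v ∈ rest x l)
    (h1 : (G.degree v = 1 ∧ ∃ m ∈ rest x l, G.Adj v m ∧ c' m = c' v) ∨
      ∃ m ∈ rest x l, ∃ m' ∈ rest x l, m ≠ m' ∧ G.Adj v m ∧ G.Adj v m' ∧ c' m = c' v ∧
        c' m' = c' v) :
    Low G h (flip c' v) x l (k - 2) := by
  intro t
  obtain ⟨e1, L1⟩ := hL t
  rw [starCol_flip hv]
  have e2 : En G (flip (starCol c' x l t) v) + 2 ≤ En G (starCol c' x l t) := by
    refine en_down hG ?_
    rcases h1 with ⟨h2, m, hm, h3, h4⟩ | ⟨m, hm, m', hm', hne, h2, h3, h4, h5⟩
    · exact Or.inr ⟨h2, own_ge_one h3 (by rw [starCol_rest hm, starCol_rest hv, h4])⟩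
    · exact Or.inl (own_ge_two h2 h3 hne (by rw [starCol_rest hm, starCol_rest hv, h4])
        (by rw [starCol_rest hm', starCol_rest hv, h5]))
  refine ⟨by omega, ?_⟩
  exact lab_low hG hB hh (by omega) (by omega) L1

/-- A low relabelling with the colours of the specials is a star again. -/
theorem Low.star (hG : Deg13 G) (hB : NoBal3 G) (hC : C4Free G) (st : Star3 G c x l a b)
    (hh : Crit3 G h) (hL : Low G h c' x l k) (hk : k ≤ 0)
    (ca : ∀ i, a i ≠ x → c' (a i) = true) (cb : ∀ i, b i ≠ x → c' (b i) = false) :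
    k = 0 ∧ LS G c' x l a b := by
  have e1 := (hL true).1
  obtain ⟨st', h2⟩ := st.of_lab hG hB hC hh ca cb (by omega) (fun t => (hL t).2)
  have hk0 : k = 0 := by
    omega
  refine ⟨hk0, st', h, hh, fun t => ?_⟩
  have h3 := st'.en_sc t (fun _ => !t)
  have h4 := st'.en_sc true (fun _ => false)
  have h5 : nm t (fun _ => !t) = 0 := by cases t <;> decide
  have h6 : nm true (fun _ : Fin 3 => false) = 0 := by decide
  rw [h5] at h3
  rw [h6] at h4
  rw [st'.starCol_eq] at h2 ⊢
  simp only [Bool.not_true] at h2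
  push_cast at h3 h4
  omega

/-- A vertex of colour `false` other than the centre lies in the rest. -/
theorem Fr.rest_of_false {g : V → Bool} (hf : Fr G g x l a b) {v : V} (gv : g v = false)
    (hne : v ≠ x) : v ∈ rest x l := by
  rw [mem_rest]
  refine ⟨hne, fun i h1 => ?_⟩
  rw [h1, hf.gl] at gv
  exact absurd gv (by decide)

/-- A vertex of colour `true` not adjacent to the centre lies in the rest. -/
theorem Fr.rest_of_true {g : V → Bool} (hf : Fr G g x l a b) {v : V} (gv : g v = true)
    (hna : ¬ G.Adj x v) : v ∈ rest x l := by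
  rw [mem_rest]
  refine ⟨?_, fun i h1 => ?_⟩
  · rintro rfl
    rw [hf.gx] at gv
    exact absurd gv (by decide)
  · rw [h1] at hna
    exact hna (hf.star.l_adj i)

/-- A heavy vertex is not a centre. -/
theorem Cen.not_heavy {g : V → Bool} {y : V} (hy : Cen G g y) : ¬ Heavy G g y := by
  rintro (h1 | h1)
  · have := hy.deg
    omega
  · obtain ⟨m, hm⟩ := Finset.card_pos.1 h1
    rw [mem_bad] at hm
    rw [hy.nbr hm.1, hy.gfalse] at hm
    exact absurd hm.2 (by decide)

/-- A heavy vertex: degree one or an own neighbour. -/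
theorem Heavy.cases {g : V → Bool} {n : V} (h : Heavy G g n) :
    G.degree n = 1 ∨ ∃ m, G.Adj n m ∧ g m = g n := by
  rcases h with h1 | h1
  · exact Or.inl h1
  · obtain ⟨m, hm⟩ := Finset.card_pos.1 h1
    exact Or.inr ⟨m, (mem_bad G g n m).1 hm⟩

/-- **L2.** If `a i` has two heavy neighbours then `x` and `b i` are the only centres. -/
theorem Fr.l2 (hG : Deg13 G) (hB : NoBal3 G) (hC : C4Free G) {g : V → Bool}
    (hf : Fr G g x l a b) {i : Fin 3} (hi : a i ≠ x) {n n' : V} (hn : G.Adj (a i) n)
    (hn' : G.Adj (a i) n') (hne : n ≠ n') (hnl : n ≠ l i) (hnl' : n' ≠ l i)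
    (kn : Heavy G g n) (kn' : Heavy G g n') {y : V} (hy : Cen G g y) : y = x ∨ y = b i := by
  by_contra hcon
  push Not at hcon
  obtain ⟨hyx, hyb⟩ := hcon
  have gy := hy.gfalse
  have ga : g (a i) = true := hf.star.ca i hi
  have gn : g n = false := by
    cases h1 : g n
    · rfl
    · exact absurd (hf.a_true i hi hn h1) hnl
  have gn' : g n' = false := by
    cases h1 : g n'
    · rfl
    · exact absurd (hf.a_true i hi hn' h1) hnl'
  have hx : ∀ v, G.Adj (a i) v → v ≠ x := by
    rintro v hv rfl
    exact hf.x_ne_nbr_a i hi hv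
  have rn : n ∈ rest x l := hf.rest_of_false gn (hx n hn)
  have rn' : n' ∈ rest x l := hf.rest_of_false gn' (hx n' hn')
  have yl : ¬ G.Adj y (l i) := by
    intro h1
    exact hyb (hf.l_false i h1.symm gy hyx).1
  have ny : n ≠ y := by
    rintro rfl
    exact hy.not_heavy kn
  have ny' : n' ≠ y := by
    rintro rfl
    exact hy.not_heavy kn'
  have nba : Nb G (a i) (l i) n n' :=
    nb_of_three3 G (hf.star.deg_a i hi) (hf.nb_l i hi).ay.symm hn hn' hnl.symm hnl'.symm hne
  have ya : ¬ G.Adj y (a i) := by
    intro h1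
    rcases (nba.adj y).1 h1.symm with h2 | h2 | h2
    · rw [h2, hf.gl] at gy
      exact absurd gy (by decide)
    · exact ny h2.symm
    · exact ny' h2.symm
  -- `n` and `n'` are not adjacent
  have hnn : ¬ G.Adj n n' := by
    intro h1
    have hc : Cen G (du g x l) (a i) := hf.e3 hG hB hC hi hn rn kn
    have g1 : du g x l n' = true := by rw [du_rest rn', gn']; rfl
    rcases hc.leaf hn with h2 | ⟨m, t, hnb, h2, h3, -, -, -, h4⟩
    · have h5 := pend_adj G h2 hn.symm n'
      have h6 := h5.1 h1
      rw [h6, ga] at gn'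
      exact absurd gn' (by decide)
    · rcases (hnb.adj n').1 h1 with h5 | h5 | h5
      · rw [h5, ga] at gn'
        exact absurd gn' (by decide)
      · rw [h5] at hn'
        exact h4 hn'
      · rw [h5] at g1
        rw [h3] at g1
        exact absurd g1 (by decide)
  obtain ⟨l', a', b', f⟩ := hy
  obtain ⟨c, hc, L0⟩ := f.ls.low0
  have qn : n ∈ rest y l' := f.rest_of_false gn ny
  have qn' : n' ∈ rest y l' := f.rest_of_false gn' ny'
  have qa : a i ∈ rest y l' := f.rest_of_true ga ya
  have ql : l i ∈ rest y l' := f.rest_of_true (hf.gl i) yl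
  have own : ∀ v, g v = false → v ≠ y → Heavy G g v →
      G.degree v = 1 ∨ ∃ m ∈ rest y l', G.Adj v m ∧ g m = false := by
    intro v gv hv hk
    rcases hk.cases with h1 | ⟨m, h1, h2⟩
    · exact Or.inl h1
    · right
      rw [gv] at h2
      refine ⟨m, f.rest_of_false h2 ?_, h1, h2⟩
      rintro rfl
      rw [f.nbr h1.symm] at gv
      exact absurd gv (by decide)
  have na : n ≠ a i := hn.ne.symm
  have na' : n' ≠ a i := hn'.ne.symm
  have la : l i ≠ a i := (hf.nb_l i hi).ay.ne
  -- first flip
  have L1 := L0.up hG hB hc (by norm_num) qn (by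
    rcases own n gn ny kn with h1 | ⟨m, h1, h2, h3⟩
    · exact Or.inl h1
    · exact Or.inr ⟨m, h1, h2, by rw [h3, gn]⟩)
  -- second flip
  have L2 := L1.down hG hB hc (by norm_num) qa (Or.inr ⟨n, qn, l i, ql, hnl, hn,
    (hf.nb_l i hi).ay.symm, by rw [flip_same, flip_ne _ na.symm, gn, ga]; rfl,
    by rw [flip_ne _ hnl.symm, flip_ne _ na.symm, hf.gl, ga]⟩)
  -- third flip
  have v1 : flip (flip g n) (a i) n' = false := by
    rw [flip_ne _ na', flip_ne _ hne.symm, gn']
  have v2 : flip (flip g n) (a i) (a i) = false := by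
    rw [flip_same, flip_ne _ na.symm, ga]; rfl
  have L3 := L2.down hG hB hc (by norm_num) qn' (by
    rcases own n' gn' ny' kn' with h1 | ⟨m, h1, h2, h3⟩
    · exact Or.inl ⟨h1, a i, qa, hn'.symm, by rw [v1, v2]⟩
    · refine Or.inr ⟨a i, qa, m, h1, ?_, hn'.symm, h2, by rw [v1, v2], ?_⟩
      · rintro rfl
        rw [ga] at h3
        exact absurd h3 (by decide)
      · have m1 : m ≠ a i := by
          rintro rfl
          rw [ga] at h3
          exact absurd h3 (by decide)
        have m2 : m ≠ n := by
          rintro rfl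
          exact hnn h2.symm
        rw [v1, flip_ne _ m1, flip_ne _ m2, h3])
  have val : ∀ v, v ≠ n → v ≠ a i → v ≠ n' → flip (flip (flip g n) (a i)) n' v = g v := by
    intro v h1 h2 h3
    rw [flip_ne _ h3, flip_ne _ h2, flip_ne _ h1]
  have hk := (L3.star hG hB hC f.star hc (by norm_num) (fun p hp => ?_) (fun p hp => ?_)).1
  · norm_num at hk
  · have g1 := f.star.ca p hp
    rw [val, g1]
    · rintro h1
      rw [h1, gn] at g1
      exact absurd g1 (by decide)
    · intro h1
      have h2 : G.Adj (a i) (l' p) := by rw [← h1]; exact (f.nb_l p hp).ay.symm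
      have h3 := hf.a_true i hi h2 (f.gl p)
      exact yl (by rw [← h3]; exact f.star.l_adj p)
    · rintro h1
      rw [h1, gn'] at g1
      exact absurd g1 (by decide)
  · have g1 := f.star.cb p hp
    have hh : ¬ Heavy G g (b' p) := by
      rintro (h1 | h1)
      · have := f.star.deg_b p hp
        omega
      · obtain ⟨m, hm⟩ := Finset.card_pos.1 h1
        rw [mem_bad, g1] at hm
        rw [f.b_all p hp hm.1] at hm
        exact absurd hm.2 (by decide)
    rw [val, g1]
    · rintro h1
      rw [h1] at hh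
      exact hh kn
    · rintro h1
      rw [h1, ga] at g1
      exact absurd g1 (by decide)
    · rintro h1
      rw [h1] at hh
      exact hh kn'

end

end Pool.Agent.BLN
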