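import Pool.Agent.BLN.Defs

set_option autoImplicit false

/-!
Labels: `Lab G s c` says that a valid colouring with `sgn s ≥ 2` is reached from `c`.
-/

namespace Pool.Agent.BLN

open Finset Pool.Agent.IVT

variable {V : Type} [Fintype V] [DecidableEq V] (G : SimpleGraph V) [DecidableRel G.Adj]

/-- A valid colouring in which colour `s` has at least two more vertices is reached from `c`. -/
def Lab (s : Bool) (c : V → Bool) : Prop := ∃ g, Reach G c g ∧ Valid G g ∧ 2 ≤ sgn s g

theorem lab_true (c : V → Bool) : Lab G true c ↔ Pos G 2 c := Iff.rfl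

theorem lab_false (c : V → Bool) : Lab G false c ↔ Neg G 2 c := by
  constructor
  · rintro ⟨g, h1, h2, h3⟩
    refine ⟨g, h1, h2, ?_⟩
    have : sgn false g = - sgn true g := sgn_not true g
    omega
  · rintro ⟨g, h1, h2, h3⟩
    refine ⟨g, h1, h2, ?_⟩
    have : sgn false g = - sgn true g := sgn_not true g
    omega

theorem Lab.of_reach {s : Bool} {c d : V → Bool} (hd : Lab G s d) (h : Reach G c d) :
    Lab G s c := by
  obtain ⟨g, h1, h2, h3⟩ := hd
  exact ⟨g, h.trans G h1, h2, h3⟩

/-- No valid colouring is balanced. -/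
def NoBal : Prop := ∀ g : V → Bool, Valid G g → sgn true g ≠ 0

omit [DecidableEq V] in
theorem even_sgn (hG : G.IsRegularOfDegree 3) (g : V → Bool) : Even (sgn true g) := by
  have h1 : Even (Fintype.card V) := by
    have h2 : ∑ v : V, G.degree v = 2 * G.edgeFinset.card := G.sum_degrees_eq_twice_card_edges
    have h3 : ∑ v : V, G.degree v = Fintype.card V * 3 := by
      rw [Finset.sum_congr rfl (fun v _ => hG v)]
      simp [Finset.card_univ]
    rw [h3] at h2
    rcases Nat.even_or_odd (Fintype.card V) with h | ⟨k, hk⟩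
    · exact h
    · omega
  have h2 : sgn true g = 2 * (∑ v : V, (if g v = true then (1 : ℤ) else 0)) - Fintype.card V := by
    unfold sgn
    rw [Finset.mul_sum]
    have : (Fintype.card V : ℤ) = ∑ v : V, (1 : ℤ) := by simp
    rw [this, ← Finset.sum_sub_distrib]
    apply Finset.sum_congr rfl
    intro v _
    cases g v <;> simp
  rw [h2]
  exact (even_two_mul _).sub (by exact_mod_cast h1)

omit [DecidableEq V] in
theorem NoBal.pm (hG : G.IsRegularOfDegree 3) (hB : NoBal G) :
    ∀ g, Valid G g → (2 : ℤ) ≤ sgn true g ∨ sgn true g ≤ -2 := by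
  intro g hg
  have h1 := hB g hg
  obtain ⟨k, hk⟩ := even_sgn G hG g
  omega

theorem lab_or (hG : G.IsRegularOfDegree 3) (hB : NoBal G) (s : Bool) (c : V → Bool) :
    Lab G s c ∨ Lab G (!s) c := by
  rcases pos_or_neg G hG (hB.pm G hG) c with h | h
  · cases s
    · exact Or.inr ((lab_true G c).2 h)
    · exact Or.inl ((lab_true G c).2 h)
  · cases s
    · exact Or.inl ((lab_false G c).2 h)
    · exact Or.inr ((lab_false G c).2 h)

theorem crit_lab {c : V → Bool} (hc : Crit G 2 c) (s : Bool) : Lab G s c := by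
  cases s
  · exact (lab_false G c).2 hc.neg
  · exact (lab_true G c).2 hc.pos

theorem crit_min {c d : V → Bool} (hc : Crit G 2 c) (h : En G d < En G c) (s : Bool)
    (h1 : Lab G s d) : ¬ Lab G (!s) d := by
  intro h2
  apply hc.min d h
  cases s
  · exact ⟨(lab_true G d).1 h2, (lab_false G d).1 h1⟩
  · exact ⟨(lab_true G d).1 h1, (lab_false G d).1 h2⟩

/-- An ambiguous colouring of at most the energy of a critical one is critical. -/
theorem crit_of {c d : V → Bool} (hc : Crit G 2 c) (hE : En G d ≤ En G c) (s : Bool)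
    (h1 : Lab G s d) (h2 : Lab G (!s) d) : Crit G 2 d := by
  have h3 : Pos G 2 d ∧ Neg G 2 d := by
    cases s
    · exact ⟨(lab_true G d).1 h2, (lab_false G d).1 h1⟩
    · exact ⟨(lab_true G d).1 h1, (lab_false G d).1 h2⟩
  refine ⟨h3.1, h3.2, ?_⟩
  intro d' hd'
  exact hc.min d' (lt_of_lt_of_le hd' hE)

theorem crit_En {c d : V → Bool} (hc : Crit G 2 c) (hd : Crit G 2 d) : En G c = En G d := by
  rcases lt_trichotomy (En G c) (En G d) with h | h | h
  · exact absurd ⟨hc.pos, hc.neg⟩ (hd.min c h)
  · exact h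
  · exact absurd ⟨hd.pos, hd.neg⟩ (hc.min d h)

/-- Below the critical energy all colourings reached from `d` have the label of `d`. -/
theorem lab_down (hG : G.IsRegularOfDegree 3) (hB : NoBal G) {c d d' : V → Bool}
    (hc : Crit G 2 c) (hE : En G d < En G c) {s : Bool} (h1 : Lab G s d) (h : Reach G d d') :
    Lab G s d' := by
  rcases lab_or G hG hB s d' with h2 | h2
  · exact h2
  · exact absurd (h2.of_reach G h) (crit_min G hc hE s h1)

theorem crit_adj (hG : G.IsRegularOfDegree 3) (hB : NoBal G) {c : V → Bool} (hc : Crit G 2 c)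
    (s : Bool) {p q : V} (hp : 2 ≤ (bad G c p).card) (hq : 2 ≤ (bad G c q).card)
    (hP : Lab G s (flip c p)) (hN : Lab G (!s) (flip c q)) :
    G.Adj p q ∧ c p = c q ∧ (bad G c p).card = 2 ∧ (bad G c q).card = 2 := by
  cases s
  · have h := hc.adj G hG (hB.pm G hG) hq hp ((lab_true G _).1 hN) ((lab_false G _).1 hP)
    exact ⟨h.1.symm, h.2.1.symm, h.2.2.2, h.2.2.1⟩
  · exact hc.adj G hG (hB.pm G hG) hp hq ((lab_true G _).1 hP) ((lab_false G _).1 hN)

theorem crit_exists (hG : G.IsRegularOfDegree 3) (hB : NoBal G) {c : V → Bool} (hc : Crit G 2 c)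
    (s : Bool) : ∃ p, 2 ≤ (bad G c p).card ∧ Lab G s (flip c p) := by
  cases s
  · obtain ⟨p, h1, h2⟩ := hc.exists_neg G (by norm_num)
    exact ⟨p, h1, (lab_false G _).2 h2⟩
  · exact hc.exists_pos G (by norm_num)

/-- All flippable vertices of a critical colouring have the same colour and exactly two
neighbours of their colour. -/
theorem crit_same (hG : G.IsRegularOfDegree 3) (hB : NoBal G) {c : V → Bool} (hc : Crit G 2 c)
    {u v : V} (hu : 2 ≤ (bad G c u).card) (hv : 2 ≤ (bad G c v).card) :
    c u = c v ∧ (bad G c u).card = 2 := by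
  obtain ⟨p, hp1, hp2⟩ := crit_exists G hG hB hc true
  obtain ⟨q, hq1, hq2⟩ := crit_exists G hG hB hc false
  have hpq := crit_adj G hG hB hc true hp1 hq1 hp2 hq2
  have key : ∀ w, 2 ≤ (bad G c w).card → c w = c p ∧ (bad G c w).card = 2 := by
    intro w hw
    rcases lab_or G hG hB true (flip c w) with h | h
    · have h1 := crit_adj G hG hB hc true hw hq1 h hq2
      exact ⟨h1.2.1.trans hpq.2.1.symm, h1.2.2.1⟩
    · have h1 := crit_adj G hG hB hc true hp1 hw hp2 h
      exact ⟨h1.2.1.symm, h1.2.2.2⟩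
  exact ⟨(key u hu).1.trans (key v hv).1.symm, (key u hu).2⟩

/-- Two colourings which differ in one vertex, of energy at most the critical one, with different
labels: one of them is critical. -/
theorem crit_edge (hG : G.IsRegularOfDegree 3) {c d : V → Bool} (hc : Crit G 2 c)
    (v : V) (h1 : En G d ≤ En G c) (h2 : En G (flip d v) ≤ En G c) (s : Bool)
    (hd : Lab G s d) (hd' : Lab G (!s) (flip d v)) : Crit G 2 d ∨ Crit G 2 (flip d v) := by
  rcases cmp G hG d v with h | h
  · exact Or.inl (crit_of G hc h1 s hd (hd'.of_reach G h))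
  · exact Or.inr (crit_of G hc h2 s (hd.of_reach G h) hd')

/-- There is a critical colouring if no valid colouring is balanced. -/
theorem exists_crit_two (hG : G.IsRegularOfDegree 3) (hB : NoBal G) : ∃ c, Crit G 2 c :=
  exists_crit G hG (by norm_num) (hB.pm G hG)

theorem lab_lt (hG : G.IsRegularOfDegree 3) (s : Bool) {c : V → Bool} (h : Lab G s c)
    (hs : sgn s c = 0) : ∃ v, 2 ≤ (bad G c v).card ∧ c v = !s := by
  obtain ⟨g, h1, _, h3⟩ := h
  have h4 := pot_reach G hG s h1
  have h5 : 0 < (Fl G (!s) c).card := by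
    rcases Nat.eq_zero_or_pos (Fl G (!s) c).card with h | h
    · rw [h] at h4
      push_cast at h4
      omega
    · exact h
  obtain ⟨v, hv⟩ := Finset.card_pos.1 h5
  simp only [Fl, Finset.mem_filter, Finset.mem_univ, true_and] at hv
  exact ⟨v, hv.1, hv.2⟩

end Pool.Agent.BLN
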