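import Pool.Agent.BLN.CenB
import Pool.Agent.BLN.LabE3
import Pool.Agent.BLN.Pth.LS

/-!
# Centres without frames

`dc G g x` is the dual colouring, `Lf G g x w m t` a leaf `w` of degree three at the centre `x`
with mate `m` and third neighbour `t`, `UV G g x w` an ordinary `U` vertex of colour `false`.
The local facts (E3, G1 for specials, the neutral flip) in this language.
-/

set_option autoImplicit false
set_option linter.unusedSectionVars false

namespace Pool.Agent.BLN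

open Finset Pool.Agent.IVT Pool.BLE

variable {V : Type} [Fintype V] [DecidableEq V] {G : SimpleGraph V} [DecidableRel G.Adj]
  {g : V → Bool} {x : V}

theorem LS.g_rest' {c : V → Bool} {l a b : Fin 3 → V} (h : LS G c x l a b) {v : V}
    (hv : v ∈ rest x l) : starCol c x l false v = c v := by
  rw [h.star.starCol_eq, sc_rest hv]

theorem LS.g_l' {c : V → Bool} {l a b : Fin 3 → V} (h : LS G c x l a b) (i : Fin 3) :
    starCol c x l false (l i) = true := by
  rw [h.star.starCol_eq, h.star.sc_l]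
  rfl

theorem LS.g_x' (c : V → Bool) (x : V) (l : Fin 3 → V) : starCol c x l false x = false := by
  simp [starCol]

/-- The dual colouring at `x`. -/
def dc (G : SimpleGraph V) [DecidableRel G.Adj] (g : V → Bool) (x : V) : V → Bool :=
  fun v => if v = x ∨ G.Adj x v then g v else !g v

theorem dc_dc (g : V → Bool) (x : V) : dc G (dc G g x) x = g := by
  funext v
  unfold dc
  split_ifs <;> simp

theorem dc_near {v : V} (h : v = x ∨ G.Adj x v) : dc G g x v = g v := by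
  unfold dc
  rw [if_pos h]

theorem dc_far {v : V} (h1 : v ≠ x) (h2 : ¬ G.Adj x v) : dc G g x v = !g v := by
  unfold dc
  rw [if_neg (by tauto)]

theorem Fr.dc_eq {l a b : Fin 3 → V} (h : Fr G g x l a b) : dc G g x = du g x l := by
  funext v
  rcases h.star.cases v with rfl | ⟨j, rfl⟩ | hv
  · rw [du_x, dc_near (Or.inl rfl), h.gx]
  · rw [h.du_l, dc_near (Or.inr (h.star.l_adj j)), h.gl]
  · have h1 := mem_rest.1 hv
    rw [du_rest hv, dc_far h1.1]
    intro h2
    obtain ⟨i, hi⟩ := (h.star.nx v).1 h2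
    exact h1.2 i hi

/-- A leaf of degree three. -/
structure Lf (G : SimpleGraph V) (g : V → Bool) (x w m t : V) : Prop where
  ax : G.Adj x w
  nb : Nb G w x m t
  gm : g m = true
  gt : g t = false

theorem Cen.lf (C : Cen G g x) {w : V} (hw : G.Adj x w) :
    G.degree w = 1 ∨ ∃ m t, Lf G g x w m t := by
  rcases C.leaf hw with h1 | ⟨m, t, hnb, h1, h2, -⟩
  · exact Or.inl h1
  · exact Or.inr ⟨m, t, hw, hnb, h1, h2⟩

theorem Lf.frame {w m t : V} (L : Lf G g x w m t) (C : Cen G g x) :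
    ∃ l a b, ∃ i : Fin 3, Fr G g x l a b ∧ l i = w ∧ a i = m ∧ b i = t ∧ a i ≠ x := by
  obtain ⟨l, a, b, h⟩ := C
  obtain ⟨i, hi⟩ := (h.star.nx w).1 L.ax
  refine ⟨l, a, b, i, h, hi.symm, ?_⟩
  have hi' : a i ≠ x := by
    intro h1
    have h2 := h.star.deg_pl i h1
    have h3 := L.nb.degree G
    rw [hi] at h3
    omega
  have h1 : m = a i := h.l_true i hi' (by rw [← hi]; exact L.nb.ay) L.gm
  have h2 : t = b i := (h.l_false i (by rw [← hi]; exact L.nb.az) L.gt L.nb.xz.symm).1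
  exact ⟨h1.symm, h2.symm, hi'⟩

theorem Cen.dual (C : Cen G g x) : Cen G (dc G g x) x := by
  obtain ⟨l, a, b, h⟩ := C
  rw [h.dc_eq]
  exact ⟨l, b, a, h.dual⟩

theorem Cen.nadj2 (C : Cen G g x) {u v : V} (hu : G.Adj x u) (hv : G.Adj x v) : ¬ G.Adj u v := by
  obtain ⟨l, a, b, h⟩ := C
  obtain ⟨i, rfl⟩ := (h.star.nx u).1 hu
  obtain ⟨j, rfl⟩ := (h.star.nx v).1 hv
  exact h.star.l_nadj i j

theorem Cen.nbg (C : Cen G g x) {w : V} (hw : G.Adj x w) : g w = true := by
  obtain ⟨l, a, b, h⟩ := C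
  exact h.nbr hw

section

variable {w m t : V}

theorem Lf.nxm (L : Lf G g x w m t) (C : Cen G g x) : ¬ G.Adj x m := fun h =>
  C.nadj2 L.ax h L.nb.ay

theorem Lf.nxt (L : Lf G g x w m t) (C : Cen G g x) : ¬ G.Adj x t := fun h =>
  C.nadj2 L.ax h L.nb.az

theorem Lf.gw (L : Lf G g x w m t) (C : Cen G g x) : g w = true := C.nbg L.ax

theorem Lf.dm (L : Lf G g x w m t) (C : Cen G g x) : G.degree m = 3 := by
  obtain ⟨l, a, b, i, h, -, rfl, -, hi⟩ := L.frame C
  exact h.star.deg_a i hi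

theorem Lf.dt (L : Lf G g x w m t) (C : Cen G g x) : G.degree t = 3 := by
  obtain ⟨l, a, b, i, h, -, -, rfl, hi⟩ := L.frame C
  exact h.star.deg_b i (h.b_ne hi)

theorem Lf.m_false (L : Lf G g x w m t) (C : Cen G g x) {v : V} (hv : G.Adj m v) (hne : v ≠ w) :
    g v = false := by
  obtain ⟨l, a, b, i, h, rfl, rfl, -, hi⟩ := L.frame C
  cases h1 : g v
  · rfl
  · exact absurd (h.a_true i hi hv h1) hne

theorem Lf.t_true (L : Lf G g x w m t) (C : Cen G g x) {v : V} (hv : G.Adj t v) :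
    g v = true := by
  obtain ⟨l, a, b, i, h, -, -, rfl, hi⟩ := L.frame C
  exact h.b_all i (h.b_ne hi) hv

theorem Lf.dual (L : Lf G g x w m t) (C : Cen G g x) : Lf G (dc G g x) x w t m where
  ax := L.ax
  nb := L.nb.swap
  gm := by rw [dc_far L.nb.xz.symm (L.nxt C), L.gt]; rfl
  gt := by rw [dc_far L.nb.xy.symm (L.nxm C), L.gm]; rfl

end

section

variable {w m t : V}

/-- **E3.** -/
theorem Lf.e3 (hG : Deg13 G) (hB : NoBal3 G) (hC : C4Free G) (L : Lf G g x w m t)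
    (C : Cen G g x) {y : V} (hy : G.Adj m y) (hne : y ≠ w)
    (hh : G.degree y = 1 ∨ ∃ z, G.Adj y z ∧ g z = false) : Cen G (dc G g x) m := by
  have gy := L.m_false C hy hne
  obtain ⟨l, a, b, i, h, rfl, rfl, -, hi⟩ := L.frame C
  rw [h.dc_eq]
  refine h.e3 hG hB hC hi hy ?_ ?_
  · rcases h.star.cases y with h1 | ⟨j, h1⟩ | h1
    · exfalso
      rw [h1] at hy
      exact h.x_ne_nbr_a i hi hy
    · rw [h1, h.gl] at gy
      exact absurd gy (by decide)
    · exact h1
  · rcases hh with h1 | ⟨z, h1, h2⟩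
    · exact Or.inl h1
    · exact Or.inr (own_ge_one h1 (by rw [h2, gy]))

/-- **E3**, dual. -/
theorem Lf.e3' (hG : Deg13 G) (hB : NoBal3 G) (hC : C4Free G) (L : Lf G g x w m t)
    (C : Cen G g x) {y : V} (hy : G.Adj t y) (hne : y ≠ w)
    (hh : G.degree y = 1 ∨ ∃ z, G.Adj y z ∧ g z = true ∧ ¬ G.Adj x z) : Cen G g t := by
  have h1 := (L.dual C).e3 hG hB hC C.dual hy hne ?_
  · rwa [dc_dc] at h1
  · rcases hh with h2 | ⟨z, h2, h3, h4⟩
    · exact Or.inl h2
    · refine Or.inr ⟨z, h2, ?_⟩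
      rw [dc_far _ h4, h3]
      · rfl
      · rintro rfl
        rw [C.gfalse] at h3
        exact absurd h3 (by decide)

/-- A special next to a special of another index whose other neighbour has no own neighbours. -/
theorem Lf.cb (hG : Deg13 G) (hB : NoBal3 G) (hC : C4Free G) (L : Lf G g x w m t)
    (C : Cen G g x) {w' m' t' y : V} (L' : Lf G g x w' m' t') (hne : w ≠ w') (hadj : G.Adj m t')
    (hy : G.Adj m y) (hyw : y ≠ w) (hyt : y ≠ t') (dy : G.degree y = 3)
    (oy : ∀ z, G.Adj y z → g z = true) : Cen G g t' := by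
  obtain ⟨l, a, b, i, h, rfl, rfl, rfl, hi⟩ := L.frame C
  obtain ⟨j, hj⟩ := (h.star.nx w').1 L'.ax
  have hj' : a j ≠ x := by
    intro h1
    have h2 := h.star.deg_pl j h1
    have h3 := L'.nb.degree G
    rw [hj] at h3
    omega
  have h2 : t' = b j := (h.l_false j (by rw [← hj]; exact L'.nb.az) L'.gt L'.nb.xz.symm).1
  subst h2
  exact h.cen_b hG hB hC hi hj' (fun h3 => hne (by rw [hj, h3])) hadj hy hyw hyt dy oy

/-- **Neutral flip.** -/
theorem Cen.nf (hG : Deg13 G) (hB : NoBal3 G) (hC : C4Free G) (C : Cen G g x) {t r : V}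
    (tx : t ≠ x) (ht : ¬ G.Adj x t) (rx : r ≠ x) (hr : ¬ G.Adj x r) (hadj : G.Adj t r)
    (hne : g t ≠ g r) (h1 : ∃ z, z ≠ x ∧ ¬ G.Adj x z ∧ G.Adj t z ∧ g z = g t)
    (h2 : G.degree r = 1 ∨ ∃ z, z ≠ x ∧ ¬ G.Adj x z ∧ G.Adj r z ∧ g z = g r) :
    Cen G (flips {t, r} g) x := by
  obtain ⟨l, a, b, h⟩ := C
  have hr' : ∀ v, v ≠ x → ¬ G.Adj x v → v ∈ rest x l := fun v h3 h4 => by
    rw [mem_rest]
    exact ⟨h3, fun i h5 => h4 (h5 ▸ h.star.l_adj i)⟩
  have own : ∀ v, (∃ z, z ≠ x ∧ ¬ G.Adj x z ∧ G.Adj v z ∧ g z = g v) →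
      1 ≤ ownIn G g (rest x l) v := by
    rintro v ⟨z, h3, h4, h5, h6⟩
    rw [ownIn]
    refine card_pos.2 ⟨z, ?_⟩
    rw [mem_filter]
    exact ⟨hr' z h3 h4, h5, h6⟩
  have h3 := h.ls.neutral hG hB hC (hr' t tx ht) (hr' r rx hr) hadj hne (own t h1) (by
    rcases h2 with h2 | h2
    · exact Or.inr h2
    · exact Or.inl (own r h2))
  have h4 := h3.fr
  refine ⟨l, a, b, ?_⟩
  convert h4 using 1
  funext v
  rcases h.star.cases v with rfl | ⟨j, rfl⟩ | hv
  · rw [LS.g_x', flips_ne, h.gx]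
    simp only [mem_insert, mem_singleton, not_or]
    exact ⟨tx.symm, rx.symm⟩
  · rw [h3.g_l' j, flips_ne, h.gl]
    simp only [mem_insert, mem_singleton, not_or]
    exact ⟨fun h5 => ht (h5 ▸ h.star.l_adj j), fun h5 => hr (h5 ▸ h.star.l_adj j)⟩
  · rw [h3.g_rest' hv]

end

end Pool.Agent.BLN
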