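import Pool.Agent.BLE.Top13

/-!
# The closure of the leaf triangles

If all neighbours of the vertices of a nonempty set `H` are pendants or lie in triangles whose
outer neighbours are in `H` again, then the graph is a bipartite cubic graph with one side blown up
to triangles (a perfect matching excludes pendants), and there is an explicit balanced valid
colouring.
-/

set_option autoImplicit false
set_option linter.unusedSectionVars false

namespace Pool.BLE

open Finset Pool.Agent.IVT Pool.Agent.BLN

variable {V : Type} [Fintype V] [DecidableEq V] {G : SimpleGraph V} [DecidableRel G.Adj]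

/-- The hypothesis on the set of hubs. -/
def TriData (G : SimpleGraph V) [DecidableRel G.Adj] (H : V → Prop) : Prop :=
  ∀ y, H y → G.degree y = 3 ∧ ∀ l, G.Adj y l → G.degree l = 1 ∨
    ∃ a b, (∀ v, G.Adj l v ↔ v = y ∨ v = a ∨ v = b) ∧ a ≠ b ∧ a ≠ y ∧ b ≠ y ∧ G.Adj a b ∧
      (∀ v, G.Adj a v → v ≠ l → v ≠ b → H v) ∧ (∀ v, G.Adj b v → v ≠ l → v ≠ a → H v)

theorem two_nbr_deg (hG : Deg13 G) {v p q : V} (hp : G.Adj v p) (hq : G.Adj v q) (hpq : p ≠ q) :
    G.degree v = 3 := by
  rcases hG v with h | h
  · exfalso
    have h1 : (G.neighborFinset v).card = 1 := h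
    rw [card_eq_one] at h1
    obtain ⟨u, hu⟩ := h1
    have h2 : p ∈ G.neighborFinset v := by rw [SimpleGraph.mem_neighborFinset]; exact hp
    have h3 : q ∈ G.neighborFinset v := by rw [SimpleGraph.mem_neighborFinset]; exact hq
    rw [hu, mem_singleton] at h2 h3
    exact hpq (h2.trans h3.symm)
  · exact h

theorem one_nbr {v p q : V} (h : G.degree v = 1) (hp : G.Adj v p) (hq : G.Adj v q) : p = q := by
  have h1 : (G.neighborFinset v).card = 1 := h
  rw [card_eq_one] at h1
  obtain ⟨u, hu⟩ := h1
  have h2 : p ∈ G.neighborFinset v := by rw [SimpleGraph.mem_neighborFinset]; exact hp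
  have h3 : q ∈ G.neighborFinset v := by rw [SimpleGraph.mem_neighborFinset]; exact hq
  rw [hu, mem_singleton] at h2 h3
  exact h2.trans h3.symm

theorem exists_third (hG : Deg13 G) {v p q : V} (hp : G.Adj v p) (hq : G.Adj v q) (hpq : p ≠ q) :
    ∃ r, G.Adj v r ∧ r ≠ p ∧ r ≠ q := by
  have h3 : (G.neighborFinset v).card = 3 := two_nbr_deg hG hp hq hpq
  have h4 : ({p, q} : Finset V).card ≤ 2 := card_le_two
  have h5 : ∃ r ∈ G.neighborFinset v, r ∉ ({p, q} : Finset V) := by
    by_contra hcon
    push Not at hcon
    have := card_le_card (show G.neighborFinset v ⊆ {p, q} from fun r hr => hcon r hr)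
    omega
  obtain ⟨r, hr, hr'⟩ := h5
  rw [SimpleGraph.mem_neighborFinset] at hr
  simp only [mem_insert, mem_singleton, not_or] at hr'
  exact ⟨r, hr, hr'.1, hr'.2⟩

/-- Neighbours of hubs are not hubs. -/
theorem TriData.nbr_not (hG : Deg13 G) (hC : C4Free G) {H : V → Prop} (hH : TriData G H) {y l : V}
    (hy : H y) (hl : G.Adj y l) : ¬ H l := by
  intro hHl
  rcases (hH y hy).2 l hl with h1 | ⟨a, b, hn, hab, hay, hby, hadj, -, -⟩
  · have := (hH l hHl).1
    omega
  · have hla : G.Adj l a := (hn a).2 (Or.inr (Or.inl rfl))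
    have hlb : G.Adj l b := (hn b).2 (Or.inr (Or.inr rfl))
    rcases (hH l hHl).2 a hla with h1 | ⟨p, q, hn', hpq, hpl, hql, hadj', -, -⟩
    · have := two_nbr_deg hG hla.symm hadj hlb.ne
      omega
    · have hb' : b = l ∨ b = p ∨ b = q := (hn' b).1 hadj
      rcases hb' with h | h | h
      · exact hlb.ne h.symm
      · -- `b = p`, the fourth vertex is `q`
        have hbq : G.Adj b q := h ▸ hadj'
        have haq : G.Adj a q := (hn' q).2 (Or.inr (Or.inr rfl))
        rcases hC l a q b hla haq hbq.symm hlb.symm with h2 | h2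
        · exact hql h2.symm
        · exact hab h2
      · have hbp : G.Adj b p := h ▸ hadj'.symm
        have hap : G.Adj a p := (hn' p).2 (Or.inr (Or.inl rfl))
        rcases hC l a p b hla hap hbp.symm hlb.symm with h2 | h2
        · exact hpl h2.symm
        · exact hab h2

/-- The structure at a vertex which is not a hub. -/
theorem TriData.other (h : Cls13 G) {H : V → Prop} (hH : TriData G H) {x : V} (hx : H x) {l : V}
    (hl : ¬ H l) : ∃ o, H o ∧ G.Adj l o ∧ (∀ w, G.Adj l w → H w → w = o) ∧
      (G.degree l = 1 ∨ ∃ a b, (∀ w, G.Adj l w ↔ w = o ∨ w = a ∨ w = b) ∧ ¬ H a ∧ ¬ H b ∧ a ≠ b ∧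
        G.Adj a b) := by
  have hG := h.deg
  have hC := h.c4
  -- every vertex is a hub or next to a hub
  have hW : ∀ v, H v ∨ ∃ y, H y ∧ G.Adj y v := by
    intro v
    have hr : G.Reachable x v := h.conn.preconnected x v
    rw [SimpleGraph.reachable_iff_reflTransGen] at hr
    induction hr with
    | refl => exact Or.inl hx
    | @tail u w _ hadj ih =>
      rcases ih with h1 | ⟨y, hy, hyu⟩
      · exact Or.inr ⟨u, h1, hadj⟩
      · rcases (hH y hy).2 u hyu with h1 | ⟨a, b, hn, hab, hay, hby, habj, ha, hb⟩
        · have : w = y := one_nbr h1 hadj hyu.symm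
          exact Or.inl (this ▸ hy)
        · have hua : G.Adj u a := (hn a).2 (Or.inr (Or.inl rfl))
          have hub : G.Adj u b := (hn b).2 (Or.inr (Or.inr rfl))
          rcases (hn w).1 hadj with rfl | rfl | rfl
          · exact Or.inl hy
          · obtain ⟨r, hr, hr1, hr2⟩ := exists_third hG hua.symm habj hub.ne
            exact Or.inr ⟨r, ha r hr hr1 hr2, hr.symm⟩
          · obtain ⟨r, hr, hr1, hr2⟩ := exists_third hG hub.symm habj.symm hua.ne
            exact Or.inr ⟨r, hb r hr hr1 hr2, hr.symm⟩
  rcases hW l with h1 | ⟨o, ho, hol⟩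
  · exact absurd h1 hl
  refine ⟨o, ho, hol.symm, ?_⟩
  rcases (hH o ho).2 l hol with h1 | ⟨a, b, hn, hab, hao, hbo, habj, ha, hb⟩
  · exact ⟨fun w hw _ => one_nbr h1 hw hol.symm, Or.inl h1⟩
  · have hla : G.Adj l a := (hn a).2 (Or.inr (Or.inl rfl))
    have hlb : G.Adj l b := (hn b).2 (Or.inr (Or.inr rfl))
    -- a triangle neighbour is not a hub
    have key : ∀ a b : V, G.Adj l a → G.Adj l b → G.Adj a b → a ≠ o → b ≠ o → a ≠ b →
        (∀ w, G.Adj l w → w = o ∨ w = a ∨ w = b) → ¬ H a := by
      intro a b hla hlb habj hao hbo hab hn2 hHa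
      rcases (hH a hHa).2 l hla.symm with h2 | ⟨p, q, hn', hpq, hpa, hqa, hpqj, -, -⟩
      · have := two_nbr_deg hG hla hlb hab
        omega
      · have h3 : G.Adj l p := (hn' p).2 (Or.inr (Or.inl rfl))
        have h4 : G.Adj l q := (hn' q).2 (Or.inr (Or.inr rfl))
        have h5 : p = o ∨ p = b := by
          rcases hn2 p h3 with h | h | h
          · exact Or.inl h
          · exact absurd h hpa
          · exact Or.inr h
        have h6 : q = o ∨ q = b := by
          rcases hn2 q h4 with h | h | h
          · exact Or.inl h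
          · exact absurd h hqa
          · exact Or.inr h
        have h7 : G.Adj o b := by
          rcases h5 with h5 | h5 <;> rcases h6 with h6 | h6
          · exact absurd (h5.trans h6.symm) hpq
          · rw [← h5, ← h6]; exact hpqj
          · rw [← h5, ← h6]; exact hpqj.symm
          · exact absurd (h5.trans h6.symm) hpq
        rcases hC l o b a hol.symm h7 habj.symm hla.symm with h8 | h8
        · exact hlb.ne h8
        · exact hao h8.symm
    have hna : ¬ H a := key a b hla hlb habj hao hbo hab fun w hw => (hn w).1 hw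
    have hnb : ¬ H b := key b a hlb hla habj.symm hbo hao (Ne.symm hab) fun w hw => by
      rcases (hn w).1 hw with h | h | h
      · exact Or.inl h
      · exact Or.inr (Or.inr h)
      · exact Or.inr (Or.inl h)
    refine ⟨fun w hw hHw => ?_, Or.inr ⟨a, b, hn, hna, hnb, hab, habj⟩⟩
    rcases (hn w).1 hw with h | h | h
    · exact h
    · exact absurd (h ▸ hHw) hna
    · exact absurd (h ▸ hHw) hnb

/-- **The closure of the leaf triangles.** -/
theorem tri_close (h : Cls13 G) (hB : NoBal3 G) {H : V → Prop} (hH : TriData G H) {x : V}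
    (hx : H x) : False := by
  classical
  have hG := h.deg
  have hC := h.c4
  obtain ⟨m, hm, hadj⟩ := h.pm
  have minj : Function.Injective m := fun u v huv => by rw [← hm u, huv, hm v]
  have oth := fun (l : V) (hl : ¬ H l) => TriData.other h hH hx hl
  -- the third vertex of the triangle
  have third : ∀ l, ¬ H l → ¬ H (m l) → ∃ t, ¬ H t ∧ H (m t) ∧ G.Adj l t ∧ t ≠ m l ∧
      ∀ w, G.Adj l w → ¬ H w → w = m l ∨ w = t := by
    intro l hl hml
    obtain ⟨o, ho, hlo, huniq, h1 | ⟨a, b, hn, hna, hnb, hab, habj⟩⟩ := oth l hl
    · exact absurd ((one_nbr h1 (hadj l) hlo) ▸ ho) hml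
    · have key : ∀ a b : V, ¬ H a → ¬ H b → a ≠ b → G.Adj a b → G.Adj l a → G.Adj l b → m l = a →
          (∀ w, G.Adj l w → w = o ∨ w = a ∨ w = b) → ∃ t, ¬ H t ∧ H (m t) ∧ G.Adj l t ∧ t ≠ m l ∧
            ∀ w, G.Adj l w → ¬ H w → w = m l ∨ w = t := by
        intro a b hna hnb hab habj hla hlb hmla hn2
        refine ⟨b, hnb, ?_, hlb, fun h' => hab (hmla ▸ h'.symm), fun w hw hHw => ?_⟩
        · obtain ⟨o', ho', hbo', -, h2 | ⟨p, q, hn', hnp, hnq, hpq, -⟩⟩ := oth b hnb
          · have := two_nbr_deg hG habj.symm hlb.symm hla.ne.symm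
            omega
          · have hpl : l = p ∨ l = q := by
              rcases (hn' l).1 hlb.symm with h3 | h3 | h3
              · exact absurd (h3 ▸ ho') hl
              · exact Or.inl h3
              · exact Or.inr h3
            have hpa : a = p ∨ a = q := by
              rcases (hn' a).1 habj.symm with h3 | h3 | h3
              · exact absurd (h3 ▸ ho') hna
              · exact Or.inl h3
              · exact Or.inr h3
            have hmb : m b ≠ l := by
              intro h3
              have : m l = b := by rw [← h3, hm]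
              exact hab (hmla ▸ this)
            have hmb' : m b ≠ a := by
              intro h3
              have h4 : m a = b := by rw [← h3, hm]
              have h5 : m a = l := by rw [← hmla, hm]
              exact hlb.ne (h5.symm.trans h4)
            rcases (hn' (m b)).1 (hadj b) with h3 | h3 | h3
            · rw [h3]; exact ho'
            · exfalso
              rcases hpl with h4 | h4
              · exact hmb (h3.trans h4.symm)
              · rcases hpa with h5 | h5
                · exact hmb' (h3.trans h5.symm)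
                · exact hla.ne (h4.trans h5.symm)
            · exfalso
              rcases hpl with h4 | h4
              · rcases hpa with h5 | h5
                · exact hla.ne (h4.trans h5.symm)
                · exact hmb' (h3.trans h5.symm)
              · exact hmb (h3.trans h4.symm)
        · rcases hn2 w hw with h3 | h3 | h3
          · exact absurd (h3 ▸ ho) hHw
          · exact Or.inl (h3.trans hmla.symm)
          · exact Or.inr h3
      have hla : G.Adj l a := (hn a).2 (Or.inr (Or.inl rfl))
      have hlb : G.Adj l b := (hn b).2 (Or.inr (Or.inr rfl))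
      rcases (hn (m l)).1 (hadj l) with h2 | h2 | h2
      · exact absurd (h2 ▸ ho) hml
      · exact key a b hna hnb hab habj hla hlb h2 fun w hw => (hn w).1 hw
      · exact key b a hnb hna (Ne.symm hab) habj.symm hlb hla h2 fun w hw => by
          rcases (hn w).1 hw with h | h | h
          · exact Or.inl h
          · exact Or.inr (Or.inr h)
          · exact Or.inr (Or.inl h)
  -- the sets
  set Hf : Finset V := univ.filter H with hHf
  set A : Finset V := univ.filter fun v => ¬ H v with hA
  set A1 : Finset V := univ.filter fun v => ¬ H v ∧ H (m v) with hA1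
  have hub : ∀ l, ∃ o, ¬ H l → H o ∧ G.Adj l o ∧ ∀ w, G.Adj l w → H w → w = o := by
    intro l
    by_cases hl : H l
    · exact ⟨l, fun h' => absurd hl h'⟩
    · obtain ⟨o, h1, h2, h3, -⟩ := oth l hl
      exact ⟨o, fun _ => ⟨h1, h2, h3⟩⟩
  choose hb hhb using hub
  have cA : A.card = 3 * Hf.card := by
    rw [card_eq_sum_card_fiberwise (f := hb) (t := Hf)]
    · rw [sum_congr rfl (g := fun _ => 3), sum_const, smul_eq_mul, mul_comm]
      intro y hy
      have hy' : H y := (mem_filter.1 hy).2
      have : A.filter (fun l => hb l = y) = G.neighborFinset y := by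
        ext l
        simp only [hA, mem_filter, mem_univ, true_and, SimpleGraph.mem_neighborFinset]
        constructor
        · rintro ⟨h1, h2⟩
          rw [← h2]
          exact (hhb l h1).2.1.symm
        · intro h1
          have h2 := hH.nbr_not hG hC hy' h1
          exact ⟨h2, ((hhb l h2).2.2 y h1.symm hy').symm⟩
      rw [this]
      exact (hH y hy').1
    · intro l hl
      have hl' : ¬ H l := by simpa [hA] using hl
      simpa [hHf] using (hhb l hl').1
  have cA1 : A1.card = Hf.card := by
    have : A1 = Hf.image m := by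
      ext l
      simp only [hA1, hHf, mem_filter, mem_univ, true_and, mem_image]
      constructor
      · rintro ⟨h1, h2⟩
        exact ⟨m l, h2, hm l⟩
      · rintro ⟨y, h1, rfl⟩
        exact ⟨hH.nbr_not hG hC h1 (hadj y), by rw [hm]; exact h1⟩
    rw [this, card_image_of_injective _ minj]
  have tex : ∀ l, ∃ t, ¬ H l → (H (m l) → t = l) ∧ (¬ H (m l) → ¬ H t ∧ H (m t) ∧ G.Adj l t) := by
    intro l
    by_cases hl : H l
    · exact ⟨l, fun h' => absurd hl h'⟩
    · by_cases hml : H (m l)
      · exact ⟨l, fun _ => ⟨fun _ => rfl, fun h' => absurd hml h'⟩⟩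
      · obtain ⟨t, h1, h2, h3, -⟩ := third l hl hml
        exact ⟨t, fun _ => ⟨fun h' => absurd h' hml, fun _ => ⟨h1, h2, h3⟩⟩⟩
  choose f hf using tex
  have fmap : ∀ l ∈ A, f l ∈ A1 := by
    intro l hl
    have hl' : ¬ H l := (mem_filter.1 hl).2
    simp only [hA1, mem_filter, mem_univ, true_and]
    by_cases hml : H (m l)
    · rw [(hf l hl').1 hml]
      exact ⟨hl', hml⟩
    · have := (hf l hl').2 hml
      exact ⟨this.1, this.2.1⟩
  -- the fibres
  have fib_sub : ∀ t ∈ A1, A.filter (fun l => f l = t) ⊆
      insert t ((G.neighborFinset t).filter fun w => ¬ H w ∧ ¬ H (m w)) := by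
    intro t _ l hl
    simp only [mem_filter, hA, mem_univ, true_and] at hl
    obtain ⟨h1, h2⟩ := hl
    simp only [mem_insert, mem_filter, SimpleGraph.mem_neighborFinset]
    by_cases hml : H (m l)
    · exact Or.inl (by rw [← h2, (hf l h1).1 hml])
    · refine Or.inr ⟨?_, h1, hml⟩
      rw [← h2]
      exact ((hf l h1).2 hml).2.2.symm
  have fib_card : ∀ t ∈ A1, (A.filter (fun l => f l = t)).card ≤ 3 := by
    intro t ht
    have ht' : ¬ H t ∧ H (m t) := (mem_filter.1 ht).2
    refine (card_le_card (fib_sub t ht)).trans ((card_insert_le _ _).trans ?_)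
    have h1 : (G.neighborFinset t).filter (fun w => ¬ H w ∧ ¬ H (m w)) ⊆
        (G.neighborFinset t).erase (m t) := by
      intro w hw
      rw [mem_filter] at hw
      refine mem_erase.2 ⟨fun h' => hw.2.1 (h' ▸ ht'.2), hw.1⟩
    have h2 := card_le_card h1
    rw [card_erase_of_mem (by rw [SimpleGraph.mem_neighborFinset]; exact hadj t)] at h2
    have h3 : (G.neighborFinset t).card = 1 ∨ (G.neighborFinset t).card = 3 := hG t
    omega
  have hsum : ∑ t ∈ A1, (A.filter (fun l => f l = t)).card = ∑ _t ∈ A1, 3 := by
    rw [← card_eq_sum_card_fiberwise (f := f) (t := A1) (fun l hl => fmap l hl), cA, sum_const,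
      smul_eq_mul, cA1, mul_comm]
  have fib3 : ∀ t ∈ A1, (A.filter (fun l => f l = t)).card = 3 :=
    (sum_eq_sum_iff_of_le fib_card).1 hsum
  -- structure of the vertices of `A1`
  have inner : ∀ t, ¬ H t → H (m t) → ∀ w, G.Adj t w → w ≠ m t → ¬ H w ∧ ¬ H (m w) := by
    intro t ht hmt w hw hwm
    have htA : t ∈ A1 := by simp [hA1, ht, hmt]
    have h1 := fib3 t htA
    have h2 := card_le_card (fib_sub t htA)
    have h3 := card_insert_le t ((G.neighborFinset t).filter fun w => ¬ H w ∧ ¬ H (m w))
    have h4 : (G.neighborFinset t).filter (fun w => ¬ H w ∧ ¬ H (m w)) ⊆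
        (G.neighborFinset t).erase (m t) := by
      intro w hw
      rw [mem_filter] at hw
      refine mem_erase.2 ⟨fun h' => hw.2.1 (h' ▸ hmt), hw.1⟩
    have h5 : ((G.neighborFinset t).erase (m t)).card ≤ 2 := by
      rw [card_erase_of_mem (by rw [SimpleGraph.mem_neighborFinset]; exact hadj t)]
      have : (G.neighborFinset t).card = 1 ∨ (G.neighborFinset t).card = 3 := hG t
      omega
    have h6 := eq_of_subset_of_card_le h4 (by omega)
    have h7 : w ∈ (G.neighborFinset t).erase (m t) :=
      mem_erase.2 ⟨hwm, by rw [SimpleGraph.mem_neighborFinset]; exact hw⟩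
    rw [← h6, mem_filter] at h7
    exact h7.2
  -- the colouring
  let c : V → Bool := fun v => decide (H v ∨ H (m v))
  have hbal : sgn true c = 0 := by
    have h1 : univ.filter (fun v => c v = true) = Hf ∪ A1 := by
      ext v
      simp only [c, hHf, hA1, mem_filter, mem_univ, true_and, mem_union, decide_eq_true_eq]
      tauto
    have h2 : Disjoint Hf A1 := by
      rw [disjoint_left]
      intro v hv hv'
      simp only [hHf, hA1, mem_filter, mem_univ, true_and] at hv hv'
      exact hv'.1 hv
    have h3 : (univ.filter (fun v => c v = true)).card = 2 * Hf.card := by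
      rw [h1, card_union_of_disjoint h2, cA1]; ring
    have h4 : Hf.card + A.card = (univ : Finset V).card := by
      rw [hHf, hA]
      exact card_filter_add_card_filter_not _
    have h5 : (univ.filter (fun v => c v = true)).card + (univ.filter (fun v => ¬ c v = true)).card
        = (univ : Finset V).card := card_filter_add_card_filter_not _
    have h6 : sgn true c = ((univ.filter (fun v => c v = true)).card : ℤ)
        - ((univ.filter (fun v => ¬ c v = true)).card : ℤ) := by
      unfold sgn
      rw [← sum_filter_add_sum_filter_not univ (fun v => c v = true)]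
      have e1 : ∑ v ∈ univ.filter (fun v => c v = true), (if c v = true then (1 : ℤ) else -1)
          = ((univ.filter (fun v => c v = true)).card : ℤ) := by
        rw [sum_congr rfl (g := fun _ => (1 : ℤ)), sum_const]
        · simp
        · intro v hv
          rw [if_pos (mem_filter.1 hv).2]
      have e2 : ∑ v ∈ univ.filter (fun v => ¬ c v = true), (if c v = true then (1 : ℤ) else -1)
          = - ((univ.filter (fun v => ¬ c v = true)).card : ℤ) := by
        rw [sum_congr rfl (g := fun _ => (-1 : ℤ)), sum_const]
        · simp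
        · intro v hv
          rw [if_neg (mem_filter.1 hv).2]
      rw [e1, e2]
      ring
    rw [h6]
    have h7 : (univ.filter (fun v => ¬ c v = true)).card = 2 * Hf.card := by omega
    rw [h3, h7]
    ring
  refine hB c ?_ hbal
  intro v
  have hcard : ∀ w, (bad G c v ⊆ {w}) → G.degree v = 3 → 2 * (bad G c v).card < G.degree v := by
    intro w hw h3
    have := card_le_card hw
    rw [card_singleton] at this
    omega
  by_cases hv : H v
  · refine hcard (m v) ?_ (hH v hv).1
    intro w hw
    rw [mem_bad] at hw
    rw [mem_singleton]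
    have h1 := hH.nbr_not hG hC hv hw.1
    have h2 : c w = true := by
      rw [hw.2]
      simp [c, hv]
    have h3 : H (m w) := by
      simp only [c, decide_eq_true_eq] at h2
      tauto
    have h4 : m w = hb w := (hhb w h1).2.2 _ (hadj w) h3
    have h5 : v = hb w := (hhb w h1).2.2 _ hw.1.symm hv
    rw [h5, ← h4, hm]
  · have hdeg : G.degree v = 3 := by
      obtain ⟨o, ho, hvo, -, h1 | ⟨a, b, hn, -, -, hab, -⟩⟩ := oth v hv
      · exfalso
        have hmv : m v = o := one_nbr h1 (hadj v) hvo
        have hvA : v ∈ A1 := by simp [hA1, hv, hmv, ho]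
        have h2 := fib3 v hvA
        have h3 := card_le_card (fib_sub v hvA)
        have h4 : (G.neighborFinset v).filter (fun w => ¬ H w ∧ ¬ H (m w)) = ∅ := by
          rw [filter_eq_empty_iff]
          intro w hw hw'
          rw [SimpleGraph.mem_neighborFinset] at hw
          exact hw'.1 ((one_nbr h1 hw hvo) ▸ ho)
        rw [h4] at h3
        simp at h3
        omega
      · exact two_nbr_deg hG ((hn a).2 (Or.inr (Or.inl rfl))) ((hn b).2 (Or.inr (Or.inr rfl))) hab
    by_cases hmv : H (m v)
    · refine hcard (m v) ?_ hdeg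
      intro w hw
      rw [mem_bad] at hw
      rw [mem_singleton]
      by_contra hne
      have h1 := inner v hv hmv w hw.1 hne
      have h2 : c w = true := by
        rw [hw.2]
        simp [c, hmv]
      simp only [c, decide_eq_true_eq] at h2
      tauto
    · refine hcard (m v) ?_ hdeg
      intro w hw
      rw [mem_bad] at hw
      rw [mem_singleton]
      have h2 : c w = false := by
        rw [hw.2]
        simp [c, hv, hmv]
      simp only [c, decide_eq_false_iff_not, not_or] at h2
      obtain ⟨t, h3, h4, -, -, h5⟩ := third v hv hmv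
      rcases h5 w hw.1 h2.1 with h6 | h6
      · exact h6
      · exact absurd (h6 ▸ h4) h2.2

end Pool.BLE
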