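import Pool.Agent.BLN.LabF
import Pool.Agent.BLN.TriClose

/-!
# No leaf triangles

The field `o` of `Loc` : a leaf `l i` of a star is not in a triangle `l i`, `a i`, `b i`.
-/

set_option autoImplicit false
set_option linter.unusedSectionVars false

namespace Pool.Agent.BLN

open Finset Pool.Agent.IVT Pool.BLE

variable {V : Type} [Fintype V] [DecidableEq V] {G : SimpleGraph V} [DecidableRel G.Adj]
  {g : V → Bool} {x : V}

/-- The two consequences of the path lemma which are used here, for all frames. -/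
structure PL (G : SimpleGraph V) [DecidableRel G.Adj] : Prop where
  /-- the `U` neighbours of a special with two `U` neighbours are centres -/
  uu : ∀ (g : V → Bool) (x : V) (l a b : Fin 3 → V), Fr G g x l a b → ∀ i w w', a i ≠ x →
    w ≠ w' → G.Adj (a i) w → G.Adj (a i) w' → IsU G g x l a b w → IsU G g x l a b w' →
    Cen G g w
  /-- the `U` neighbour of a special of a leaf triangle is a centre -/
  tu : ∀ (g : V → Bool) (x : V) (l a b : Fin 3 → V), Fr G g x l a b → ∀ i w, a i ≠ x →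
    G.Adj (a i) (b i) → G.Adj (a i) w → IsU G g x l a b w → Cen G g w

/-- An ordinary vertex without own neighbours, of colour `false`. -/
structure UV (G : SimpleGraph V) [DecidableRel G.Adj] (g : V → Bool) (x w : V) : Prop where
  gw : g w = false
  deg : G.degree w = 3
  all : ∀ z, G.Adj w z → g z = true
  far : ∀ z, G.Adj x z → ¬ G.Adj w z

theorem UV.isU {l a b : Fin 3 → V} {w : V} (h : Fr G g x l a b) (U : UV G g x w) :
    IsU G g x l a b w where
  rest := by
    rw [mem_rest]
    refine ⟨?_, fun i => ?_⟩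
    · rintro rfl
      exact U.far (l 0) (h.star.l_adj 0) (h.star.l_adj 0)
    · rintro rfl
      have := U.gw
      rw [h.gl] at this
      exact absurd this (by decide)
  deg := U.deg
  own := fun z _ hz => by
    rw [U.all z hz, U.gw]
    decide
  na := fun i h1 => by
    by_cases h2 : a i = x
    · rw [h2] at h1
      exact U.far (l 0) (h.star.l_adj 0) (h1 ▸ h.star.l_adj 0)
    · have := U.gw
      rw [h1, h.star.ca i h2] at this
      exact absurd this (by decide)
  nb := fun i h1 => by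
    by_cases h2 : a i = x
    · rw [(h.star.a_eq_iff i).1 h2] at h1
      exact U.far (l 0) (h.star.l_adj 0) (h1 ▸ h.star.l_adj 0)
    · exact U.far (l i) (h.star.l_adj i) (h1 ▸ (h.nb_l i h2).az.symm)

section

variable {w m t : V}

theorem PL.uuf (pl : PL G) (C : Cen G g x) (L : Lf G g x w m t) {y y' : V} (hne : y ≠ y')
    (hy : G.Adj m y) (hy' : G.Adj m y') (U : UV G g x y) (U' : UV G g x y') : Cen G g y := by
  obtain ⟨l, a, b, i, h, -, rfl, -, hi⟩ := L.frame C
  exact pl.uu g x l a b h i y y' hi hne hy hy' (U.isU h) (U'.isU h)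

theorem PL.tuf (pl : PL G) (C : Cen G g x) (L : Lf G g x w m t) {y : V}
    (ht : G.Adj m t) (hy : G.Adj m y) (U : UV G g x y) : Cen G g y := by
  obtain ⟨l, a, b, i, h, -, rfl, rfl, hi⟩ := L.frame C
  exact pl.tu g x l a b h i y hi ht hy (U.isU h)

/-- A vertex different from `x` has at most one neighbour adjacent to `x`. -/
theorem c4_leaf (hC : C4Free G) {v z z' : V} (hv : v ≠ x) (h1 : G.Adj x z) (h2 : G.Adj v z)
    (h3 : G.Adj x z') (h4 : G.Adj v z') : z = z' :=
  hC.uniq (Ne.symm hv) h1 h2.symm h3 h4.symm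

/-- A vertex of colour `false` adjacent to a leaf is `x` or a special. -/
theorem Cen.spec_false (C : Cen G g x) {v z : V} (hv : v ≠ x) (gv : g v = false)
    (hz : G.Adj x z) (hvz : G.Adj v z) : ∃ m', Lf G g x z m' v := by
  rcases C.lf hz with h1 | ⟨m', t', L⟩
  · exfalso
    exact hv ((pend_adj G h1 hz.symm v).1 hvz.symm)
  · rcases (L.nb.adj v).1 hvz.symm with h1 | h1 | h1
    · exact absurd h1 hv
    · rw [h1, L.gm] at gv
      exact absurd gv (by decide)
    · subst h1
      exact ⟨m', L⟩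

/-- A vertex of colour `true` adjacent to a leaf is a mate. -/
theorem Cen.spec_true (C : Cen G g x) {v z : V} (gv : g v = true)
    (hz : G.Adj x z) (hvz : G.Adj v z) : ∃ t', Lf G g x z v t' := by
  have hv : v ≠ x := by
    rintro rfl
    rw [C.gfalse] at gv
    exact absurd gv (by decide)
  rcases C.lf hz with h1 | ⟨m', t', L⟩
  · exfalso
    exact hv ((pend_adj G h1 hz.symm v).1 hvz.symm)
  · rcases (L.nb.adj v).1 hvz.symm with h1 | h1 | h1
    · exact absurd h1 hv
    · subst h1
      exact ⟨t', L⟩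
    · rw [h1, L.gt] at gv
      exact absurd gv (by decide)

/-- A leaf triangle with its outer neighbours. -/
structure Tri (G : SimpleGraph V) (g : V → Bool) (x w m t p q : V) : Prop where
  L : Lf G g x w m t
  nm : Nb G m w t p
  nt : Nb G t w m q

theorem Lf.tri (L : Lf G g x w m t) (C : Cen G g x) (h : G.Adj m t) :
    ∃ p q, Tri G g x w m t p q := by
  obtain ⟨p, hp⟩ := exists_nb23 G (L.dm C) L.nb.ay.symm h L.nb.az.ne
  obtain ⟨q, hq⟩ := exists_nb23 G (L.dt C) L.nb.az.symm h.symm L.nb.ay.ne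
  exact ⟨p, q, L, hp, hq⟩

theorem Tri.dual {p q : V} (T : Tri G g x w m t p q) (C : Cen G g x) :
    Tri G (dc G g x) x w t m q p :=
  ⟨T.L.dual C, T.nt, T.nm⟩

/-- A vertex of a triangle is not a centre. -/
theorem Cen.not_tri (C : Cen G g x) {u v : V} (hu : G.Adj x u) (hv : G.Adj x v)
    (huv : G.Adj u v) : False := C.nadj2 hu hv huv

/-- The outer neighbour of the mate in a leaf triangle is a centre. -/
theorem Tri.cp (hG : Deg13 G) (hB : NoBal3 G) (hC : C4Free G) (pl : PL G) {p q : V}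
    (T : Tri G g x w m t p q) (C : Cen G g x) : Cen G g p := by
  have L := T.L
  have hp := T.nm.az
  have gp := L.m_false C hp T.nm.xz.symm
  have hmt := T.nm.ay
  by_cases hh : G.degree p = 1 ∨ ∃ z, G.Adj p z ∧ g z = false
  · exact (L.e3 hG hB hC C hp T.nm.xz.symm hh).not_tri T.nm.ax T.nm.ay L.nb.az |>.elim
  · push Not at hh
    have dp : G.degree p = 3 := by
      rcases hG p with h1 | h1
      · exact absurd h1 hh.1
      · exact h1
    have ap : ∀ z, G.Adj p z → g z = true := fun z hz => by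
      have := hh.2 z hz
      cases h1 : g z
      · exact absurd h1 this
      · rfl
    have px : p ≠ x := by
      rintro rfl
      exact L.nxm C hp.symm
    by_cases hl : ∃ z, G.Adj x z ∧ G.Adj p z
    · obtain ⟨z, hz, hpz⟩ := hl
      obtain ⟨m', L'⟩ := C.spec_false px gp hz hpz
      have hwz : w ≠ z := by
        rintro rfl
        rcases (L.nb.adj p).1 hpz.symm with h1 | h1 | h1
        · exact px h1
        · exact hp.ne h1.symm
        · exact T.nm.yz h1.symm
      exact L.cb hG hB hC C L' hwz hp hmt T.nm.xy.symm T.nm.yz (L.dt C)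
        (fun z hz => L.t_true C hz)
    · push Not at hl
      exact pl.tuf C L hmt hp ⟨gp, dp, ap, hl⟩

theorem Tri.cq (hG : Deg13 G) (hB : NoBal3 G) (hC : C4Free G) (pl : PL G) {p q : V}
    (T : Tri G g x w m t p q) (C : Cen G g x) : Cen G (dc G g x) q :=
  (T.dual C).cp hG hB hC pl C.dual

/-- The same triangle at its outer neighbour `p`. -/
theorem Tri.at_p {p q : V} (T : Tri G g x w m t p q) (C : Cen G g x) : Tri G g p m w t x q where
  L := ⟨T.nm.az.symm, ⟨fun v => by rw [T.nm.adj]; tauto, T.nm.xz.symm, T.nm.yz.symm, T.nm.xy⟩,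
    T.L.gw C, T.L.gt⟩
  nm := ⟨fun v => by rw [T.L.nb.adj]; tauto, T.L.nb.yz, T.L.nb.xy.symm, T.L.nb.xz.symm⟩
  nt := ⟨fun v => by rw [T.nt.adj]; tauto, T.nt.xy.symm, T.nt.yz, T.nt.xz⟩

/-- The same triangle at its outer neighbour `q`. -/
theorem Tri.at_q {p q : V} (T : Tri G g x w m t p q) (C : Cen G g x) :
    Tri G (dc G g x) q t w m x p :=
  (T.dual C).at_p C.dual

theorem Tri.gp {p q : V} (T : Tri G g x w m t p q) (C : Cen G g x) : g p = false :=
  T.L.m_false C T.nm.az T.nm.xz.symm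

theorem Tri.gq {p q : V} (T : Tri G g x w m t p q) (C : Cen G g x) : g q = true :=
  T.L.t_true C T.nt.az

theorem Tri.nxq (hC : C4Free G) {p q : V} (T : Tri G g x w m t p q) : ¬ G.Adj x q := by
  intro h
  exact T.nt.xz (c4_leaf hC T.L.nb.xz.symm T.L.ax T.L.nb.az.symm h T.nt.az)

theorem Tri.nxp (hC : C4Free G) {p q : V} (T : Tri G g x w m t p q) : ¬ G.Adj x p := by
  intro h
  exact T.nm.xz (c4_leaf hC T.L.nb.xy.symm T.L.ax T.L.nb.ay.symm h T.nm.az)

theorem Tri.px {p q : V} (T : Tri G g x w m t p q) (C : Cen G g x) : p ≠ x := by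
  rintro rfl
  exact T.L.nxm C T.nm.az.symm

theorem Tri.qx {p q : V} (T : Tri G g x w m t p q) (C : Cen G g x) : q ≠ x := by
  rintro rfl
  exact T.L.nxt C T.nt.az.symm

/-- Two leaves with the same third neighbour are equal. -/
theorem Lf.uniq_t (hC : C4Free G) (L : Lf G g x w m t) {w' m' : V} (L' : Lf G g x w' m' t) :
    w = w' :=
  c4_leaf hC L.nb.xz.symm L.ax L.nb.az.symm L'.ax L'.nb.az.symm

theorem Lf.uniq_m (hC : C4Free G) (L : Lf G g x w m t) {w' t' : V} (L' : Lf G g x w' m t') :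
    w = w' :=
  c4_leaf hC L.nb.xy.symm L.ax L.nb.ay.symm L'.ax L'.nb.ay.symm

theorem Lf.eq_m (L : Lf G g x w m t) {m' t' : V} (L' : Lf G g x w m' t') : m' = m := by
  rcases (L.nb.adj m').1 L'.nb.ay with h1 | h1 | h1
  · exact absurd h1 L'.nb.xy.symm
  · exact h1
  · have := L'.gm
    rw [h1, L.gt] at this
    exact absurd this (by decide)

theorem Lf.eq_t (L : Lf G g x w m t) {m' t' : V} (L' : Lf G g x w m' t') : t' = t := by
  rcases (L.nb.adj t').1 L'.nb.az with h1 | h1 | h1
  · exact absurd h1 L'.nb.xz.symm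
  · have := L'.gt
    rw [h1, L.gm] at this
    exact absurd this (by decide)
  · exact h1

/-- If the outer neighbour `p` is a special of the leaf `w'` then so is `q`. -/
theorem Tri.iv (hG : Deg13 G) (hB : NoBal3 G) (hC : C4Free G) (pl : PL G) {p q : V}
    (T : Tri G g x w m t p q) (C : Cen G g x) {w' m' : V} (L' : Lf G g x w' m' p) : q = m' := by
  have Cq := T.cq hG hB hC pl C
  have Tq := T.at_q C
  by_contra hne
  have hadj : ¬ G.Adj q w' := by
    intro h1
    rcases (L'.nb.adj q).1 h1.symm with h2 | h2 | h2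
    · exact T.qx C h2
    · exact hne h2
    · have h3 := T.gp C
      rw [← h2, T.gq C] at h3
      exact absurd h3 (by decide)
  have h1 : Cen G (dc G g x) m := Tq.L.e3' hG hB hC Cq (y := p) T.nm.az T.nm.yz.symm
    (Or.inr ⟨w', L'.nb.az.symm, by rw [dc_near (Or.inr L'.ax)]; exact L'.gw C, hadj⟩)
  exact h1.not_tri T.nm.ax T.nm.ay T.L.nb.az

theorem Tri.iv' (hG : Deg13 G) (hB : NoBal3 G) (hC : C4Free G) (pl : PL G) {p q : V}
    (T : Tri G g x w m t p q) (C : Cen G g x) {w' t' : V} (L' : Lf G g x w' q t') : p = t' :=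
  (T.dual C).iv hG hB hC pl C.dual (L'.dual C)

end

/-- `y` is a pendant or has an own neighbour outside the star; here `y` has colour `true`. -/
def Hv (G : SimpleGraph V) [DecidableRel G.Adj] (g : V → Bool) (x y : V) : Prop :=
  G.degree y = 1 ∨ ∃ z, G.Adj y z ∧ g z = true ∧ ¬ G.Adj x z

theorem Cen.dc_true (C : Cen G g x) {v : V} (gv : g v = true) (hv : ¬ G.Adj x v) :
    dc G g x v = false := by
  rw [dc_far _ hv, gv]
  · rfl
  · rintro rfl
    rw [C.gfalse] at gv
    exact absurd gv (by decide)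

theorem dc_false {v : V} (gv : g v = false) (hv : v ≠ x) (hx : ¬ G.Adj x v) :
    dc G g x v = true := by
  rw [dc_far hv hx, gv]
  rfl

theorem Cen.dc_leaf (C : Cen G g x) {v : V} (hv : G.Adj x v) : dc G g x v = true := by
  rw [dc_near (Or.inr hv)]
  exact C.nbg hv

theorem Cen.dc_x (C : Cen G g x) : dc G g x x = false := C.dual.gfalse

/-- A heavy vertex is not a third neighbour of a leaf of a centre of the dual colouring. -/
theorem Hv.not_third {q u y m' : V} (C : Cen G g x) (h : Hv G g x y)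
    (Cq : Cen G (dc G g x) q) (L : Lf G (dc G g x) q u m' y) : False := by
  rcases h with h1 | ⟨z, h1, h2, h3⟩
  · have := L.dt Cq
    omega
  · have h4 := L.t_true Cq h1
    rw [C.dc_true h2 h3] at h4
    exact absurd h4 (by decide)

/-- The configuration at the outer neighbour `q` : the third neighbour `t'` of another leaf. -/
structure Oth (G : SimpleGraph V) [DecidableRel G.Adj] (g : V → Bool) (x q w w' m' t' P : V) :
    Prop where
  L : Lf G g x w' m' t'
  hw : w ≠ w'
  aP : G.Adj t' P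
  Pw : P ≠ w'
  hv : Hv G g x P
  qm : q ≠ m'
  qt : ¬ G.Adj q t'

section

variable {w m t p q w' m' t' P : V}

/-- The neutral flip of `t'` and a heavy neighbour at the outer neighbour `q`. -/
theorem Oth.nf (hG : Deg13 G) (hB : NoBal3 G) (hC : C4Free G) (pl : PL G)
    (T : Tri G g x w m t p q) (C : Cen G g x) (O : Oth G g x q w w' m' t' P) :
    Cen G (flips {t', P} (dc G g x)) q := by
  have Cq := T.cq hG hB hC pl C
  have L' := O.L
  have gq := T.gq C
  have nxq := T.nxq hC
  have gP := L'.t_true C O.aP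
  have nxP : ¬ G.Adj x P := fun h1 => O.Pw (c4_leaf hC L'.nb.xz.symm h1 O.aP L'.ax L'.nb.az.symm)
  have tq : t' ≠ q := by
    rintro rfl
    rw [L'.gt] at gq
    exact absurd gq (by decide)
  have gP' := C.dc_true gP nxP
  have gt' : dc G g x t' = true := dc_false L'.gt L'.nb.xz.symm (L'.nxt C)
  have nqP : ¬ G.Adj q P := fun h1 => by
    rw [Cq.nbg h1] at gP'
    exact absurd gP' (by decide)
  have hw'q : w' ≠ q := by
    rintro rfl
    exact nxq L'.ax
  have nqw' : ¬ G.Adj q w' := fun h1 => by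
    rcases (L'.nb.adj q).1 h1.symm with h2 | h2 | h2
    · exact T.qx C h2
    · exact O.qm h2
    · exact tq h2.symm
  refine Cq.nf hG hB hC tq O.qt ?_ nqP O.aP ?_ ⟨w', hw'q, nqw', L'.nb.az.symm, ?_⟩ ?_
  · rintro rfl
    exact O.qt O.aP.symm
  · rw [gt', gP']
    decide
  · rw [C.dc_leaf L'.ax, gt']
  · rcases O.hv with h1 | ⟨z, h1, h2, h3⟩
    · exact Or.inl h1
    · right
      have gz := C.dc_true h2 h3
      refine ⟨z, ?_, ?_, h1, by rw [gz, gP']⟩
      · rintro rfl
        exact nqP h1.symm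
      · intro h4
        rw [Cq.nbg h4] at gz
        exact absurd gz (by decide)

/-- Two heavy neighbours are impossible. -/
theorem Oth.fat (hG : Deg13 G) (hB : NoBal3 G) (hC : C4Free G) (pl : PL G)
    (T : Tri G g x w m t p q) (C : Cen G g x) (O : Oth G g x q w w' m' t' P)
    (Ct : Cen G g t') {P' : V} (aP' : G.Adj t' P') (Pw' : P' ≠ w') (hPP : P ≠ P')
    (hv' : Hv G g x P') : False := by
  have C1 := O.nf hG hB hC pl T C
  obtain ⟨l, a, b, h⟩ := C1
  have hval := h.valid P'
  have L' := O.L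
  have gP := L'.t_true C O.aP
  have gP' := L'.t_true C aP'
  have nxP' : ¬ G.Adj x P' := fun h1 => Pw' (c4_leaf hC L'.nb.xz.symm h1 aP' L'.ax L'.nb.az.symm)
  have d1 : flips {t', P} (dc G g x) P' = false := by
    rw [flips_ne, C.dc_true gP' nxP']
    simp only [mem_insert, mem_singleton, not_or]
    exact ⟨aP'.ne.symm, hPP.symm⟩
  have d2 : flips {t', P} (dc G g x) t' = false := by
    rw [flips_mem (by simp), dc_false L'.gt L'.nb.xz.symm (L'.nxt C)]
    rfl
  rcases hv' with h1 | ⟨z, h1, h2, h3⟩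
  · have h4 := own_ge_one (d := flips {t', P} (dc G g x)) aP'.symm (by rw [d1, d2])
    omega
  · have hzt : z ≠ t' := by
      rintro rfl
      rw [L'.gt] at h2
      exact absurd h2 (by decide)
    have hzP : z ≠ P := by
      rintro rfl
      exact Ct.nadj2 O.aP aP' h1.symm
    have d3 : flips {t', P} (dc G g x) z = false := by
      rw [flips_ne, C.dc_true h2 h3]
      simp only [mem_insert, mem_singleton, not_or]
      exact ⟨hzt, hzP⟩
    have h4 := own_ge_two (d := flips {t', P} (dc G g x)) aP'.symm h1 hzt.symm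
      (by rw [d1, d2]) (by rw [d1, d3])
    have h5 : G.degree P' = 3 := two_nbr_deg hG aP'.symm h1 hzt.symm
    omega

/-- A heavy neighbour and the mate of a third leaf are impossible. -/
theorem Oth.mix (hG : Deg13 G) (hB : NoBal3 G) (hC : C4Free G) (pl : PL G)
    (T : Tri G g x w m t p q) (C : Cen G g x) (O : Oth G g x q w w' m' t' P)
    {w'' m'' t'' : V} (L'' : Lf G g x w'' m'' t'') (hw'' : w ≠ w'') (hww : w' ≠ w'')
    (hadj : G.Adj t' m'') (hPm : P ≠ m'') (hqt : ¬ G.Adj q t'') : False := by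
  have C1 := O.nf hG hB hC pl T C
  have L' := O.L
  have L := T.L
  have gq := T.gq C
  have nxq := T.nxq hC
  have gP := L'.t_true C O.aP
  have nxP : ¬ G.Adj x P := fun h1 => O.Pw (c4_leaf hC L'.nb.xz.symm h1 O.aP L'.ax L'.nb.az.symm)
  have tq : t' ≠ q := by
    rintro rfl
    rw [L'.gt] at gq
    exact absurd gq (by decide)
  have ttq : t'' ≠ q := by
    rintro rfl
    rw [L''.gt] at gq
    exact absurd gq (by decide)
  have mt' : m'' ≠ t' := hadj.ne.symm
  have c1 : ∀ v, v ≠ t' → v ≠ P → flips {t', P} (dc G g x) v = dc G g x v := fun v h1 h2 => by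
    rw [flips_ne]
    simp only [mem_insert, mem_singleton, not_or]
    exact ⟨h1, h2⟩
  have leaf_ne : ∀ v, G.Adj x v → v ≠ t' ∧ v ≠ P := fun v hv =>
    ⟨fun h1 => L'.nxt C (h1 ▸ hv), fun h1 => nxP (h1 ▸ hv)⟩
  have gm1 : flips {t', P} (dc G g x) m'' = false := by
    rw [c1 _ mt' hPm.symm, C.dc_true L''.gm (L''.nxm C)]
  have gw1 : flips {t', P} (dc G g x) w'' = true := by
    rw [c1 _ (leaf_ne w'' L''.ax).1 (leaf_ne w'' L''.ax).2, C.dc_leaf L''.ax]
  have gt1 : flips {t', P} (dc G g x) t' = false := by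
    rw [flips_mem (by simp), dc_false L'.gt L'.nb.xz.symm (L'.nxt C)]
    rfl
  have tt : t'' ≠ t' := by
    rintro rfl
    exact hww (L'.uniq_t hC L'')
  have tP : t'' ≠ P := by
    rintro rfl
    rw [L''.gt] at gP
    exact absurd gP (by decide)
  have gt1' : flips {t', P} (dc G g x) t'' = true := by
    rw [c1 _ tt tP, dc_false L''.gt L''.nb.xz.symm (L''.nxt C)]
  have mq : m'' ≠ q := by
    rintro rfl
    exact O.qt hadj.symm
  have nqm : ¬ G.Adj q m'' := fun h1 => by
    rw [C1.nbg h1] at gm1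
    exact absurd gm1 (by decide)
  have wq : w'' ≠ q := by
    rintro rfl
    exact nxq L''.ax
  have nqw : ¬ G.Adj q w'' := fun h1 => by
    rcases (L''.nb.adj q).1 h1.symm with h2 | h2 | h2
    · exact T.qx C h2
    · exact mq h2.symm
    · exact ttq h2.symm
  have C2 := C1.nf hG hB hC mq nqm wq nqw L''.nb.ay.symm (by rw [gm1, gw1]; decide)
    ⟨t', tq, O.qt, hadj.symm, by rw [gt1, gm1]⟩
    (Or.inr ⟨t'', ttq, hqt, L''.nb.az, by rw [gt1', gw1]⟩)
  set g1 := flips {t', P} (dc G g x) with hg1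
  set g2 := flips {m'', w''} g1 with hg2
  have c2 : ∀ v, v ≠ m'' → v ≠ w'' → g2 v = g1 v := fun v h1 h2 => by
    rw [hg2, flips_ne]
    simp only [mem_insert, mem_singleton, not_or]
    exact ⟨h1, h2⟩
  -- the triangle at `q` for `g2`
  have gw2 : g2 w = true := by
    rw [c2 _ (fun h1 => L''.nxm C (h1 ▸ L.ax)) hw'', c1 _ (leaf_ne w L.ax).1 (leaf_ne w L.ax).2,
      C.dc_leaf L.ax]
  have mm : m ≠ m'' := by
    rintro rfl
    exact hw'' (L.uniq_m hC L'')
  have mP : m ≠ P := by
    rintro rfl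
    rcases O.hv with h1 | ⟨z, h1, h2, h3⟩
    · have := L.dm C
      omega
    · by_cases h4 : z = w
      · rw [h4] at h3
        exact h3 L.ax
      · rw [L.m_false C h1 h4] at h2
        exact absurd h2 (by decide)
  have gm2 : g2 m = false := by
    rw [c2 _ mm (fun h1 => L.nxm C (h1 ▸ L''.ax)), c1 _ ?_ mP, C.dc_true L.gm (L.nxm C)]
    rintro rfl
    have := L.gm
    rw [L'.gt] at this
    exact absurd this (by decide)
  have Lq : Lf G g2 q t w m :=
    ⟨T.nt.az.symm, ⟨fun v => by rw [T.nt.adj]; tauto, T.nt.xz.symm, T.nt.yz.symm, T.nt.xy⟩,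
      gw2, gm2⟩
  have h1 := Lq.e3 hG hB hC C2 (y := x) L.nb.ax L.nb.xz (Or.inr ⟨w'', L''.ax, by
    rw [hg2, flips_mem (by simp), gw1]; rfl⟩)
  exact h1.not_tri L.nb.ay L.nb.az T.nm.ay

/-- The outer neighbour `q` is not adjacent to `t'`. -/
theorem Tri.nqt (hG : Deg13 G) (hB : NoBal3 G) (hC : C4Free G) (pl : PL G)
    (T : Tri G g x w m t p q) (C : Cen G g x) (L' : Lf G g x w' m' t') (aP : G.Adj t' P)
    (Pw : P ≠ w') (hv : Hv G g x P) : ¬ G.Adj q t' := by
  intro hadj
  have Cq := T.cq hG hB hC pl C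
  rcases Cq.lf hadj with h1 | ⟨m3, t3, L3⟩
  · have := L'.dt C
    omega
  have hwq : w' ≠ q := by
    rintro rfl
    exact T.nxq hC L'.ax
  have hm3 : w' = m3 := by
    rcases (L3.nb.adj w').1 L'.nb.az.symm with h1 | h1 | h1
    · exact absurd h1 hwq
    · exact h1
    · have := L3.gt
      rw [← h1, C.dc_leaf L'.ax] at this
      exact absurd this (by decide)
  rcases (L3.nb.adj P).1 aP with h1 | h1 | h1
  · subst h1
    rcases hv with h2 | ⟨z, h2, h3, h4⟩
    · have := Cq.deg
      omega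
    · have := Cq.nbg h2
      rw [C.dc_true h3 h4] at this
      exact absurd this (by decide)
  · exact Pw (h1.trans hm3.symm)
  · subst h1
    exact hv.not_third C Cq L3

end

/-- No neighbour of `y` is adjacent to `x`. -/
def Far (G : SimpleGraph V) (x y : V) : Prop := ∀ z, G.Adj x z → ¬ G.Adj y z

theorem three_leaves (hd : G.degree x = 3) {u v w z : V} (hu : G.Adj x u) (hv : G.Adj x v)
    (hw : G.Adj x w) (huv : u ≠ v) (huw : u ≠ w) (hvw : v ≠ w) (hz : G.Adj x z) :
    z = u ∨ z = v ∨ z = w :=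
  ((nb_of_three3 G hd hu hv hw huv huw hvw).adj z).1 hz

section

variable {w m t p q w' m' t' P w'' m'' t'' : V}

/-- The neighbours of a mate. -/
theorem Lf.nbr_m (hG : Deg13 G) (C : Cen G g x) (L : Lf G g x w m t) {y : V} (hy : G.Adj m y)
    (hne : y ≠ w) : (G.degree y = 1 ∨ ∃ z, G.Adj y z ∧ g z = false) ∨ UV G g x y ∨
      ∃ z m', Lf G g x z m' y := by
  by_cases hh : G.degree y = 1 ∨ ∃ z, G.Adj y z ∧ g z = false
  · exact Or.inl hh
  · right
    push Not at hh
    have gy := L.m_false C hy hne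
    have yx : y ≠ x := by
      rintro rfl
      exact L.nxm C hy.symm
    by_cases hl : ∃ z, G.Adj x z ∧ G.Adj y z
    · obtain ⟨z, hz, hyz⟩ := hl
      obtain ⟨m', L'⟩ := C.spec_false yx gy hz hyz
      exact Or.inr ⟨z, m', L'⟩
    · push Not at hl
      refine Or.inl ⟨gy, ?_, fun z hz => ?_, hl⟩
      · rcases hG y with h1 | h1
        · exact absurd h1 hh.1
        · exact h1
      · cases h1 : g z
        · exact absurd h1 (hh.2 z hz)
        · rfl

/-- The neighbours of a third neighbour which is a centre. -/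
theorem Lf.nbr_t (C : Cen G g x) (L : Lf G g x w m t) (Ct : Cen G g t) {y : V} (hy : G.Adj t y)
    (_hne : y ≠ w) : Hv G g x y ∨ ∃ z t', Lf G g x z y t' ∧ z ≠ w := by
  by_cases hh : Hv G g x y
  · exact Or.inl hh
  · right
    rcases Ct.lf hy with h1 | ⟨m1, t1, L1⟩
    · exact absurd (Or.inl h1) hh
    · have hx : G.Adj x m1 := by
        by_contra h2
        exact hh (Or.inr ⟨m1, L1.nb.ay, L1.gm, h2⟩)
      obtain ⟨t2, L2⟩ := C.spec_true (L.t_true C hy) hx L1.nb.ay
      refine ⟨m1, t2, L2, ?_⟩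
      rintro rfl
      exact Ct.not_tri L.nb.az.symm hy L1.nb.ay.symm

/-- A vertex `m''` next to `t'`, whose leaf is not in a triangle: `q` is not adjacent to `t''`. -/
theorem Tri.nqt2 (hG : Deg13 G) (hB : NoBal3 G) (hC : C4Free G) (pl : PL G)
    (T : Tri G g x w m t p q) (C : Cen G g x) (hq : Far G x q) (L' : Lf G g x w' m' t')
    (aP : G.Adj t' P) (Pw : P ≠ w') (hv : Hv G g x P) (L'' : Lf G g x w'' m'' t'')
    (hadj : G.Adj t' m'') (hPm : P ≠ m'') (hnt : ¬ G.Adj m'' t'') : ¬ G.Adj q t'' := by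
  intro hqt
  have Cq := T.cq hG hB hC pl C
  rcases Cq.lf hqt with h1 | ⟨m3, t3, L3⟩
  · have := L''.dt C
    omega
  have hwq : w'' ≠ q := by
    rintro rfl
    exact T.nxq hC L''.ax
  have hm3 : m3 = w'' := by
    rcases (L3.nb.adj w'').1 L''.nb.az.symm with h1 | h1 | h1
    · exact absurd h1 hwq
    · exact h1.symm
    · have := L3.gt
      rw [← h1, C.dc_leaf L''.ax] at this
      exact absurd this (by decide)
  subst hm3
  have Ux : UV G (dc G g x) q x :=
    ⟨C.dc_x, C.deg, fun z hz => C.dc_leaf hz, fun z hz hxz => hq z hxz hz⟩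
  have gm : dc G g x m'' = false := C.dc_true L''.gm (L''.nxm C)
  have am : ∀ z, G.Adj m'' z → dc G g x z = true := by
    intro z hz
    by_cases h1 : z = m3
    · rw [h1]
      exact C.dc_leaf L''.ax
    · refine dc_false (L''.m_false C hz h1) ?_ ?_
      · rintro rfl
        exact L''.nxm C hz.symm
      · intro h2
        exact h1 (c4_leaf hC L''.nb.xy.symm h2 hz L''.ax L''.nb.ay.symm)
  have hmq : m'' ≠ q := by
    rintro rfl
    exact hq m3 L''.ax L''.nb.ay.symm
  have Cm : Cen G (dc G g x) m'' := by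
    by_cases hl : ∃ z, G.Adj q z ∧ G.Adj m'' z
    · obtain ⟨z, hz, hmz⟩ := hl
      obtain ⟨m4, L4⟩ := Cq.spec_false hmq gm hz hmz
      have hne : t'' ≠ z := by
        rintro rfl
        exact hnt hmz
      exact L3.cb hG hB hC Cq L4 hne L''.nb.ay L''.nb.ax L''.nb.xz L''.nb.xy C.deg
        (fun z hz => C.dc_leaf hz)
    · push Not at hl
      exact pl.uuf Cq L3 L''.nb.xy.symm L''.nb.ay L''.nb.ax ⟨gm, L''.dm C, am, hl⟩ Ux
  rcases Cm.lf hadj.symm with h1 | ⟨m5, t5, L5⟩
  · have := L'.dt C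
    omega
  have hwm : w' ≠ m'' := by
    rintro rfl
    exact L''.nxm C L'.ax
  have hm5 : w' = m5 := by
    rcases (L5.nb.adj w').1 L'.nb.az.symm with h1 | h1 | h1
    · exact absurd h1 hwm
    · exact h1
    · have := L5.gt
      rw [← h1, C.dc_leaf L'.ax] at this
      exact absurd this (by decide)
  rcases (L5.nb.adj P).1 aP with h1 | h1 | h1
  · exact hPm h1
  · exact Pw (h1.trans hm5.symm)
  · subst h1
    exact hv.not_third C Cm L5

/-- If `p` is far from the star then `m` is not adjacent to `t'`. -/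
theorem Tri.nmt (hC : C4Free G) (T : Tri G g x w m t p q) (C : Cen G g x) (hp : Far G x p)
    (L' : Lf G g x w' m' t') (hw : w ≠ w') : ¬ G.Adj m t' := by
  intro h
  rcases (T.nm.adj t').1 h with h1 | h1 | h1
  · exact L'.nxt C (h1 ▸ T.L.ax)
  · subst h1
    exact hw (T.L.uniq_t hC L')
  · subst h1
    exact hp w' L'.ax L'.nb.az.symm

/-- Both outer neighbours far: no other third neighbour is a centre with a heavy neighbour. -/
theorem Tri.killB (hG : Deg13 G) (hB : NoBal3 G) (hC : C4Free G) (pl : PL G)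
    (T : Tri G g x w m t p q) (C : Cen G g x) (hp : Far G x p) (hq : Far G x q)
    (L' : Lf G g x w' m' t') (hw : w ≠ w') (Ct : Cen G g t') (aP : G.Adj t' P) (Pw : P ≠ w')
    (hv : Hv G g x P) : False := by
  have qm : q ≠ m' := by
    rintro rfl
    exact hq w' L'.ax L'.nb.ay.symm
  have O : Oth G g x q w w' m' t' P :=
    ⟨L', hw, aP, Pw, hv, qm, T.nqt hG hB hC pl C L' aP Pw hv⟩
  obtain ⟨P', nb⟩ := exists_nb23 G (L'.dt C) L'.nb.az.symm aP Pw.symm
  rcases L'.nbr_t C Ct nb.az nb.xz.symm with h1 | ⟨u, t1, L1, hu⟩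
  · exact O.fat hG hB hC pl T C Ct nb.az nb.xz.symm nb.yz h1
  · have hwu : w ≠ u := by
      rintro rfl
      have h2 : P' = m := T.L.eq_m L1
      rw [h2] at nb
      exact T.nmt hC C hp L' hw nb.az.symm
    refine O.mix hG hB hC pl T C L1 hwu (Ne.symm hu) nb.az nb.yz ?_
    by_cases htri : G.Adj P' t1
    · obtain ⟨p1, q1, T1⟩ := L1.tri C htri
      have hp1 : t' = p1 := by
        rcases (T1.nm.adj t').1 nb.az.symm with h2 | h2 | h2
        · exact absurd (h2 ▸ L1.ax) (L'.nxt C)
        · subst h2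
          exact absurd (L'.uniq_t hC L1) (Ne.symm hu)
        · exact h2
      subst hp1
      have h3 : q1 = m' := T1.iv hG hB hC pl C L'
      intro h4
      rcases (T1.nt.adj q).1 h4.symm with h5 | h5 | h5
      · exact T.nxq hC (h5 ▸ L1.ax)
      · exact hq u L1.ax (h5 ▸ L1.nb.ay.symm)
      · exact qm (h5.trans h3)
    · exact T.nqt2 hG hB hC pl C hq L' aP Pw hv L1 nb.az nb.yz htri

/-- The third neighbour of a leaf whose mate has two `U` neighbours. -/
theorem Lf.uu_b (hG : Deg13 G) (hB : NoBal3 G) (hC : C4Free G) (pl : PL G) (C : Cen G g x)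
    (L : Lf G g x w m t) (hnt : ¬ G.Adj m t) {y y' : V} (hne : y ≠ y') (hy : G.Adj m y)
    (hy' : G.Adj m y') (U : UV G g x y) (U' : UV G g x y') : Cen G g t := by
  have Cy := pl.uuf C L hne hy hy' U U'
  have hyw : y ≠ w := by
    rintro rfl
    have := U.gw
    rw [L.gw C] at this
    exact absurd this (by decide)
  have hyw' : y' ≠ w := by
    rintro rfl
    have := U'.gw
    rw [L.gw C] at this
    exact absurd this (by decide)
  have Ly : Lf G g y m w y' := ⟨hy.symm, nb_of_three3 G (L.dm C) hy L.nb.ay.symm hy' hyw hne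
    hyw'.symm, L.gw C, U'.gw⟩
  have Ux : UV G g y x := ⟨C.gfalse, C.deg, fun z hz => C.nbg hz, fun z h1 h2 => U.far z h2 h1⟩
  have ty : t ≠ y := by
    rintro rfl
    exact hnt hy
  by_cases hl : ∃ z, G.Adj y z ∧ G.Adj t z
  · obtain ⟨z, hz, htz⟩ := hl
    obtain ⟨m4, L4⟩ := Cy.spec_false ty L.gt hz htz
    have hmz : m ≠ z := by
      rintro rfl
      exact hnt htz.symm
    exact Ly.cb hG hB hC Cy L4 hmz L.nb.az L.nb.ax L.nb.xy L.nb.xz C.deg (fun z hz => C.nbg hz)
  · push Not at hl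
    exact pl.uuf Cy Ly L.nb.xz.symm L.nb.az L.nb.ax
      ⟨L.gt, L.dt C, fun z hz => L.t_true C hz, hl⟩ Ux

/-- Both outer neighbours far: all leaves of degree three are in triangles. -/
theorem Tri.only (hG : Deg13 G) (hB : NoBal3 G) (hC : C4Free G) (pl : PL G)
    (T : Tri G g x w m t p q) (C : Cen G g x) (hp : Far G x p) (hq : Far G x q)
    (L' : Lf G g x w' m' t') (hw : w ≠ w') : G.Adj m' t' := by
  by_contra hnt
  have kA : Cen G (dc G g x) m' → ∀ N, G.Adj m' N → N ≠ w' → Hv G (dc G g x) x N → False :=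
    fun Cm N aN Nw hv =>
      (T.dual C).killB hG hB hC pl C.dual hq hp (L'.dual C) hw Cm aN Nw hv
  have kB : ∀ {w' m' t' : V}, Lf G g x w' m' t' → w ≠ w' → Cen G g t' →
      ∀ {P}, G.Adj t' P → P ≠ w' → Hv G g x P → False :=
    fun L' hw Ct P aP Pw hv => T.killB hG hB hC pl C hp hq L' hw Ct aP Pw hv
  have cl : ∀ y, G.Adj m' y → y ≠ w' → UV G g x y ∨
      ∃ z m4, Lf G g x z m4 y ∧ z ≠ w ∧ z ≠ w' := by
    intro y hy hne
    rcases L'.nbr_m hG C hy hne with h1 | h1 | ⟨z, m4, L4⟩
    · exfalso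
      refine kA (L'.e3 hG hB hC C hy hne h1) y hy hne ?_
      rcases h1 with h2 | ⟨z, h2, h3⟩
      · exact Or.inl h2
      · have hzx : z ≠ x := by
          rintro rfl
          exact hne (c4_leaf hC L'.nb.xy.symm h2.symm hy L'.ax L'.nb.ay.symm)
        have hxz : ¬ G.Adj x z := fun h4 => by
          rw [C.nbg h4] at h3
          exact absurd h3 (by decide)
        exact Or.inr ⟨z, h2, dc_false h3 hzx hxz, hxz⟩
    · exact Or.inl h1
    · refine Or.inr ⟨z, m4, L4, ?_, ?_⟩
      · rintro rfl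
        have h1 : y = t := T.L.eq_t L4
        subst h1
        exact (T.dual C).nmt hC C.dual hq (L'.dual C) hw hy.symm
      · rintro rfl
        have h1 : y = t' := L'.eq_t L4
        subst h1
        exact hnt hy
  have sp : ∀ y y', G.Adj m' y → G.Adj m' y' → y ≠ y' → UV G g x y' →
      ∀ z m4, Lf G g x z m4 y → z ≠ w → z ≠ w' → False := by
    intro y y' hy hy' hne U z m4 L4 hzw hzw'
    have hyw' : y' ≠ w' := by
      rintro rfl
      have := U.gw
      rw [L'.gw C] at this
      exact absurd this (by decide)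
    have Cy : Cen G g y := L'.cb hG hB hC C L4 (Ne.symm hzw') hy hy' hyw' hne.symm U.deg U.all
    have hzm : z ≠ m' := by
      rintro rfl
      exact L'.nxm C L4.ax
    obtain ⟨P, nb⟩ := exists_nb23 G (L4.dt C) L4.nb.az.symm hy.symm hzm
    rcases L4.nbr_t C Cy nb.az nb.xz.symm with h1 | ⟨u, t5, L5, hu⟩
    · exact kB L4 (Ne.symm hzw) Cy nb.az nb.xz.symm h1
    · rcases three_leaves C.deg T.L.ax L'.ax L4.ax hw (Ne.symm hzw) (Ne.symm hzw') L5.ax with
        h2 | h2 | h2
      · subst h2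
        have h3 : P = m := T.L.eq_m L5
        rw [h3] at nb
        exact T.nmt hC C hp L4 (Ne.symm hzw) nb.az.symm
      · subst h2
        exact nb.yz (L'.eq_m L5).symm
      · exact hu h2
  obtain ⟨y, y', nb⟩ := exists_nb3 G (L'.dm C) L'.nb.ay.symm
  rcases cl y nb.ay nb.xy.symm with U | ⟨z, m4, L4, h1, h2⟩
  · rcases cl y' nb.az nb.xz.symm with U' | ⟨z, m4, L4, h1, h2⟩
    · have Ct : Cen G g t' := L'.uu_b hG hB hC pl C hnt nb.yz nb.ay nb.az U U'
      obtain ⟨z1, z2, nt⟩ := exists_nb3 G (L'.dt C) L'.nb.az.symm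
      rcases L'.nbr_t C Ct nt.ay nt.xy.symm with h1 | ⟨u1, t1, L1, h1⟩
      · exact kB L' hw Ct nt.ay nt.xy.symm h1
      rcases L'.nbr_t C Ct nt.az nt.xz.symm with h2 | ⟨u2, t2, L2, h2⟩
      · exact kB L' hw Ct nt.az nt.xz.symm h2
      have h12 : u1 ≠ u2 := by
        rintro rfl
        exact nt.yz (L2.eq_m L1)
      rcases three_leaves C.deg L'.ax L1.ax L2.ax (Ne.symm h1) (Ne.symm h2) h12 T.L.ax with
        h3 | h3 | h3
      · exact hw h3
      · subst h3
        have h4 : z1 = m := T.L.eq_m L1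
        rw [h4] at nt
        exact T.nmt hC C hp L' hw nt.ay.symm
      · subst h3
        have h4 : z2 = m := T.L.eq_m L2
        rw [h4] at nt
        exact T.nmt hC C hp L' hw nt.az.symm
    · exact sp y' y nb.az nb.ay nb.yz.symm U z m4 L4 h1 h2
  · rcases cl y' nb.az nb.xz.symm with U' | ⟨z', m4', L4', h1', h2'⟩
    · exact sp y y' nb.ay nb.az nb.yz U' z m4 L4 h1 h2
    · have hzz : z = z' := by
        by_contra hne
        rcases three_leaves C.deg L'.ax L4.ax L4'.ax (Ne.symm h2) (Ne.symm h2') hne T.L.ax with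
          h3 | h3 | h3
        · exact hw h3
        · exact h1 h3.symm
        · exact h1' h3.symm
      subst hzz
      exact nb.yz (L4'.eq_t L4)

end

section

variable {w m t w' w'' : V}

/-- A leaf triangle whose mate is adjacent to the third neighbour `t'` of another leaf, and whose
third neighbour is adjacent to the mate `m'` of that leaf. -/
structure IV (G : SimpleGraph V) (g : V → Bool) (x w m t w' m' t' : V) : Prop where
  T : Tri G g x w m t t' m'
  L : Lf G g x w' m' t'
  hw : w ≠ w'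

theorem IV.dual {m' t' : V} (I : IV G g x w m t w' m' t') (C : Cen G g x) :
    IV G (dc G g x) x w t m w' t' m' := ⟨I.T.dual C, I.L.dual C, I.hw⟩

/-- The third neighbour `t'` is not adjacent to the mate of the third leaf. -/
theorem IV.ntm (hG : Deg13 G) (hB : NoBal3 G) (hC : C4Free G) (pl : PL G) {m' t' : V}
    (I : IV G g x w m t w' m' t') (C : Cen G g x) {m'' t'' : V} (L'' : Lf G g x w'' m'' t'')
    (h1 : w ≠ w'') (h2 : w' ≠ w'') : ¬ G.Adj t' m'' := by
  intro hadj
  have T := I.T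
  have L' := I.L
  have Ct : Cen G g t' := T.cp hG hB hC pl C
  have hmm : m ≠ m'' := by
    rintro rfl
    exact h1 (T.L.uniq_m hC L'')
  have hmw : m ≠ w' := by
    rintro rfl
    exact T.L.nxm C L'.ax
  have Cm : Cen G (dc G g x) m'' := by
    refine (L'.dual C).cb hG hB hC C.dual (L''.dual C) h2 hadj T.nm.az.symm hmw hmm (T.L.dm C) ?_
    intro z hz
    rcases (T.nm.adj z).1 hz with h3 | h3 | h3
    · rw [h3]
      exact C.dc_leaf T.L.ax
    · rw [h3]
      exact dc_false T.L.gt T.L.nb.xz.symm (T.L.nxt C)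
    · rw [h3]
      exact dc_false L'.gt L'.nb.xz.symm (L'.nxt C)
  rcases Ct.lf hadj with h3 | ⟨mm, tt, L1⟩
  · have := L''.dm C
    omega
  have htt : ∃ z, G.Adj x z ∧ G.Adj tt z := by
    rcases Cm.lf L1.nb.az with h3 | ⟨m2, t2, L2⟩
    · have := L1.dt Ct
      omega
    · refine ⟨m2, ?_, L2.nb.ay⟩
      by_contra h4
      have h5 := L1.t_true Ct L2.nb.ay
      have h6 := L2.gm
      rw [C.dc_true h5 h4] at h6
      exact absurd h6 (by decide)
  obtain ⟨z, hz, htz⟩ := htt
  have ttx : tt ≠ x := by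
    rintro rfl
    exact L''.nxm C L1.nb.az.symm
  obtain ⟨ma, L3⟩ := C.spec_false ttx L1.gt hz htz
  rcases three_leaves C.deg T.L.ax L'.ax L''.ax I.hw h1 h2 hz with h3 | h3 | h3
  · subst h3
    have h4 : tt = t := T.L.eq_t L3
    subst h4
    rcases (T.nt.adj m'').1 L1.nb.az.symm with h5 | h5 | h5
    · exact L''.nxm C (h5 ▸ T.L.ax)
    · exact hmm h5.symm
    · rw [h5] at L''
      exact h2 (L'.uniq_m hC L'')
  · subst h3
    exact L1.nb.xz (L'.eq_t L3).symm
  · subst h3
    have h4 : tt = t'' := L''.eq_t L3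
    subst h4
    exact Cm.not_tri L''.nb.ay.symm L1.nb.az L''.nb.az

/-- The case of a centre `t''`. -/
theorem IV.kill (hG : Deg13 G) (hB : NoBal3 G) (hC : C4Free G) (pl : PL G) {m' t' : V}
    (I : IV G g x w m t w' m' t') (C : Cen G g x) {m'' t'' : V} (L'' : Lf G g x w'' m'' t'')
    (h1 : w ≠ w'') (h2 : w' ≠ w'') (Ct : Cen G g t'') : False := by
  have T := I.T
  have L' := I.L
  obtain ⟨z1, z2, nt⟩ := exists_nb3 G (L''.dt C) L''.nb.az.symm
  have hv : ∀ z, G.Adj t'' z → z ≠ w'' → Hv G g x z := by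
    intro z hz hne
    rcases L''.nbr_t C Ct hz hne with h3 | ⟨u, t1, L1, hu⟩
    · exact h3
    exfalso
    rcases three_leaves C.deg T.L.ax L'.ax L''.ax I.hw h1 h2 L1.ax with h3 | h3 | h3
    · subst h3
      have h4 : z = m := T.L.eq_m L1
      subst h4
      rcases (T.nm.adj t'').1 hz.symm with h5 | h5 | h5
      · exact L''.nxt C (h5 ▸ T.L.ax)
      · rw [h5] at L''
        exact h1 (T.L.uniq_t hC L'')
      · rw [h5] at L''
        exact h2 (L'.uniq_t hC L'')
    · subst h3
      have h4 : z = m' := L'.eq_m L1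
      subst h4
      exact (I.dual C).ntm hG hB hC pl C.dual (L''.dual C) h1 h2 hz.symm
    · exact hu h3
  have O : Oth G g x m' w w'' m'' t'' z1 :=
    ⟨L'', h1, nt.ay, nt.xy.symm, hv z1 nt.ay nt.xy.symm, fun h3 => h2 (by
      rw [← h3] at L''
      exact L'.uniq_m hC L''), (I.dual C).ntm hG hB hC pl C.dual (L''.dual C) h1 h2⟩
  exact O.fat hG hB hC pl T C Ct nt.az nt.xz.symm nt.yz (hv z2 nt.az nt.xz.symm)

/-- In the configuration `IV` the third leaf is a pendant. -/
theorem IV.third (hG : Deg13 G) (hB : NoBal3 G) (hC : C4Free G) (pl : PL G) {m' t' : V}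
    (I : IV G g x w m t w' m' t') (C : Cen G g x) (hx : G.Adj x w'') (h1 : w ≠ w'')
    (h2 : w' ≠ w'') : G.degree w'' = 1 := by
  rcases C.lf hx with h3 | ⟨m'', t'', L''⟩
  · exact h3
  exfalso
  have T := I.T
  have L' := I.L
  have Ct : Cen G g t' := T.cp hG hB hC pl C
  have n1 := I.ntm hG hB hC pl C L'' h1 h2
  have I' := I.dual C
  -- neighbours of `m''` of colour `false` are not special, except `t''`
  have nsp : ∀ y z m4, G.Adj m'' y → y ≠ t'' → Lf G g x z m4 y → False := by
    intro y z m4 hy hne L4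
    rcases three_leaves C.deg T.L.ax L'.ax L''.ax I.hw h1 h2 L4.ax with h3 | h3 | h3
    · subst h3
      have h4 : y = t := T.L.eq_t L4
      subst h4
      rcases (T.nt.adj m'').1 hy.symm with h5 | h5 | h5
      · exact L''.nxm C (h5 ▸ T.L.ax)
      · rw [h5] at L''
        exact h1 (T.L.uniq_m hC L'')
      · rw [h5] at L''
        exact h2 (L'.uniq_m hC L'')
    · subst h3
      have h4 : y = t' := L'.eq_t L4
      subst h4
      exact n1 hy.symm
    · subst h3
      exact hne (L''.eq_t L4)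
  by_cases htri : G.Adj m'' t''
  · obtain ⟨p1, q1, T1⟩ := L''.tri C htri
    have px := T1.px C
    have hp : Far G x p1 := by
      intro z hz hpz
      obtain ⟨m4, L4⟩ := C.spec_false px (T1.gp C) hz hpz
      exact nsp p1 z m4 T1.nm.az T1.nm.yz.symm L4
    have hq : Far G x q1 := by
      intro z hz hqz
      obtain ⟨t4, L4⟩ := C.spec_true (T1.gq C) hz hqz
      have h3 : p1 = t4 := T1.iv' hG hB hC pl C L4
      subst h3
      exact hp z hz L4.nb.az.symm
    have h3 := T1.only hG hB hC pl C hp hq L' h2.symm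
    exact Ct.not_tri L'.nb.az.symm h3.symm L'.nb.ay
  · obtain ⟨y, y', nb⟩ := exists_nb3 G (L''.dm C) L''.nb.ay.symm
    have hyt : y ≠ t'' := by
      rintro rfl
      exact htri nb.ay
    have hyt' : y' ≠ t'' := by
      rintro rfl
      exact htri nb.az
    have kA : Cen G (dc G g x) m'' → False := fun Cm =>
      I'.kill hG hB hC pl C.dual (L''.dual C) h1 h2 Cm
    rcases L''.nbr_m hG C nb.ay nb.xy.symm with h3 | U | ⟨z, m4, L4⟩
    · exact kA (L''.e3 hG hB hC C nb.ay nb.xy.symm h3)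
    · rcases L''.nbr_m hG C nb.az nb.xz.symm with h3 | U' | ⟨z, m4, L4⟩
      · exact kA (L''.e3 hG hB hC C nb.az nb.xz.symm h3)
      · exact I.kill hG hB hC pl C L'' h1 h2
          (L''.uu_b hG hB hC pl C htri nb.yz nb.ay nb.az U U')
      · exact nsp y' z m4 nb.az hyt' L4
    · exact nsp y z m4 nb.ay hyt L4

/-- The configuration `IV` is impossible. -/
theorem IV.false (hcls : Cls13 G) (hB : NoBal3 G) (pl : PL G) {m' t' : V}
    (I : IV G g x w m t w' m' t') (C : Cen G g x) : False := by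
  have hG := hcls.deg
  have hC := hcls.c4
  have T := I.T
  have L' := I.L
  have Ct : Cen G g t' := T.cp hG hB hC pl C
  have Cm : Cen G (dc G g x) m' := T.cq hG hB hC pl C
  -- the third leaf of `x`
  obtain ⟨u, nx⟩ := exists_nb23 G C.deg T.L.ax L'.ax I.hw
  have du := I.third hG hB hC pl C nx.az nx.xz nx.yz
  -- the configuration at `t'`
  have hmw : m ≠ w' := by
    rintro rfl
    exact T.L.nxm C L'.ax
  have htw : t ≠ w' := by
    rintro rfl
    exact T.L.nxt C L'.ax
  have I1 : IV G g t' m w t w' m' x :=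
    ⟨T.at_p C, ⟨L'.nb.az.symm, ⟨fun v => by rw [L'.nb.adj]; tauto, L'.nb.yz.symm, L'.nb.xz.symm,
      L'.nb.xy.symm⟩, L'.gm, C.gfalse⟩, hmw⟩
  obtain ⟨P, np⟩ := exists_nb23 G (L'.dt C) T.nm.az.symm L'.nb.az.symm hmw
  have dP := I1.third hG hB hC pl Ct np.az np.xz np.yz
  -- the configuration at `m'`
  have I2 : IV G (dc G g x) m' t w m w' t' x :=
    ⟨T.at_q C, ⟨L'.nb.ay.symm, ⟨fun v => by rw [L'.nb.adj]; tauto, L'.nb.yz, L'.nb.xy.symm,
      L'.nb.xz.symm⟩, dc_false L'.gt L'.nb.xz.symm (L'.nxt C), C.dc_x⟩, htw⟩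
  obtain ⟨N, nn⟩ := exists_nb23 G (L'.dm C) T.nt.az.symm L'.nb.ay.symm htw
  have dN := I2.third hG hB hC pl Cm nn.az nn.xz nn.yz
  have dw := T.L.nb.degree G
  have dm := T.L.dm C
  have dt := T.L.dt C
  refine hcls.no_triangle (t := ![w, m, t]) (o := ![x, t', m']) (p := ![u, P, N]) ?_ ?_ ?_ ?_ ?_
  · intro i j hij
    have h1 := T.nm.xy
    have h2 := T.L.nb.ay.ne
    have h3 := T.nm.ay.ne
    fin_cases i <;> fin_cases j <;> simp_all
  · intro i v hv
    fin_cases i
    · rcases (T.L.nb.adj v).1 hv with h1 | h1 | h1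
      · exact Or.inl h1
      · exact Or.inr ⟨1, h1⟩
      · exact Or.inr ⟨2, h1⟩
    · rcases (T.nm.adj v).1 hv with h1 | h1 | h1
      · exact Or.inr ⟨0, h1⟩
      · exact Or.inr ⟨2, h1⟩
      · exact Or.inl h1
    · rcases (T.nt.adj v).1 hv with h1 | h1 | h1
      · exact Or.inr ⟨0, h1⟩
      · exact Or.inr ⟨1, h1⟩
      · exact Or.inl h1
  · intro i
    fin_cases i
    · exact nx.az
    · exact np.az
    · exact nn.az
  · have key : ∀ v, G.degree v = 1 → v ≠ w ∧ v ≠ m ∧ v ≠ t := by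
      intro v hv
      refine ⟨?_, ?_, ?_⟩ <;> rintro rfl <;> omega
    intro i j
    have k1 := key u du
    have k2 := key P dP
    have k3 := key N dN
    fin_cases i <;> fin_cases j
    · exact k1.1
    · exact k1.2.1
    · exact k1.2.2
    · exact k2.1
    · exact k2.2.1
    · exact k2.2.2
    · exact k3.1
    · exact k3.2.1
    · exact k3.2.2
  · intro i
    fin_cases i
    · exact du
    · exact dP
    · exact dN

/-- Both outer neighbours of a leaf triangle are far from the star. -/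
theorem Tri.far (hcls : Cls13 G) (hB : NoBal3 G) (pl : PL G) {p q : V}
    (T : Tri G g x w m t p q) (C : Cen G g x) : Far G x p ∧ Far G x q := by
  have hG := hcls.deg
  have hC := hcls.c4
  have hp : Far G x p := by
    intro z hz hpz
    obtain ⟨m', L'⟩ := C.spec_false (T.px C) (T.gp C) hz hpz
    have h1 : q = m' := T.iv hG hB hC pl C L'
    subst h1
    refine IV.false (w' := z) (t' := p) hcls hB pl ⟨T, L', ?_⟩ C
    rintro rfl
    exact T.nm.yz (T.L.eq_t L').symm
  refine ⟨hp, fun z hz hqz => ?_⟩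
  obtain ⟨t', L'⟩ := C.spec_true (T.gq C) hz hqz
  have h1 : p = t' := T.iv' hG hB hC pl C L'
  subst h1
  exact hp z hz L'.nb.az.symm

/-- The centres with a leaf triangle. -/
def TriHub (G : SimpleGraph V) [DecidableRel G.Adj] (y : V) : Prop :=
  ∃ g w m t p q, Cen G g y ∧ Tri G g y w m t p q

theorem triData (hcls : Cls13 G) (hB : NoBal3 G) (pl : PL G) : TriData G (TriHub G) := by
  have hG := hcls.deg
  have hC := hcls.c4
  rintro y ⟨g, w, m, t, p, q, C, T⟩
  have hf := T.far hcls hB pl C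
  refine ⟨C.deg, fun l hl => ?_⟩
  rcases C.lf hl with h1 | ⟨m', t', L'⟩
  · exact Or.inl h1
  · right
    have htri : G.Adj m' t' := by
      by_cases h1 : w = l
      · subst h1
        rw [T.L.eq_m L', T.L.eq_t L']
        exact T.nm.ay
      · exact T.only hG hB hC pl C hf.1 hf.2 L' h1
    obtain ⟨p', q', T'⟩ := L'.tri C htri
    refine ⟨m', t', L'.nb.adj, L'.nb.yz, L'.nb.xy.symm, L'.nb.xz.symm, htri, ?_, ?_⟩
    · intro v hv h1 h2
      have h3 : v = p' := by
        rcases (T'.nm.adj v).1 hv with h3 | h3 | h3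
        · exact absurd h3 h1
        · exact absurd h3 h2
        · exact h3
      subst h3
      exact ⟨_, _, _, _, _, _, T'.cp hG hB hC pl C, T'.at_p C⟩
    · intro v hv h1 h2
      have h3 : v = q' := by
        rcases (T'.nt.adj v).1 hv with h3 | h3 | h3
        · exact absurd h3 h1
        · exact absurd h3 h2
        · exact h3
      subst h3
      exact ⟨_, _, _, _, _, _, T'.cq hG hB hC pl C, T'.at_q C⟩

/-- **No leaf triangles.** -/
theorem no_leaf_tri (hcls : Cls13 G) (hB : NoBal3 G) (pl : PL G) (g : V → Bool) (x : V)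
    (l a b : Fin 3 → V) (h : Fr G g x l a b) (i : Fin 3) (hi : a i ≠ x) :
    ¬ G.Adj (a i) (b i) := by
  intro hadj
  have C : Cen G g x := ⟨_, _, _, h⟩
  have L : Lf G g x (l i) (a i) (b i) :=
    ⟨h.star.l_adj i, h.nb_l i hi, h.star.ca i hi, h.star.cb i (h.b_ne hi)⟩
  obtain ⟨p, q, T⟩ := L.tri C hadj
  exact tri_close hcls hB (triData hcls hB pl) (x := x) ⟨_, _, _, _, _, _, C, T⟩

end

end Pool.Agent.BLN
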