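import Pool.Agent.BLN.LabE3
import Pool.Agent.BLN.LT

set_option autoImplicit false
set_option linter.unusedSectionVars false

/-!
# R1, label part

Labels along sets of flips, and the label part of R1: a dual centre `a i` and a centre `b j`,
`i ≠ j`, are impossible if `a i`, `b j` are not adjacent and `b j`, `a k` are not adjacent.
-/

namespace Pool.Agent.BLN

open Finset Pool.Agent.IVT Pool.BLE

variable {V : Type} [Fintype V] [DecidableEq V] {G : SimpleGraph V} [DecidableRel G.Adj]

/-! ### states given by sets of flips -/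

/-- The state `flips S g` has the label `s` and energy at most `E`. -/
structure St (G : SimpleGraph V) [DecidableRel G.Adj] (g : V → Bool) (s : Bool) (E : ℕ)
    (S : Finset V) : Prop where
  lab : Lab3 G s (flips S g)
  en : En G (flips S g) ≤ E

/-- A flip of a vertex with an own neighbour. -/
theorem St.up (hG : Deg13 G) (hB : NoBal3 G) {c g : V → Bool} (hc : Crit3 G c) {s : Bool} {E : ℕ}
    {S : Finset V} {v : V} (h : St G g s E S) (hE : E + 2 < En G c) (hv : v ∉ S)
    (h1 : G.degree v = 1 ∨ ∃ w, G.Adj v w ∧ flips S g w = g v) : St G g s (E + 2) (insert v S) := by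
  have hf : flip (flips S g) v = flips (insert v S) g := flip_flips hv
  have hg : flips S g v = g v := flips_ne hv
  have h2 : En G (flip (flips S g) v) ≤ En G (flips S g) + 2 := by
    refine en_up hG ?_
    rcases h1 with h1 | ⟨w, h3, h4⟩
    · exact Or.inl h1
    · exact Or.inr (own_ge_one h3 (by rw [h4, hg]))
  have h3 := h.en
  refine ⟨?_, ?_⟩
  · rw [← hf]
    exact lab_low hG hB hc (by omega) (by omega) h.lab
  · rw [← hf]
    omega

/-- A flip of a vertex with two own neighbours, or of a pendant with one. -/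
theorem St.down (hG : Deg13 G) (hB : NoBal3 G) {c g : V → Bool} (hc : Crit3 G c) {s : Bool} {E : ℕ}
    {S : Finset V} {v : V} (h : St G g s (E + 2) S) (hE : E + 2 < En G c) (hv : v ∉ S)
    (h1 : (∃ w w', G.Adj v w ∧ G.Adj v w' ∧ w ≠ w' ∧ flips S g w = g v ∧ flips S g w' = g v) ∨
      (G.degree v = 1 ∧ ∃ w, G.Adj v w ∧ flips S g w = g v)) : St G g s E (insert v S) := by
  have hf : flip (flips S g) v = flips (insert v S) g := flip_flips hv
  have hg : flips S g v = g v := flips_ne hv
  have h2 : En G (flip (flips S g) v) + 2 ≤ En G (flips S g) := by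
    refine en_down hG ?_
    rcases h1 with ⟨w, w', h3, h4, h5, h6, h7⟩ | ⟨h3, w, h4, h5⟩
    · exact Or.inl (own_ge_two h3 h4 h5 (by rw [h6, hg]) (by rw [h7, hg]))
    · exact Or.inr ⟨h3, own_ge_one h4 (by rw [h5, hg])⟩
  have h3 := h.en
  refine ⟨?_, ?_⟩
  · rw [← hf]
    exact lab_low hG hB hc (by omega) (by omega) h.lab
  · rw [← hf]
    omega

/-- As `St.down`, with a weaker energy bound. -/
theorem St.down0 (hG : Deg13 G) (hB : NoBal3 G) {c g : V → Bool} (hc : Crit3 G c) {s : Bool} {E : ℕ}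
    {S : Finset V} {v : V} (h : St G g s E S) (hE : E + 2 < En G c) (hv : v ∉ S)
    (h1 : (∃ w w', G.Adj v w ∧ G.Adj v w' ∧ w ≠ w' ∧ flips S g w = g v ∧ flips S g w' = g v) ∨
      (G.degree v = 1 ∧ ∃ w, G.Adj v w ∧ flips S g w = g v)) : St G g s E (insert v S) := by
  have h2 : St G g s (E + 2) S := ⟨h.lab, by have := h.en; omega⟩
  exact h2.down hG hB hc hE hv h1

/-- Two labels below the critical energy. -/
theorem St.clash {c g : V → Bool} (hc : Crit3 G c) {E E' : ℕ} {S S' : Finset V}
    (h : St G g true E S) (h' : St G g false E' S') (hS : S = S') (hE : E < En G c) : False := by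
  subst hS
  exact lab_clash hc (lt_of_le_of_lt h.en hE) h.lab h'.lab

section

variable {g : V → Bool} {x : V} {l a b : Fin 3 → V}

theorem ntf {v w : V} (h1 : g v = true) (h2 : g w = false) : v ≠ w := by
  rintro rfl
  rw [h1] at h2
  exact absurd h2 (by decide)

theorem nft {v w : V} (h1 : g v = false) (h2 : g w = true) : v ≠ w := (ntf h2 h1).symm

theorem Fr.En_du (h : Fr G g x l a b) : En G (du g x l) = En G g := by
  rw [← En_neg, neg_du, h.En_gm]

/-- **E3**, for `IsK`. -/
theorem Fr.e3_isK (hG : Deg13 G) (hB : NoBal3 G) (hC : C4Free G) (h : Fr G g x l a b) {i : Fin 3}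
    {w : V} (hi : a i ≠ x) (hw : G.Adj (a i) w) (hk : IsK G g x l a b w) :
    Cen G (du g x l) (a i) := by
  refine h.e3 hG hB hC hi hw hk.rest ?_
  rcases hk.k with h1 | ⟨z, -, hadj, h1⟩
  · exact Or.inl h1
  · exact Or.inr (own_ge_one hadj h1)

/-- The neighbours of `a i` other than `l i`. -/
theorem Fr.a_nb (h : Fr G g x l a b) {i : Fin 3} (hi : a i ≠ x) {y : V} (hy : G.Adj (a i) y)
    (hyl : y ≠ l i) : y ∈ rest x l ∧ g y = false := by
  have hl : ∀ p, y ≠ l p := by
    intro p hp
    have h1 := h.star.spec_of_adj (h.star.a_rest i hi) (i := p) (by rw [← hp]; exact hy)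
    have h2 := h.star.leaf_unique hi h1 (Or.inl rfl)
    subst h2
    exact hyl hp
  have h1 := h.star.adj_rest (h.star.a_rest i hi) hy hl
  exact ⟨h1, h.star.own_a i hi y h1 hy⟩

/-- The neighbours of `b i` other than `l i`. -/
theorem Fr.b_nb (h : Fr G g x l a b) {i : Fin 3} (hi : a i ≠ x) {y : V} (hy : G.Adj (b i) y)
    (hyl : y ≠ l i) : y ∈ rest x l ∧ g y = true := by
  have h1 := h.dual.a_nb (h.star.b_ne hi) hy hyl
  refine ⟨h1.1, ?_⟩
  have h2 := h1.2
  rw [du_rest h1.1] at h2
  simpa using h2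

/-- A neighbour of a vertex of the rest which is not a special. -/
theorem Fr.ord_nb (h : Fr G g x l a b) {y m : V} (hy : y ∈ rest x l) (ha : ∀ p, y ≠ a p)
    (hb : ∀ p, y ≠ b p) (hm : G.Adj y m) : m ∈ rest x l := by
  refine h.star.adj_rest hy hm ?_
  rintro p rfl
  rcases h.star.spec_of_adj hy hm with h1 | h1
  · exact ha p h1
  · exact hb p h1

theorem du_true_rest {z : V} (hz : z ∈ rest x l) : du g x l z = true ↔ g z = false := by
  rw [du_rest hz]
  cases g z <;> simp

theorem du_false_rest {z : V} (hz : z ∈ rest x l) : du g x l z = false ↔ g z = true := by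
  rw [du_rest hz]
  cases g z <;> simp

/-- An ordinary neighbour `y` of a dual centre `a i`. -/
theorem Fr.kA (h : Fr G g x l a b) {i : Fin 3} (hi : a i ≠ x) (hA : Cen G (du g x l) (a i)) {y : V}
    (hy : G.Adj (a i) y) (hyl : y ≠ l i) (hyb : ∀ p, y ≠ b p) :
    G.degree y = 1 ∨ ∃ m t, Nb G y (a i) m t ∧ m ∈ rest x l ∧ g m = false ∧ t ∈ rest x l ∧
      g t = true ∧ G.degree m = 3 ∧ G.degree t = 3 ∧ (∀ z, z ∈ rest x l → G.Adj t z → g z = false) ∧
      ¬ G.Adj (a i) m := by
  obtain ⟨hyr, gy⟩ := h.a_nb hi hy hyl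
  have hya : ∀ p, y ≠ a p := by
    intro p hp
    have h1 : a p ≠ x := by rw [← hp]; exact (mem_rest.1 hyr).1
    have h2 := h.star.ca p h1
    rw [← hp, gy] at h2
    exact absurd h2 (by decide)
  rcases hA.leaf hy with h1 | ⟨m, t, nb, gm, gt, dm, dt, ht, hnm⟩
  · exact Or.inl h1
  · right
    have hmr := h.ord_nb hyr hya hyb nb.ay
    have htr := h.ord_nb hyr hya hyb nb.az
    refine ⟨m, t, nb, hmr, (du_true_rest hmr).1 gm, htr, (du_false_rest htr).1 gt, dm, dt, ?_, hnm⟩
    intro z hz hadj
    exact (du_true_rest hz).1 (ht z hadj)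

/-- An ordinary neighbour `y` of a centre `b i`. -/
theorem Fr.kB (h : Fr G g x l a b) {i : Fin 3} (hi : a i ≠ x) (hB : Cen G g (b i)) {y : V}
    (hy : G.Adj (b i) y) (hyl : y ≠ l i) (hya : ∀ p, y ≠ a p) :
    G.degree y = 1 ∨ ∃ m t, Nb G y (b i) m t ∧ m ∈ rest x l ∧ g m = true ∧ t ∈ rest x l ∧
      g t = false ∧ G.degree m = 3 ∧ G.degree t = 3 ∧ (∀ z, z ∈ rest x l → G.Adj t z → g z = true) ∧
      ¬ G.Adj (b i) m := by
  have hB' : Cen G (du (du g x l) x l) (b i) := by rwa [h.du_du]
  rcases h.dual.kA (h.star.b_ne hi) hB' hy hyl hya with h1 | ⟨m, t, nb, hm, gm, ht, gt, dm, dt, h2, h3⟩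
  · exact Or.inl h1
  · right
    refine ⟨m, t, nb, hm, (du_false_rest hm).1 gm, ht, (du_true_rest ht).1 gt, dm, dt, ?_, h3⟩
    intro z hz hadj
    exact (du_false_rest hz).1 (h2 z hz hadj)

/-- The state with the label `true` at a dual centre `a i`. -/
theorem Fr.stA (h : Fr G g x l a b) {i j k : Fin 3} (hij : i ≠ j) (hik : i ≠ k) (hjk : j ≠ k)
    (hi : a i ≠ x) (hA : Cen G (du g x l) (a i)) {y y' : V} (nb : Nb G (a i) (l i) y y') :
    St G g true (En G g) {x, l j, l k, a i, y, y'} := by
  obtain ⟨l', a', b', hf⟩ := hA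
  have key : du (du g x l) (a i) l' = flips {x, l j, l k, a i, y, y'} g := by
    have har := h.star.a_rest i hi
    obtain ⟨hyr, gy⟩ := h.a_nb hi nb.ay nb.xy.symm
    obtain ⟨hyr', gy'⟩ := h.a_nb hi nb.az nb.xz.symm
    have hin : ∀ v, G.Adj (a i) v → du (du g x l) (a i) l' v = true := by
      intro v hv
      obtain ⟨p, rfl⟩ := (hf.star.nx v).1 hv
      exact hf.du_l p
    have hout : ∀ v, v ≠ a i → ¬ G.Adj (a i) v → du (du g x l) (a i) l' v = !(du g x l v) := by
      intro v h1 h2
      refine du_rest (mem_rest.2 ⟨h1, ?_⟩)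
      rintro p rfl
      exact h2 ((hf.star.nx _).2 ⟨p, rfl⟩)
    have nil : ∀ p, p ≠ i → ¬ G.Adj (a i) (l p) := by
      intro p hp h1
      exact hp (h.star.leaf_unique hi (h.star.spec_of_adj har h1) (Or.inl rfl))
    have nix : ¬ G.Adj (a i) x := h.x_ne_nbr_a i hi
    funext v
    rcases h.star.cases v with rfl | ⟨p, rfl⟩ | hv
    · rw [hout _ hi.symm nix, du_x, flips_mem (by simp), h.gx]
    · rcases three hij hik hjk p with rfl | rfl | rfl
      · rw [hin _ nb.ax, flips_ne, h.gl]
        have h1 := h.star.l_ne_x p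
        have h2 := (mem_rest.1 har).2 p
        have h3 := (mem_rest.1 hyr).2 p
        have h4 := (mem_rest.1 hyr').2 p
        have h5 : l p ≠ l j := fun e => hij (h.star.l_inj e)
        have h6 : l p ≠ l k := fun e => hik (h.star.l_inj e)
        simp [h1, h2.symm, h3.symm, h4.symm, h5, h6]
      · rw [hout _ ((mem_rest.1 har).2 p).symm (nil p hij.symm), h.du_l, flips_mem (by simp), h.gl]
      · rw [hout _ ((mem_rest.1 har).2 p).symm (nil p hik.symm), h.du_l, flips_mem (by simp), h.gl]
    · by_cases h1 : v = a i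
      · subst h1
        rw [du_x, flips_mem (by simp), h.star.ca i hi]; rfl
      by_cases h2 : v = y
      · subst h2
        rw [hin _ nb.ay, flips_mem (by simp), gy]; rfl
      by_cases h3 : v = y'
      · subst h3
        rw [hin _ nb.az, flips_mem (by simp), gy']; rfl
      have h4 := mem_rest.1 hv
      have h5 : ¬ G.Adj (a i) v := by
        rw [nb.adj]
        push Not
        exact ⟨h4.2 i, h2, h3⟩
      rw [hout v h1 h5, du_rest hv, Bool.not_not, flips_ne]
      simp [h4.1, h4.2 j, h4.2 k, h1, h2, h3]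
  refine ⟨?_, ?_⟩
  · rw [← key]
    exact hf.dual.lab
  · rw [← key, hf.En_du, h.En_du]

/-- The state with the label `false` at a centre `b j`. -/
theorem Fr.stB (h : Fr G g x l a b) {j : Fin 3} (hj : a j ≠ x) (hB : Cen G g (b j)) {z z' : V}
    (nb : Nb G (b j) (l j) z z') : St G g false (En G g) {b j, l j, z, z'} := by
  obtain ⟨l', a', b', hf⟩ := hB
  have key : gm g (b j) l' = flips {b j, l j, z, z'} g := by
    have hin : ∀ v, G.Adj (b j) v → gm g (b j) l' v = false ∧ g v = true := by
      intro v hv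
      obtain ⟨p, rfl⟩ := (hf.star.nx v).1 hv
      exact ⟨hf.gm_l p, hf.gl p⟩
    funext v
    by_cases h1 : v = b j
    · subst h1
      rw [gm_x, flips_mem (by simp), hf.gx]; rfl
    by_cases h2 : G.Adj (b j) v
    · have h3 : v ∈ ({b j, l j, z, z'} : Finset V) := by
        rcases (nb.adj v).1 h2 with rfl | rfl | rfl <;> simp
      rw [(hin v h2).1, flips_mem h3, (hin v h2).2]; rfl
    · rw [gm_rest, flips_ne]
      · rw [nb.adj] at h2
        push Not at h2
        simp [h1, h2]
      · refine mem_rest.2 ⟨h1, ?_⟩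
        rintro p rfl
        exact h2 ((hf.star.nx _).2 ⟨p, rfl⟩)
  refine ⟨?_, ?_⟩
  · rw [← key]
    exact hf.lab_gm
  · rw [← key, hf.En_gm]

/-- The label part of R1, with `y'` either an ordinary neighbour of `a i` or equal to `b k`. -/
theorem Fr.r1_lab_aux (hG : Deg13 G) (hB : NoBal3 G) (h : Fr G g x l a b) {i j k : Fin 3}
    (hij : i ≠ j) (hik : i ≠ k) (hjk : j ≠ k) (hi : a i ≠ x) (hj : a j ≠ x)
    (ho : ∀ p, a p ≠ x → ¬ G.Adj (a p) (b p))
    (hA : Cen G (du g x l) (a i)) (hBj : Cen G g (b j))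
    (hn : ¬ G.Adj (a i) (b j)) (hak : ¬ G.Adj (b j) (a k)) {y y' : V}
    (nb : Nb G (a i) (l i) y y') (hyk : y ≠ b k) : False := by
  have st := h.star
  obtain ⟨c, hc, hE⟩ := h.en
  obtain ⟨z, z', nz⟩ := exists_nb3 G (st.deg_b j (st.b_ne hj)) (h.nb_l j hj).az.symm
  have hbj := st.b_ne hj
  have gx := h.gx
  have ga : g (a i) = true := st.ca i hi
  have gb : g (b j) = false := st.cb j hbj
  have har := st.a_rest i hi
  have hbr := st.b_rest j hbj
  obtain ⟨hyr, gy⟩ := h.a_nb hi nb.ay nb.xy.symm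
  obtain ⟨hyr', gy'⟩ := h.a_nb hi nb.az nb.xz.symm
  obtain ⟨hzr, gz⟩ := h.b_nb hj nz.ay nz.xy.symm
  obtain ⟨hzr', gz'⟩ := h.b_nb hj nz.az nz.xz.symm
  have gl := h.gl
  -- the neighbours of `a i` which are not specials
  have nyb : ∀ w, G.Adj (a i) w → w ≠ b k → ∀ p, w ≠ b p := by
    rintro w h1 h2 p rfl
    rcases three hij hik hjk p with rfl | rfl | rfl
    · exact ho p hi h1
    · exact hn h1
    · exact h2 rfl
  have nza : ∀ w, G.Adj (b j) w → ∀ p, w ≠ a p := by
    rintro w h1 p rfl
    rcases three hij hik hjk p with rfl | rfl | rfl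
    · exact hn h1.symm
    · exact ho p hj h1.symm
    · exact hak h1
  -- the leaves
  have lij : l i ≠ l j := fun e => hij (st.l_inj e)
  have lik : l i ≠ l k := fun e => hik (st.l_inj e)
  have ljk : l j ≠ l k := fun e => hjk (st.l_inj e)
  have nal := (mem_rest.1 har).2
  have nyl := (mem_rest.1 hyr).2
  have nyl' := (mem_rest.1 hyr').2
  have nzl := (mem_rest.1 hzr).2
  have nzl' := (mem_rest.1 hzr').2
  have nbl := (mem_rest.1 hbr).2
  have nyx := (mem_rest.1 hyr).1
  have nyx' := (mem_rest.1 hyr').1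
  have nzx := (mem_rest.1 hzr).1
  have nzx' := (mem_rest.1 hzr').1
  have nlx := st.l_ne_x
  have nby : b j ≠ y := fun e => hn (by rw [e]; exact nb.ay)
  have nby' : b j ≠ y' := fun e => hn (by rw [e]; exact nb.az)
  have nza0 : z ≠ a i := nza z nz.ay i
  have nza0' : z' ≠ a i := nza z' nz.az i
  have nyz : y ≠ z := nft gy gz
  have nyz1 : y ≠ z' := nft gy gz'
  have nyz2 : y' ≠ z := nft gy' gz
  have nyz3 : y' ≠ z' := nft gy' gz'
  have nab : a i ≠ b j := ntf ga gb
  have nay : a i ≠ y := ntf ga gy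
  have nay' : a i ≠ y' := ntf ga gy'
  -- the side of `a i`
  have P0 := h.stA hij hik hjk hi hA nb
  have P1 : St G g true (En G g + 2) (insert (b j) {x, l j, l k, a i, y, y'}) := by
    refine P0.up hG hB hc (by omega) ?_ (Or.inr ⟨l j, nz.ax, ?_⟩)
    · simp [hbj, nbl, nab.symm, nby, nby']
    · rw [flips_mem (by simp), gl, gb]; rfl
  -- a neighbour of `b j`
  have mz : ∀ w, G.Adj (b j) w → w ≠ l j → g w = true → ∀ S : Finset V,
      (∀ v, v ∈ S → g v = true → v = l j ∨ v = l k ∨ v = a i ∨ G.Adj (b j) v) → b j ∈ S →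
      ((∃ u u', G.Adj w u ∧ G.Adj w u' ∧ u ≠ u' ∧ flips S g u = g w ∧ flips S g u' = g w) ∨
      (G.degree w = 1 ∧ ∃ u, G.Adj w u ∧ flips S g u = g w)) := by
    intro w h1 h2 gw S hS hbS
    have hbS' : flips S g (b j) = g w := by rw [flips_mem hbS, gb, gw]; rfl
    rcases h.kB hj hBj h1 h2 (nza w h1) with h3 | ⟨m, t, nbw, hm, gm, ht, gt, dm, dt, ht', hnm⟩
    · exact Or.inr ⟨h3, b j, h1.symm, hbS'⟩
    · refine Or.inl ⟨b j, m, h1.symm, nbw.ay, nbw.xy, hbS', ?_⟩
      rw [flips_ne, gm, gw]
      intro hmS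
      rcases hS m hmS gm with e | e | e | e
      · exact (mem_rest.1 hm).2 j e
      · exact (mem_rest.1 hm).2 k e
      · rw [e] at nbw
        have h4 := h.a_true i hi nbw.ay.symm gw
        rw [h4] at h1
        exact hij (st.leaf_unique hbj (st.spec_of_adj hbr h1) (Or.inr rfl))
      · exact hnm e
  have P2 : St G g true (En G g) (insert z (insert (b j) {x, l j, l k, a i, y, y'})) := by
    refine P1.down hG hB hc (by omega) ?_ (mz z nz.ay nz.xy.symm gz _ ?_ (by simp))
    · simp [nzx, nzl, nza0, nyz.symm, nyz2.symm, (nft gb gz).symm]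
    · intro v hv gv
      simp only [mem_insert, mem_singleton] at hv
      rcases hv with e | e | e | e | e | e | e
      · rw [e, gb] at gv; exact absurd gv (by decide)
      · rw [e, gx] at gv; exact absurd gv (by decide)
      · exact Or.inl e
      · exact Or.inr (Or.inl e)
      · exact Or.inr (Or.inr (Or.inl e))
      · rw [e, gy] at gv; exact absurd gv (by decide)
      · rw [e, gy'] at gv; exact absurd gv (by decide)
  have P3 : St G g true (En G g) (insert z' (insert z (insert (b j) {x, l j, l k, a i, y, y'}))) := by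
    refine P2.down0 hG hB hc (by omega) ?_ (mz z' nz.az nz.xz.symm gz' _ ?_ (by simp))
    · simp [nzx', nzl', nza0', nyz1.symm, nyz3.symm, (nft gb gz').symm, nz.yz.symm]
    · intro v hv gv
      simp only [mem_insert, mem_singleton] at hv
      rcases hv with e | e | e | e | e | e | e | e
      · exact Or.inr (Or.inr (Or.inr (by rw [e]; exact nz.ay)))
      · rw [e, gb] at gv; exact absurd gv (by decide)
      · rw [e, gx] at gv; exact absurd gv (by decide)
      · exact Or.inl e
      · exact Or.inr (Or.inl e)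
      · exact Or.inr (Or.inr (Or.inl e))
      · rw [e, gy] at gv; exact absurd gv (by decide)
      · rw [e, gy'] at gv; exact absurd gv (by decide)
  -- the side of `b j`
  have Q0 := h.stB hj hBj nz
  have Q1 : St G g false (En G g + 2) (insert (a i) {b j, l j, z, z'}) := by
    refine Q0.up hG hB hc (by omega) ?_ (Or.inr ⟨l i, nb.ax, ?_⟩)
    · simp [nab, nal, nza0.symm, nza0'.symm]
    · rw [flips_ne, gl, ga]
      simp [(nbl i).symm, lij, (nzl i).symm, (nzl' i).symm]
  -- a neighbour of `a i`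
  have my : ∀ w, G.Adj (a i) w → w ≠ l i → w ≠ b k → g w = false → ∀ S : Finset V,
      (∀ v, v ∈ S → g v = false → v = b j ∨ G.Adj (a i) v) → a i ∈ S →
      ((∃ u u', G.Adj w u ∧ G.Adj w u' ∧ u ≠ u' ∧ flips S g u = g w ∧ flips S g u' = g w) ∨
      (G.degree w = 1 ∧ ∃ u, G.Adj w u ∧ flips S g u = g w)) := by
    intro w h1 h2 h2' gw S hS hbS
    have hbS' : flips S g (a i) = g w := by rw [flips_mem hbS, ga, gw]; rfl
    rcases h.kA hi hA h1 h2 (nyb w h1 h2') with h3 | ⟨m, t, nbw, hm, gm, ht, gt, dm, dt, ht', hnm⟩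
    · exact Or.inr ⟨h3, a i, h1.symm, hbS'⟩
    · refine Or.inl ⟨a i, m, h1.symm, nbw.ay, nbw.xy, hbS', ?_⟩
      rw [flips_ne, gm, gw]
      intro hmS
      rcases hS m hmS gm with e | e
      · have h4 := h.b_all j hbj (z := w) (by rw [← e]; exact nbw.ay.symm)
        rw [gw] at h4
        exact absurd h4 (by decide)
      · exact hnm e
  have Q2 : St G g false (En G g) (insert y (insert (a i) {b j, l j, z, z'})) := by
    refine Q1.down hG hB hc (by omega) ?_ (my y nb.ay nb.xy.symm hyk gy _ ?_ (by simp))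
    · simp [nyl, nby.symm, nyz, nyz1, nay.symm]
    · intro v hv gv
      simp only [mem_insert, mem_singleton] at hv
      rcases hv with e | e | e | e | e
      · rw [e, ga] at gv; exact absurd gv (by decide)
      · exact Or.inl e
      · rw [e, gl] at gv; exact absurd gv (by decide)
      · rw [e, gz] at gv; exact absurd gv (by decide)
      · rw [e, gz'] at gv; exact absurd gv (by decide)
  have hy'm : y' ∉ insert y (insert (a i) ({b j, l j, z, z'} : Finset V)) := by
    simp [nyl', nby'.symm, nyz2, nyz3, nay'.symm, nb.yz.symm]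
  have lkm : l k ∉ insert y' (insert y (insert (a i) ({b j, l j, z, z'} : Finset V))) := by
    simp [(nyl' k).symm, (nyl k).symm, (nal k).symm, (nbl k).symm, ljk.symm, (nzl k).symm,
      (nzl' k).symm]
  have Q4 : St G g false (En G g + 2) (insert (l k) (insert y' (insert y (insert (a i)
      {b j, l j, z, z'})))) := by
    by_cases hk : a k = x
    · have hy'k : y' ≠ b k := by
        rw [(st.a_eq_iff k).1 hk]
        exact nyx'
      have Q3 : St G g false (En G g) (insert y' (insert y (insert (a i) {b j, l j, z, z'}))) := by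
        refine Q2.down0 hG hB hc (by omega) hy'm (my y' nb.az nb.xz.symm hy'k gy' _ ?_ (by simp))
        intro v hv gv
        simp only [mem_insert, mem_singleton] at hv
        rcases hv with e | e | e | e | e | e
        · exact Or.inr (by rw [e]; exact nb.ay)
        · rw [e, ga] at gv; exact absurd gv (by decide)
        · exact Or.inl e
        · rw [e, gl] at gv; exact absurd gv (by decide)
        · rw [e, gz] at gv; exact absurd gv (by decide)
        · rw [e, gz'] at gv; exact absurd gv (by decide)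
      exact Q3.up hG hB hc (by omega) lkm (Or.inl (st.deg_pl k hk))
    · have nlk := h.nb_l k hk
      have gak := st.ca k hk
      have hakm : flips (insert y' (insert y (insert (a i) ({b j, l j, z, z'} : Finset V)))) g (a k)
          = g (l k) := by
        rw [flips_ne, gak, gl]
        have h1 : a k ≠ a i := fun e => hik (st.a_inj k i e hk).symm
        have h2 := (mem_rest.1 (st.a_rest k hk)).2 j
        have h3 : a k ≠ z := fun e => nza z nz.ay k e.symm
        have h4 : a k ≠ z' := fun e => nza z' nz.az k e.symm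
        simp [ntf gak gy, ntf gak gy', h1, ntf gak gb, h2, h3, h4]
      by_cases hy'k : y' = b k
      · have Q3 : St G g false (En G g + 2)
            (insert y' (insert y (insert (a i) {b j, l j, z, z'}))) := by
          refine Q2.up hG hB hc (by omega) hy'm (Or.inr ⟨a i, nb.az.symm, ?_⟩)
          rw [flips_mem (by simp), ga, gy']; rfl
        have h1 := Q3.down hG hB hc (by omega) lkm (Or.inl ⟨a k, b k, nlk.ay, nlk.az, nlk.yz, hakm, by
          rw [← hy'k, flips_mem (by simp), gy', gl]; rfl⟩)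
        exact ⟨h1.lab, by have := h1.en; omega⟩
      · have Q3 : St G g false (En G g) (insert y' (insert y (insert (a i) {b j, l j, z, z'}))) := by
          refine Q2.down0 hG hB hc (by omega) hy'm (my y' nb.az nb.xz.symm hy'k gy' _ ?_ (by simp))
          intro v hv gv
          simp only [mem_insert, mem_singleton] at hv
          rcases hv with e | e | e | e | e | e
          · exact Or.inr (by rw [e]; exact nb.ay)
          · rw [e, ga] at gv; exact absurd gv (by decide)
          · exact Or.inl e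
          · rw [e, gl] at gv; exact absurd gv (by decide)
          · rw [e, gz] at gv; exact absurd gv (by decide)
          · rw [e, gz'] at gv; exact absurd gv (by decide)
        exact Q3.up hG hB hc (by omega) lkm (Or.inr ⟨a k, nlk.ay, hakm⟩)
  have Q5 : St G g false (En G g) (insert x (insert (l k) (insert y' (insert y (insert (a i)
      {b j, l j, z, z'}))))) := by
    refine Q4.down hG hB hc (by omega) ?_ (Or.inl ⟨l j, l k, st.l_adj j, st.l_adj k, ljk, ?_, ?_⟩)
    · simp [(nlx k).symm, nyx'.symm, nyx.symm, hi.symm, hbj.symm, (nlx j).symm, nzx.symm, nzx'.symm]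
    · rw [flips_mem (by simp), gl, gx]; rfl
    · rw [flips_mem (by simp), gl, gx]; rfl
  refine P3.clash hc Q5 ?_ (by omega)
  ext v
  simp only [mem_insert, mem_singleton]
  tauto

/-- **R1, label part.** -/
theorem Fr.r1_lab (hG : Deg13 G) (hB : NoBal3 G) (h : Fr G g x l a b) {i j k : Fin 3}
    (hij : i ≠ j) (hik : i ≠ k) (hjk : j ≠ k) (hi : a i ≠ x) (hj : a j ≠ x)
    (ho : ∀ p, a p ≠ x → ¬ G.Adj (a p) (b p))
    (hA : Cen G (du g x l) (a i)) (hBj : Cen G g (b j))
    (hn : ¬ G.Adj (a i) (b j)) (hak : ¬ G.Adj (b j) (a k)) : False := by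
  obtain ⟨y, y', nb⟩ := exists_nb3 G (h.star.deg_a i hi) (h.nb_l i hi).ay.symm
  by_cases hyk : y = b k
  · exact h.r1_lab_aux hG hB hij hik hjk hi hj ho hA hBj hn hak (nb.swap G)
      (fun e => nb.yz (hyk.trans e.symm))
  · exact h.r1_lab_aux hG hB hij hik hjk hi hj ho hA hBj hn hak nb hyk

/-- **R1, label part, dual.** -/
theorem Fr.r1_lab' (hG : Deg13 G) (hB : NoBal3 G) (h : Fr G g x l a b) {i j k : Fin 3}
    (hij : i ≠ j) (hik : i ≠ k) (hjk : j ≠ k) (hi : a i ≠ x) (hj : a j ≠ x)
    (ho : ∀ p, a p ≠ x → ¬ G.Adj (a p) (b p))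
    (hA : Cen G (du g x l) (a i)) (hBj : Cen G g (b j))
    (hn : ¬ G.Adj (a i) (b j)) (hbk : ¬ G.Adj (a i) (b k)) : False :=
  h.dual.r1_lab hG hB hij.symm hjk hik (h.star.b_ne hj) (h.star.b_ne hi)
    (fun p hp h1 => ho p (fun h2 => hp ((h.star.a_eq_iff p).1 h2)) h1.symm)
    (by rw [h.du_du]; exact hBj) hA (fun h1 => hn h1.symm) hbk

end

end Pool.Agent.BLN
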