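import Pool.Agent.BLN.Move

set_option autoImplicit false
set_option linter.unusedSectionVars false

/-!
# Label tools

Energy bounds for single flips, labels along flips below the critical energy, and the star at a
critical colouring with three named flippable vertices.
-/

namespace Pool.Agent.BLN

open Finset Pool.Agent.IVT

variable {V : Type} [Fintype V] [DecidableEq V] {G : SimpleGraph V} [DecidableRel G.Adj]

/-! ### own neighbours -/

theorem own_ge_one {d : V → Bool} {v w : V} (h : G.Adj v w) (hw : d w = d v) :
    1 ≤ (bad G d v).card :=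
  Finset.card_pos.2 ⟨w, (mem_bad G d v w).2 ⟨h, hw⟩⟩

theorem own_ge_two {d : V → Bool} {v w w' : V} (h : G.Adj v w) (h' : G.Adj v w') (hne : w ≠ w')
    (hw : d w = d v) (hw' : d w' = d v) : 2 ≤ (bad G d v).card := by
  rw [← Finset.card_pair hne]
  refine Finset.card_le_card ?_
  intro z hz
  rw [mem_insert, mem_singleton] at hz
  rcases hz with rfl | rfl
  · exact (mem_bad G d v _).2 ⟨h, hw⟩
  · exact (mem_bad G d v _).2 ⟨h', hw'⟩

/-- A flip of a vertex of degree one, or with an own neighbour, costs at most one edge. -/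
theorem en_up (hG : Deg13 G) {d : V → Bool} {v : V}
    (h : G.degree v = 1 ∨ 1 ≤ (bad G d v).card) : En G (flip d v) ≤ En G d + 2 := by
  have h1 := En_flip3 G d v
  rcases hG v with h2 | h2
  · omega
  · rcases h with h | h <;> omega

/-- A flip of a vertex with two own neighbours, or of a pendant with one, gains an edge. -/
theorem en_down (hG : Deg13 G) {d : V → Bool} {v : V}
    (h : 2 ≤ (bad G d v).card ∨ (G.degree v = 1 ∧ 1 ≤ (bad G d v).card)) :
    En G (flip d v) + 2 ≤ En G d := by
  have h1 := En_flip3 G d v
  rcases hG v with h2 | h2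
  · omega
  · rcases h with h | h
    · omega
    · omega

theorem fp_of_two (hG : Deg13 G) {d : V → Bool} {v : V}
    (h : 2 ≤ (bad G d v).card ∨ (G.degree v = 1 ∧ 1 ≤ (bad G d v).card)) : Fp G d v := by
  unfold Fp
  rcases hG v with h2 | h2 <;> omega

/-! ### labels -/

/-- One flip strictly below the critical energy keeps the label. -/
theorem lab_low (hG : Deg13 G) (hB : NoBal3 G) {c d : V → Bool} (hc : Crit3 G c) {v : V}
    (h1 : En G d < En G c) (h2 : En G (flip d v) < En G c) {s : Bool} (hd : Lab3 G s d) :
    Lab3 G s (flip d v) :=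
  hc.lab_step G hG hB v h1.le h2.le (hc.not_of_lt G h1) (hc.not_of_lt G h2) hd

/-- Two labels below the critical energy are impossible. -/
theorem lab_clash {c d : V → Bool} (hc : Crit3 G c) (h : En G d < En G c)
    (h1 : Lab3 G true d) (h2 : Lab3 G false d) : False :=
  hc.min d h true h1 h2

/-! ### stars at critical colourings -/

theorem Star3.l_nadj {c : V → Bool} {x : V} {l a b : Fin 3 → V} (st : Star3 G c x l a b)
    (i j : Fin 3) : ¬ G.Adj (l i) (l j) := by
  intro h
  rcases (st.nl i (l j)).1 h with h1 | h1 | h1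
  · exact st.l_ne_x j h1
  · by_cases h2 : a i = x
    · exact st.l_ne_x j (h1.trans h2)
    · exact (mem_rest.1 (st.a_rest i h2)).2 j h1.symm
  · by_cases h2 : b i = x
    · exact st.l_ne_x j (h1.trans h2)
    · exact (mem_rest.1 (st.b_rest i h2)).2 j h1.symm

theorem Star3.l_adj {c : V → Bool} {x : V} {l a b : Fin 3 → V} (st : Star3 G c x l a b)
    (i : Fin 3) : G.Adj x (l i) := (st.nx (l i)).2 ⟨i, rfl⟩

/-- The star of a critical colouring with three flippable vertices `u`, `v`, `w`, where `u` is
adjacent to `v` and `w`. -/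
theorem crit_at (hG : Deg13 G) (hB : NoBal3 G) (hC : C4Free G) {d : V → Bool} (hc : Crit3 G d)
    {u v w : V} (hu : Fp G d u) (hv : Fp G d v) (hw : Fp G d w) (huv : G.Adj u v)
    (huw : G.Adj u w) (hvw : v ≠ w) :
    ∃ l a b : Fin 3 → V, Star3 G d u l a b ∧ l 0 = v ∧ l 1 = w ∧ d (l 2) = !(d u) := by
  obtain ⟨x, l, a, b, s, st, hx, h0, h1, h2, hfl, -, -, -, -, -, -⟩ := crit_star3 G hG hB hC hc
  have ku := (hfl u).1 hu
  have kv := (hfl v).1 hv
  have kw := (hfl w).1 hw
  have huv' := huv.ne
  have huw' := huw.ne
  have n01 := st.l_nadj 0 1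
  have n10 := st.l_nadj 1 0
  rcases ku with rfl | rfl | rfl
  · rcases kv with h | h | h
    · exact absurd h.symm huv'
    · rcases kw with h' | h' | h'
      · exact absurd h'.symm huw'
      · exact absurd (h.trans h'.symm) hvw
      · exact ⟨l, a, b, st, h.symm, h'.symm, by rw [h2, hx]⟩
    · rcases kw with h' | h' | h'
      · exact absurd h'.symm huw'
      · refine ⟨l ∘ Equiv.swap 0 1, a ∘ Equiv.swap 0 1, b ∘ Equiv.swap 0 1,
          st.perm _, ?_, ?_, ?_⟩
        · simp [h]
        · simp [h']
        · have : (Equiv.swap (0 : Fin 3) 1) 2 = 2 := by decide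
          simp only [Function.comp_apply, this]
          rw [h2, hx]
      · exact absurd (h.trans h'.symm) hvw
  · exfalso
    rcases kv with h | h | h
    · rcases kw with h' | h' | h'
      · exact hvw (h.trans h'.symm)
      · exact huw' h'.symm
      · exact n01 (by rw [← h']; exact huw)
    · exact huv' h.symm
    · exact n01 (by rw [← h]; exact huv)
  · exfalso
    rcases kv with h | h | h
    · rcases kw with h' | h' | h'
      · exact hvw (h.trans h'.symm)
      · exact n10 (by rw [← h']; exact huw)
      · exact huw' h'.symm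
    · exact n10 (by rw [← h]; exact huv)
    · exact huv' h.symm

/-- A star read for another colouring that agrees outside the star. -/
theorem Fr.of_star {g d : V → Bool} {u : V} {l a b : Fin 3 → V} (st : Star3 G d u l a b)
    (h : ∀ v ∈ rest u l, g v = d v) (gu : g u = false) (gl : ∀ i, g (l i) = true)
    (he : ∃ c, Crit3 G c ∧ En G g + 4 = En G c) : Fr G g u l a b :=
  ⟨st.congr h, gu, gl, he⟩

/-- Values outside a finite set of flips. -/
theorem flips_ne {S : Finset V} {g : V → Bool} {v : V} (h : v ∉ S) : flips S g v = g v := by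
  simp [flips, h]

theorem flips_mem {S : Finset V} {g : V → Bool} {v : V} (h : v ∈ S) : flips S g v = !g v := by
  simp [flips, h]

theorem flip_flips {S : Finset V} {g : V → Bool} {v : V} (h : v ∉ S) :
    flip (flips S g) v = flips (insert v S) g := by
  funext w
  by_cases hw : w = v
  · subst hw
    rw [flip_same, flips_ne h, flips_mem (mem_insert_self _ _)]
  · rw [flip_ne _ hw]
    by_cases h2 : w ∈ S
    · rw [flips_mem h2, flips_mem (mem_insert_of_mem h2)]
    · rw [flips_ne h2, flips_ne (by simp [hw, h2])]

end Pool.Agent.BLN
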