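import Pool.Agent.BLN.R1All
import Pool.Agent.BLN.LabO

/-!
# The field `o` for all graphs of the class
-/

set_option autoImplicit false
set_option linter.unusedSectionVars false

namespace Pool.Agent.BLN

open Finset Pool.Agent.IVT Pool.BLE

/-- The field `o`, from the path lemma. -/
theorem oAll : OAll := by
  intro V _ _ G _ hcls hB _ huu htri _ g x l a b h i hi
  exact no_leaf_tri hcls hB ⟨huu, htri⟩ g x l a b h i hi

/-- The statement of S11147 from the path lemma. -/
theorem s11147_of_path (hU : UUAll) (hT : TriAll) :
    ∀ (V : Type) [Fintype V] [DecidableEq V] (G : SimpleGraph V) [DecidableRel G.Adj],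
      G.Connected → G.IsRegularOfDegree 3 → (∃ M : G.Subgraph, M.IsPerfectMatching) →
      IsEmpty (G ≃g SimpleGraph.fromRel
        (fun s t : {s : Finset (Fin 5) // s.card = 2} => Disjoint s.1 t.1)) →
      ∃ c : V → Bool,
        (Finset.univ.filter (fun v => c v = true)).card
          = (Finset.univ.filter (fun v => c v = false)).card ∧
        ∀ v : V, {w : V | (G ⊓ SimpleGraph.fromRel
          (fun a b : V => c a = c b)).Reachable v w}.ncard ≤ 2 :=
  s11147_of_fields hU hT r1All oAll

end Pool.Agent.BLN
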