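import Pool.Agent.BLN.Pth.LSH
import Pool.Agent.BLN.Pth.PDefs
import Pool.Agent.BLN.LT

/-!
# The path lemma in the form of the local facts

`LiveAll G` : the path lemma of `Pth`. `uu_of_live`, `tri_of_live` : the local facts `uu` (`UUG`) and
`TriG` of `Asm`.
-/

set_option autoImplicit false
set_option linter.unusedSectionVars false

namespace Pool.Agent.BLN

open Finset Pool.Agent.IVT Pool.BLE Star3

variable {V : Type} [Fintype V] [DecidableEq V]

/-- no frame has a start special `s` with a neighbour `u` in `Uo` which has a neighbour `w` in `Uo` -/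
def LiveAll (G : SimpleGraph V) [DecidableRel G.Adj] : Prop :=
  ∀ (g : V → Bool) (x : V) (l a b : Fin 3 → V), Fr G g x l a b → ∀ (i : Fin 3) (s u w : V),
    IsStart G g x l a b i s → u ∈ Star3.Uo G g x l a b → G.Adj s u → w ∈ Star3.Uo G g x l a b →
    G.Adj u w → False

variable {G : SimpleGraph V} [DecidableRel G.Adj] {g : V → Bool} {x : V} {l a b : Fin 3 → V}

/-- `IsU` is membership in `Uo`. -/
theorem isU_iff {w : V} : IsU G g x l a b w ↔ w ∈ Uo G g x l a b := by
  constructor
  · intro h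
    exact ⟨h.rest, fun i => ⟨h.na i, h.nb i⟩, h.deg, ownIn_zero.2 h.own⟩
  · rintro ⟨h1, h2, h3, h4⟩
    exact ⟨h1, h3, ownIn_zero.1 h4, fun i => (h2 i).1, fun i => (h2 i).2⟩

/-- A frame is its own false star colouring. -/
theorem Fr.starCol_self (h : Fr G g x l a b) : starCol g x l false = g := by
  rw [h.star.starCol_eq]
  exact h.eq_sc

/-- The neighbour `u` of `a i` is a centre, if `a i` is a start special with other neighbour `q`. -/
theorem Fr.uu_core (hG : Deg13 G) (hB : NoBal3 G) (hC : C4Free G) (hlive : LiveAll G)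
    (h : Fr G g x l a b) {i : Fin 3} (hi : a i ≠ x) {u q : V} (huq : u ≠ q)
    (hu : u ∈ Uo G g x l a b) (hq : q ∈ Uo G g x l a b ∨ q = b i) (hau : G.Adj (a i) u)
    (haq : G.Adj (a i) q) : Cen G g u := by
  have st := h.star
  have hli : G.Adj (a i) (l i) := (h.nb_l i hi).ay.symm
  have hlu : l i ≠ u := fun h1 => (mem_rest.1 hu.1).2 i h1.symm
  have hlq : l i ≠ q := by
    rcases hq with h1 | h1
    · exact fun h2 => (mem_rest.1 h1.1).2 i h2.symm
    · rw [h1]
      exact fun h2 => (mem_rest.1 (st.b_rest i (st.b_ne hi))).2 i h2.symm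
  obtain ⟨q', nba⟩ := exists_nb23 G (st.deg_a i hi) hli hau hlu
  have hq' : q' = q := by
    rcases (nba.adj q).1 haq with h1 | h1 | h1
    · exact absurd h1.symm hlq
    · exact absurd h1.symm huq
    · exact h1.symm
  subst hq'
  -- `a i` is a start special
  have hst : IsStart G g x l a b i (a i) := by
    refine ⟨hi, Or.inl rfl, fun w hw hadj => ?_⟩
    rcases (nba.adj w).1 hadj with h1 | h1 | h1
    · exact absurd h1 ((mem_rest.1 hw).2 i)
    · rw [h1]
      exact Or.inl hu
    · rw [h1]
      rcases hq with h2 | h2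
      · exact Or.inl h2
      · exact Or.inr (Or.inr h2)
  -- another neighbour of `u`
  obtain ⟨y, z, nbu⟩ := exists_nb3 G hu.2.2.1 hau.symm
  have hy : y ∉ Uo G g x l a b := fun h1 => hlive g x l a b h i (a i) u y hst hu hau h1 nbu.ay
  have h1 := h.ls.m1_core hG hB hC hi (u := u) (q := q') (k := y) hu hq huq hau haq nbu.ay
    nbu.xy.symm hy
  rwa [h.starCol_self] at h1

/-- The field `uu`. -/
theorem uu_of_live (hG : Deg13 G) (hB : NoBal3 G) (hC : C4Free G) (hlive : LiveAll G) :
    ∀ (g : V → Bool) (x : V) (l a b : Fin 3 → V), Fr G g x l a b → ∀ i w w', a i ≠ x →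
      w ≠ w' → G.Adj (a i) w → G.Adj (a i) w' → IsU G g x l a b w → IsU G g x l a b w' →
      Cen G g w := by
  intro g x l a b h i w w' hi hne hw hw' hU hU'
  exact h.uu_core hG hB hC hlive hi hne (isU_iff.1 hU) (Or.inl (isU_iff.1 hU')) hw hw'

/-- The leaf triangle version. -/
theorem tri_of_live (hG : Deg13 G) (hB : NoBal3 G) (hC : C4Free G) (hlive : LiveAll G) :
    ∀ (g : V → Bool) (x : V) (l a b : Fin 3 → V), Fr G g x l a b → ∀ i w, a i ≠ x →
      G.Adj (a i) (b i) → G.Adj (a i) w → IsU G g x l a b w → Cen G g w := by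
  intro g x l a b h i w hi hab hw hU
  have hwb : w ≠ b i := hU.nb i
  exact h.uu_core hG hB hC hlive hi hwb (isU_iff.1 hU) (Or.inr rfl) hw hab

end Pool.Agent.BLN
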