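import Pool.Agent.BLN.CenB

/-!
# Field `r1` of `Loc` from its ordinary form

`r1_of` : if no `a i` next to an ordinary `K` vertex goes with a `b j` next to an ordinary `K`
vertex, `i ≠ j`, then no dual centre `a i` goes with a centre `b j`.
-/

set_option autoImplicit false
set_option linter.unusedSectionVars false

namespace Pool.Agent.BLN

open Finset Pool.Agent.IVT Pool.BLE

variable {V : Type} [Fintype V] [DecidableEq V] {G : SimpleGraph V} [DecidableRel G.Adj]
  {g : V → Bool} {x : V} {l a b : Fin 3 → V}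

/-- A dual centre `a i` has no `U` neighbour. -/
theorem Fr.no_U (h : Fr G g x l a b) {i : Fin 3} (hi : a i ≠ x)
    (hc : Cen G (du g x l) (a i)) {w : V} (hU : IsU G g x l a b w) : ¬ G.Adj (a i) w := by
  intro hw
  have hwl : w ≠ l i := (mem_rest.1 hU.rest).2 i
  have gw : g w = false := by
    cases h1 : g w
    · rfl
    · exact absurd (h.a_true i hi hw h1) hwl
  rcases hc.leaf hw with h1 | ⟨m, t, nb, gm, -⟩
  · have := hU.deg
    omega
  · rcases h.star.cases m with rfl | ⟨j, rfl⟩ | hm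
    · rw [du_x] at gm
      exact absurd gm (by decide)
    · rcases (h.star.nl j w).1 nb.ay.symm with h2 | h2 | h2
      · exact (mem_rest.1 hU.rest).1 h2
      · exact hU.na j h2
      · exact hU.nb j h2
    · rw [du_rest hm, hU.nbr h gw nb.ay] at gm
      exact absurd gm (by decide)

/-- All neighbours of `a i` have colour `false` in the dual colouring, except `l i`. -/
theorem Fr.du_a_nbr (h : Fr G g x l a b) {i : Fin 3} (hi : a i ≠ x) {z : V} (hz : G.Adj (a i) z) :
    du g x l z = true := h.dual.b_all i hi hz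

/-- **R3.** If `a j` is a dual centre and next to `b i`, `i ≠ j`, then `a i` is a dual centre. -/
theorem Fr.r3 (hG : Deg13 G) (hB : NoBal3 G) (hC : C4Free G)
    (mp : ∀ (g : V → Bool) (x : V) (l a b : Fin 3 → V), Fr G g x l a b → ∀ i w, a i ≠ x →
      G.Adj (a i) w → IsU G g x l a b w → Cen G g w)
    (h : Fr G g x l a b) {i j : Fin 3} (hi : a i ≠ x) (hj : a j ≠ x)
    (ho : ¬ G.Adj (a i) (b i)) (hc : Cen G (du g x l) (a j)) (hadj : G.Adj (a j) (b i)) :
    Cen G (du g x l) (a i) := by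
  obtain ⟨l', a', b', hf⟩ := hc
  obtain ⟨p, hp⟩ := (hf.star.nx _).1 hadj
  have hbi := h.b_ne hi
  have dbi : G.degree (b i) = 3 := h.star.deg_b i hbi
  have hp' : a' p ≠ a j := by
    intro h'
    have h1 := hf.star.deg_pl p h'
    rw [← hp, dbi] at h1
    omega
  have nl := h.nb_l i hi
  have hli : l i = a' p := by
    refine hf.l_true p hp' ?_ (h.du_l i)
    rw [← hp]
    exact nl.az.symm
  have e1 : G.Adj (a' p) (a i) := hli ▸ nl.ay
  have e2 : G.Adj (a' p) x := hli ▸ nl.ax
  have hne : a i ≠ l' p := by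
    rw [← hp]
    exact h.star.a_ne_b' i hi i
  have hxl : x ≠ l' p := by
    rw [← hp]
    exact hbi.symm
  have dai : G.degree (a i) = 3 := h.star.deg_a i hi
  rcases hf.nbr_a hG hp' e1 hne with h1 | h1 | ⟨q, h1, h2⟩
  · exact mp _ _ l' a' b' hf p (a i) hp' e1 h1
  · exfalso
    rcases h1.k with h2 | ⟨z, -, hz, h2⟩
    · omega
    · rw [h.du_a_nbr hi hz, du_rest (h.star.a_rest i hi), h.star.ca i hi] at h2
      exact absurd h2 (by decide)
  · have hq : a' q ≠ a j := fun h3 => h1 ((hf.star.a_eq_iff q).1 h3)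
    have hpq : p ≠ q := by
      rintro rfl
      have h3 := (hf.nb_l p hp').az
      rw [← h2, ← hp] at h3
      exact ho h3.symm
    have hxb : x ≠ b' q := by
      rw [← h2]
      exact hi.symm
    rw [h2] at e1
    have := hf.cen_b hG hB hC hp' hq hpq e1 e2 hxl hxb h.star.deg_x (fun w hw => h.dual.nbr hw)
    rwa [← h2] at this

/-- The dual of `R3`. -/
theorem Fr.r3' (hG : Deg13 G) (hB : NoBal3 G) (hC : C4Free G)
    (mp : ∀ (g : V → Bool) (x : V) (l a b : Fin 3 → V), Fr G g x l a b → ∀ i w, a i ≠ x →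
      G.Adj (a i) w → IsU G g x l a b w → Cen G g w)
    (h : Fr G g x l a b) {i j : Fin 3} (hi : a i ≠ x) (hj : a j ≠ x)
    (ho : ¬ G.Adj (a i) (b i)) (hc : Cen G g (b j)) (hadj : G.Adj (b j) (a i)) :
    Cen G g (b i) := by
  have h1 := h.dual.r3 hG hB hC mp (i := i) (j := j) (h.b_ne hi) (h.b_ne hj)
    (fun h' => ho h'.symm) (by rw [h.du_du]; exact hc) hadj
  rwa [h.du_du] at h1

section

variable
  (hG : Deg13 G) (hB : NoBal3 G) (hC : C4Free G)
  (mp : ∀ (g : V → Bool) (x : V) (l a b : Fin 3 → V), Fr G g x l a b → ∀ i w, a i ≠ x →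
    G.Adj (a i) w → IsU G g x l a b w → Cen G g w)
  (ho : ∀ (g : V → Bool) (x : V) (l a b : Fin 3 → V), Fr G g x l a b → ∀ i, a i ≠ x →
    ¬ G.Adj (a i) (b i))
include hG hB hC mp ho

/-- A centre `b j` without ordinary `K` neighbours: all indices are not pendant, all `a i` are dual
centres and all `b i` centres. -/
theorem Fr.full (h : Fr G g x l a b) {j : Fin 3} (hj : a j ≠ x) (hc : Cen G g (b j))
    (hK : ∀ w, G.Adj (b j) w → ¬ IsK G g x l a b w) :
    ∀ p, a p ≠ x ∧ Cen G (du g x l) (a p) ∧ Cen G g (b p) := by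
  have hbj := h.b_ne hj
  obtain ⟨y, z, nb⟩ := exists_nb3 G (h.star.deg_b j hbj) (h.nb_l j hj).az.symm
  have key : ∀ w, G.Adj (b j) w → w ≠ l j → ∃ k, j ≠ k ∧ a k ≠ x ∧ w = a k := by
    intro w hw hne
    rcases h.dual.nbr_a hG hbj hw hne with h1 | h1 | ⟨k, h1, h2⟩
    · exact absurd hw (h.dual.no_U hbj (by rw [h.du_du]; exact hc) h1)
    · have h2 := h1.dual
      refine absurd ?_ (hK w hw)
      refine ⟨h2.rest, ?_, h2.na, h2.nb⟩
      have h3 := h2.k
      rwa [h.du_du] at h3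
    · refine ⟨k, ?_, h1, h2⟩
      rintro rfl
      exact ho g x l a b h j hj (h2 ▸ hw.symm)
  obtain ⟨p, hjp, hp, e1⟩ := key y nb.ay nb.xy.symm
  obtain ⟨q, hjq, hq, e2⟩ := key z nb.az nb.xz.symm
  subst e1 e2
  have hpq : p ≠ q := by
    rintro rfl
    exact nb.yz rfl
  have Ap : Cen G (du g x l) (a p) := h.dual.bb hG hB hC hbj (h.b_ne hp) (h.b_ne hq) hjp hpq nb.ay nb.az
  have Aq : Cen G (du g x l) (a q) :=
    h.dual.bb hG hB hC hbj (h.b_ne hq) (h.b_ne hp) hjq (Ne.symm hpq) nb.az nb.ay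
  have Bp : Cen G g (b p) := h.r3' hG hB hC mp hp hj (ho g x l a b h p hp) hc nb.ay
  have Bq : Cen G g (b q) := h.r3' hG hB hC mp hq hj (ho g x l a b h q hq) hc nb.az
  have Aj : Cen G (du g x l) (a j) := h.r3 hG hB hC mp hj hp (ho g x l a b h j hj) Ap nb.ay.symm
  intro r
  rcases three hjp hjq hpq r with rfl | rfl | rfl
  · exact ⟨hj, Aj, hc⟩
  · exact ⟨hp, Ap, Bp⟩
  · exact ⟨hq, Aq, Bq⟩

theorem Fr.r1_of (hcls : Cls13 G) (hpet : ¬ IsPet G)
    (R1 : ∀ (g : V → Bool) (x : V) (l a b : Fin 3 → V), Fr G g x l a b → ∀ i j v w, a i ≠ x →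
      a j ≠ x → i ≠ j → G.Adj (a i) v → IsK G g x l a b v → G.Adj (b j) w →
      IsK G g x l a b w → False)
    (h : Fr G g x l a b) {i j : Fin 3} (hi : a i ≠ x) (hj : a j ≠ x) (hij : i ≠ j)
    (hA : Cen G (du g x l) (a i)) (hBj : Cen G g (b j)) : False := by
  -- all indices have both properties
  have all : ∀ p, a p ≠ x ∧ Cen G (du g x l) (a p) ∧ Cen G g (b p) := by
    by_cases h1 : ∀ w, G.Adj (b j) w → ¬ IsK G g x l a b w
    · exact h.full hG hB hC mp ho hj hBj h1
    by_cases h2 : ∀ w, G.Adj (a i) w → ¬ IsK G g x l a b w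
    · have h3 := h.dual.full hG hB hC mp ho (j := i) (h.b_ne hi) hA (fun w hw hk => h2 w hw (by
        have h4 := hk.dual
        refine ⟨h4.rest, ?_, h4.na, h4.nb⟩
        have h5 := h4.k
        rwa [h.du_du] at h5))
      intro p
      obtain ⟨h4, h5, h6⟩ := h3 p
      rw [h.du_du] at h5
      exact ⟨fun h' => h4 ((h.star.a_eq_iff p).1 h'), h6, h5⟩
    exfalso
    push Not at h1 h2
    obtain ⟨w, hw, kw⟩ := h1
    obtain ⟨v, hv, kv⟩ := h2
    exact R1 g x l a b h i j v w hi hj hij hv kv hw kw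
  -- no `a p` has an ordinary `K` neighbour
  have noK : ∀ p v, G.Adj (a p) v → ¬ IsK G g x l a b v := by
    intro p v hv kv
    obtain ⟨q, hpq⟩ := exists_other p
    obtain ⟨r, hpr, hqr⟩ := exists_third hpq
    have key : ∀ q, p ≠ q → G.Adj (a p) (b q) := by
      intro q hpq
      have hq := (all q).1
      have hbq := h.b_ne hq
      obtain ⟨y, z, nb⟩ := exists_nb3 G (h.star.deg_b q hbq) (h.nb_l q hq).az.symm
      have key2 : ∀ w, G.Adj (b q) w → w ≠ l q → ∃ k, q ≠ k ∧ w = a k := by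
        intro w hw hne
        rcases h.dual.nbr_a hG hbq hw hne with h1 | h1 | ⟨k, h1, h2⟩
        · exact absurd hw (h.dual.no_U hbq (by rw [h.du_du]; exact (all q).2.2) h1)
        · exfalso
          refine R1 g x l a b h p q v w (all p).1 hq hpq hv kv hw ?_
          have h2 := h1.dual
          refine ⟨h2.rest, ?_, h2.na, h2.nb⟩
          have h3 := h2.k
          rwa [h.du_du] at h3
        · refine ⟨k, ?_, h2⟩
          rintro rfl
          exact ho g x l a b h q hq (h2 ▸ hw.symm)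
      obtain ⟨s, hqs, e1⟩ := key2 y nb.ay nb.xy.symm
      obtain ⟨t, hqt, e2⟩ := key2 z nb.az nb.xz.symm
      subst e1 e2
      have hst : s ≠ t := by
        rintro rfl
        exact nb.yz rfl
      rcases three hqs hqt hst p with rfl | rfl | rfl
      · exact absurd rfl hpq
      · exact nb.ay.symm
      · exact nb.az.symm
    have hp := (all p).1
    have e1 := key q hpq
    have e2 := key r hpr
    have hlb : ∀ q, l p ≠ b q := by
      intro q h1
      have := h.gl p
      rw [h1, h.star.cb q (h.b_ne (all q).1)] at this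
      exact absurd this (by decide)
    have nb := nb_of_three3 G (h.star.deg_a p hp) (h.nb_l p hp).ay.symm e1 e2 (hlb q) (hlb r)
      (fun h1 => hqr (h.star.b_inj q r h1 (h.b_ne (all q).1)))
    rcases (nb.adj v).1 hv with h1 | h1 | h1
    · exact (mem_rest.1 kv.rest).2 p h1
    · exact kv.nb q h1
    · exact kv.nb r h1
  -- the hexagon
  refine hpet (h.hex_pet hcls.conn ⟨fun p => (all p).1, ?_⟩)
  intro p q hpq
  have hp := (all p).1
  obtain ⟨y, z, nb⟩ := exists_nb3 G (h.star.deg_a p hp) (h.nb_l p hp).ay.symm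
  have key2 : ∀ w, G.Adj (a p) w → w ≠ l p → ∃ k, p ≠ k ∧ w = b k := by
    intro w hw hne
    rcases h.nbr_a hG hp hw hne with h1 | h1 | ⟨k, h1, h2⟩
    · exact absurd hw (h.no_U hp (all p).2.1 h1)
    · exact absurd h1 (noK p w hw)
    · refine ⟨k, ?_, h2⟩
      rintro rfl
      exact ho g x l a b h p hp (h2 ▸ hw)
  obtain ⟨s, hps, e1⟩ := key2 y nb.ay nb.xy.symm
  obtain ⟨t, hpt, e2⟩ := key2 z nb.az nb.xz.symm
  subst e1 e2
  have hst : s ≠ t := by
    rintro rfl
    exact nb.yz rfl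
  rcases three hps hpt hst q with rfl | rfl | rfl
  · exact absurd rfl hpq
  · exact nb.ay
  · exact nb.az

end

end Pool.Agent.BLN
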