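import Pool.Agent.BLN.LabR1
import Pool.Agent.BLN.R1of
import Pool.Agent.BLN.E3Loc

set_option autoImplicit false
set_option linter.unusedSectionVars false

/-!
# R1

A dual centre `a i` and a centre `b j`, `i ≠ j`, are impossible, up to the configuration `CfgR`.
-/

namespace Pool.Agent.BLN

open Finset Pool.Agent.IVT Pool.BLE

variable {V : Type} [Fintype V] [DecidableEq V] {G : SimpleGraph V} [DecidableRel G.Adj]

/-- The configuration left by the proof of R1. -/
structure CfgR (G : SimpleGraph V) [DecidableRel G.Adj] (g : V → Bool) (x : V) (l a b : Fin 3 → V)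
    (i j k : Fin 3) (N P v w : V) : Prop where
  fr : Fr G g x l a b
  ij : i ≠ j
  ik : i ≠ k
  jk : j ≠ k
  hi : a i ≠ x
  hj : a j ≠ x
  hk : a k ≠ x
  ho : ∀ p, a p ≠ x → ¬ G.Adj (a p) (b p)
  hA : Cen G (du g x l) (a i)
  hB : Cen G g (b j)
  ni : Nb G (a i) (l i) (b k) N
  nj : Nb G (b j) (l j) (a k) P
  nk : Nb G (a k) (l k) (b j) v
  nk' : Nb G (b k) (l k) (a i) w
  kN : IsK G g x l a b N
  kP : IsK G g x l a b P
  uv : IsU G g x l a b v
  uw : IsU G g x l a b w

section

variable {g : V → Bool} {x : V} {l a b : Fin 3 → V}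

/-- A special `b j` of a centre has no `U` neighbour. -/
theorem Fr.no_U' (h : Fr G g x l a b) {i : Fin 3} (hi : a i ≠ x) (hc : Cen G g (b i)) {w : V}
    (hU : IsU G g x l a b w) : ¬ G.Adj (b i) w :=
  h.dual.no_U (h.star.b_ne hi) (by rw [h.du_du]; exact hc) hU.dual

/-- If `b i` is a centre and `a i` has a heavy neighbour, then the third neighbour of a `b k` next
to `a i` is adjacent to `b i`. -/
theorem Fr.xadj (hG : Deg13 G) (hB : NoBal3 G) (hC : C4Free G) (h : Fr G g x l a b) {i k : Fin 3}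
    (hik : i ≠ k) (hi : a i ≠ x) (hk : a k ≠ x) (hBi : Cen G g (b i)) {N : V}
    (hN : G.Adj (a i) N) (hNb : N ≠ b i) (hNl : N ≠ l i) (hh : Heavy G g N) {w : V}
    (nbk : Nb G (b k) (l k) (a i) w) : G.Adj (b i) w := by
  obtain ⟨l', a', b', hf⟩ := hBi
  have hbi := h.star.b_ne hi
  have hbk := h.star.b_ne hk
  have nli := h.nb_l i hi
  obtain ⟨hNr, gN⟩ := h.a_nb hi hN hNl
  obtain ⟨p, hp⟩ := (hf.star.nx (l i)).1 nli.az.symm
  have hp' : a' p ≠ b i := by
    intro h1
    have h2 := hf.star.deg_pl p h1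
    rw [← hp] at h2
    have h3 := h.star.deg_l i hi
    omega
  have hai : a i = a' p :=
    hf.l_true p hp' (by rw [← hp]; exact nli.ay) (h.star.ca i hi)
  have hNr' : N ∈ rest (b i) l' := by
    refine mem_rest.2 ⟨hNb, ?_⟩
    rintro q rfl
    rw [hf.gl] at gN
    exact absurd gN (by decide)
  have hc := hf.e3 hG hB hC hp' (y := N) (by rw [← hai]; exact hN) hNr' hh
  rw [← hai] at hc
  rcases hc.leaf nbk.ay.symm with h1 | ⟨m, t, nb, gm, -, -, -, -, -⟩
  · have := h.star.deg_b k hbk
    omega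
  · have hbi' : G.Adj (b i) m :=
      (hf.du_true_iff (h.b_all k hbk nb.ay)).1 gm
    rcases (nbk.adj m).1 nb.ay with h1 | h1 | h1
    · exfalso
      rw [h1] at hbi'
      exact hik (h.star.leaf_unique hbi (Or.inr rfl)
        (h.star.spec_of_adj (h.star.b_rest i hbi) hbi'))
    · exact absurd h1 nb.xy.symm
    · rw [← h1]
      exact hbi'

/-- An ordinary neighbour of a dual centre `a i` is `K`. -/
theorem Fr.isK_of_cen (hG : Deg13 G) (h : Fr G g x l a b) {i : Fin 3} (hi : a i ≠ x)
    (hA : Cen G (du g x l) (a i)) {N : V} (hN : G.Adj (a i) N) (hNl : N ≠ l i)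
    (hNb : ∀ p, N ≠ b p) : IsK G g x l a b N := by
  obtain ⟨hNr, gN⟩ := h.a_nb hi hN hNl
  have hNa : ∀ p, N ≠ a p := by
    intro p hp
    have h1 : a p ≠ x := by rw [← hp]; exact (mem_rest.1 hNr).1
    have h2 := h.star.ca p h1
    rw [← hp, gN] at h2
    exact absurd h2 (by decide)
  rcases isU_or_isK (g := g) hG hNr hNa hNb with h1 | h1
  · exact absurd hN (h.no_U hi hA h1)
  · exact h1

/-- An ordinary neighbour of a centre `b i` is `K`. -/
theorem Fr.isK_of_cen' (hG : Deg13 G) (h : Fr G g x l a b) {i : Fin 3} (hi : a i ≠ x)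
    (hB : Cen G g (b i)) {N : V} (hN : G.Adj (b i) N) (hNl : N ≠ l i)
    (hNa : ∀ p, N ≠ a p) : IsK G g x l a b N := by
  have h1 := (h.dual.isK_of_cen hG (h.star.b_ne hi) (by rw [h.du_du]; exact hB) hN hNl hNa).dual
  refine ⟨h1.rest, ?_, h1.na, h1.nb⟩
  have h2 := h1.k
  rwa [h.du_du] at h2

/-- The neighbour `z` of an ordinary neighbour `y` of a dual centre `a i`, of the other colour. -/
theorem Fr.kA_out (h : Fr G g x l a b) {i : Fin 3} (hi : a i ≠ x) (hA : Cen G (du g x l) (a i))
    {y : V} (hy : G.Adj (a i) y) (hyl : y ≠ l i) (hyb : ∀ p, y ≠ b p) :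
    ∀ z ∈ rest x l, G.Adj y z → g z = true → z ≠ a i →
      ownIn G g (rest x l) z = 0 ∧ G.degree z = 3 := by
  intro z hz hyz gz hne
  rcases h.kA hi hA hy hyl hyb with h1 | ⟨m, t, nb, hm, gm, ht, gt, dm, dt, ht', hnm⟩
  · exact absurd ((pend_adj G h1 hy.symm z).1 hyz) hne
  · rcases (nb.adj z).1 hyz with e | e | e
    · exact absurd e hne
    · rw [e, gm] at gz
      exact absurd gz (by decide)
    · subst e
      refine ⟨?_, dt⟩
      rw [ownIn, card_eq_zero, filter_eq_empty_iff]
      rintro u hu ⟨h1, h2⟩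
      rw [ht' u hu h1, gt] at h2
      exact absurd h2 (by decide)

/-- R1 with `a i` next to `b j`. -/
theorem Fr.r1_adj (hcls : Cls13 G) (hB : NoBal3 G) (hpet : ¬ IsPet G) (h : Fr G g x l a b)
    {i j k : Fin 3} (hij : i ≠ j) (hik : i ≠ k) (hjk : j ≠ k) (hi : a i ≠ x) (hj : a j ≠ x)
    (ho : ∀ p, a p ≠ x → ¬ G.Adj (a p) (b p))
    (hA : Cen G (du g x l) (a i)) (hBj : Cen G g (b j)) (hadj : G.Adj (a i) (b j)) : False := by
  have hG := hcls.deg
  have hC := hcls.c4
  have st := h.star
  have hbj := st.b_ne hj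
  have hbi := st.b_ne hi
  have li := h.nb_l i hi
  have lj := h.nb_l j hj
  have nal := (mem_rest.1 (st.a_rest i hi)).2
  have nbl := (mem_rest.1 (st.b_rest j hbj)).2
  obtain ⟨y, na⟩ := exists_nb23 G (st.deg_a i hi) li.ay.symm hadj (nbl i).symm
  obtain ⟨z, nb⟩ := exists_nb23 G (st.deg_b j hbj) lj.az.symm hadj.symm (nal j).symm
  obtain ⟨hyr, gy⟩ := h.a_nb hi na.az na.xz.symm
  obtain ⟨hzr, gz⟩ := h.b_nb hj nb.az nb.xz.symm
  -- `y` has no neighbours of its colour
  have hy : ∀ u, G.Adj y u → g u = true := by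
    rcases hBj.leaf hadj.symm with h1 | ⟨m, t, nb', gm, gt, dm, dt, ht, hnm⟩
    · have := st.deg_a i hi
      omega
    · have e : y = t := by
        rcases (nb'.adj y).1 na.az with e | e | e
        · exact absurd e na.yz.symm
        · rw [e, gm] at gy
          exact absurd gy (by decide)
        · exact e
      rw [e]
      exact ht
  have hz : ∀ u, u ∈ rest x l → G.Adj z u → g u = false := by
    intro u hu hzu
    rcases hA.leaf hadj with h1 | ⟨m, t, nb', gm, gt, dm, dt, ht, hnm⟩
    · have := st.deg_b j hbj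
      omega
    · have e : z = t := by
        rcases (nb'.adj z).1 nb.az with e | e | e
        · exact absurd e nb.yz.symm
        · rw [← e] at gm
          rw [du_true_rest hzr, gz] at gm
          exact absurd gm (by decide)
        · exact e
      rw [← e] at ht
      exact (du_true_rest hu).1 (ht u hzu)
  have hyk : y = b k := by
    by_contra hne
    have hyb : ∀ p, y ≠ b p := by
      intro p e
      rcases three hij hik hjk p with e1 | e1 | e1
      · rw [e1] at e; rw [e] at na; exact ho i hi na.az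
      · rw [e1] at e; exact na.yz e.symm
      · rw [e1] at e; exact hne e
    rcases (h.isK_of_cen hG hi hA na.az na.xz.symm hyb).k with h1 | ⟨u, hu, h1, h2⟩
    · rcases hBj.leaf hadj.symm with h1' | ⟨m, t, nb', gm, gt, dm, dt, ht, hnm⟩
      · have := st.deg_a i hi
        omega
      · rcases (nb'.adj y).1 na.az with e | e | e
        · exact absurd e na.yz.symm
        · rw [e, gm] at gy
          exact absurd gy (by decide)
        · rw [e] at h1
          omega
    · rw [hy u h1, gy] at h2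
      exact absurd h2 (by decide)
  have hzk : z = a k := by
    by_contra hne
    have hza : ∀ p, z ≠ a p := by
      intro p e
      rcases three hij hik hjk p with e1 | e1 | e1
      · rw [e1] at e; exact nb.yz e.symm
      · rw [e1] at e; rw [e] at nb; exact ho j hj nb.az.symm
      · rw [e1] at e; exact hne e
    rcases (h.isK_of_cen' hG hj hBj nb.az nb.xz.symm hza).k with h1 | ⟨u, hu, h1, h2⟩
    · rcases hA.leaf hadj with h1' | ⟨m, t, nb', gm, gt, dm, dt, ht, hnm⟩
      · have := st.deg_b j hbj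
        omega
      · rcases (nb'.adj z).1 nb.az with e | e | e
        · exact absurd e nb.yz.symm
        · rw [← e] at gm
          rw [du_true_rest hzr, gz] at gm
          exact absurd gm (by decide)
        · rw [e] at h1
          omega
    · rw [hz u hu h1, gz] at h2
      exact absurd h2 (by decide)
  subst hyk hzk
  have hbk : b k ≠ x := (mem_rest.1 hyr).1
  have hk : a k ≠ x := (mem_rest.1 hzr).1
  have nbkl := (mem_rest.1 hyr).2
  have nakl := (mem_rest.1 hzr).2
  have lk := h.nb_l k hk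
  obtain ⟨w, nw⟩ := exists_nb23 G (st.deg_b k hbk) lk.az.symm na.az.symm (nal k).symm
  obtain ⟨v, nv⟩ := exists_nb23 G (st.deg_a k hk) lk.ay.symm nb.az.symm (nbl k).symm
  obtain ⟨hwr, gw⟩ := h.b_nb hk nw.az nw.xz.symm
  obtain ⟨hvr, gv⟩ := h.a_nb hk nv.az nv.xz.symm
  -- `w` and `v` have no own neighbours
  have hw : ownIn G g (rest x l) w = 0 ∧ G.degree w = 3 := by
    rcases hA.leaf na.az with h1 | ⟨m, t, nb', gm, gt, dm, dt, ht, hnm⟩
    · have := st.deg_b k hbk
      omega
    · have e : w = t := by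
        rcases (nb'.adj w).1 nw.az with e | e | e
        · exact absurd e nw.yz.symm
        · rw [← e] at gm
          rw [du_true_rest hwr, gw] at gm
          exact absurd gm (by decide)
        · exact e
      rw [← e] at ht dt
      refine ⟨?_, dt⟩
      rw [ownIn, card_eq_zero, filter_eq_empty_iff]
      rintro u hu ⟨h1, h2⟩
      rw [(du_true_rest hu).1 (ht u h1), gw] at h2
      exact absurd h2 (by decide)
  have hv : ownIn G g (rest x l) v = 0 ∧ G.degree v = 3 := by
    rcases hBj.leaf nb.az with h1 | ⟨m, t, nb', gm, gt, dm, dt, ht, hnm⟩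
    · have := st.deg_a k hk
      omega
    · have e : v = t := by
        rcases (nb'.adj v).1 nv.az with e | e | e
        · exact absurd e nv.yz.symm
        · rw [← e, gv] at gm
          exact absurd gm (by decide)
        · exact e
      rw [← e] at ht dt
      refine ⟨?_, dt⟩
      rw [ownIn, card_eq_zero, filter_eq_empty_iff]
      rintro u hu ⟨h1, h2⟩
      rw [ht u h1, gv] at h2
      exact absurd h2 (by decide)
  have o0a : ∀ p, a p ≠ x → ownIn G g (rest x l) (a p) = 0 ∧ G.degree (a p) = 3 :=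
    fun p hp => ⟨st.own0_a hp, st.deg_a p hp⟩
  have o0b : ∀ p, b p ≠ x → ownIn G g (rest x l) (b p) = 0 ∧ G.degree (b p) = 3 :=
    fun p hp => ⟨st.own0_b hp, st.deg_b p hp⟩
  -- `w = a j`
  have hwj : w = a j := by
    by_contra hne
    refine h.sol_ab hB hik hij hjk.symm hi hk na.az false ?_ ?_ (fun hj' => ⟨by simp, fun _ h2 => ?_⟩)
    · intro u hu hne' hau
      rcases (na.adj u).1 hau with e | e | e
      · exact absurd e ((mem_rest.1 hu).2 i)
      · rw [e]; exact o0b j hbj
      · exact absurd e hne'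
    · intro u hu hne' hbu
      rcases (nw.adj u).1 hbu with e | e | e
      · exact absurd e ((mem_rest.1 hu).2 k)
      · exact absurd e hne'
      · rw [e]; exact hw
    · rcases (nw.adj (a j)).1 h2.symm with e | e | e
      · exact (mem_rest.1 (st.a_rest j hj)).2 k e
      · exact hij (st.a_inj j i e hj).symm
      · exact hne e.symm
  have hvi : v = b i := by
    by_contra hne
    refine h.sol_ab hB hjk.symm hik.symm hij.symm hk hj nb.az.symm true ?_ ?_
      (fun hi' => ⟨fun _ h2 => ?_, by simp⟩)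
    · intro u hu hne' hau
      rcases (nv.adj u).1 hau with e | e | e
      · exact absurd e ((mem_rest.1 hu).2 k)
      · exact absurd e hne'
      · rw [e]; exact hv
    · intro u hu hne' hbu
      rcases (nb.adj u).1 hbu with e | e | e
      · exact absurd e ((mem_rest.1 hu).2 j)
      · rw [e]; exact o0a i hi
      · exact absurd e hne'
    · rcases (nv.adj (b i)).1 h2.symm with e | e | e
      · exact (mem_rest.1 (st.b_rest i hbi)).2 k e
      · exact hij (st.b_inj i j e hbi)
      · exact hne e.symm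
  subst hwj hvi
  by_cases hji : G.Adj (a j) (b i)
  · exact hpet (h.hex_pet hcls.conn
      (hexP_of hij hik hjk hi hj hk hadj na.az hji nw.az.symm nv.az nb.az.symm))
  -- the third neighbour of `a j`
  have nlkj : l j ≠ b k := (nbkl j).symm
  obtain ⟨u, nu⟩ := exists_nb23 G (st.deg_a j hj) lj.ay.symm nw.az.symm nlkj
  obtain ⟨hur, gu⟩ := h.a_nb hj nu.az nu.xz.symm
  have hub : ∀ p, u ≠ b p := by
    intro p e
    rcases three hij hik hjk p with e1 | e1 | e1
    · rw [e1] at e; rw [e] at nu; exact hji nu.az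
    · rw [e1] at e; rw [e] at nu; exact ho j hj nu.az
    · rw [e1] at e; exact nu.yz e.symm
  have hua : ∀ p, u ≠ a p := by
    intro p e
    have h1 : a p ≠ x := by rw [← e]; exact (mem_rest.1 hur).1
    have h2 := st.ca p h1
    rw [← e, gu] at h2
    exact absurd h2 (by decide)
  rcases isU_or_isK (g := g) hG hur hua hub with hU | hK
  · refine h.sol_ab hB hjk hij.symm hik.symm hj hk nw.az.symm true ?_ ?_
      (fun hi' => ⟨fun _ h2 => hji h2.symm, by simp⟩)
    · intro t ht hne' hat
      rcases (nu.adj t).1 hat with e | e | e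
      · exact absurd e ((mem_rest.1 ht).2 j)
      · exact absurd e hne'
      · rw [e]; exact ⟨hU.own0, hU.deg⟩
    · intro t ht hne' hbt
      rcases (nw.adj t).1 hbt with e | e | e
      · exact absurd e ((mem_rest.1 ht).2 k)
      · rw [e]; exact o0a i hi
      · exact absurd e hne'
  · have hAj : Cen G (du g x l) (a j) := h.e3_isK hG hB hC hj nu.az hK
    refine h.sol_abay hG hB hik hij hjk.symm hi hk hj na.az nw.az.symm hadj nu.az hur gu hua hub
      (h.kA_out hj hAj nu.az nu.xz.symm hub) hK.k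

/-- The third neighbour of a `b k` next to a dual centre `a i`. -/
theorem Fr.third_b (h : Fr G g x l a b) {i k : Fin 3} (hk : a k ≠ x)
    (hA : Cen G (du g x l) (a i)) {w : V} (nw : Nb G (b k) (l k) (a i) w) :
    w ∈ rest x l ∧ g w = true ∧ G.degree w = 3 ∧ ∀ z ∈ rest x l, G.Adj w z → g z ≠ g w := by
  have hbk := h.star.b_ne hk
  obtain ⟨hwr, gw⟩ := h.b_nb hk nw.az nw.xz.symm
  rcases hA.leaf nw.ay.symm with h1 | ⟨m, t, nb', gm, gt, dm, dt, ht, hnm⟩
  · have := h.star.deg_b k hbk
    omega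
  · have e : w = t := by
      rcases (nb'.adj w).1 nw.az with e | e | e
      · exact absurd e nw.yz.symm
      · rw [← e] at gm
        rw [du_true_rest hwr, gw] at gm
        exact absurd gm (by decide)
      · exact e
    rw [← e] at ht dt
    refine ⟨hwr, gw, dt, ?_⟩
    intro u hu h1 h2
    rw [(du_true_rest hu).1 (ht u h1), gw] at h2
    exact absurd h2 (by decide)

/-- The third neighbour of an `a k` next to a centre `b j`. -/
theorem Fr.third_a (h : Fr G g x l a b) {j k : Fin 3} (hk : a k ≠ x)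
    (hB : Cen G g (b j)) {v : V} (nv : Nb G (a k) (l k) (b j) v) :
    v ∈ rest x l ∧ g v = false ∧ G.degree v = 3 ∧ ∀ z ∈ rest x l, G.Adj v z → g z ≠ g v := by
  have hbk := h.star.b_ne hk
  obtain ⟨h1, h2, h3, h4⟩ := h.dual.third_b (i := j) (k := k) hbk (by rw [h.du_du]; exact hB) nv
  refine ⟨h1, (du_true_rest h1).1 h2, h3, ?_⟩
  intro z hz hvz e
  refine h4 z hz hvz ?_
  rw [du_rest hz, du_rest h1, e]

/-- R1 with the rows `N a i b k` and `b i a k b j`. -/
theorem Fr.r1_row (hcls : Cls13 G) (hB : NoBal3 G) (h : Fr G g x l a b)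
    {i j k : Fin 3} (hij : i ≠ j) (hik : i ≠ k) (hjk : j ≠ k) (hi : a i ≠ x) (hj : a j ≠ x)
    (hk : a k ≠ x) (ho : ∀ p, a p ≠ x → ¬ G.Adj (a p) (b p))
    (hA : Cen G (du g x l) (a i)) (hn : ¬ G.Adj (a i) (b j)) (hbk : G.Adj (a i) (b k))
    (e1 : G.Adj (a k) (b j)) (e2 : G.Adj (a k) (b i)) : False := by
  have hG := hcls.deg
  have hC := hcls.c4
  have st := h.star
  have hbk' := st.b_ne hk
  have li := h.nb_l i hi
  have lk := h.nb_l k hk
  have hBi : Cen G g (b i) :=
    bb_all hG hB hC g x l a b h k i j hk hi hj hik.symm hjk.symm hij e2 e1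
  obtain ⟨N, na⟩ := exists_nb23 G (st.deg_a i hi) li.ay.symm hbk
    ((mem_rest.1 (st.b_rest k hbk')).2 i).symm
  obtain ⟨hNr, gN⟩ := h.a_nb hi na.az na.xz.symm
  have hNb : ∀ p, N ≠ b p := by
    intro p e
    rcases three hij hik hjk p with e' | e' | e'
    · rw [e'] at e; rw [e] at na; exact ho i hi na.az
    · rw [e'] at e; rw [e] at na; exact hn na.az
    · rw [e'] at e; exact na.yz e.symm
  have hK := h.isK_of_cen hG hi hA na.az na.xz.symm hNb
  obtain ⟨w, nw⟩ := exists_nb23 G (st.deg_b k hbk') lk.az.symm hbk.symm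
    ((mem_rest.1 (st.a_rest i hi)).2 k).symm
  have hbw := h.xadj hG hB hC hik hi hk hBi na.az (hNb i) na.xz.symm hK.heavy nw
  obtain ⟨hwr, gw, dw, ow⟩ := h.third_b hk hA nw
  have hwb : ∀ p, w ≠ b p := by
    intro p e
    have h1 : b p ≠ x := by rw [← e]; exact (mem_rest.1 hwr).1
    have h2 := st.cb p h1
    rw [← e, gw] at h2
    exact absurd h2 (by decide)
  by_cases hwa : ∀ p, w ≠ a p
  · exact h.no_U' hi hBi ⟨hwr, dw, ow, hwa, hwb⟩ hbw
  · push Not at hwa
    obtain ⟨p, e⟩ := hwa
    have hpj : p = j := by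
      rcases three hij hik hjk p with e' | e' | e'
      · rw [e'] at e; exact absurd e nw.yz.symm
      · exact e'
      · rw [e'] at e; rw [e] at nw
        exact absurd nw.az.symm (ho k hk)
    rw [hpj] at e
    subst e
    exact h.sol_abay hG hB hjk hij.symm hik.symm hj hk hi nw.az.symm hbk hbw.symm na.az hNr gN hK.na
      hNb (h.kA_out hi hA na.az na.xz.symm hNb) hK.k

/-- **R1**, up to the configuration `CfgR`. -/
theorem Fr.r1_main (hcls : Cls13 G) (hB : NoBal3 G) (hpet : ¬ IsPet G) (h : Fr G g x l a b)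
    (hcfg : ∀ i j k N P v w, ¬ CfgR G g x l a b i j k N P v w)
    {i j : Fin 3} (hij : i ≠ j) (hi : a i ≠ x) (hj : a j ≠ x)
    (ho : ∀ p, a p ≠ x → ¬ G.Adj (a p) (b p))
    (hA : Cen G (du g x l) (a i)) (hBj : Cen G g (b j)) : False := by
  obtain ⟨k, hik, hjk⟩ := exists_third hij
  have hG := hcls.deg
  have st := h.star
  have hbj := st.b_ne hj
  have hbi := st.b_ne hi
  by_cases hn : G.Adj (a i) (b j)
  · exact h.r1_adj hcls hB hpet hij hik hjk hi hj ho hA hBj hn
  by_cases hak : G.Adj (b j) (a k)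
  swap
  · exact h.r1_lab hG hB hij hik hjk hi hj ho hA hBj hn hak
  by_cases hbk : G.Adj (a i) (b k)
  swap
  · exact h.r1_lab' hG hB hij hik hjk hi hj ho hA hBj hn hbk
  have hk : a k ≠ x := by
    intro e
    rw [e] at hak
    exact h.dual.x_ne_nbr_a j hbj hak
  have hbk' := st.b_ne hk
  have li := h.nb_l i hi
  have lj := h.nb_l j hj
  have lk := h.nb_l k hk
  obtain ⟨N, na⟩ := exists_nb23 G (st.deg_a i hi) li.ay.symm hbk
    ((mem_rest.1 (st.b_rest k hbk')).2 i).symm
  obtain ⟨P, nb⟩ := exists_nb23 G (st.deg_b j hbj) lj.az.symm hak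
    ((mem_rest.1 (st.a_rest k hk)).2 j).symm
  obtain ⟨w, nw⟩ := exists_nb23 G (st.deg_b k hbk') lk.az.symm hbk.symm
    ((mem_rest.1 (st.a_rest i hi)).2 k).symm
  obtain ⟨v, nv⟩ := exists_nb23 G (st.deg_a k hk) lk.ay.symm hak.symm
    ((mem_rest.1 (st.b_rest j hbj)).2 k).symm
  by_cases e2 : G.Adj (a k) (b i)
  · exact h.r1_row hcls hB hij hik hjk hi hj hk ho hA hn hbk hak.symm e2
  by_cases e3 : G.Adj (b k) (a j)
  · exact h.dual.r1_row hcls hB hij.symm hjk hik hbj hbi hbk'
      (fun p hp h1 => ho p (fun h2 => hp ((st.a_eq_iff p).1 h2)) h1.symm)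
      (by rw [h.du_du]; exact hBj) (fun h1 => hn h1.symm) hak hbk.symm e3
  obtain ⟨hwr, gw, dw, ow⟩ := h.third_b hk hA nw
  obtain ⟨hvr, gv, dv, ov⟩ := h.third_a hk hBj nv
  have hNb : ∀ p, N ≠ b p := by
    intro p e
    rcases three hij hik hjk p with e' | e' | e'
    · rw [e'] at e; rw [e] at na; exact ho i hi na.az
    · rw [e'] at e; rw [e] at na; exact hn na.az
    · rw [e'] at e; exact na.yz e.symm
  have hPa : ∀ p, P ≠ a p := by
    intro p e
    rcases three hij hik hjk p with e' | e' | e'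
    · rw [e'] at e; rw [e] at nb; exact hn nb.az.symm
    · rw [e'] at e; rw [e] at nb; exact ho j hj nb.az.symm
    · rw [e'] at e; exact nb.yz e.symm
  refine hcfg i j k N P v w ⟨h, hij, hik, hjk, hi, hj, hk, ho, hA, hBj, na, nb, nv, nw,
    h.isK_of_cen hG hi hA na.az na.xz.symm hNb, h.isK_of_cen' hG hj hBj nb.az nb.xz.symm hPa,
    ⟨hvr, dv, ov, ?_, ?_⟩, ⟨hwr, dw, ow, ?_, ?_⟩⟩
  · intro p e
    have h1 : a p ≠ x := by rw [← e]; exact (mem_rest.1 hvr).1
    have h2 := st.ca p h1
    rw [← e, gv] at h2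
    exact absurd h2 (by decide)
  · intro p e
    rcases three hij hik hjk p with e' | e' | e'
    · rw [e'] at e; rw [e] at nv; exact e2 nv.az
    · rw [e'] at e; exact nv.yz e.symm
    · rw [e'] at e; rw [e] at nv; exact ho k hk nv.az
  · intro p e
    rcases three hij hik hjk p with e' | e' | e'
    · rw [e'] at e; exact nw.yz e.symm
    · rw [e'] at e; rw [e] at nw; exact e3 nw.az
    · rw [e'] at e; rw [e] at nw; exact ho k hk nw.az.symm
  · intro p e
    have h1 : b p ≠ x := by rw [← e]; exact (mem_rest.1 hwr).1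
    have h2 := st.cb p h1
    rw [← e, gw] at h2
    exact absurd h2 (by decide)

end

end Pool.Agent.BLN
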