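import Pool.Agent.BLN.L2
import Pool.Agent.BLN.Loc0
import Pool.Agent.BLN.CenB
import Pool.Agent.BLN.E3Loc

/-!
# R1 in the ordinary form, without any hypothesis on leaf triangles

`Fr.r1_ord` : no `a i` next to an ordinary `K` vertex (or pendant) goes with a `b j`, `i ≠ j`, next to
an ordinary `K` vertex (or pendant). The last configuration is a hypothesis (`CfgAll`).
-/

set_option autoImplicit false
set_option linter.unusedSectionVars false

namespace Pool.Agent.BLN

open Finset Pool.Agent.IVT Pool.BLE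

variable {V : Type} [Fintype V] [DecidableEq V]

/-- The last configuration of R1 is impossible. -/
def CfgAll (G : SimpleGraph V) [DecidableRel G.Adj] : Prop :=
  ∀ (g : V → Bool) (x : V) (l a b : Fin 3 → V), Fr G g x l a b → ∀ (i j k : Fin 3) (n p y y' : V),
    i ≠ j → i ≠ k → j ≠ k → a i ≠ x → a j ≠ x → a k ≠ x →
    G.Adj (a i) n → IsK G g x l a b n → G.Adj (a i) (b k) →
    G.Adj (b j) p → IsK G (du g x l) x l b a p → G.Adj (b j) (a k) →
    G.Adj (a k) y → IsU G g x l a b y → G.Adj (b k) y' → IsU G (du g x l) x l b a y' → False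

variable {G : SimpleGraph V} [DecidableRel G.Adj]

section

variable {g : V → Bool} {x : V} {l a b : Fin 3 → V}

/-- The third neighbour of a neighbour of a centre is not heavy. -/
theorem Cen.third_not_heavy {y k n : V} (hy : Cen G g y) (hk : G.Adj y k) (hn : G.Adj k n)
    (hd : G.degree k = 3) (hny : n ≠ y) (gn : g n = false) : ¬ Heavy G g n := by
  rcases hy.leaf hk with h1 | ⟨m, t, nb, gm, gt, dm, dt, ht, -⟩
  · omega
  · have hnt : n = t := by
      rcases (nb.adj n).1 hn with h1 | h1 | h1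
      · exact absurd h1 hny
      · rw [h1, gm] at gn
        exact absurd gn (by decide)
      · exact h1
    subst hnt
    intro hh
    rcases hh.cases with h1 | ⟨m', h1, h2⟩
    · omega
    · rw [ht m' h1, gt] at h2
      exact absurd h2 (by decide)

/-- A centre is in no triangle: `k` a neighbour of the centre and `m` of colour `true`. -/
theorem Cen.no_tri {y k m : V} (hy : Cen G g y) (hk : G.Adj y k) (hm : G.Adj y m) :
    ¬ G.Adj k m := by
  intro hkm
  rcases hy.leaf hk with h1 | ⟨m', t, nb, gm, gt, dm, dt, ht, hna⟩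
  · have h2 := (pend_adj G h1 hk.symm m).1 hkm
    rw [h2] at hm
    exact G.irrefl hm
  · have gm' := hy.nbr hm
    rcases (nb.adj m).1 hkm with h1 | h1 | h1
    · rw [h1] at hm
      exact G.irrefl hm
    · rw [h1] at hm
      exact hna hm
    · rw [h1, gt] at gm'
      exact absurd gm' (by decide)

theorem Fr.not_tri_of_b (h : Fr G g x l a b) {k : Fin 3} (hk : a k ≠ x) (hc : Cen G g (b k)) :
    ¬ G.Adj (a k) (b k) := by
  intro h1
  exact hc.no_tri (h.nb_l k hk).az.symm h1.symm (h.nb_l k hk).ay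

theorem Fr.not_tri_of_a (h : Fr G g x l a b) {k : Fin 3} (hk : a k ≠ x)
    (hc : Cen G (du g x l) (a k)) : ¬ G.Adj (a k) (b k) := by
  intro h1
  exact h.dual.not_tri_of_b (h.b_ne hk) hc h1.symm

theorem Fr.b_ne_l (h : Fr G g x l a b) {k : Fin 3} (hk : b k ≠ x) (i : Fin 3) : b k ≠ l i :=
  (mem_rest.1 (h.star.b_rest k hk)).2 i

theorem Fr.a_ne_l (h : Fr G g x l a b) {k : Fin 3} (hk : a k ≠ x) (i : Fin 3) : a k ≠ l i :=
  (mem_rest.1 (h.star.a_rest k hk)).2 i

theorem Fr.false_of_a_nbr (h : Fr G g x l a b) {i : Fin 3} (hi : a i ≠ x) {w : V}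
    (hw : G.Adj (a i) w) (hne : w ≠ l i) : g w = false := by
  cases h1 : g w
  · rfl
  · exact absurd (h.a_true i hi hw h1) hne

/-- The first half of the types. -/
theorem Fr.r1_core1 (hG : Deg13 G) (hB : NoBal3 G) (hC : C4Free G) (h : Fr G g x l a b)
    {i j : Fin 3} (hi : a i ≠ x) (hj : a j ≠ x) (hij : i ≠ j) {n : V} (hn : G.Adj (a i) n)
    (kn : IsK G g x l a b n) (hA : Cen G (du g x l) (a i)) (hBj : Cen G g (b j)) :
    ∃ k, i ≠ k ∧ j ≠ k ∧ a k ≠ x ∧ Nb G (a i) (l i) n (b k) := by
  have hnl : n ≠ l i := (mem_rest.1 kn.rest).2 i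
  obtain ⟨w, nb⟩ := exists_nb23 G (h.star.deg_a i hi) (h.nb_l i hi).ay.symm hn hnl.symm
  have gn := h.false_of_a_nbr hi hn hnl
  rcases h.nbr_a hG hi nb.az nb.xz.symm with h1 | h1 | ⟨m, h1, h2⟩
  · exact (h.not_isU_of_cen hA nb.az h1).elim
  · exfalso
    rcases h.l2 hG hB hC hi hn nb.az nb.yz hnl nb.xz.symm kn.heavy h1.heavy hBj with h2 | h2
    · exact h.b_ne hj h2
    · exact hij (h.star.b_inj j i h2 (h.b_ne hj)).symm
  · subst h2
    have hm : a m ≠ x := fun h3 => h1 ((h.star.a_eq_iff m).1 h3)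
    refine ⟨m, ?_, ?_, hm, nb⟩
    · rintro rfl
      exact h.not_tri_of_a hi hA nb.az
    · rintro rfl
      refine hBj.third_not_heavy nb.az.symm hn (h.star.deg_a i hi) ?_ gn kn.heavy
      exact nb.yz

/-- The second half of the types. -/
theorem Fr.r1_core2 (hG : Deg13 G) (hB : NoBal3 G) (hC : C4Free G) (h : Fr G g x l a b)
    {i j k : Fin 3} (hi : a i ≠ x) (hj : a j ≠ x) (hk : a k ≠ x) (hij : i ≠ j) (hik : i ≠ k)
    (hjk : j ≠ k) {n p : V} (kn : IsK G g x l a b n) (nbi : Nb G (a i) (l i) n (b k))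
    (kp : IsK G (du g x l) x l b a p) (nbj : Nb G (b j) (l j) p (a k))
    (hA : Cen G (du g x l) (a i)) (hBj : Cen G g (b j)) {y' : V} (hy : G.Adj (b k) y')
    (hyl : y' ≠ l k) (hyi : y' ≠ a i) : IsU G (du g x l) x l b a y' := by
  have hbi := h.b_ne hi
  have hbj := h.b_ne hj
  have hbk := h.b_ne hk
  have hd := h.dual
  have gn := h.false_of_a_nbr hi nbi.ay nbi.xy.symm
  -- the centre `b j` is not adjacent to `a i`
  have hnji : ¬ G.Adj (b j) (a i) := by
    intro h1
    rcases (nbi.adj _).1 h1.symm with h2 | h2 | h2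
    · exact h.b_ne_l hbj i h2
    · exact kn.nb j h2.symm
    · exact hjk (h.star.b_inj j k h2 hbj)
  -- `A_k` is impossible
  have nAk : ¬ Cen G (du g x l) (a k) := by
    intro hc
    have gp : du g x l p = false := hd.false_of_a_nbr hbj nbj.ay nbj.xy.symm
    exact hc.third_not_heavy nbj.az.symm nbj.ay (h.star.deg_b j hbj) nbj.yz gp kp.heavy
  rcases hd.nbr_a hG hbk hy hyl with h1 | h1 | ⟨m, hm, h1⟩
  · exact h1
  · exfalso
    have hBk : Cen G g (b k) := by
      have h2 := e3_all hG hB hC _ _ _ _ _ hd k y' hbk hy h1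
      rwa [h.du_du] at h2
    exact hBk.third_not_heavy nbi.az.symm nbi.ay (h.star.deg_a i hi) nbi.yz gn kn.heavy
  · exfalso
    subst h1
    have hmi : i ≠ m := fun h1 => hyi (by rw [h1])
    rcases three hij hik hjk m with rfl | rfl | rfl
    · exact hmi rfl
    · -- `y' = a j`
      have hcj : Cen G (du g x l) (a m) := hd.bb hG hB hC hbk hbj hbi (Ne.symm hjk) (Ne.symm hij) hy
        nbi.az.symm
      have nbk' : Nb G (b k) (l k) (a i) (a m) :=
        nb_of_three3 G (h.star.deg_b k hbk) (h.nb_l k hk).az.symm nbi.az.symm hy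
          (Ne.symm (h.a_ne_l hi k)) (Ne.symm (h.a_ne_l hj k)) (Ne.symm hyi)
      obtain ⟨l', a', b', f⟩ := hcj
      have hcj : Cen G (du g x l) (a m) := ⟨_, _, _, f⟩
      -- the leaf `l j` of the star at `a j`
      have hnl := h.nb_l m hj
      obtain ⟨q, hlq⟩ := (f.star.nx _).1 hnl.ay.symm
      have hq : a' q ≠ a m := by
        intro h'
        have h1 := f.star.deg_pl q h'
        rw [← hlq, h.star.deg_l m hj] at h1
        omega
      have dbj : du g x l (b m) = true := by
        rw [du_rest (h.star.b_rest m hbj), h.star.cb m hbj]; rfl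
      have haq : b m = a' q := by
        refine f.l_true q hq ?_ dbj
        rw [← hlq]
        exact hnl.az
      have gp : du g x l p = false := hd.false_of_a_nbr hbj nbj.ay nbj.xy.symm
      have rp : p ∈ rest (a m) l' := f.rest_of_false gp (kp.nb m)
      have hc2 : Cen G (du (du g x l) (a m) l') (b m) := by
        rw [haq]
        exact f.e3 hG hB hC hq (by rw [← haq]; exact nbj.ay) rp kp.heavy
      -- the neighbours of `a k`
      obtain ⟨y, nbk⟩ := exists_nb23 G (h.star.deg_a k hk) (h.nb_l k hk).ay.symm nbj.az.symm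
        (Ne.symm (h.b_ne_l hbj k))
      have gy : g y = false := h.false_of_a_nbr hk nbk.az nbk.xz.symm
      have yx : y ≠ x := by
        rintro rfl
        exact h.x_ne_nbr_a k hk nbk.az
      have dy : du g x l y = true := by
        rw [du_rest (h.rest_of_false gy yx), gy]; rfl
      have hjy : G.Adj (a m) y := by
        rcases hc2.leaf nbj.az with h1 | ⟨z, t, nb, gz, -⟩
        · have := h.star.deg_a k hk
          omega
        · rcases (nbk.adj z).1 nb.ay with h1 | h1 | h1
          · exfalso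
            rw [h1] at gz
            have h2 := (f.du_true_iff (h.du_l k)).1 gz
            rcases (h.star.nl k _).1 h2.symm with h3 | h3 | h3
            · exact hj h3
            · exact hjk (h.star.a_inj m k h3 hj)
            · exact h.star.a_ne_b' m hj k h3
          · exact absurd h1.symm nb.xy
          · rw [h1] at gz
            exact (f.du_true_iff dy).1 gz
      rcases h.nbr_a hG hk nbk.az nbk.xz.symm with h1 | h1 | ⟨m', h1, h2⟩
      · exact h.not_isU_of_cen hcj hjy h1
      · exact nAk (e3_all hG hB hC _ _ _ _ _ h k y hk nbk.az h1)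
      · subst h2
        rcases three hij hik hjk m' with rfl | rfl | rfl
        · exact nAk (hd.bb hG hB hC hbi hbk hbj hik (Ne.symm hjk) nbk.az.symm hjy.symm)
        · exact nbk.yz rfl
        · rcases (nbk'.adj _).1 nbk.az.symm with h3 | h3 | h3
          · exact h.a_ne_l hk _ h3
          · exact hik (h.star.a_inj _ _ h3 hk).symm
          · exact hjk (h.star.a_inj _ _ h3 hk).symm
    · -- `y' = a k`: leaf triangle
      obtain ⟨l', a', b', f⟩ := hBj
      obtain ⟨q, hlq, haq, hq⟩ := h.frame_at hk f nbj.az.symm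
      have hbq : b' q = b m := by
        refine (f.l_false q ?_ (h.star.cb m hbk) ?_).1.symm
        · rw [hlq]; exact hy.symm
        · intro h1
          exact hjk (h.star.b_inj m j h1 hbk).symm
      have hbq' : b' q ≠ b j := fun h1 => hq ((f.star.a_eq_iff q).2 h1)
      have ra : a i ∈ rest (b j) l' := f.rest_of_true (h.star.ca i hi) hnji
      have hcl : ¬ G.Adj (b j) (l i) := by
        intro h1
        rcases (h.star.nl i _).1 h1.symm with h2 | h2 | h2
        · exact hbj h2
        · exact h.star.a_ne_b' i hi j h2.symm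
        · exact hij (h.star.b_inj j i h2 hbj).symm
      have rl : l i ∈ rest (b j) l' := f.rest_of_true (h.gl i) hcl
      have hheavy : Heavy G (du g (b j) l') (a i) := by
        right
        refine own_ge_one (h.nb_l i hi).ay.symm ?_
        rw [du_rest ra, du_rest rl, h.gl, h.star.ca i hi]
      have hc : Cen G g (b' q) := f.e3' hG hB hC hbq' (by rw [hbq]; exact nbi.az.symm) ra hheavy
      rw [hbq] at hc
      exact h.not_tri_of_b hk hc hy.symm

/-- **R1, ordinary form.** -/
theorem Fr.r1_ord (hG : Deg13 G) (hB : NoBal3 G) (hC : C4Free G) (hA : CfgAll G)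
    (h : Fr G g x l a b) {i j : Fin 3} {n p : V} (hi : a i ≠ x) (hj : a j ≠ x) (hij : i ≠ j)
    (hn : G.Adj (a i) n) (kn : IsK G g x l a b n) (hp : G.Adj (b j) p)
    (kp : IsK G (du g x l) x l b a p) : False := by
  have hbi := h.b_ne hi
  have hbj := h.b_ne hj
  have hd := h.dual
  have hAi : Cen G (du g x l) (a i) := e3_all hG hB hC _ _ _ _ _ h i n hi hn kn
  have hBj : Cen G g (b j) := by
    have h1 := e3_all hG hB hC _ _ _ _ _ hd j p hbj hp kp
    rwa [h.du_du] at h1
  obtain ⟨k, hik, hjk, hk, nbi⟩ := h.r1_core1 hG hB hC hi hj hij hn kn hAi hBj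
  obtain ⟨k', hjk', hik', hk', nbj⟩ := hd.r1_core1 hG hB hC hbj hbi (Ne.symm hij) hp kp
    (by rw [h.du_du]; exact hBj) hAi
  have hkk : k' = k := by
    rcases three hij hik hjk k' with h1 | h1 | h1
    · exact absurd h1.symm hik'
    · exact absurd h1.symm hjk'
    · exact h1
  subst hkk
  have hbk := h.b_ne hk
  obtain ⟨y', nbk'⟩ := exists_nb23 G (h.star.deg_b k' hbk) (h.nb_l k' hk).az.symm nbi.az.symm
    (Ne.symm (h.a_ne_l hi k'))
  obtain ⟨y, nbk⟩ := exists_nb23 G (h.star.deg_a k' hk) (h.nb_l k' hk).ay.symm nbj.az.symm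
    (Ne.symm (h.b_ne_l hbj k'))
  have U' := h.r1_core2 hG hB hC hi hj hk hij hik hjk kn nbi kp nbj hAi hBj nbk'.az nbk'.xz.symm
    nbk'.yz.symm
  have U := hd.r1_core2 hG hB hC hbj hbi hbk (Ne.symm hij) hjk hik kp nbj
    (by rw [h.du_du]; exact kn) nbi (by rw [h.du_du]; exact hBj) hAi nbk.az nbk.xz.symm nbk.yz.symm
  rw [h.du_du] at U
  exact hA g x l a b h i j k' n p y y' hij hik hjk hi hj hk hn kn nbi.az hp kp nbj.az nbk.az U
    nbk'.az U'

end

end Pool.Agent.BLN
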