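import Pool.Agent.BLN.Asm
import Pool.Agent.BLN.R1ord
import Pool.Agent.BLN.AorB
import Pool.Agent.BLN.CfgA

/-!
# The field `r1` for all graphs of the class
-/

set_option autoImplicit false
set_option linter.unusedSectionVars false

namespace Pool.Agent.BLN

open Finset Pool.Agent.IVT Pool.BLE

/-- The last configuration is impossible. -/
theorem cfgAll {V : Type} [Fintype V] [DecidableEq V] {G : SimpleGraph V} [DecidableRel G.Adj]
    (hG : Deg13 G) (hB : NoBal3 G) (hC : C4Free G) (uu : UU G) : CfgAll G :=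
  fun _ _ _ _ _ h _ _ _ _ _ _ _ hij hik hjk hi hj hk h1 h2 h3 h4 h5 h6 h7 h8 h9 h10 =>
    h.cfgA hG hB hC uu hij hik hjk hi hj hk h1 h2 h3 h4 h5 h6 h7 h8 h9 h10

/-- R1 in the ordinary form. -/
theorem r1_ord_all {V : Type} [Fintype V] [DecidableEq V] {G : SimpleGraph V}
    [DecidableRel G.Adj] (hG : Deg13 G) (hB : NoBal3 G) (hC : C4Free G) (uu : UU G) :
    ∀ (g : V → Bool) (x : V) (l a b : Fin 3 → V), Fr G g x l a b → ∀ i j v w, a i ≠ x →
      a j ≠ x → i ≠ j → G.Adj (a i) v → IsK G g x l a b v → G.Adj (b j) w →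
      IsK G (du g x l) x l b a w → False :=
  fun _ _ _ _ _ h _ _ _ _ hi hj hij hv kv hw kw =>
    h.r1_ord hG hB hC (cfgAll hG hB hC uu) hi hj hij hv kv hw kw

/-- The field `r1`, from the path lemma. -/
theorem r1All : R1All := by
  intro V _ _ G _ hcls hB hP huu _ g x l a b h i j hi hj hij hA hBj
  exact h.r1_cen hcls.deg hB hcls.c4 hcls.conn hP (r1_ord_all hcls.deg hB hcls.c4 huu)
    hi hj hij hA hBj

/-- A nonpendant index without a leaf triangle: `a j` is a dual centre or `b j` a centre. -/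
theorem aorb_all {V : Type} [Fintype V] [DecidableEq V] {G : SimpleGraph V}
    [DecidableRel G.Adj] (hcls : Cls13 G) (hB : NoBal3 G) (hP : ¬ IsPet G) (uu : UU G)
    {g : V → Bool} {x : V} {l a b : Fin 3 → V} (h : Fr G g x l a b) {j : Fin 3} (hj : a j ≠ x)
    (ho : ¬ G.Adj (a j) (b j)) : Cen G (du g x l) (a j) ∨ Cen G g (b j) :=
  h.aorb hcls.deg hB hcls.c4 hcls.conn hP uu (r1_ord_all hcls.deg hB hcls.c4 uu) hj ho

end Pool.Agent.BLN
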