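import Pool.Agent.BLN.Defs

/-!
# The table lemma for a star

`Star G c x l a b` : outside `N[x]` the colouring `c` is self-supported and balanced. Flipping a set `S`
of vertices of the rest and recolouring `N[x]` gives a balanced valid colouring of `G` under the
conditions of the table: `Star.table`, `Star.table_local`. The new colouring is `col c x l a b S ξ`
(`ξ` = new colour of the centre).
-/

set_option autoImplicit false
set_option linter.unusedSectionVars false

namespace Pool.Agent.BLN

open Finset Pool.Agent.IVT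

variable {V : Type} [Fintype V] [DecidableEq V]

/-- the sign of a colour -/
def sg (b : Bool) : ℤ := if b = true then 1 else -1

omit [DecidableEq V] in
theorem sgn_eq (c : V → Bool) : sgn true c = ∑ v, sg (c v) := rfl

section

variable (G : SimpleGraph V) [DecidableRel G.Adj]

/-- number of neighbours in `R` of the colour of `v` -/
def ownIn (c : V → Bool) (R : Finset V) (v : V) : ℕ := (R.filter fun w => G.Adj v w ∧ c w = c v).card

/-- bichromatic neighbours in `R` on the other side of `S` -/
def out (c : V → Bool) (R S : Finset V) (v : V) : ℕ :=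
  (R.filter fun w => G.Adj v w ∧ c w ≠ c v ∧ (w ∈ S ↔ v ∉ S)).card

/-- own neighbours in `R` on the same side of `S` -/
def stay (c : V → Bool) (R S : Finset V) (v : V) : ℕ :=
  (R.filter fun w => G.Adj v w ∧ c w = c v ∧ (w ∈ S ↔ v ∈ S)).card

omit [Fintype V] in
theorem ownIn_flip (c : V → Bool) (R S : Finset V) (v : V) :
    ownIn G (flips S c) R v = out G c R S v + stay G c R S v := by
  unfold ownIn out stay
  rw [← card_union_of_disjoint]
  · congr 1
    ext w
    simp only [mem_filter, mem_union, flips]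
    by_cases h1 : w ∈ S <;> by_cases h2 : v ∈ S <;> by_cases h3 : w ∈ R <;> by_cases h4 : G.Adj v w <;>
      cases hv : c v <;> cases hw : c w <;> simp [h1, h2, h3, h4]
  · rw [disjoint_left]
    intro w h1 h2
    simp only [mem_filter] at h1 h2
    exact h1.2.2.1 h2.2.2.1

end

/-- number of pairs with exactly `a i` flipped -/
def alpha (a b : Fin 3 → V) (S : Finset V) : ℕ := (univ.filter fun i => a i ∈ S ∧ b i ∉ S).card

/-- number of pairs with exactly `b i` flipped -/
def beta (a b : Fin 3 → V) (S : Finset V) : ℕ := (univ.filter fun i => a i ∉ S ∧ b i ∈ S).card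

/-- the new colour of the leaf `i` -/
def lam (a b : Fin 3 → V) (S : Finset V) (ξ : Bool) (i : Fin 3) : Bool :=
  if a i ∈ S ∧ b i ∉ S then true else if a i ∉ S ∧ b i ∈ S then false else !ξ

/-- the new colouring -/
def col (c : V → Bool) (x : V) (l a b : Fin 3 → V) (S : Finset V) (ξ : Bool) (v : V) : Bool :=
  if v = x then ξ else if v = l 0 then lam a b S ξ 0 else if v = l 1 then lam a b S ξ 1
    else if v = l 2 then lam a b S ξ 2 else flips S c v

/-- sum of the signs over a set -/
def kk (c : V → Bool) (S : Finset V) : ℤ := ∑ v ∈ S, sg (c v)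

/-- the value condition of the table -/
def Val (c : V → Bool) (a b : Fin 3 → V) (S : Finset V) (ξ : Bool) : Prop :=
  (ξ = true ∧ alpha a b S ≤ 1 ∧ kk c S = alpha a b S - 1) ∨
    (ξ = false ∧ beta a b S ≤ 1 ∧ kk c S = 1 - beta a b S)

/-- the exposed special of the pair `i` (used only if both or none of the pair are in `S`) -/
def expo (a b : Fin 3 → V) (S : Finset V) (ξ : Bool) (i : Fin 3) : V :=
  if (ξ = true ↔ a i ∈ S) then a i else b i

/-- cost of a vertex: number of own neighbours in the rest after the flip of `S` -/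
def cost (G : SimpleGraph V) [DecidableRel G.Adj] (c : V → Bool) (x : V) (l : Fin 3 → V) (S : Finset V)
    (v : V) : ℕ := out G c (rest x l) S v + stay G c (rest x l) S v

/-- number of neighbours in the rest of the other colour after the flip of `S` -/
def opp (G : SimpleGraph V) [DecidableRel G.Adj] (c : V → Bool) (x : V) (l : Fin 3 → V) (S : Finset V)
    (v : V) : ℕ := ((rest x l).filter fun w => G.Adj v w ∧ flips S c w ≠ flips S c v).card

theorem mem_rest {x : V} {l : Fin 3 → V} {v : V} : v ∈ rest x l ↔ v ≠ x ∧ ∀ i, v ≠ l i := by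
  simp [rest]

namespace Star

variable {G : SimpleGraph V} [DecidableRel G.Adj] {c : V → Bool} {x : V} {l a b : Fin 3 → V}
  (st : Star G c x l a b)
include st

theorem l_ne_x (i : Fin 3) : l i ≠ x := by
  intro h
  have := (st.nx (l i)).2 ⟨i, rfl⟩
  rw [h] at this
  exact G.irrefl this

theorem col_x (S : Finset V) (ξ : Bool) : col c x l a b S ξ x = ξ := by
  simp [col]

theorem col_l (S : Finset V) (ξ : Bool) (i : Fin 3) : col c x l a b S ξ (l i) = lam a b S ξ i := by
  have h01 : l 1 ≠ l 0 := fun h => by simpa using st.l_inj h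
  have h02 : l 2 ≠ l 0 := fun h => by simpa using st.l_inj h
  have h12 : l 2 ≠ l 1 := fun h => by simpa using st.l_inj h
  fin_cases i
  · simp [col, st.l_ne_x 0]
  · simp [col, st.l_ne_x 1, h01]
  · simp [col, st.l_ne_x 2, h02, h12]

theorem col_R (S : Finset V) (ξ : Bool) {v : V} (hv : v ∈ (rest x l)) : col c x l a b S ξ v = flips S c v := by
  rw [mem_rest] at hv
  simp [col, hv.1, hv.2 0, hv.2 1, hv.2 2]

theorem univ_eq : (univ : Finset V) = insert x (insert (l 0) (insert (l 1) (insert (l 2) (rest x l)))) := by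
  ext v
  simp only [mem_univ, mem_insert, mem_rest, true_iff]
  by_cases h : v = x
  · exact Or.inl h
  by_cases h0 : v = l 0
  · exact Or.inr (Or.inl h0)
  by_cases h1 : v = l 1
  · exact Or.inr (Or.inr (Or.inl h1))
  by_cases h2 : v = l 2
  · exact Or.inr (Or.inr (Or.inr (Or.inl h2)))
  refine Or.inr (Or.inr (Or.inr (Or.inr ⟨h, fun i => ?_⟩)))
  fin_cases i <;> assumption

theorem sum_univ (f : V → ℤ) :
    ∑ v, f v = f x + (f (l 0) + f (l 1) + f (l 2)) + ∑ v ∈ (rest x l), f v := by
  have h01 : l 0 ≠ l 1 := fun h => by simpa using st.l_inj h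
  have h02 : l 0 ≠ l 2 := fun h => by simpa using st.l_inj h
  have h12 : l 1 ≠ l 2 := fun h => by simpa using st.l_inj h
  have hR : ∀ i, l i ∉ (rest x l) := fun i h => (mem_rest.1 h).2 i rfl
  have hx : x ∉ (rest x l) := fun h => (mem_rest.1 h).1 rfl
  rw [st.univ_eq, sum_insert, sum_insert, sum_insert, sum_insert]
  · ring
  · exact hR 2
  · simp [h12, hR 1]
  · simp [h01, h02, hR 0]
  · simp [(st.l_ne_x 0).symm, (st.l_ne_x 1).symm, (st.l_ne_x 2).symm, hx]

theorem bal' : ∑ v ∈ (rest x l), sg (c v) = 0 := st.sum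

theorem sum_flip {S : Finset V} (hS : S ⊆ (rest x l)) : ∑ v ∈ (rest x l), sg (flips S c v) = - 2 * kk c S := by
  have h1 : ∀ v ∈ (rest x l), sg (flips S c v) = sg (c v) - (if v ∈ S then 2 * sg (c v) else 0) := by
    intro v _
    by_cases h : v ∈ S
    · cases hc : c v <;> simp [flips, h, hc, sg]
    · simp [flips, h]
  rw [sum_congr rfl h1, sum_sub_distrib, st.bal', zero_sub, kk, ← sum_filter, filter_mem_eq_inter,
    inter_eq_right.2 hS, ← mul_sum]
  ring

/-- the contribution of the leaves -/
theorem sum_lam_true (S : Finset V) :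
    sg (lam a b S true 0) + sg (lam a b S true 1) + sg (lam a b S true 2) = 2 * (alpha a b S : ℤ) - 3 := by
  have h : (alpha a b S : ℤ) = ∑ i : Fin 3, if a i ∈ S ∧ b i ∉ S then (1 : ℤ) else 0 := by
    rw [alpha, card_filter]; push_cast; rfl
  have h1 : ∀ i, sg (lam a b S true i) = 2 * (if a i ∈ S ∧ b i ∉ S then (1 : ℤ) else 0) - 1 := by
    intro i
    by_cases h1 : a i ∈ S <;> by_cases h2 : b i ∈ S <;> simp [lam, h1, h2, sg]
  rw [h, h1, h1, h1, Fin.sum_univ_three]
  ring

theorem sum_lam_false (S : Finset V) :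
    sg (lam a b S false 0) + sg (lam a b S false 1) + sg (lam a b S false 2) = 3 - 2 * (beta a b S : ℤ) := by
  have h : (beta a b S : ℤ) = ∑ i : Fin 3, if a i ∉ S ∧ b i ∈ S then (1 : ℤ) else 0 := by
    rw [beta, card_filter]; push_cast; rfl
  have h1 : ∀ i, sg (lam a b S false i) = 1 - 2 * (if a i ∉ S ∧ b i ∈ S then (1 : ℤ) else 0) := by
    intro i
    by_cases h1 : a i ∈ S <;> by_cases h2 : b i ∈ S <;> simp [lam, h1, h2, sg]
  rw [h, h1, h1, h1, Fin.sum_univ_three]
  ring

theorem sum_col {S : Finset V} (hS : S ⊆ (rest x l)) {ξ : Bool} (h : Val c a b S ξ) : ∑ v, sg (col c x l a b S ξ v) = 0 := by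
  rw [st.sum_univ, st.col_x, st.col_l, st.col_l, st.col_l,
    sum_congr rfl fun v hv => by rw [st.col_R S ξ hv], st.sum_flip hS]
  rcases h with ⟨rfl, _, h⟩ | ⟨rfl, _, h⟩
  · rw [st.sum_lam_true, h]; simp only [sg, if_true]; ring
  · rw [st.sum_lam_false, h]; simp [sg]; ring

theorem own_x {S : Finset V} {ξ : Bool} (h : Val c a b S ξ) : (bad G (col c x l a b S ξ) x).card ≤ 1 := by
  have h1 : bad G (col c x l a b S ξ) x ⊆
      (univ.filter fun i : Fin 3 => lam a b S ξ i = ξ).image l := by
    intro w hw
    rw [mem_bad] at hw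
    obtain ⟨i, rfl⟩ := (st.nx w).1 hw.1
    rw [st.col_l, st.col_x] at hw
    exact mem_image_of_mem _ (by simp [hw.2])
  refine (card_le_card h1).trans (card_image_le.trans ?_)
  rcases h with ⟨rfl, h, _⟩ | ⟨rfl, h, _⟩
  · refine le_trans (card_le_card fun i hi => ?_) h
    simp only [mem_filter, mem_univ, true_and, lam] at hi ⊢
    by_contra h3
    rw [if_neg h3] at hi
    split_ifs at hi
    simp at hi
  · refine le_trans (card_le_card fun i hi => ?_) h
    simp only [mem_filter, mem_univ, true_and, lam] at hi ⊢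
    by_contra h3
    rw [if_neg h3] at hi
    split_ifs at hi
    simp at hi

theorem own_l (S : Finset V) (ξ : Bool) (i : Fin 3) : (bad G (col c x l a b S ξ) (l i)).card ≤ 1 := by
  have ha := st.col_R S ξ (st.a_rest i)
  have hb := st.col_R S ξ (st.b_rest i)
  have h1 : ∀ w, w ∈ bad G (col c x l a b S ξ) (l i) →
      (w = x ∧ ξ = lam a b S ξ i) ∨ (w = a i ∧ flips S c (a i) = lam a b S ξ i) ∨
        (w = b i ∧ flips S c (b i) = lam a b S ξ i) := by
    intro w hw
    rw [mem_bad, st.nl, st.col_l] at hw
    rcases hw with ⟨rfl | rfl | rfl, h⟩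
    · rw [st.col_x] at h; exact Or.inl ⟨rfl, h⟩
    · rw [ha] at h; exact Or.inr (Or.inl ⟨rfl, h⟩)
    · rw [hb] at h; exact Or.inr (Or.inr ⟨rfl, h⟩)
  rw [card_le_one]
  intro w hw w' hw'
  have h2 := h1 w hw
  have h3 := h1 w' hw'
  have h4 := st.ca i
  have h5 := st.cb i
  by_cases h6 : a i ∈ S <;> by_cases h7 : b i ∈ S <;> cases ξ <;>
    simp only [lam, flips, h4, h5, h6, h7, if_true, if_false, not_true_eq_false, not_false_eq_true, and_true,
      and_false, and_self, Bool.not_true, Bool.not_false, Bool.true_eq_false, Bool.false_eq_true, false_or,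
      or_false] at h2 h3 <;> rw [h2, h3]

theorem a_ne_b (i j : Fin 3) : a i ≠ b j := by
  intro h
  have h1 := st.ca i
  rw [h, st.cb j] at h1
  exact absurd h1 (by decide)

/-- a vertex of the rest has at most one leaf neighbour -/
theorem leaf_unique {v : V} {i j : Fin 3} (hi : v = a i ∨ v = b i) (hj : v = a j ∨ v = b j) :
    i = j := by
  rcases hi with hi | hi <;> rcases hj with hj | hj
  · exact st.a_inj (hi.symm.trans hj)
  · exact absurd (hi.symm.trans hj) (st.a_ne_b i j)
  · exact absurd (hj.symm.trans hi) (st.a_ne_b j i)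
  · exact st.b_inj (hi.symm.trans hj)

/-- a special whose new colour is the colour of its leaf is exposed -/
theorem eq_expo {S : Finset V} {ξ : Bool} {v : V} {i : Fin 3} (hi : v = a i ∨ v = b i)
    (h : lam a b S ξ i = flips S c v) : (a i ∈ S ↔ b i ∈ S) ∧ v = expo a b S ξ i := by
  have h4 := st.ca i
  have h5 := st.cb i
  rcases hi with rfl | rfl <;> by_cases h6 : a i ∈ S <;> by_cases h7 : b i ∈ S <;> cases ξ <;>
    simp [lam, flips, h4, h5, h6, h7, expo] at h ⊢

theorem own_R {S : Finset V} {ξ : Bool} (hcost : ∀ v ∈ (rest x l), out G c (rest x l) S v + stay G c (rest x l) S v ≤ 1)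
    (hexp : ∀ i, (a i ∈ S ↔ b i ∈ S) →
      out G c (rest x l) S (expo a b S ξ i) + stay G c (rest x l) S (expo a b S ξ i) = 0) {v : V} (hv : v ∈ (rest x l)) :
    (bad G (col c x l a b S ξ) v).card ≤ 1 := by
  have h1 : bad G (col c x l a b S ξ) v ⊆
      ((rest x l).filter fun w => G.Adj v w ∧ flips S c w = flips S c v) ∪
        (univ.filter fun i : Fin 3 => (v = a i ∨ v = b i) ∧ lam a b S ξ i = flips S c v).image l := by
    intro w hw
    rw [mem_bad] at hw
    obtain ⟨h2, h3⟩ := hw
    rw [st.col_R S ξ hv] at h3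
    by_cases hwR : w ∈ (rest x l)
    · rw [st.col_R S ξ hwR] at h3
      exact mem_union_left _ (by simp [hwR, h2, h3])
    · rw [mem_rest] at hwR
      have hwx : w ≠ x := by
        rintro rfl
        obtain ⟨i, hi⟩ := (st.nx v).1 h2.symm
        exact (mem_rest.1 hv).2 i hi
      have hwl : ∃ i, w = l i := by
        by_contra h4
        exact hwR ⟨hwx, fun i h5 => h4 ⟨i, h5⟩⟩
      obtain ⟨i, rfl⟩ := hwl
      rw [st.col_l] at h3
      have h4 := (st.nl i v).1 h2.symm
      have h5 : v = a i ∨ v = b i := by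
        rcases h4 with h4 | h4
        · exact absurd h4 (mem_rest.1 hv).1
        · exact h4
      exact mem_union_right _ (mem_image_of_mem _ (by simp [h5, h3]))
  refine (card_le_card h1).trans ((card_union_le _ _).trans ?_)
  have h2 : ((rest x l).filter fun w => G.Adj v w ∧ flips S c w = flips S c v).card =
      out G c (rest x l) S v + stay G c (rest x l) S v := ownIn_flip G c (rest x l) S v
  rw [h2]
  by_cases h3 : ∃ i, (v = a i ∨ v = b i) ∧ lam a b S ξ i = flips S c v
  · obtain ⟨i, hi, h4⟩ := h3
    obtain ⟨h5, h6⟩ := st.eq_expo hi h4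
    have h7 : ((univ.filter fun i : Fin 3 => (v = a i ∨ v = b i) ∧ lam a b S ξ i = flips S c v).image
        l).card ≤ 1 := by
      refine card_image_le.trans (card_le_one.2 fun j hj j' hj' => ?_)
      simp only [mem_filter, mem_univ, true_and] at hj hj'
      exact st.leaf_unique hj.1 hj'.1
    have h8 := hexp i h5
    rw [← h6] at h8
    omega
  · have h4 : (univ.filter fun i : Fin 3 => (v = a i ∨ v = b i) ∧ lam a b S ξ i = flips S c v) = ∅ := by
      rw [filter_eq_empty_iff]
      intro i _ h5
      exact h3 ⟨i, h5⟩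
    rw [h4, image_empty, card_empty, add_zero]
    exact hcost v hv

/-- **Table lemma.** -/
theorem table {S : Finset V} (hS : S ⊆ (rest x l)) (ξ : Bool) (hval : Val c a b S ξ)
    (hcost : ∀ v ∈ (rest x l), out G c (rest x l) S v + stay G c (rest x l) S v ≤ 1)
    (hexp : ∀ i, (a i ∈ S ↔ b i ∈ S) →
      out G c (rest x l) S (expo a b S ξ i) + stay G c (rest x l) S (expo a b S ξ i) = 0) :
    Valid G (col c x l a b S ξ) ∧ sgn true (col c x l a b S ξ) = 0 := by
  refine ⟨fun v => ?_, st.sum_col hS hval⟩
  by_cases h : v ∈ (rest x l)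
  · exact st.own_R hcost hexp h
  · rw [mem_rest] at h
    by_cases hx : v = x
    · rw [hx]; exact st.own_x hval
    · have hl : ∃ i, v = l i := by
        by_contra h4
        exact h ⟨hx, fun i h5 => h4 ⟨i, h5⟩⟩
      obtain ⟨i, rfl⟩ := hl
      exact st.own_l S ξ i

/-! ### criteria -/

theorem alpha_eq {S : Finset V} (A B : Finset (Fin 3)) (hA : ∀ i, a i ∈ S ↔ i ∈ A)
    (hB : ∀ i, b i ∈ S ↔ i ∈ B) : alpha a b S = (A \ B).card := by
  unfold alpha
  congr 1
  ext i
  simp [hA, hB]

theorem beta_eq {S : Finset V} (A B : Finset (Fin 3)) (hA : ∀ i, a i ∈ S ↔ i ∈ A)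
    (hB : ∀ i, b i ∈ S ↔ i ∈ B) : beta a b S = (B \ A).card := by
  unfold beta
  congr 1
  ext i
  simp [hA, hB, and_comm]

theorem cost_eq (S : Finset V) (v : V) : cost G c x l S v = ownIn G (flips S c) (rest x l) v :=
  (ownIn_flip G c (rest x l) S v).symm

theorem cost_add_opp (S : Finset V) (v : V) : cost G c x l S v + opp G c x l S v = ((rest x l).filter fun w => G.Adj v w).card := by
  rw [st.cost_eq, ownIn, opp, ← card_union_of_disjoint]
  · congr 1
    ext w
    simp only [mem_union, mem_filter]
    tauto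
  · rw [disjoint_left]
    intro w h1 h2
    simp only [mem_filter] at h1 h2
    exact h2.2.2 h1.2.2

omit st in
theorem card_nb (hG : G.IsRegularOfDegree 3) (v : V) : (univ.filter fun w => G.Adj v w).card = 3 := by
  rw [← hG v, ← SimpleGraph.card_neighborFinset_eq_degree]
  congr 1
  ext w
  simp

/-- specials have degree `2` in the rest -/
theorem deg_special (hG : G.IsRegularOfDegree 3) {v : V} {i : Fin 3}
    (hv : v = a i ∨ v = b i) : ((rest x l).filter fun w => G.Adj v w).card = 2 := by
  have h1 : (univ.filter fun w => G.Adj v w) = insert (l i) ((rest x l).filter fun w => G.Adj v w) := by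
    ext w
    simp only [mem_filter, mem_univ, true_and, mem_insert]
    constructor
    · intro h
      by_cases hw : w ∈ (rest x l)
      · exact Or.inr ⟨hw, h⟩
      · rw [mem_rest] at hw
        have hwx : w ≠ x := by
          intro h6
          rw [h6] at h
          obtain ⟨j, hj⟩ := (st.nx v).1 h.symm
          have hvR : v ∈ (rest x l) := by
            rcases hv with rfl | rfl
            · exact st.a_rest i
            · exact st.b_rest i
          exact (mem_rest.1 hvR).2 j hj
        have hwl : ∃ j, w = l j := by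
          by_contra h4
          exact hw ⟨hwx, fun j h5 => h4 ⟨j, h5⟩⟩
        obtain ⟨j, rfl⟩ := hwl
        have h4 := (st.nl j v).1 h.symm
        have hvR : v ∈ (rest x l) := by
          rcases hv with rfl | rfl
          · exact st.a_rest i
          · exact st.b_rest i
        have h5 : v = a j ∨ v = b j := by
          rcases h4 with h4 | h4
          · exact absurd h4 (mem_rest.1 hvR).1
          · exact h4
        exact Or.inl (by rw [st.leaf_unique hv h5])
    · rintro (rfl | h)
      · exact ((st.nl i v).2 (Or.inr hv)).symm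
      · exact h.2
  have h2 := card_nb hG v
  rw [h1, card_insert_of_notMem] at h2
  · omega
  · simp only [mem_filter, mem_rest]
    intro h
    exact h.1.2 i rfl

/-- the other vertices of the rest have degree `3` in the rest -/
theorem deg_other (hG : G.IsRegularOfDegree 3) {v : V} (hv : v ∈ (rest x l))
    (hs : ∀ i, v ≠ a i ∧ v ≠ b i) : ((rest x l).filter fun w => G.Adj v w).card = 3 := by
  rw [← card_nb hG v]
  congr 1
  ext w
  simp only [mem_filter, mem_univ, true_and, and_iff_right_iff_imp]
  intro h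
  rw [mem_rest]
  refine ⟨?_, fun i => ?_⟩
  · rintro rfl
    obtain ⟨j, hj⟩ := (st.nx v).1 h.symm
    exact (mem_rest.1 hv).2 j hj
  · rintro rfl
    rcases (st.nl i v).1 h.symm with h4 | h4 | h4
    · exact (mem_rest.1 hv).1 h4
    · exact (hs i).1 h4
    · exact (hs i).2 h4

/-- two neighbours in the rest of the other new colour -/
theorem cost_le_of_two (hG : G.IsRegularOfDegree 3) {S : Finset V} {v w w' : V}
    (hw : w ∈ (rest x l)) (hw' : w' ∈ (rest x l)) (hne : w ≠ w') (ha : G.Adj v w) (ha' : G.Adj v w')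
    (hc : flips S c w ≠ flips S c v) (hc' : flips S c w' ≠ flips S c v) : cost G c x l S v ≤ 1 := by
  have h1 : 2 ≤ opp G c x l S v := by
    have : ({w, w'} : Finset V) ⊆ (rest x l).filter fun u => G.Adj v u ∧ flips S c u ≠ flips S c v := by
      intro u hu
      simp only [mem_insert, mem_singleton] at hu
      rcases hu with rfl | rfl <;> simp [*]
    have h2 := card_le_card this
    rwa [card_pair hne] at h2
  have h2 := st.cost_add_opp S v
  have h3 : ((rest x l).filter fun w => G.Adj v w).card ≤ 3 := by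
    rw [← card_nb hG v]
    exact card_le_card fun u hu => by simp at hu ⊢; exact hu.2
  omega

/-- two neighbours in the rest of the other new colour, for a special -/
theorem cost_eq_zero_of_two (hG : G.IsRegularOfDegree 3) {S : Finset V} {v w w' : V}
    {i : Fin 3} (hv : v = a i ∨ v = b i)
    (hw : w ∈ (rest x l)) (hw' : w' ∈ (rest x l)) (hne : w ≠ w') (ha : G.Adj v w) (ha' : G.Adj v w')
    (hc : flips S c w ≠ flips S c v) (hc' : flips S c w' ≠ flips S c v) : cost G c x l S v = 0 := by
  have h1 : 2 ≤ opp G c x l S v := by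
    have : ({w, w'} : Finset V) ⊆ (rest x l).filter fun u => G.Adj v u ∧ flips S c u ≠ flips S c v := by
      intro u hu
      simp only [mem_insert, mem_singleton] at hu
      rcases hu with rfl | rfl <;> simp [*]
    have h2 := card_le_card this
    rwa [card_pair hne] at h2
  have h2 := st.cost_add_opp S v
  have h3 := st.deg_special hG hv
  omega

/-- one neighbour in the rest of the other new colour, for a special -/
theorem cost_le_of_one (hG : G.IsRegularOfDegree 3) {S : Finset V} {v w : V}
    {i : Fin 3} (hv : v = a i ∨ v = b i) (hw : w ∈ (rest x l)) (ha : G.Adj v w)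
    (hc : flips S c w ≠ flips S c v) : cost G c x l S v ≤ 1 := by
  have h1 : 1 ≤ opp G c x l S v := card_pos.2 ⟨w, by simp [*]⟩
  have h2 := st.cost_add_opp S v
  have h3 := st.deg_special hG hv
  omega

/-- a vertex away from `S` -/
theorem cost_far {S : Finset V} {v : V} (hv : v ∉ S) (h : ∀ w ∈ S, ¬ G.Adj v w) :
    cost G c x l S v = ownIn G c (rest x l) v := by
  rw [st.cost_eq, ownIn, ownIn]
  congr 1
  refine filter_congr fun w _ => ?_
  constructor
  · rintro ⟨h1, h2⟩
    have hw : w ∉ S := fun h3 => h w h3 h1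
    simp only [flips, hw, hv, if_false] at h2
    exact ⟨h1, h2⟩
  · rintro ⟨h1, h2⟩
    have hw : w ∉ S := fun h3 => h w h3 h1
    simp only [flips, hw, hv, if_false]
    exact ⟨h1, h2⟩

theorem ownIn_le {v : V} (hv : v ∈ (rest x l)) : ownIn G c (rest x l) v ≤ 1 := st.own v hv

theorem ownIn_special {v : V} {i : Fin 3} (hv : v = a i ∨ v = b i) : ownIn G c (rest x l) v = 0 := by
  rw [ownIn, card_eq_zero, filter_eq_empty_iff]
  rintro w hw ⟨h1, h2⟩
  rcases hv with rfl | rfl
  · rw [st.own_a i w hw h1, st.ca] at h2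
    exact absurd h2 (by decide)
  · rw [st.own_b i w hw h1, st.cb] at h2
    exact absurd h2 (by decide)

/-- **local criterion**: only the vertices of `S` and their neighbours have to be checked -/
theorem table_local {S : Finset V} (hS : S ⊆ (rest x l)) (ξ : Bool) (hval : Val c a b S ξ)
    (hin : ∀ v ∈ S, cost G c x l S v ≤ 1)
    (hnb : ∀ v ∈ (rest x l), v ∉ S → (∃ w ∈ S, G.Adj v w) → cost G c x l S v ≤ 1)
    (hexp : ∀ i, (a i ∈ S ↔ b i ∈ S) → (expo a b S ξ i ∈ S ∨ ∃ w ∈ S, G.Adj (expo a b S ξ i) w) →
      cost G c x l S (expo a b S ξ i) = 0) :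
    Valid G (col c x l a b S ξ) ∧ sgn true (col c x l a b S ξ) = 0 := by
  refine st.table hS ξ hval (fun v hv => ?_) (fun i hi => ?_)
  · by_cases h1 : v ∈ S
    · exact hin v h1
    by_cases h2 : ∃ w ∈ S, G.Adj v w
    · exact hnb v hv h1 h2
    · have h3 := st.cost_far h1 fun w hw h4 => h2 ⟨w, hw, h4⟩
      have h4 := st.ownIn_le hv
      unfold cost at h3
      omega
  · by_cases h1 : expo a b S ξ i ∈ S ∨ ∃ w ∈ S, G.Adj (expo a b S ξ i) w
    · exact hexp i hi h1
    · push Not at h1
      have h3 := st.cost_far h1.1 fun w hw h4 => h1.2 w hw h4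
      have h5 : expo a b S ξ i = a i ∨ expo a b S ξ i = b i := by
        unfold expo
        split_ifs
        · exact Or.inl rfl
        · exact Or.inr rfl
      rw [st.ownIn_special h5] at h3
      exact h3

/-- flipping the union of two sets which do not interact -/
theorem cost_union {S T : Finset V} (hd : Disjoint S T)
    (hown : ∀ v ∈ S, ∀ w ∈ T, G.Adj v w → c v ≠ c w) {v : V}
    (hout : v ∉ S → v ∉ T → (∀ w ∈ S, w ∈ (rest x l) → G.Adj v w → c w = c v) ∨ (∀ w ∈ T, w ∈ (rest x l) → G.Adj v w → c w = c v)) :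
    cost G c x l (S ∪ T) v ≤ max (cost G c x l S v) (cost G c x l T v) := by
  rw [st.cost_eq, st.cost_eq, st.cost_eq]
  rw [disjoint_left] at hd
  by_cases h1 : v ∈ S
  · have hv : v ∉ T := hd h1
    refine le_max_of_le_left (card_le_card fun w hw => ?_)
    simp only [mem_filter] at hw ⊢
    refine ⟨hw.1, hw.2.1, ?_⟩
    have h2 := hw.2.2
    by_cases h3 : w ∈ S
    · simpa [flips, h1, h3, hv, hd h3] using h2
    · by_cases h4 : w ∈ T
      · exfalso
        have h5 := hown v h1 w h4 hw.2.1
        simp only [flips, mem_union, h1, h3, h4, hv, or_true, true_or, if_true] at h2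
        exact h5 (by simpa using h2.symm)
      · simpa [flips, h1, h3, hv, h4] using h2
  by_cases h2 : v ∈ T
  · refine le_max_of_le_right (card_le_card fun w hw => ?_)
    simp only [mem_filter] at hw ⊢
    refine ⟨hw.1, hw.2.1, ?_⟩
    have h5 := hw.2.2
    by_cases h3 : w ∈ S
    · exfalso
      have h6 := hown w h3 v h2 hw.2.1.symm
      simp only [flips, mem_union, h1, h3, h2, or_true, true_or, if_true] at h5
      exact h6 (by simpa using h5)
    · by_cases h4 : w ∈ T
      · simpa [flips, h1, h3, h2, h4] using h5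
      · simpa [flips, h1, h3, h2, h4] using h5
  rcases hout h1 h2 with h | h
  · refine le_max_of_le_right (card_le_card fun w hw => ?_)
    simp only [mem_filter] at hw ⊢
    refine ⟨hw.1, hw.2.1, ?_⟩
    have h5 := hw.2.2
    by_cases h3 : w ∈ S
    · have h6 := h w h3 hw.1 hw.2.1
      have h4 : w ∉ T := hd h3
      simp [flips, h1, h3, h2, h6] at h5
    · by_cases h4 : w ∈ T
      · simpa [flips, h1, h3, h2, h4] using h5
      · simpa [flips, h1, h3, h2, h4] using h5
  · refine le_max_of_le_left (card_le_card fun w hw => ?_)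
    simp only [mem_filter] at hw ⊢
    refine ⟨hw.1, hw.2.1, ?_⟩
    have h5 := hw.2.2
    by_cases h3 : w ∈ S
    · have h4 : w ∉ T := hd h3
      simpa [flips, h1, h3, h2, h4] using h5
    · by_cases h4 : w ∈ T
      · have h6 := h w h4 hw.1 hw.2.1
        simp [flips, h1, h3, h2, h4, h6] at h5
      · simpa [flips, h1, h3, h2, h4] using h5

end Star

end Pool.Agent.BLN
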