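import Pool.Agent.BLN.Table

/-!
# Stars and the table lemma for graphs with degrees `1` and `3`

`Star3 G c x l a b` : as `Star`, but a leaf `l i` may be a pendant vertex; then `a i = b i = x`.
`Valid3 G c` : a vertex of degree `3` has at most one, a vertex of degree `1` no neighbour of its colour.
-/

set_option autoImplicit false
set_option linter.unusedSectionVars false

namespace Pool.Agent.BLN

open Finset Pool.Agent.IVT

variable {V : Type} [Fintype V] [DecidableEq V]

/-- less than half of the neighbours of each vertex have its colour -/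
def Valid3 (G : SimpleGraph V) [DecidableRel G.Adj] (c : V → Bool) : Prop :=
  ∀ v, 2 * (bad G c v).card < G.degree v

theorem valid3_iff {G : SimpleGraph V} [DecidableRel G.Adj] (hG : G.IsRegularOfDegree 3) (c : V → Bool) :
    Valid3 G c ↔ Valid G c := by
  unfold Valid3 Valid
  refine forall_congr' fun v => ?_
  rw [hG v]
  omega

/-- A star in a graph with degrees `1` and `3`. For a pendant leaf `l i` the convention is
`a i = b i = x`. -/
structure Star3 (G : SimpleGraph V) [DecidableRel G.Adj] (c : V → Bool) (x : V) (l a b : Fin 3 → V) : Prop where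
  nx : ∀ v, G.Adj x v ↔ ∃ i, v = l i
  nl : ∀ i v, G.Adj (l i) v ↔ v = x ∨ v = a i ∨ v = b i
  l_inj : Function.Injective l
  pd : ∀ i, (a i = x ∧ b i = x) ∨ (a i ≠ x ∧ b i ≠ x)
  a_inj : ∀ i j, a i = a j → a i ≠ x → i = j
  b_inj : ∀ i j, b i = b j → b i ≠ x → i = j
  a_rest : ∀ i, a i ≠ x → a i ∈ rest x l
  b_rest : ∀ i, b i ≠ x → b i ∈ rest x l
  ca : ∀ i, a i ≠ x → c (a i) = true
  cb : ∀ i, b i ≠ x → c (b i) = false
  own : ∀ v ∈ rest x l, 2 * ((rest x l).filter (fun w => G.Adj v w ∧ c w = c v)).card < G.degree v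
  own_a : ∀ i, a i ≠ x → ∀ w ∈ rest x l, G.Adj (a i) w → c w = false
  own_b : ∀ i, b i ≠ x → ∀ w ∈ rest x l, G.Adj (b i) w → c w = true
  deg_a : ∀ i, a i ≠ x → G.degree (a i) = 3
  deg_b : ∀ i, b i ≠ x → G.degree (b i) = 3
  sum : ∑ v ∈ rest x l, sg (c v) = 0

namespace Star3

variable {G : SimpleGraph V} [DecidableRel G.Adj] {c : V → Bool} {x : V} {l a b : Fin 3 → V}
  (st : Star3 G c x l a b)
include st

theorem l_ne_x (i : Fin 3) : l i ≠ x := by
  intro h
  have := (st.nx (l i)).2 ⟨i, rfl⟩
  rw [h] at this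
  exact G.irrefl this

theorem col_x (S : Finset V) (ξ : Bool) : col c x l a b S ξ x = ξ := by
  simp [col]

theorem col_l (S : Finset V) (ξ : Bool) (i : Fin 3) : col c x l a b S ξ (l i) = lam a b S ξ i := by
  have h01 : l 1 ≠ l 0 := fun h => by simpa using st.l_inj h
  have h02 : l 2 ≠ l 0 := fun h => by simpa using st.l_inj h
  have h12 : l 2 ≠ l 1 := fun h => by simpa using st.l_inj h
  fin_cases i
  · simp [col, st.l_ne_x 0]
  · simp [col, st.l_ne_x 1, h01]
  · simp [col, st.l_ne_x 2, h02, h12]

theorem col_R (S : Finset V) (ξ : Bool) {v : V} (hv : v ∈ (rest x l)) : col c x l a b S ξ v = flips S c v := by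
  rw [mem_rest] at hv
  simp [col, hv.1, hv.2 0, hv.2 1, hv.2 2]

theorem univ_eq : (univ : Finset V) = insert x (insert (l 0) (insert (l 1) (insert (l 2) (rest x l)))) := by
  ext v
  simp only [mem_univ, mem_insert, mem_rest, true_iff]
  by_cases h : v = x
  · exact Or.inl h
  by_cases h0 : v = l 0
  · exact Or.inr (Or.inl h0)
  by_cases h1 : v = l 1
  · exact Or.inr (Or.inr (Or.inl h1))
  by_cases h2 : v = l 2
  · exact Or.inr (Or.inr (Or.inr (Or.inl h2)))
  refine Or.inr (Or.inr (Or.inr (Or.inr ⟨h, fun i => ?_⟩)))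
  fin_cases i <;> assumption

theorem sum_univ (f : V → ℤ) :
    ∑ v, f v = f x + (f (l 0) + f (l 1) + f (l 2)) + ∑ v ∈ (rest x l), f v := by
  have h01 : l 0 ≠ l 1 := fun h => by simpa using st.l_inj h
  have h02 : l 0 ≠ l 2 := fun h => by simpa using st.l_inj h
  have h12 : l 1 ≠ l 2 := fun h => by simpa using st.l_inj h
  have hR : ∀ i, l i ∉ (rest x l) := fun i h => (mem_rest.1 h).2 i rfl
  have hx : x ∉ (rest x l) := fun h => (mem_rest.1 h).1 rfl
  rw [st.univ_eq, sum_insert, sum_insert, sum_insert, sum_insert]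
  · ring
  · exact hR 2
  · simp [h12, hR 1]
  · simp [h01, h02, hR 0]
  · simp [(st.l_ne_x 0).symm, (st.l_ne_x 1).symm, (st.l_ne_x 2).symm, hx]

theorem bal' : ∑ v ∈ (rest x l), sg (c v) = 0 := st.sum

theorem sum_flip {S : Finset V} (hS : S ⊆ (rest x l)) : ∑ v ∈ (rest x l), sg (flips S c v) = - 2 * kk c S := by
  have h1 : ∀ v ∈ (rest x l), sg (flips S c v) = sg (c v) - (if v ∈ S then 2 * sg (c v) else 0) := by
    intro v _
    by_cases h : v ∈ S
    · cases hc : c v <;> simp [flips, h, hc, sg]
    · simp [flips, h]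
  rw [sum_congr rfl h1, sum_sub_distrib, st.bal', zero_sub, kk, ← sum_filter, filter_mem_eq_inter,
    inter_eq_right.2 hS, ← mul_sum]
  ring

/-- the contribution of the leaves -/
theorem sum_lam_true (S : Finset V) :
    sg (lam a b S true 0) + sg (lam a b S true 1) + sg (lam a b S true 2) = 2 * (alpha a b S : ℤ) - 3 := by
  have h : (alpha a b S : ℤ) = ∑ i : Fin 3, if a i ∈ S ∧ b i ∉ S then (1 : ℤ) else 0 := by
    rw [alpha, card_filter]; push_cast; rfl
  have h1 : ∀ i, sg (lam a b S true i) = 2 * (if a i ∈ S ∧ b i ∉ S then (1 : ℤ) else 0) - 1 := by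
    intro i
    by_cases h1 : a i ∈ S <;> by_cases h2 : b i ∈ S <;> simp [lam, h1, h2, sg]
  rw [h, h1, h1, h1, Fin.sum_univ_three]
  ring

theorem sum_lam_false (S : Finset V) :
    sg (lam a b S false 0) + sg (lam a b S false 1) + sg (lam a b S false 2) = 3 - 2 * (beta a b S : ℤ) := by
  have h : (beta a b S : ℤ) = ∑ i : Fin 3, if a i ∉ S ∧ b i ∈ S then (1 : ℤ) else 0 := by
    rw [beta, card_filter]; push_cast; rfl
  have h1 : ∀ i, sg (lam a b S false i) = 1 - 2 * (if a i ∉ S ∧ b i ∈ S then (1 : ℤ) else 0) := by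
    intro i
    by_cases h1 : a i ∈ S <;> by_cases h2 : b i ∈ S <;> simp [lam, h1, h2, sg]
  rw [h, h1, h1, h1, Fin.sum_univ_three]
  ring

theorem sum_col {S : Finset V} (hS : S ⊆ (rest x l)) {ξ : Bool} (h : Val c a b S ξ) : ∑ v, sg (col c x l a b S ξ v) = 0 := by
  rw [st.sum_univ, st.col_x, st.col_l, st.col_l, st.col_l,
    sum_congr rfl fun v hv => by rw [st.col_R S ξ hv], st.sum_flip hS]
  rcases h with ⟨rfl, _, h⟩ | ⟨rfl, _, h⟩
  · rw [st.sum_lam_true, h]; simp only [sg, if_true]; ring
  · rw [st.sum_lam_false, h]; simp [sg]; ring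

theorem own_x {S : Finset V} {ξ : Bool} (h : Val c a b S ξ) : (bad G (col c x l a b S ξ) x).card ≤ 1 := by
  have h1 : bad G (col c x l a b S ξ) x ⊆
      (univ.filter fun i : Fin 3 => lam a b S ξ i = ξ).image l := by
    intro w hw
    rw [mem_bad] at hw
    obtain ⟨i, rfl⟩ := (st.nx w).1 hw.1
    rw [st.col_l, st.col_x] at hw
    exact mem_image_of_mem _ (by simp [hw.2])
  refine (card_le_card h1).trans (card_image_le.trans ?_)
  rcases h with ⟨rfl, h, _⟩ | ⟨rfl, h, _⟩
  · refine le_trans (card_le_card fun i hi => ?_) h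
    simp only [mem_filter, mem_univ, true_and, lam] at hi ⊢
    by_contra h3
    rw [if_neg h3] at hi
    split_ifs at hi
    simp at hi
  · refine le_trans (card_le_card fun i hi => ?_) h
    simp only [mem_filter, mem_univ, true_and, lam] at hi ⊢
    by_contra h3
    rw [if_neg h3] at hi
    split_ifs at hi
    simp at hi

omit st in
theorem card_nb (G : SimpleGraph V) [DecidableRel G.Adj] (v : V) :
    (univ.filter fun w => G.Adj v w).card = G.degree v := by
  rw [← SimpleGraph.card_neighborFinset_eq_degree]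
  congr 1
  ext w
  simp

theorem deg_x : G.degree x = 3 := by
  rw [← card_nb]
  have h : (univ.filter fun w => G.Adj x w) = (univ : Finset (Fin 3)).image l := by
    ext w
    simp only [mem_filter, mem_univ, true_and, mem_image, st.nx]
    exact ⟨fun ⟨i, h⟩ => ⟨i, h.symm⟩, fun ⟨i, h⟩ => ⟨i, h.symm⟩⟩
  rw [h, card_image_of_injective _ st.l_inj]
  rfl

theorem x_notMem {S : Finset V} (hS : S ⊆ rest x l) : x ∉ S := fun h => (mem_rest.1 (hS h)).1 rfl

theorem a_eq_iff (i : Fin 3) : a i = x ↔ b i = x := by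
  rcases st.pd i with h | h
  · simp [h.1, h.2]
  · simp [h.1, h.2]

theorem a_ne_b' (i : Fin 3) (h : a i ≠ x) (j : Fin 3) : a i ≠ b j := by
  intro h1
  have h2 : b j ≠ x := fun h3 => h (h1.trans h3)
  have h3 := st.ca i h
  rw [h1, st.cb j h2] at h3
  exact absurd h3 (by decide)

/-- a leaf which is not a pendant has degree `3` -/
theorem deg_l (i : Fin 3) (h : a i ≠ x) : G.degree (l i) = 3 := by
  have hb : b i ≠ x := fun h' => h ((st.a_eq_iff i).2 h')
  rw [← card_nb]
  have h1 : (univ.filter fun w => G.Adj (l i) w) = {x, a i, b i} := by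
    ext w
    simp [st.nl]
  rw [h1, card_insert_of_notMem, card_pair (st.a_ne_b' i h i)]
  simp only [mem_insert, mem_singleton, not_or]
  exact ⟨fun h' => h h'.symm, fun h' => hb h'.symm⟩

/-- a pendant leaf has degree `1` -/
theorem deg_pl (i : Fin 3) (h : a i = x) : G.degree (l i) = 1 := by
  rw [← card_nb]
  have h1 : (univ.filter fun w => G.Adj (l i) w) = {x} := by
    ext w
    simp [st.nl, h, (st.a_eq_iff i).1 h]
  rw [h1, card_singleton]

theorem own_pl {S : Finset V} (hS : S ⊆ rest x l) (ξ : Bool) (i : Fin 3) (h : a i = x) :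
    (bad G (col c x l a b S ξ) (l i)).card = 0 := by
  rw [card_eq_zero, eq_empty_iff_forall_notMem]
  intro w hw
  rw [mem_bad, st.nl, st.col_l] at hw
  have h1 : w = x := by
    rcases hw.1 with h2 | h2 | h2
    · exact h2
    · rw [h2, h]
    · rw [h2, (st.a_eq_iff i).1 h]
  have h2 := hw.2
  have h3 := st.x_notMem hS
  rw [h1, st.col_x] at h2
  cases ξ <;> simp [lam, h, (st.a_eq_iff i).1 h, h3] at h2

theorem own_l (S : Finset V) (ξ : Bool) (i : Fin 3) (hi : a i ≠ x) : (bad G (col c x l a b S ξ) (l i)).card ≤ 1 := by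
  have hi' : b i ≠ x := fun h' => hi ((st.a_eq_iff i).2 h')
  have ha := st.col_R S ξ (st.a_rest i hi)
  have hb := st.col_R S ξ (st.b_rest i hi')
  have h1 : ∀ w, w ∈ bad G (col c x l a b S ξ) (l i) →
      (w = x ∧ ξ = lam a b S ξ i) ∨ (w = a i ∧ flips S c (a i) = lam a b S ξ i) ∨
        (w = b i ∧ flips S c (b i) = lam a b S ξ i) := by
    intro w hw
    rw [mem_bad, st.nl, st.col_l] at hw
    rcases hw with ⟨rfl | rfl | rfl, h⟩
    · rw [st.col_x] at h; exact Or.inl ⟨rfl, h⟩
    · rw [ha] at h; exact Or.inr (Or.inl ⟨rfl, h⟩)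
    · rw [hb] at h; exact Or.inr (Or.inr ⟨rfl, h⟩)
  rw [card_le_one]
  intro w hw w' hw'
  have h2 := h1 w hw
  have h3 := h1 w' hw'
  have h4 := st.ca i hi
  have h5 := st.cb i hi'
  by_cases h6 : a i ∈ S <;> by_cases h7 : b i ∈ S <;> cases ξ <;>
    simp only [lam, flips, h4, h5, h6, h7, if_true, if_false, not_true_eq_false, not_false_eq_true, and_true,
      and_false, and_self, Bool.not_true, Bool.not_false, Bool.true_eq_false, Bool.false_eq_true, false_or,
      or_false] at h2 h3 <;> rw [h2, h3]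

/-- a vertex of the rest has at most one leaf neighbour -/
theorem leaf_unique {v : V} (hv : v ≠ x) {i j : Fin 3} (hi : v = a i ∨ v = b i) (hj : v = a j ∨ v = b j) :
    i = j := by
  rcases hi with hi | hi <;> rcases hj with hj | hj
  · exact st.a_inj i j (hi.symm.trans hj) (hi ▸ hv)
  · exact absurd (hi.symm.trans hj) (st.a_ne_b' i (hi ▸ hv) j)
  · exact absurd (hj.symm.trans hi) (st.a_ne_b' j (hj ▸ hv) i)
  · exact st.b_inj i j (hi.symm.trans hj) (hi ▸ hv)

theorem ne_x_of_special {v : V} (hv : v ≠ x) {i : Fin 3} (hi : v = a i ∨ v = b i) : a i ≠ x := by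
  rcases hi with hi | hi
  · exact hi ▸ hv
  · exact fun h => (hi ▸ hv : b i ≠ x) ((st.a_eq_iff i).1 h)

/-- a special whose new colour is the colour of its leaf is exposed -/
theorem eq_expo {S : Finset V} {ξ : Bool} {v : V} (hv : v ≠ x) {i : Fin 3} (hi : v = a i ∨ v = b i)
    (h : lam a b S ξ i = flips S c v) : (a i ∈ S ↔ b i ∈ S) ∧ v = expo a b S ξ i := by
  have hx := st.ne_x_of_special hv hi
  have h4 := st.ca i hx
  have h5 := st.cb i fun h' => hx ((st.a_eq_iff i).2 h')
  rcases hi with rfl | rfl <;> by_cases h6 : a i ∈ S <;> by_cases h7 : b i ∈ S <;> cases ξ <;>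
    simp [lam, flips, h4, h5, h6, h7, expo] at h ⊢

theorem own_R {S : Finset V} {ξ : Bool}
    (hcost : ∀ v ∈ rest x l, 2 * (out G c (rest x l) S v + stay G c (rest x l) S v) < G.degree v)
    (hexp : ∀ i, a i ≠ x → (a i ∈ S ↔ b i ∈ S) →
      out G c (rest x l) S (expo a b S ξ i) + stay G c (rest x l) S (expo a b S ξ i) = 0) {v : V}
    (hv : v ∈ rest x l) : 2 * (bad G (col c x l a b S ξ) v).card < G.degree v := by
  have hvx : v ≠ x := (mem_rest.1 hv).1
  have h1 : bad G (col c x l a b S ξ) v ⊆
      ((rest x l).filter fun w => G.Adj v w ∧ flips S c w = flips S c v) ∪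
        (univ.filter fun i : Fin 3 => (v = a i ∨ v = b i) ∧ lam a b S ξ i = flips S c v).image l := by
    intro w hw
    rw [mem_bad] at hw
    obtain ⟨h2, h3⟩ := hw
    rw [st.col_R S ξ hv] at h3
    by_cases hwR : w ∈ rest x l
    · rw [st.col_R S ξ hwR] at h3
      exact mem_union_left _ (by simp [hwR, h2, h3])
    · rw [mem_rest] at hwR
      have hwx : w ≠ x := by
        intro h6
        rw [h6] at h2
        obtain ⟨i, hi⟩ := (st.nx v).1 h2.symm
        exact (mem_rest.1 hv).2 i hi
      have hwl : ∃ i, w = l i := by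
        by_contra h4
        exact hwR ⟨hwx, fun i h5 => h4 ⟨i, h5⟩⟩
      obtain ⟨i, rfl⟩ := hwl
      rw [st.col_l] at h3
      have h4 := (st.nl i v).1 h2.symm
      have h5 : v = a i ∨ v = b i := by
        rcases h4 with h4 | h4
        · exact absurd h4 hvx
        · exact h4
      exact mem_union_right _ (mem_image_of_mem _ (by simp [h5, h3]))
  have h0 := (card_le_card h1).trans (card_union_le _ _)
  have h2 : ((rest x l).filter fun w => G.Adj v w ∧ flips S c w = flips S c v).card =
      out G c (rest x l) S v + stay G c (rest x l) S v := ownIn_flip G c (rest x l) S v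
  rw [h2] at h0
  by_cases h3 : ∃ i, (v = a i ∨ v = b i) ∧ lam a b S ξ i = flips S c v
  · obtain ⟨i, hi, h4⟩ := h3
    obtain ⟨h5, h6⟩ := st.eq_expo hvx hi h4
    have h7 : ((univ.filter fun i : Fin 3 => (v = a i ∨ v = b i) ∧ lam a b S ξ i = flips S c v).image
        l).card ≤ 1 := by
      refine card_image_le.trans (card_le_one.2 fun j hj j' hj' => ?_)
      simp only [mem_filter, mem_univ, true_and] at hj hj'
      exact st.leaf_unique hvx hj.1 hj'.1
    have hx := st.ne_x_of_special hvx hi
    have h8 := hexp i hx h5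
    rw [← h6] at h8
    have h9 : G.degree v = 3 := by
      rcases hi with hi | hi
      · rw [hi]; exact st.deg_a i hx
      · rw [hi]; exact st.deg_b i fun h' => hx ((st.a_eq_iff i).2 h')
    omega
  · have h4 : (univ.filter fun i : Fin 3 => (v = a i ∨ v = b i) ∧ lam a b S ξ i = flips S c v) = ∅ := by
      rw [filter_eq_empty_iff]
      intro i _ h5
      exact h3 ⟨i, h5⟩
    rw [h4, image_empty, card_empty, add_zero] at h0
    have h5 := hcost v hv
    omega

/-- **Table lemma.** -/
theorem table {S : Finset V} (hS : S ⊆ rest x l) (ξ : Bool) (hval : Val c a b S ξ)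
    (hcost : ∀ v ∈ rest x l, 2 * (out G c (rest x l) S v + stay G c (rest x l) S v) < G.degree v)
    (hexp : ∀ i, a i ≠ x → (a i ∈ S ↔ b i ∈ S) →
      out G c (rest x l) S (expo a b S ξ i) + stay G c (rest x l) S (expo a b S ξ i) = 0) :
    Valid3 G (col c x l a b S ξ) ∧ sgn true (col c x l a b S ξ) = 0 := by
  refine ⟨fun v => ?_, st.sum_col hS hval⟩
  by_cases h : v ∈ rest x l
  · exact st.own_R hcost hexp h
  · rw [mem_rest] at h
    by_cases hx : v = x
    · rw [hx, st.deg_x]
      have := st.own_x hval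
      omega
    · have hl : ∃ i, v = l i := by
        by_contra h4
        exact h ⟨hx, fun i h5 => h4 ⟨i, h5⟩⟩
      obtain ⟨i, rfl⟩ := hl
      by_cases ha : a i = x
      · rw [st.own_pl hS ξ i ha, st.deg_pl i ha]
        omega
      · rw [st.deg_l i ha]
        have := st.own_l S ξ i ha
        omega

/-! ### criteria -/

theorem alpha_eq {S : Finset V} (A B : Finset (Fin 3)) (hA : ∀ i, a i ∈ S ↔ i ∈ A)
    (hB : ∀ i, b i ∈ S ↔ i ∈ B) : alpha a b S = (A \ B).card := by
  unfold alpha
  congr 1
  ext i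
  simp [hA, hB]

theorem beta_eq {S : Finset V} (A B : Finset (Fin 3)) (hA : ∀ i, a i ∈ S ↔ i ∈ A)
    (hB : ∀ i, b i ∈ S ↔ i ∈ B) : beta a b S = (B \ A).card := by
  unfold beta
  congr 1
  ext i
  simp [hA, hB, and_comm]

omit st in
theorem cost_eq (S : Finset V) (v : V) : cost G c x l S v = ownIn G (flips S c) (rest x l) v :=
  (ownIn_flip G c (rest x l) S v).symm

omit st in
theorem cost_add_opp (S : Finset V) (v : V) :
    cost G c x l S v + opp G c x l S v = ((rest x l).filter fun w => G.Adj v w).card := by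
  rw [cost_eq, ownIn, opp, ← card_union_of_disjoint]
  · congr 1
    ext w
    simp only [mem_union, mem_filter]
    tauto
  · rw [disjoint_left]
    intro w h1 h2
    simp only [mem_filter] at h1 h2
    exact h2.2.2 h1.2.2

omit st in
theorem deg_rest_le (v : V) : ((rest x l).filter fun w => G.Adj v w).card ≤ G.degree v := by
  rw [← card_nb]
  exact card_le_card fun u hu => by simp at hu ⊢; exact hu.2

/-- specials have degree `2` in the rest -/
theorem deg_special {v : V} (hv : v ∈ rest x l) {i : Fin 3} (hi : v = a i ∨ v = b i) :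
    ((rest x l).filter fun w => G.Adj v w).card = 2 := by
  have hvx : v ≠ x := (mem_rest.1 hv).1
  have h1 : (univ.filter fun w => G.Adj v w) = insert (l i) ((rest x l).filter fun w => G.Adj v w) := by
    ext w
    simp only [mem_filter, mem_univ, true_and, mem_insert]
    constructor
    · intro h
      by_cases hw : w ∈ rest x l
      · exact Or.inr ⟨hw, h⟩
      · rw [mem_rest] at hw
        have hwx : w ≠ x := by
          intro h6
          rw [h6] at h
          obtain ⟨j, hj⟩ := (st.nx v).1 h.symm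
          exact (mem_rest.1 hv).2 j hj
        have hwl : ∃ j, w = l j := by
          by_contra h4
          exact hw ⟨hwx, fun j h5 => h4 ⟨j, h5⟩⟩
        obtain ⟨j, rfl⟩ := hwl
        have h4 := (st.nl j v).1 h.symm
        have h5 : v = a j ∨ v = b j := by
          rcases h4 with h4 | h4
          · exact absurd h4 hvx
          · exact h4
        exact Or.inl (by rw [st.leaf_unique hvx hi h5])
    · rintro (rfl | h)
      · exact ((st.nl i v).2 (Or.inr hi)).symm
      · exact h.2
  have hx := st.ne_x_of_special hvx hi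
  have h9 : G.degree v = 3 := by
    rcases hi with hi | hi
    · rw [hi]; exact st.deg_a i hx
    · rw [hi]; exact st.deg_b i fun h' => hx ((st.a_eq_iff i).2 h')
  have h2 := card_nb G v
  rw [h1, card_insert_of_notMem, h9] at h2
  · omega
  · simp only [mem_filter, mem_rest]
    intro h
    exact h.1.2 i rfl

/-- the other vertices of the rest have all their neighbours in the rest -/
theorem deg_other {v : V} (hv : v ∈ rest x l) (hs : ∀ i, v ≠ a i ∧ v ≠ b i) :
    ((rest x l).filter fun w => G.Adj v w).card = G.degree v := by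
  rw [← card_nb]
  congr 1
  ext w
  simp only [mem_filter, mem_univ, true_and, and_iff_right_iff_imp]
  intro h
  rw [mem_rest]
  refine ⟨?_, fun i => ?_⟩
  · rintro rfl
    obtain ⟨j, hj⟩ := (st.nx v).1 h.symm
    exact (mem_rest.1 hv).2 j hj
  · rintro rfl
    rcases (st.nl i v).1 h.symm with h4 | h4 | h4
    · exact (mem_rest.1 hv).1 h4
    · exact (hs i).1 h4
    · exact (hs i).2 h4

omit st in
/-- two neighbours in the rest of the other new colour -/
theorem two_le_opp {S : Finset V} {v w w' : V}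
    (hw : w ∈ rest x l) (hw' : w' ∈ rest x l) (hne : w ≠ w') (ha : G.Adj v w) (ha' : G.Adj v w')
    (hc : flips S c w ≠ flips S c v) (hc' : flips S c w' ≠ flips S c v) : 2 ≤ opp G c x l S v := by
  have : ({w, w'} : Finset V) ⊆ (rest x l).filter fun u => G.Adj v u ∧ flips S c u ≠ flips S c v := by
    intro u hu
    simp only [mem_insert, mem_singleton] at hu
    rcases hu with rfl | rfl <;> simp [*]
  have h2 := card_le_card this
  rwa [card_pair hne] at h2

omit st in
/-- two neighbours in the rest of the other new colour -/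
theorem cost_lt_of_two {S : Finset V} {v w w' : V} (hd : G.degree v = 3)
    (hw : w ∈ rest x l) (hw' : w' ∈ rest x l) (hne : w ≠ w') (ha : G.Adj v w) (ha' : G.Adj v w')
    (hc : flips S c w ≠ flips S c v) (hc' : flips S c w' ≠ flips S c v) :
    2 * cost G c x l S v < G.degree v := by
  have h1 := two_le_opp (G := G) hw hw' hne ha ha' hc hc'
  have h2 := cost_add_opp (G := G) (c := c) (x := x) (l := l) S v
  have h3 := deg_rest_le (G := G) (x := x) (l := l) v
  omega

omit st in
/-- a pendant vertex whose neighbour gets the other colour -/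
theorem cost_lt_of_pendant {S : Finset V} {v w : V} (hd : G.degree v = 1)
    (hw : w ∈ rest x l) (ha : G.Adj v w) (hc : flips S c w ≠ flips S c v) :
    2 * cost G c x l S v < G.degree v := by
  have h1 : 1 ≤ opp G c x l S v := card_pos.2 ⟨w, by simp [*]⟩
  have h2 := cost_add_opp (G := G) (c := c) (x := x) (l := l) S v
  have h3 := deg_rest_le (G := G) (x := x) (l := l) v
  omega

/-- two neighbours in the rest of the other new colour, for a special -/
theorem cost_eq_zero_of_two {S : Finset V} {v w w' : V} (hv : v ∈ rest x l)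
    {i : Fin 3} (hi : v = a i ∨ v = b i)
    (hw : w ∈ rest x l) (hw' : w' ∈ rest x l) (hne : w ≠ w') (ha : G.Adj v w) (ha' : G.Adj v w')
    (hc : flips S c w ≠ flips S c v) (hc' : flips S c w' ≠ flips S c v) : cost G c x l S v = 0 := by
  have h1 := two_le_opp (G := G) hw hw' hne ha ha' hc hc'
  have h2 := cost_add_opp (G := G) (c := c) (x := x) (l := l) S v
  have h3 := st.deg_special hv hi
  omega

/-- one neighbour in the rest of the other new colour, for a special -/
theorem cost_le_of_one {S : Finset V} {v w : V} (hv : v ∈ rest x l)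
    {i : Fin 3} (hi : v = a i ∨ v = b i) (hw : w ∈ rest x l) (ha : G.Adj v w)
    (hc : flips S c w ≠ flips S c v) : cost G c x l S v ≤ 1 := by
  have h1 : 1 ≤ opp G c x l S v := card_pos.2 ⟨w, by simp [*]⟩
  have h2 := cost_add_opp (G := G) (c := c) (x := x) (l := l) S v
  have h3 := st.deg_special hv hi
  omega

theorem special_deg {v : V} (hv : v ∈ rest x l) {i : Fin 3} (hi : v = a i ∨ v = b i) : G.degree v = 3 := by
  have hx := st.ne_x_of_special (mem_rest.1 hv).1 hi
  rcases hi with hi | hi
  · rw [hi]; exact st.deg_a i hx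
  · rw [hi]; exact st.deg_b i fun h' => hx ((st.a_eq_iff i).2 h')

/-- one neighbour in the rest of the other new colour, for a special -/
theorem cost_lt_of_one {S : Finset V} {v w : V} (hv : v ∈ rest x l)
    {i : Fin 3} (hi : v = a i ∨ v = b i) (hw : w ∈ rest x l) (ha : G.Adj v w)
    (hc : flips S c w ≠ flips S c v) : 2 * cost G c x l S v < G.degree v := by
  have h1 := st.cost_le_of_one hv hi hw ha hc
  have h2 := st.special_deg hv hi
  omega

omit st in
/-- a vertex away from `S` -/
theorem cost_far {S : Finset V} {v : V} (hv : v ∉ S) (h : ∀ w ∈ S, ¬ G.Adj v w) :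
    cost G c x l S v = ownIn G c (rest x l) v := by
  rw [cost_eq, ownIn, ownIn]
  congr 1
  refine filter_congr fun w _ => ?_
  constructor
  · rintro ⟨h1, h2⟩
    have hw : w ∉ S := fun h3 => h w h3 h1
    simp only [flips, hw, hv, if_false] at h2
    exact ⟨h1, h2⟩
  · rintro ⟨h1, h2⟩
    have hw : w ∉ S := fun h3 => h w h3 h1
    simp only [flips, hw, hv, if_false]
    exact ⟨h1, h2⟩

theorem ownIn_lt {v : V} (hv : v ∈ rest x l) : 2 * ownIn G c (rest x l) v < G.degree v := st.own v hv

theorem ownIn_special {v : V} (hv : v ∈ rest x l) {i : Fin 3} (hi : v = a i ∨ v = b i) :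
    ownIn G c (rest x l) v = 0 := by
  have hx := st.ne_x_of_special (mem_rest.1 hv).1 hi
  have hx' : b i ≠ x := fun h' => hx ((st.a_eq_iff i).2 h')
  rw [ownIn, card_eq_zero, filter_eq_empty_iff]
  rintro w hw ⟨h1, h2⟩
  rcases hi with rfl | rfl
  · rw [st.own_a i hx w hw h1, st.ca i hx] at h2
    exact absurd h2 (by decide)
  · rw [st.own_b i hx' w hw h1, st.cb i hx'] at h2
    exact absurd h2 (by decide)

/-- **local criterion**: only the vertices of `S` and their neighbours have to be checked -/
theorem table_local {S : Finset V} (hS : S ⊆ rest x l) (ξ : Bool) (hval : Val c a b S ξ)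
    (hin : ∀ v ∈ S, 2 * cost G c x l S v < G.degree v)
    (hnb : ∀ v ∈ rest x l, v ∉ S → (∃ w ∈ S, G.Adj v w) → 2 * cost G c x l S v < G.degree v)
    (hexp : ∀ i, a i ≠ x → (a i ∈ S ↔ b i ∈ S) →
      (expo a b S ξ i ∈ S ∨ ∃ w ∈ S, G.Adj (expo a b S ξ i) w) → cost G c x l S (expo a b S ξ i) = 0) :
    Valid3 G (col c x l a b S ξ) ∧ sgn true (col c x l a b S ξ) = 0 := by
  refine st.table hS ξ hval (fun v hv => ?_) (fun i hx hi => ?_)
  · by_cases h1 : v ∈ S
    · exact hin v h1
    by_cases h2 : ∃ w ∈ S, G.Adj v w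
    · exact hnb v hv h1 h2
    · have h3 := cost_far (G := G) (c := c) (x := x) (l := l) h1 fun w hw h4 => h2 ⟨w, hw, h4⟩
      have h4 := st.ownIn_lt hv
      unfold cost at h3
      omega
  · by_cases h1 : expo a b S ξ i ∈ S ∨ ∃ w ∈ S, G.Adj (expo a b S ξ i) w
    · exact hexp i hx hi h1
    · push Not at h1
      have h3 := cost_far (G := G) (c := c) (x := x) (l := l) h1.1 fun w hw h4 => h1.2 w hw h4
      have h5 : (expo a b S ξ i = a i ∨ expo a b S ξ i = b i) ∧ expo a b S ξ i ∈ rest x l := by
        unfold expo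
        split_ifs
        · exact ⟨Or.inl rfl, st.a_rest i hx⟩
        · exact ⟨Or.inr rfl, st.b_rest i fun h' => hx ((st.a_eq_iff i).2 h')⟩
      rw [st.ownIn_special h5.2 h5.1] at h3
      exact h3

omit st in
/-- flipping the union of two sets which do not interact -/
theorem cost_union {S T : Finset V} (hd : Disjoint S T)
    (hown : ∀ v ∈ S, ∀ w ∈ T, G.Adj v w → c v ≠ c w) {v : V}
    (hout : v ∉ S → v ∉ T → (∀ w ∈ S, w ∈ (rest x l) → G.Adj v w → c w = c v) ∨ (∀ w ∈ T, w ∈ (rest x l) → G.Adj v w → c w = c v)) :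
    cost G c x l (S ∪ T) v ≤ max (cost G c x l S v) (cost G c x l T v) := by
  rw [cost_eq, cost_eq, cost_eq]
  rw [disjoint_left] at hd
  by_cases h1 : v ∈ S
  · have hv : v ∉ T := hd h1
    refine le_max_of_le_left (card_le_card fun w hw => ?_)
    simp only [mem_filter] at hw ⊢
    refine ⟨hw.1, hw.2.1, ?_⟩
    have h2 := hw.2.2
    by_cases h3 : w ∈ S
    · simpa [flips, h1, h3, hv, hd h3] using h2
    · by_cases h4 : w ∈ T
      · exfalso
        have h5 := hown v h1 w h4 hw.2.1
        simp only [flips, mem_union, h1, h3, h4, hv, or_true, true_or, if_true] at h2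
        exact h5 (by simpa using h2.symm)
      · simpa [flips, h1, h3, hv, h4] using h2
  by_cases h2 : v ∈ T
  · refine le_max_of_le_right (card_le_card fun w hw => ?_)
    simp only [mem_filter] at hw ⊢
    refine ⟨hw.1, hw.2.1, ?_⟩
    have h5 := hw.2.2
    by_cases h3 : w ∈ S
    · exfalso
      have h6 := hown w h3 v h2 hw.2.1.symm
      simp only [flips, mem_union, h1, h3, h2, or_true, true_or, if_true] at h5
      exact h6 (by simpa using h5)
    · by_cases h4 : w ∈ T
      · simpa [flips, h1, h3, h2, h4] using h5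
      · simpa [flips, h1, h3, h2, h4] using h5
  rcases hout h1 h2 with h | h
  · refine le_max_of_le_right (card_le_card fun w hw => ?_)
    simp only [mem_filter] at hw ⊢
    refine ⟨hw.1, hw.2.1, ?_⟩
    have h5 := hw.2.2
    by_cases h3 : w ∈ S
    · have h6 := h w h3 hw.1 hw.2.1
      have h4 : w ∉ T := hd h3
      simp [flips, h1, h3, h2, h6] at h5
    · by_cases h4 : w ∈ T
      · simpa [flips, h1, h3, h2, h4] using h5
      · simpa [flips, h1, h3, h2, h4] using h5
  · refine le_max_of_le_left (card_le_card fun w hw => ?_)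
    simp only [mem_filter] at hw ⊢
    refine ⟨hw.1, hw.2.1, ?_⟩
    have h5 := hw.2.2
    by_cases h3 : w ∈ S
    · have h4 : w ∉ T := hd h3
      simpa [flips, h1, h3, h2, h4] using h5
    · by_cases h4 : w ∈ T
      · have h6 := h w h4 hw.1 hw.2.1
        simp [flips, h1, h3, h2, h4, h6] at h5
      · simpa [flips, h1, h3, h2, h4] using h5

end Star3

end Pool.Agent.BLN
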