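import Pool.Agent.BLN.UUof
import Pool.Agent.BLN.Asm

/-!
# `UUAll` and `TriAll` from the path lemma
-/

set_option autoImplicit false

namespace Pool.Agent.BLN

open Finset Pool.Agent.IVT Pool.BLE

theorem uuG_of_live {V : Type} [Fintype V] [DecidableEq V] {G : SimpleGraph V}
    [DecidableRel G.Adj] (hcls : Cls13 G) (hB : NoBal3 G) (hlive : LiveAll G) : UUG G :=
  uu_of_live hcls.deg hB hcls.c4 hlive

theorem triG_of_live {V : Type} [Fintype V] [DecidableEq V] {G : SimpleGraph V}
    [DecidableRel G.Adj] (hcls : Cls13 G) (hB : NoBal3 G) (hlive : LiveAll G) : TriG G :=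
  tri_of_live hcls.deg hB hcls.c4 hlive

theorem uuAll_of_live (h : ∀ (V : Type) [Fintype V] [DecidableEq V] (G : SimpleGraph V)
    [DecidableRel G.Adj], Cls13 G → NoBal3 G → LiveAll G) : UUAll :=
  fun V _ _ G _ hcls hB _ => uuG_of_live hcls hB (h V G hcls hB)

theorem triAll_of_live (h : ∀ (V : Type) [Fintype V] [DecidableEq V] (G : SimpleGraph V)
    [DecidableRel G.Adj], Cls13 G → NoBal3 G → LiveAll G) : TriAll :=
  fun V _ _ G _ hcls hB _ => triG_of_live hcls hB (h V G hcls hB)

end Pool.Agent.BLN
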