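import Pool.Agent.BLN.LT

/-!
# The fields `ub` and `bb` of `Loc` from `e3`
-/

set_option autoImplicit false
set_option linter.unusedSectionVars false

namespace Pool.Agent.BLN

open Finset Pool.Agent.IVT Pool.BLE

variable {V : Type} [Fintype V] [DecidableEq V]

/-- `e3` for all frames -/
def E3 (G : SimpleGraph V) [DecidableRel G.Adj] : Prop :=
  ∀ (g : V → Bool) (x : V) (l a b : Fin 3 → V), Fr G g x l a b → ∀ i w, a i ≠ x →
    G.Adj (a i) w → IsK G g x l a b w → Cen G (du g x l) (a i)

variable {G : SimpleGraph V} [DecidableRel G.Adj] {g : V → Bool} {x : V} {l a b : Fin 3 → V}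

/-- The cost of a vertex outside `S` without own neighbours and with at most one neighbour in `S`. -/
theorem cost_le_one {S : Finset V} {v : V} (hv : v ∉ S) (h0 : ownIn G g (rest x l) v = 0)
    (hu : ∀ w ∈ S, ∀ w' ∈ S, G.Adj v w → G.Adj v w' → w = w') : cost G g x l S v ≤ 1 := by
  rw [Star3.cost_eq, ownIn, card_le_one]
  have h1 : ∀ w, w ∈ (rest x l).filter (fun w => G.Adj v w ∧ flips S g w = flips S g v) →
      w ∈ S ∧ G.Adj v w := by
    intro w hw
    simp only [mem_filter] at hw
    refine ⟨?_, hw.2.1⟩
    by_contra h2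
    have h3 := hw.2.2
    simp only [flips, h2, hv, if_false] at h3
    rw [ownIn, card_eq_zero, filter_eq_empty_iff] at h0
    exact h0 hw.1 ⟨hw.2.1, h3⟩
  intro w hw w' hw'
  exact hu w (h1 w hw).1 w' (h1 w' hw').1 (h1 w hw).2 (h1 w' hw').2

theorem IsU.own0 {w : V} (h : IsU G g x l a b w) : ownIn G g (BLN.rest x l) w = 0 := by
  rw [ownIn, card_eq_zero, filter_eq_empty_iff]
  rintro z hz ⟨h1, h2⟩
  exact h.own z hz h1 h2

theorem Fr.rest_of_nbr_a (h : Fr G g x l a b) {i : Fin 3} (hi : a i ≠ x) {w : V}
    (hw : G.Adj (a i) w) (hne : w ≠ l i) : w ∈ rest x l ∧ g w = false := by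
  have gw : g w = false := by
    cases h1 : g w
    · rfl
    · exact absurd (h.a_true i hi hw h1) hne
  refine ⟨?_, gw⟩
  rcases h.star.cases w with rfl | ⟨j, rfl⟩ | h1
  · exact absurd hw (h.x_ne_nbr_a i hi)
  · rw [h.gl] at gw
    exact absurd gw (by decide)
  · exact h1

/-- The set `{a i, b j}` gives a solution. `p` is the exposed special of the third pair. -/
theorem Fr.sol_ab (hB : NoBal3 G) (h : Fr G g x l a b) {i j k : Fin 3} (hij : i ≠ j) (hik : i ≠ k)
    (hjk : j ≠ k) (hi : a i ≠ x) (hj : a j ≠ x) (hadj : G.Adj (a i) (b j)) (ξ : Bool)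
    (hw : ∀ w ∈ rest x l, w ≠ b j → G.Adj (a i) w → ownIn G g (rest x l) w = 0 ∧ G.degree w = 3)
    (hz : ∀ z ∈ rest x l, z ≠ a i → G.Adj (b j) z → ownIn G g (rest x l) z = 0 ∧ G.degree z = 3)
    (hexp : a k ≠ x → (ξ = true → ¬ G.Adj (b k) (a i)) ∧ (ξ = false → ¬ G.Adj (a k) (b j))) :
    False := by
  have hbj : b j ≠ x := fun h' => hj ((h.star.a_eq_iff j).2 h')
  have st := h.star
  have hai := st.a_rest i hi
  have hbr := st.b_rest j hbj
  have hne : a i ≠ b j := st.a_ne_b' i hi j
  have ca := st.ca i hi
  have cb := st.cb j hbj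
  set S : Finset V := {a i, b j} with hS
  have mS : ∀ v, v ∈ S ↔ v = a i ∨ v = b j := fun v => by rw [hS, mem_insert, mem_singleton]
  have hsub : S ⊆ rest x l := by
    intro v hv
    rcases (mS v).1 hv with rfl | rfl <;> assumption
  have hA : ∀ p, a p ∈ S ↔ p ∈ ({i} : Finset (Fin 3)) := by
    intro p
    rw [mS, mem_singleton]
    constructor
    · rintro (h1 | h1)
      · exact (st.a_inj i p h1.symm hi).symm
      · by_cases hp : a p = x
        · exact absurd (h1.symm.trans hp) hbj
        · exact absurd h1 (st.a_ne_b' p hp j)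
    · rintro rfl
      exact Or.inl rfl
  have hBm : ∀ p, b p ∈ S ↔ p ∈ ({j} : Finset (Fin 3)) := by
    intro p
    rw [mS, mem_singleton]
    constructor
    · rintro (h1 | h1)
      · exact absurd h1.symm (st.a_ne_b' i hi p)
      · exact (st.b_inj j p h1.symm hbj).symm
    · rintro rfl
      exact Or.inr rfl
  have fa : flips S g (a i) = false := by simp [flips, mS, ca]
  have fb : flips S g (b j) = true := by simp [flips, mS, cb]
  have hk : kk g S = 0 := by
    rw [kk, hS, sum_pair hne, ca, cb]
    simp [sg]
  have hval : Val g a b S ξ := by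
    have h1 : ({i} \ {j} : Finset (Fin 3)).card = 1 := by
      rw [sdiff_singleton_eq_erase, erase_eq_of_notMem (by simpa using Ne.symm hij), card_singleton]
    have h2 : ({j} \ {i} : Finset (Fin 3)).card = 1 := by
      rw [sdiff_singleton_eq_erase, erase_eq_of_notMem (by simpa using hij), card_singleton]
    have h3 := st.alpha_eq {i} {j} hA hBm
    have h4 := st.beta_eq {i} {j} hA hBm
    rw [h1] at h3
    rw [h2] at h4
    cases ξ
    · exact Or.inr ⟨rfl, by omega, by rw [hk, h4]; rfl⟩
    · exact Or.inl ⟨rfl, by omega, by rw [hk, h3]; rfl⟩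
  have := st.table_local hsub ξ hval ?_ ?_ ?_
  · exact hB _ this.1 this.2
  · intro v hv
    rcases (mS v).1 hv with rfl | rfl
    · exact st.cost_lt_of_one hai (Or.inl rfl) hbr hadj (by rw [fa, fb]; decide)
    · exact st.cost_lt_of_one hbr (Or.inr rfl) hai hadj.symm (by rw [fa, fb]; decide)
  · rintro v hv hvS ⟨w, hwS, hvw⟩
    rw [mS] at hvS
    push Not at hvS
    -- `v` is adjacent to at most one of the two
    have huniq : ∀ w ∈ S, ∀ w' ∈ S, G.Adj v w → G.Adj v w' → w = w' := by
      have h5 : G.Adj v (a i) → G.Adj v (b j) → False := by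
        intro h6 h7
        have h8 := st.own_a i hi v hv h6.symm
        rw [st.own_b j hbj v hv h7.symm] at h8
        exact absurd h8 (by decide)
      intro w hw w' hw' h8 h9
      rcases (mS w).1 hw with rfl | rfl <;> rcases (mS w').1 hw' with rfl | rfl
      · rfl
      · exact (h5 h8 h9).elim
      · exact (h5 h9 h8).elim
      · rfl
    have h6 : ownIn G g (rest x l) v = 0 ∧ G.degree v = 3 := by
      rcases (mS w).1 hwS with rfl | rfl
      · exact hw v hv hvS.2 hvw.symm
      · exact hz v hv hvS.1 hvw.symm
    have h7 := cost_le_one (x := x) (l := l) (g := g) (by rw [mS]; push Not; exact hvS) h6.1 huniq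
    omega
  · intro p hp hiff htouch
    exfalso
    have hpi : p ≠ i := by
      rintro rfl
      have h1 : a p ∈ S := (hA p).2 (by simp)
      have h2 := (hBm p).1 (hiff.1 h1)
      rw [mem_singleton] at h2
      exact hij h2
    have hpj : p ≠ j := by
      rintro rfl
      have h1 : b p ∈ S := (hBm p).2 (by simp)
      have h2 := (hA p).1 (hiff.2 h1)
      rw [mem_singleton] at h2
      exact hij h2.symm
    have hpk : p = k := by
      rcases three hij hik hjk p with h1 | h1 | h1
      · exact absurd h1 hpi
      · exact absurd h1 hpj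
      · exact h1
    subst hpk
    have hbp : b p ≠ x := fun h' => hp ((st.a_eq_iff p).2 h')
    have haS : a p ∉ S := fun h1 => hpi (by simpa using (hA p).1 h1)
    have hbS : b p ∉ S := fun h1 => hpj (by simpa using (hBm p).1 h1)
    obtain ⟨he1, he2⟩ := hexp hp
    cases ξ
    · have hex : expo a b S false p = a p := by simp [expo, haS]
      rw [hex] at htouch
      rcases htouch with h1 | ⟨w, hw, h2⟩
      · exact haS h1
      · rcases (mS w).1 hw with rfl | rfl
        · have h3 := st.own_a p hp _ hai h2
          rw [ca] at h3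
          exact absurd h3 (by decide)
        · exact he2 rfl h2
    · have hex : expo a b S true p = b p := by simp [expo, haS]
      rw [hex] at htouch
      rcases htouch with h1 | ⟨w, hw, h2⟩
      · exact hbS h1
      · rcases (mS w).1 hw with rfl | rfl
        · exact he1 rfl h2
        · have h3 := st.own_b p hbp _ hbr h2
          rw [cb] at h3
          exact absurd h3 (by decide)

theorem Star3.own0_a (st : Star3 G g x l a b) {i : Fin 3} (hi : a i ≠ x) :
    ownIn G g (rest x l) (a i) = 0 := st.ownIn_special (st.a_rest i hi) (Or.inl rfl)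

theorem Star3.own0_b (st : Star3 G g x l a b) {i : Fin 3} (hi : b i ≠ x) :
    ownIn G g (rest x l) (b i) = 0 := st.ownIn_special (st.b_rest i hi) (Or.inr rfl)

/-- The field `ub` of `Loc`. -/
theorem ub_of (hG : Deg13 G) (hB : NoBal3 G) (e3 : E3 G) (h : Fr G g x l a b)
    {i j : Fin 3} {w : V} (hi : a i ≠ x) (hj : a j ≠ x) (hij : i ≠ j) (hw : G.Adj (a i) w)
    (hU : IsU G g x l a b w) (hadj : G.Adj (a i) (b j)) : Cen G g (b j) := by
  have st := h.star
  have hbj : b j ≠ x := fun h' => hj ((st.a_eq_iff j).2 h')
  have hbi : b i ≠ x := fun h' => hi ((st.a_eq_iff i).2 h')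
  obtain ⟨k, hik, hjk⟩ := exists_third hij
  have hlj : l j ≠ a i := fun h' => (mem_rest.1 (st.a_rest i hi)).2 j h'.symm
  obtain ⟨z, nbj⟩ := exists_nb23 G (st.deg_b j hbj) (h.nb_l j hj).az.symm hadj.symm hlj
  have hli : l i ≠ b j := fun h' => (mem_rest.1 (st.b_rest j hbj)).2 i h'.symm
  have hwl : l i ≠ w := fun h' => (mem_rest.1 hU.rest).2 i h'.symm
  have nai : Nb G (a i) (l i) (b j) w :=
    nb_of_three3 G (st.deg_a i hi) (h.nb_l i hi).ay.symm hadj hw hli hwl (hU.nb j).symm
  -- neighbours of `a i`
  have hw' : ∀ w' ∈ rest x l, w' ≠ b j → G.Adj (a i) w' →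
      ownIn G g (rest x l) w' = 0 ∧ G.degree w' = 3 := by
    intro w' hr hne hadj'
    rcases (nai.adj w').1 hadj' with h1 | h1 | h1
    · exact absurd h1 ((mem_rest.1 hr).2 i)
    · exact absurd h1 hne
    · subst h1
      exact ⟨hU.own0, hU.deg⟩
  have hd := h.dual
  rcases hd.nbr_a hG hbj nbj.az nbj.xz.symm with h1 | h1 | ⟨p, hp, h1⟩
  · exfalso
    refine h.sol_ab hB hij hik hjk hi hj hadj false hw' ?_ (fun hk => ⟨by simp, fun _ h2 => ?_⟩)
    · intro z' hr hne hadj'
      rcases (nbj.adj z').1 hadj' with h2 | h2 | h2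
      · exact absurd h2 ((mem_rest.1 hr).2 j)
      · exact absurd h2 hne
      · have h3 := h1.dual
        rw [h.du_du] at h3
        rw [h2]
        exact ⟨h3.own0, h3.deg⟩
    · rcases (nbj.adj (a k)).1 h2.symm with h3 | h3 | h3
      · exact (mem_rest.1 (st.a_rest k hk)).2 j h3
      · exact hik (st.a_inj k i h3 hk).symm
      · exact h1.nb k h3.symm
  · have h2 := e3 _ x l b a hd j z hbj nbj.az h1
    rwa [h.du_du] at h2
  · exfalso
    have hpj : p ≠ j := by
      rintro rfl
      refine h.sol_ab hB hij hik hjk hi hj hadj false hw' ?_ (fun hk => ⟨by simp, fun _ h2 => ?_⟩)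
      · intro z' hr hne hadj'
        rcases (nbj.adj z').1 hadj' with h2 | h2 | h2
        · exact absurd h2 ((mem_rest.1 hr).2 p)
        · exact absurd h2 hne
        · rw [h2, h1]
          exact ⟨st.own0_a hp, st.deg_a p hp⟩
      · rcases (nbj.adj (a k)).1 h2.symm with h3 | h3 | h3
        · exact (mem_rest.1 (st.a_rest k hk)).2 p h3
        · exact hik (st.a_inj k i h3 hk).symm
        · rw [h1] at h3
          exact hjk (st.a_inj k p h3 hk).symm
    have hpi : p ≠ i := by
      rintro rfl
      exact nbj.yz h1.symm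
    have hpk : p = k := by
      rcases three hij hik hjk p with h2 | h2 | h2
      · exact absurd h2 hpi
      · exact absurd h2 hpj
      · exact h2
    subst hpk
    refine h.sol_ab hB hij hik hjk hi hj hadj true hw' ?_ (fun hk => ⟨fun _ h2 => ?_, by simp⟩)
    · intro z' hr hne hadj'
      rcases (nbj.adj z').1 hadj' with h2 | h2 | h2
      · exact absurd h2 ((mem_rest.1 hr).2 j)
      · exact absurd h2 hne
      · rw [h2, h1]
        exact ⟨st.own0_a hp, st.deg_a p hp⟩
    · have hbp : b p ≠ x := fun h' => hp ((st.a_eq_iff p).2 h')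
      rcases (nai.adj (b p)).1 h2.symm with h3 | h3 | h3
      · exact (mem_rest.1 (st.b_rest p hbp)).2 i h3
      · exact hpj (st.b_inj p j h3 hbp)
      · exact hU.nb p h3.symm

/-- The set `{a i, b j, a k, y}` gives a solution. -/
theorem Fr.sol_abay (hG : Deg13 G) (hB : NoBal3 G) (h : Fr G g x l a b) {i j k : Fin 3} (hij : i ≠ j) (hik : i ≠ k)
    (hjk : j ≠ k) (hi : a i ≠ x) (hj : a j ≠ x) (hk : a k ≠ x) (e1 : G.Adj (a i) (b j))
    (e2 : G.Adj (a k) (b j)) (e3 : G.Adj (a i) (b k)) {y : V} (hy : G.Adj (a k) y) (hyr : y ∈ rest x l)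
    (gy : g y = false) (hyna : ∀ p, y ≠ a p) (hynb : ∀ p, y ≠ b p)
    (hout : ∀ z ∈ rest x l, G.Adj y z → g z = true → z ≠ a k →
      ownIn G g (rest x l) z = 0 ∧ G.degree z = 3)
    (hown : G.degree y = 1 ∨ ∃ m ∈ rest x l, G.Adj y m ∧ g m = g y) : False := by
  have st := h.star
  have hbi : b i ≠ x := fun h' => hi ((st.a_eq_iff i).2 h')
  have hbj : b j ≠ x := fun h' => hj ((st.a_eq_iff j).2 h')
  have hbk : b k ≠ x := fun h' => hk ((st.a_eq_iff k).2 h')
  have rai := st.a_rest i hi
  have rak := st.a_rest k hk
  have rbj := st.b_rest j hbj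
  have rbk := st.b_rest k hbk
  have cai := st.ca i hi
  have cak := st.ca k hk
  have cbj := st.cb j hbj
  have cbk := st.cb k hbk
  have n1 : a i ≠ b j := st.a_ne_b' i hi j
  have n2 : a i ≠ a k := fun h' => hik (st.a_inj i k h' hi)
  have n3 : a k ≠ b j := st.a_ne_b' k hk j
  have n4 : a i ≠ y := (hyna i).symm
  have n5 : a k ≠ y := (hyna k).symm
  have n6 : b j ≠ y := (hynb j).symm
  -- neighbourhoods
  have lb : ∀ p q, b q ≠ x → l p ≠ b q := fun p q hq h' => (mem_rest.1 (st.b_rest q hq)).2 p h'.symm
  have la : ∀ p q, a q ≠ x → l p ≠ a q := fun p q hq h' => (mem_rest.1 (st.a_rest q hq)).2 p h'.symm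
  have nai : Nb G (a i) (l i) (b j) (b k) :=
    nb_of_three3 G (st.deg_a i hi) (h.nb_l i hi).ay.symm e1 e3 (lb i j hbj) (lb i k hbk)
      (fun h' => hjk (st.b_inj j k h' hbj))
  have nbj : Nb G (b j) (l j) (a i) (a k) :=
    nb_of_three3 G (st.deg_b j hbj) (h.nb_l j hj).az.symm e1.symm e2.symm (la j i hi) (la j k hk) n2
  have nak : Nb G (a k) (l k) (b j) y :=
    nb_of_three3 G (st.deg_a k hk) (h.nb_l k hk).ay.symm e2 hy (lb k j hbj)
      ((mem_rest.1 hyr).2 k).symm n6
  set S : Finset V := {a i, b j, a k, y} with hS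
  have mS : ∀ v, v ∈ S ↔ v = a i ∨ v = b j ∨ v = a k ∨ v = y := fun v => by
    rw [hS]; simp only [mem_insert, mem_singleton]
  have hsub : S ⊆ rest x l := by
    intro v hv
    rcases (mS v).1 hv with rfl | rfl | rfl | rfl <;> assumption
  have hA : ∀ p, a p ∈ S ↔ p ∈ ({i, k} : Finset (Fin 3)) := by
    intro p
    rw [mS, mem_insert, mem_singleton]
    constructor
    · rintro (h1 | h1 | h1 | h1)
      · exact Or.inl (st.a_inj i p h1.symm hi).symm
      · by_cases hp : a p = x
        · exact absurd (h1.symm.trans hp) hbj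
        · exact absurd h1 (st.a_ne_b' p hp j)
      · exact Or.inr (st.a_inj k p h1.symm hk).symm
      · exact absurd h1.symm (hyna p)
    · rintro (rfl | rfl)
      · exact Or.inl rfl
      · exact Or.inr (Or.inr (Or.inl rfl))
  have hBm : ∀ p, b p ∈ S ↔ p ∈ ({j} : Finset (Fin 3)) := by
    intro p
    rw [mS, mem_singleton]
    constructor
    · rintro (h1 | h1 | h1 | h1)
      · exact absurd h1.symm (st.a_ne_b' i hi p)
      · exact (st.b_inj j p h1.symm hbj).symm
      · exact absurd h1.symm (st.a_ne_b' k hk p)
      · exact absurd h1.symm (hynb p)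
    · rintro rfl
      exact Or.inr (Or.inl rfl)
  have fai : flips S g (a i) = false := by simp [flips, mS, cai]
  have fak : flips S g (a k) = false := by simp [flips, mS, cak]
  have fbj : flips S g (b j) = true := by simp [flips, mS, cbj]
  have fy : flips S g y = true := by simp [flips, mS, gy]
  have hkk : kk g S = 0 := by
    rw [kk, hS, sum_insert (by simp [n1, n2, n4]), sum_insert (by simp [Ne.symm n3, n6]),
      sum_insert (by simp [n5]), sum_singleton, cai, cbj, cak, gy]
    simp [sg]
  have hval : Val g a b S false := by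
    have h2 : ({j} \ {i, k} : Finset (Fin 3)).card = 1 := by
      have : ({j} \ {i, k} : Finset (Fin 3)) = {j} := by
        rw [Finset.sdiff_eq_self_iff_disjoint, disjoint_singleton_left, mem_insert, mem_singleton]
        rintro (h1 | h1)
        · exact hij h1.symm
        · exact hjk h1
      rw [this, card_singleton]
    have h4 := st.beta_eq {i, k} {j} hA hBm
    rw [h2] at h4
    exact Or.inr ⟨rfl, by omega, by rw [hkk, h4]; rfl⟩
  have := st.table_local hsub false hval ?_ ?_ ?_
  · exact hB _ this.1 this.2
  · intro v hv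
    rcases (mS v).1 hv with rfl | rfl | rfl | rfl
    · exact st.cost_lt_of_one rai (Or.inl rfl) rbj e1 (by rw [fai, fbj]; decide)
    · exact st.cost_lt_of_one rbj (Or.inr rfl) rai e1.symm (by rw [fai, fbj]; decide)
    · exact st.cost_lt_of_one rak (Or.inl rfl) rbj e2 (by rw [fak, fbj]; decide)
    · -- `y`
      rcases hown with h1 | ⟨m, hm, h1, h2⟩
      · exact Star3.cost_lt_of_pendant h1 rak hy.symm (by rw [fak, fy]; decide)
      · have hmne : a k ≠ m := by
          rintro rfl
          rw [cak, gy] at h2
          exact absurd h2 (by decide)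
        have hd : G.degree v = 3 := deg3_of_two G hG hy.symm h1 hmne
        have hmS : m ∉ S := by
          rw [mS]
          rintro (rfl | rfl | rfl | rfl)
          · rw [cai, gy] at h2; exact absurd h2 (by decide)
          · have := st.own_b j hbj v hyr h1.symm
            rw [gy] at this
            exact absurd this (by decide)
          · exact hmne rfl
          · exact G.irrefl h1
        refine Star3.cost_lt_of_two hd rak hm hmne hy.symm h1 (by rw [fak, fy]; decide) ?_
        rw [fy]
        simp only [flips, hmS, if_false]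
        rw [h2, gy]
        decide
  · rintro v hv hvS ⟨w, hwS, hvw⟩
    rw [mS] at hvS
    push Not at hvS
    obtain ⟨v1, v2, v3, v4⟩ := hvS
    rcases (mS w).1 hwS with rfl | rfl | rfl | hwy
    · -- `v = b k`
      rcases (nai.adj v).1 hvw.symm with h1 | h1 | h1
      · exact absurd h1 ((mem_rest.1 hv).2 i)
      · exact absurd h1 v2
      · subst h1
        have hu : ∀ w ∈ S, ∀ w' ∈ S, G.Adj (b k) w → G.Adj (b k) w' → w = w' := by
          have key : ∀ w ∈ S, G.Adj (b k) w → w = a i := by
            intro w hw hadj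
            rcases (mS w).1 hw with rfl | rfl | rfl | rfl
            · rfl
            · have := st.own_b j hbj _ rbk hadj.symm
              rw [cbk] at this
              exact absurd this (by decide)
            · rcases (nak.adj (b k)).1 hadj.symm with h1 | h1 | h1
              · exact absurd h1 (lb k k hbk).symm
              · exact absurd (st.b_inj k j h1 hbk) (Ne.symm hjk)
              · exact absurd h1.symm (hynb k)
            · have := st.own_b k hbk _ hyr hadj
              rw [gy] at this
              exact absurd this (by decide)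
          intro w hw w' hw' h8 h9
          rw [key w hw h8, key w' hw' h9]
        have h7 := cost_le_one (x := x) (l := l) (g := g) (v := b k) (S := S)
          (by rw [mS]; push Not; exact ⟨v1, v2, v3, v4⟩) (st.own0_b hbk) hu
        have := st.deg_b k hbk
        omega
    · rcases (nbj.adj v).1 hvw.symm with h1 | h1 | h1
      · exact absurd h1 ((mem_rest.1 hv).2 j)
      · exact absurd h1 v1
      · exact absurd h1 v3
    · rcases (nak.adj v).1 hvw.symm with h1 | h1 | h1
      · exact absurd h1 ((mem_rest.1 hv).2 k)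
      · exact absurd h1 v2
      · exact absurd h1 v4
    · -- a neighbour of `y`
      rw [hwy] at hvw
      have nvi : ¬ G.Adj v (a i) := by
        intro h1
        rcases (nai.adj v).1 h1.symm with h2 | h2 | h2
        · exact (mem_rest.1 hv).2 i h2
        · exact v2 h2
        · rw [h2] at hvw
          have := st.own_b k hbk _ hyr hvw
          rw [gy] at this
          exact absurd this (by decide)
      have nvk : ¬ G.Adj v (a k) := by
        intro h1
        rcases (nak.adj v).1 h1.symm with h2 | h2 | h2
        · exact (mem_rest.1 hv).2 k h2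
        · exact v2 h2
        · exact v4 h2
      have nvj : ¬ G.Adj v (b j) := by
        intro h1
        rcases (nbj.adj v).1 h1.symm with h2 | h2 | h2
        · exact (mem_rest.1 hv).2 j h2
        · exact v1 h2
        · exact v3 h2
      have hvS : v ∉ S := by
        rw [mS]; push Not; exact ⟨v1, v2, v3, v4⟩
      have key : ∀ w ∈ S, G.Adj v w → w = y := by
        intro w hw hadj
        rcases (mS w).1 hw with rfl | rfl | rfl | rfl
        · exact absurd hadj nvi
        · exact absurd hadj nvj
        · exact absurd hadj nvk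
        · rfl
      cases gv : g v
      · have h1 : cost G g x l S v ≤ ((rest x l).filter (fun w => G.Adj v w ∧ g w = g v)).card := by
          rw [Star3.cost_eq]
          refine card_le_card fun w hw => ?_
          simp only [mem_filter] at hw ⊢
          refine ⟨hw.1, hw.2.1, ?_⟩
          have h2 := hw.2.2
          have hwS : w ∉ S := by
            intro h3
            rw [key w h3 hw.2.1, fy] at h2
            simp only [flips, hvS, if_false] at h2
            rw [gv] at h2
            exact absurd h2 (by decide)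
          simpa [flips, hvS, hwS] using h2
        have h2 := st.own v hv
        omega
      · obtain ⟨h1, h2⟩ := hout v hv hvw.symm gv v3
        have h7 := cost_le_one (x := x) (l := l) (g := g) hvS h1
          (fun w hw w' hw' h8 h9 => (key w hw h8).trans (key w' hw' h9).symm)
        omega
  · intro p hp hiff htouch
    exfalso
    rcases three hij hik hjk p with rfl | rfl | rfl
    · have h1 : a p ∈ S := (hA p).2 (by simp)
      have h2 := (hBm p).1 (hiff.1 h1)
      rw [mem_singleton] at h2
      exact hij h2
    · have h1 : b p ∈ S := (hBm p).2 (by simp)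
      have h2 := (hA p).1 (hiff.2 h1)
      rw [mem_insert, mem_singleton] at h2
      rcases h2 with h2 | h2
      · exact hij h2.symm
      · exact hjk h2
    · have h1 : a p ∈ S := (hA p).2 (by simp)
      have h2 := (hBm p).1 (hiff.1 h1)
      rw [mem_singleton] at h2
      exact hjk h2.symm

/-- The field `bb` of `Loc`. -/
theorem bb_of (hG : Deg13 G) (hC : C4Free G) (hB : NoBal3 G) (e3 : E3 G)
    (h : Fr G g x l a b) {i j k : Fin 3} (hi : a i ≠ x) (hj : a j ≠ x) (hk : a k ≠ x) (hij : i ≠ j)
    (hik : i ≠ k) (hjk : j ≠ k) (e1 : G.Adj (a i) (b j)) (e2 : G.Adj (a i) (b k)) :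
    Cen G g (b j) := by
  have st := h.star
  have hbi : b i ≠ x := fun h' => hi ((st.a_eq_iff i).2 h')
  have hbj : b j ≠ x := fun h' => hj ((st.a_eq_iff j).2 h')
  have hbk : b k ≠ x := fun h' => hk ((st.a_eq_iff k).2 h')
  have lb : ∀ p q, b q ≠ x → l p ≠ b q := fun p q hq h' => (mem_rest.1 (st.b_rest q hq)).2 p h'.symm
  have la : ∀ p q, a q ≠ x → l p ≠ a q := fun p q hq h' => (mem_rest.1 (st.a_rest q hq)).2 p h'.symm
  obtain ⟨z, nbj⟩ := exists_nb23 G (st.deg_b j hbj) (h.nb_l j hj).az.symm e1.symm (la j i hi)
  have nai : Nb G (a i) (l i) (b j) (b k) :=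
    nb_of_three3 G (st.deg_a i hi) (h.nb_l i hi).ay.symm e1 e2 (lb i j hbj) (lb i k hbk)
      (fun h' => hjk (st.b_inj j k h' hbj))
  have hd := h.dual
  have hwk : ∀ w' ∈ rest x l, w' ≠ b j → G.Adj (a i) w' →
      ownIn G g (rest x l) w' = 0 ∧ G.degree w' = 3 := by
    intro w' hr hne hadj'
    rcases (nai.adj w').1 hadj' with h4 | h4 | h4
    · exact absurd h4 ((mem_rest.1 hr).2 i)
    · exact absurd h4 hne
    · rw [h4]
      exact ⟨st.own0_b hbk, st.deg_b k hbk⟩
  rcases hd.nbr_a hG hbj nbj.az nbj.xz.symm with h1 | h1 | ⟨p, hp, h1⟩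
  · -- `z` is `U`
    exfalso
    have h3 := h1.dual
    rw [h.du_du] at h3
    refine h.sol_ab hB hij hik hjk hi hj e1 false hwk ?_ (fun _ => ⟨by simp, fun _ h2 => ?_⟩)
    · intro z' hr hne hadj'
      rcases (nbj.adj z').1 hadj' with h2 | h2 | h2
      · exact absurd h2 ((mem_rest.1 hr).2 j)
      · exact absurd h2 hne
      · rw [h2]
        exact ⟨h3.own0, h3.deg⟩
    · rcases (nbj.adj (a k)).1 h2.symm with h4 | h4 | h4
      · exact (mem_rest.1 (st.a_rest k hk)).2 j h4
      · exact hik (st.a_inj k i h4 hk).symm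
      · exact h3.na k h4.symm
  · have h2 := e3 _ x l b a hd j z hbj nbj.az h1
    rwa [h.du_du] at h2
  · have hpj : p ≠ j := by
      rintro rfl
      refine h.sol_ab hB hij hik hjk hi hj e1 false hwk ?_ (fun hk => ⟨by simp, fun _ h2 => ?_⟩)
      · intro z' hr hne hadj'
        rcases (nbj.adj z').1 hadj' with h2 | h2 | h2
        · exact absurd h2 ((mem_rest.1 hr).2 p)
        · exact absurd h2 hne
        · rw [h2, h1]
          exact ⟨st.own0_a hp, st.deg_a p hp⟩
      · rcases (nbj.adj (a k)).1 h2.symm with h3 | h3 | h3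
        · exact (mem_rest.1 (st.a_rest k hk)).2 p h3
        · exact hik (st.a_inj k i h3 hk).symm
        · rw [h1] at h3
          exact hjk (st.a_inj k p h3 hk).symm
    have hpi : p ≠ i := by
      rintro rfl
      exact nbj.yz h1.symm
    have hpk : p = k := by
      rcases three hij hik hjk p with h2 | h2 | h2
      · exact absurd h2 hpi
      · exact absurd h2 hpj
      · exact h2
    subst hpk
    subst h1
    have e3' : G.Adj (a p) (b j) := nbj.az.symm
    obtain ⟨y, nak⟩ := exists_nb23 G (st.deg_a p hp) (h.nb_l p hp).ay.symm e3' (lb p j hbj)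
    -- the third neighbour `y` of `a k`
    by_cases hyK : IsK G g x l a b y
    · exfalso
      have hcen := e3 g x l a b h p y hp nak.az hyK
      obtain ⟨hyr, gy⟩ := h.rest_of_nbr_a hp nak.az nak.xz.symm
      refine h.sol_abay hG hB hij hik hjk hi hj hp e1 e3' e2 nak.az hyr gy hyK.na hyK.nb ?_ ?_
      · intro z hz hyz gz hzne
        rcases hcen.leaf nak.az with h2 | ⟨m, t, hnb, h2, h3, h4, h5, h6, -⟩
        · exact absurd ((pend_adj G h2 nak.az.symm z).1 hyz) hzne
        · have hzt : z = t := by
            rcases (hnb.adj z).1 hyz with h7 | h7 | h7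
            · exact absurd h7 hzne
            · -- `m` has colour `false`
              exfalso
              rw [← h7, du_rest hz, gz] at h2
              exact absurd h2 (by decide)
            · exact h7
          subst hzt
          refine ⟨?_, h5⟩
          rw [ownIn, card_eq_zero, filter_eq_empty_iff]
          rintro w hw ⟨h8, h9⟩
          have h10 := h6 w h8
          rw [du_rest hw, h9, gz] at h10
          exact absurd h10 (by decide)
      · rcases hyK.k with h2 | ⟨m, hm, h2, h3⟩
        · exact Or.inl h2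
        · exact Or.inr ⟨m, hm, h2, h3⟩
    · -- `b j` is a centre
      have hy0 : G.degree y = 3 ∧ ∀ z, G.Adj y z → g z = true := by
        rcases h.nbr_a hG hp nak.az nak.xz.symm with h2 | h2 | ⟨q, hq, h2⟩
        · refine ⟨h2.deg, fun z hz => ?_⟩
          obtain ⟨hyr, gy⟩ := h.rest_of_nbr_a hp nak.az nak.xz.symm
          rcases st.cases z with rfl | ⟨r, rfl⟩ | hzr
          · exfalso
            obtain ⟨r, hr⟩ := (st.nx y).1 hz.symm
            exact (mem_rest.1 hyr).2 r hr
          · exact h.gl r
          · have h3 := h2.own z hzr hz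
            rw [gy] at h3
            cases h4 : g z
            · exact absurd h4 h3
            · rfl
        · exact absurd h2 hyK
        · rw [h2]
          exact ⟨st.deg_b q hq, fun z hz => h.b_all q hq hz⟩
      refine ⟨![l j, a i, a p], ![a j, l i, l p], ![x, b p, y], ?_⟩
      refine Fr.of_nbrs hC h.valid h.sum h.en (st.cb j hbj) ?_ ?_ ?_ ?_ ?_
      · intro v
        rw [nbj.adj, Fin.exists_fin_succ, Fin.exists_fin_two]
        rfl
      · intro r s hrs
        fin_cases r <;> fin_cases s <;> simp at hrs ⊢
        · exact nbj.xy hrs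
        · exact nbj.xz hrs
        · exact nbj.xy hrs.symm
        · exact nbj.yz hrs
        · exact nbj.xz hrs.symm
        · exact nbj.yz hrs.symm
      · intro r
        fin_cases r
        · exact h.gl j
        · exact st.ca i hi
        · exact st.ca p hp
      · intro r
        right
        fin_cases r
        · refine ⟨st.a_ne_b' j hj j, Ne.symm hbj, fun v => ?_, st.ca j hj, h.gx, st.deg_a j hj,
            st.deg_x, fun w hw => h.nbr hw⟩
          simp only [Fin.zero_eta, Matrix.cons_val_zero]
          rw [(h.nb_l j hj).adj]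
          tauto
        · refine ⟨lb i j hbj, fun h' => hjk (st.b_inj p j h' hbk).symm, fun v => ?_, h.gl i,
            st.cb p hbk, st.deg_l i hi, st.deg_b p hbk, fun w hw => h.b_all p hbk hw⟩
          simp only [Fin.mk_one, Matrix.cons_val_one, Matrix.cons_val_zero]
          rw [nai.adj]
          tauto
        · refine ⟨lb p j hbj, nak.yz.symm, fun v => ?_, h.gl p,
            ?_, st.deg_l p hp, hy0.1, fun w hw => hy0.2 w hw⟩
          · simp only [Fin.reduceFinMk, Matrix.cons_val]
            rw [nak.adj]
            tauto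
          · exact (h.rest_of_nbr_a hp nak.az nak.xz.symm).2
      · have n1 := st.l_inj
        intro r s
        fin_cases r <;> fin_cases s <;> simp
        · exact fun h' => la j j hj h'.symm
        · exact fun h' => hij (st.a_inj j i h' hj).symm
        · exact fun h' => hjk (st.a_inj j p h' hj)
        · exact fun h' => hij (n1 h')
        · exact la i i hi
        · exact la i p hp
        · exact fun h' => hjk (n1 h').symm
        · exact la p i hi
        · exact la p p hp

end Pool.Agent.BLN
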